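import Pool.Agent.Work.MP_e120ef_ag.Der
import Pool.Agent.Work.MP_e120ef_ag.H.Gauss
import Mathlib

attribute [-instance] Subalgebra.normedCommRing Subalgebra.seminormedCommRing
  Subalgebra.seminormedRing Subalgebra.normedRing
  Localization.subalgebra.instIsFractionRingSubtypeMemSubalgebra
attribute [local instance 2000] RingHomClass.toAddMonoidHomClass AddMonoidHomClass.toAddHomClass
  RingHom.instRingHomClass AlgHomClass.toRingHomClass IsDomain.to_noZeroDivisors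
  IsDomain.toNontrivial NeZero.one RingHomClass.toMonoidHomClass MonoidHomClass.toMulHomClass
  RingHomClass.toMonoidWithZeroHomClass AddMonoidHomClass.toZeroHomClass MonoidHomClass.toOneHomClass
attribute [-instance] instCharZeroOfIsSemireal AlgHom.instContinuousLinearMapClassOfAlgHomClass
  RingHomClass.toLinearMapClassRat RingHomClass.toLinearMapClassNNRat NumberField.to_charZero

-- merged part: Pool.Agent.Work.MP_e120ef_ag.F.T1
section
-- merged part: Pool.Agent.Work.MP_e120ef_ag.F.Base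
section
/-!
# Definitions for the local theory: absolute values, tame points, frames
-/

namespace Pool.Agent.Work.MP_e120ef_ag.H.MQ

/-- ultrametric absolute values of residue characteristic zero -/
structure UV (M : Type) [Field M] where
  v : AbsoluteValue M ℝ
  na : ∀ a b, v (a + b) ≤ max (v a) (v b)
  nat : ∀ n : ℕ, n ≠ 0 → v n = 1

instance (M : Type) [Field M] : CoeFun (UV M) fun _ => M → ℝ := ⟨fun v => v.v⟩

namespace UV

variable {M : Type} [Field M] (v : UV M)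

theorem nonneg (a : M) : 0 ≤ v a := v.v.nonneg a
@[simp] theorem zero : v 0 = 0 := map_zero v.v
@[simp] theorem one : v 1 = 1 := map_one v.v
theorem mul (a b : M) : v (a * b) = v a * v b := map_mul v.v a b
theorem pow (a : M) (n : ℕ) : v (a ^ n) = v a ^ n := map_pow v.v a n
theorem zpow (a : M) (n : ℤ) : v (a ^ n) = v a ^ n := map_zpow₀ v.v a n
theorem inv (a : M) : v a⁻¹ = (v a)⁻¹ := map_inv₀ v.v a
theorem div (a b : M) : v (a / b) = v a / v b := map_div₀ v.v a b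
theorem neg (a : M) : v (-a) = v a := v.v.map_neg a
theorem sub_comm (a b : M) : v (a - b) = v (b - a) := v.v.map_sub a b
theorem eq_zero {a : M} : v a = 0 ↔ a = 0 := v.v.eq_zero
theorem pos {a : M} (h : a ≠ 0) : 0 < v a := v.v.pos h
theorem ne_zero_of_pos {a : M} (h : 0 < v a) : a ≠ 0 := v.v.pos_iff.1 h
theorem prod {ι : Type} (s : Finset ι) (f : ι → M) : v (∏ i ∈ s, f i) = ∏ i ∈ s, v (f i) :=
  map_prod v.v f s

theorem sub_le (a b : M) : v (a - b) ≤ max (v a) (v b) := by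
  rw [sub_eq_add_neg, ← v.neg b]
  exact v.na a (-b)

theorem add_le {a b : M} {r : ℝ} (ha : v a ≤ r) (hb : v b ≤ r) : v (a + b) ≤ r :=
  (v.na a b).trans (max_le ha hb)

theorem add_lt {a b : M} {r : ℝ} (ha : v a < r) (hb : v b < r) : v (a + b) < r :=
  (v.na a b).trans_lt (max_lt ha hb)

theorem sub_le' {a b : M} {r : ℝ} (ha : v a ≤ r) (hb : v b ≤ r) : v (a - b) ≤ r :=
  (v.sub_le a b).trans (max_le ha hb)

theorem sub_lt {a b : M} {r : ℝ} (ha : v a < r) (hb : v b < r) : v (a - b) < r :=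
  (v.sub_le a b).trans_lt (max_lt ha hb)

theorem tri_le {a c : M} (b : M) {r : ℝ} (h : v (a - b) ≤ r) (h' : v (b - c) ≤ r) :
    v (a - c) ≤ r := by
  have := v.add_le h h'
  rwa [sub_add_sub_cancel] at this

theorem tri_lt {a c : M} (b : M) {r : ℝ} (h : v (a - b) < r) (h' : v (b - c) < r) :
    v (a - c) < r := by
  have := v.add_lt h h'
  rwa [sub_add_sub_cancel] at this

theorem add_eq_left {a b : M} (h : v b < v a) : v (a + b) = v a := by
  refine le_antisymm (v.add_le le_rfl h.le) (not_lt.1 fun h1 => ?_)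
  have := v.sub_lt h1 h
  rw [add_sub_cancel_right] at this
  exact lt_irrefl _ this

theorem add_eq_right {a b : M} (h : v a < v b) : v (a + b) = v b := by
  rw [add_comm, v.add_eq_left h]

theorem sub_eq_left {a b : M} (h : v b < v a) : v (a - b) = v a := by
  rw [sub_eq_add_neg, v.add_eq_left (by rwa [v.neg])]

theorem sub_eq_right {a b : M} (h : v a < v b) : v (a - b) = v b := by
  rw [v.sub_comm, v.sub_eq_left h]

theorem sum_le {ι : Type} (s : Finset ι) {f : ι → M} {r : ℝ} (hr : 0 ≤ r)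
    (h : ∀ i ∈ s, v (f i) ≤ r) : v (∑ i ∈ s, f i) ≤ r :=
  Finset.sum_induction f (fun a => v a ≤ r) (fun _ _ => v.add_le) (by simpa using hr) h

theorem sum_lt {ι : Type} (s : Finset ι) {f : ι → M} {r : ℝ} (hr : 0 < r)
    (h : ∀ i ∈ s, v (f i) < r) : v (∑ i ∈ s, f i) < r :=
  Finset.sum_induction f (fun a => v a < r) (fun _ _ => v.add_lt) (by simpa using hr) h

theorem nat_le (n : ℕ) : v n ≤ 1 := by
  rcases eq_or_ne n 0 with rfl | h
  · simp
  · exact (v.nat n h).le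

include v in
theorem charZero : CharZero M := charZero_of_inj_zero fun n h => by
  by_contra hne
  have h1 := v.nat n hne
  rw [h, v.zero] at h1
  exact zero_ne_one h1

theorem int {n : ℤ} (h : n ≠ 0) : v n = 1 := by
  rcases Int.natAbs_eq n with h1 | h1
  · rw [h1, Int.cast_natCast, v.nat _ (Int.natAbs_ne_zero.2 h)]
  · rw [h1, Int.cast_neg, Int.cast_natCast, v.neg, v.nat _ (Int.natAbs_ne_zero.2 h)]

theorem rat {q : ℚ} (h : q ≠ 0) : v q = 1 := by
  rw [Rat.cast_def, v.div, v.int (Rat.num_ne_zero.2 h), v.nat _ q.den_ne_zero, div_one]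

theorem rat_le (q : ℚ) : v q ≤ 1 := by
  rcases eq_or_ne q 0 with rfl | h
  · simp
  · exact (v.rat h).le

theorem rat_eq {q r : ℚ} (h : v ((q : M) - r) < 1) : q = r := by
  have := v.charZero
  by_contra hne
  rw [← Rat.cast_sub, v.rat (sub_ne_zero.2 hne)] at h
  exact lt_irrefl _ h

/-- `f` and `g` have the same leading term -/
def E (f g : M) : Prop := v (f - g) < v g

variable {v} {f g f' g' : M}

theorem E.ne_zero' (h : v.E f g) : g ≠ 0 := v.ne_zero_of_pos ((v.nonneg _).trans_lt h)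

theorem E.eq (h : v.E f g) : v f = v g := by
  have := v.add_eq_right h
  rwa [sub_add_cancel] at this

theorem E.ne_zero (h : v.E f g) : f ≠ 0 := v.ne_zero_of_pos (h.eq ▸ v.pos h.ne_zero')

theorem E.refl (h : g ≠ 0) : v.E g g := by
  rw [E, sub_self, v.zero]
  exact v.pos h

theorem E.symm (h : v.E f g) : v.E g f := by
  rw [E, v.sub_comm, h.eq]
  exact h

theorem E.trans (h : v.E f g) (h' : v.E g f') : v.E f f' :=
  v.tri_lt g (h'.eq ▸ h) h'

theorem E.mul (h : v.E f g) (h' : v.E f' g') : v.E (f * f') (g * g') := by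
  have e : f * f' - g * g' = (f - g) * f' + g * (f' - g') := by ring
  rw [E, e]
  refine v.add_lt ?_ ?_
  · rw [v.mul, v.mul, h'.eq]
    exact mul_lt_mul_of_pos_right h (v.pos h'.ne_zero')
  · rw [v.mul, v.mul]
    exact mul_lt_mul_of_pos_left h' (v.pos h.ne_zero')

theorem E.pow (h : v.E f g) (n : ℕ) : v.E (f ^ n) (g ^ n) := by
  induction n with
  | zero => simpa using E.refl one_ne_zero
  | succ n ih => simpa only [pow_succ] using ih.mul h

theorem E.inv (h : v.E f g) : v.E f⁻¹ g⁻¹ := by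
  have h1 := h.ne_zero
  have h2 := h.ne_zero'
  have e : f⁻¹ - g⁻¹ = (g - f) * (f⁻¹ * g⁻¹) := by field_simp
  rw [E, e, v.mul, v.mul, ← mul_assoc, v.sub_comm]
  refine mul_lt_of_lt_one_left (v.pos (inv_ne_zero h2)) ?_
  rw [v.inv, h.eq, ← div_eq_mul_inv]
  exact (div_lt_one (v.pos h2)).2 h

theorem E.div (h : v.E f g) (h' : v.E f' g') : v.E (f / f') (g / g') := by
  simpa only [div_eq_mul_inv] using h.mul h'.inv

theorem E.neg (h : v.E f g) : v.E (-f) (-g) := by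
  simpa using (E.refl (v := v) (neg_ne_zero.2 one_ne_zero)).mul h

theorem E.prod {ι : Type} (s : Finset ι) {a b : ι → M} (h : ∀ i ∈ s, v.E (a i) (b i)) :
    v.E (∏ i ∈ s, a i) (∏ i ∈ s, b i) := by
  classical
  induction s using Finset.induction_on with
  | empty => simpa using E.refl one_ne_zero
  | insert i s hi ih =>
    rw [Finset.prod_insert hi, Finset.prod_insert hi]
    exact (h i (Finset.mem_insert_self i s)).mul (ih fun j hj => h j (Finset.mem_insert_of_mem hj))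

theorem E_iff_div (hg : g ≠ 0) : v.E f g ↔ v (f / g - 1) < 1 := by
  rw [E, div_sub_one hg, v.div, div_lt_one (v.pos hg)]

/-- a sum of terms with the same leading term is not zero -/
theorem os {ι : Type} {s : Finset ι} (hs : s.Nonempty) {w : ι → M} (h : ∀ i ∈ s, v.E (w i) g) :
    ∑ i ∈ s, w i ≠ 0 := by
  intro h0
  obtain ⟨i, hi⟩ := hs
  have h1 := v.sum_lt s (v.pos (h i hi).ne_zero') h
  rw [Finset.sum_sub_distrib, h0, zero_sub, v.neg, Finset.sum_const, nsmul_eq_mul, v.mul,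
    v.nat _ (Finset.card_ne_zero.2 ⟨i, hi⟩), one_mul] at h1
  exact lt_irrefl _ h1

/-- roots of unity are distinct modulo the maximal ideal -/
theorem root_eq_one {n : ℕ} (hn : n ≠ 0) (h : f ^ n = 1) (h1 : v.E f 1) : f = 1 := by
  by_contra hne
  refine os (v := v) (s := Finset.range n) (g := 1) (w := fun i => f ^ i)
    ⟨0, Finset.mem_range.2 (Nat.pos_of_ne_zero hn)⟩ (fun i _ => by simpa using h1.pow i) ?_
  have := geom_sum_mul f n
  rw [h, sub_self] at this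
  exact (mul_eq_zero.1 this).resolve_right (sub_ne_zero.2 hne)

variable (v)

/-- the valuation ring -/
def ring : ValuationSubring M where
  carrier := {a | v a ≤ 1}
  mul_mem' := fun {a b} ha hb => by
    change v (a * b) ≤ 1
    rw [v.mul]
    exact mul_le_one₀ ha (v.nonneg b) hb
  one_mem' := v.one.le
  add_mem' := v.add_le
  zero_mem' := v.zero.trans_le zero_le_one
  neg_mem' := fun {a} ha => (v.neg a).trans_le ha
  mem_or_inv_mem' a := by
    rcases le_total (v a) 1 with h | h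
    · exact Or.inl h
    · exact Or.inr ((v.inv a).trans_le (inv_le_one_of_one_le₀ h))

theorem mem_ring {a : M} : a ∈ v.ring ↔ v a ≤ 1 := Iff.rfl

/-- pull-back along a field homomorphism -/
def comap {N : Type} [Field N] (φ : N →+* M) : UV N where
  v := v.v.comp φ.injective
  na a b := by
    change v (φ (a + b)) ≤ max (v (φ a)) (v (φ b))
    rw [map_add]
    exact v.na _ _
  nat n hn := by
    change v (φ n) = 1
    rw [map_natCast, v.nat n hn]

theorem comap_apply {N : Type} [Field N] (φ : N →+* M) (a : N) : v.comap φ a = v (φ a) := rfl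

end UV

/-- the limit of a family of valuation rings along an ultrafilter -/
def uring {M ι : Type} [Field M] (v : ι → UV M) (U : Ultrafilter ι) : ValuationSubring M where
  carrier := {a | ∀ᶠ n in (U : Filter ι), v n a ≤ 1}
  mul_mem' := fun {_ _} ha hb => (Filter.Eventually.and ha hb).mono fun n h =>
    (v n).ring.mul_mem _ _ h.1 h.2
  one_mem' := Filter.Eventually.of_forall fun n => (v n).one.le
  add_mem' := fun {_ _} ha hb => (Filter.Eventually.and ha hb).mono fun n h =>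
    (v n).add_le h.1 h.2
  zero_mem' := Filter.Eventually.of_forall fun n => (v n).ring.zero_mem
  neg_mem' := fun {a} ha => Filter.Eventually.mono ha fun n h => ((v n).neg a).trans_le h
  mem_or_inv_mem' a := (U.em fun n => v n a ≤ 1).imp id fun h => h.mono fun n hn =>
    ((v n).ring.mem_or_inv_mem a).resolve_left hn

theorem mem_uring {M ι : Type} [Field M] {v : ι → UV M} {U : Ultrafilter ι} {a : M} :
    a ∈ uring v U ↔ ∀ᶠ n in (U : Filter ι), v n a ≤ 1 := Iff.rfl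

/-- Leibniz rule for an additive map -/
def Lb {M : Type} [Field M] (d : M →+ M) : Prop := ∀ a b, d (a * b) = a * d b + b * d a

/-- `f` can be approximated by elements of `A` for all the absolute values of `V` at once -/
def Apx {M : Type} [Field M] (V : Set (UV M)) (A : Set M) (f : M) : Prop :=
  ∀ ε : ℝ, 0 < ε → ∃ p ∈ A, ∀ v ∈ V, v (f - p) < ε

/-- a compatible system of rational powers of `x` -/
structure Pw {M : Type} [Field M] (x : M) (E : ℚ → M) : Prop where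
  add : ∀ q r, E (q + r) = E q * E r
  zero : E 0 = 1
  one : E 1 = x

variable (K M : Type) [Field K] [Field M] [Algebra K M]

variable {K M} in
/-- tame points -/
structure TP (pd : Derivation K M M) where
  v : UV M
  g : M
  sig : M → ℚ
  Res : M →ₗ[K] K
  sig_mul : ∀ {f f' : M}, f ≠ 0 → f' ≠ 0 → sig (f * f') = sig f + sig f'
  sig_alg : ∀ c, sig (algebraMap K M c) = 0
  sig_congr : ∀ {f f' : M}, v f = v f' → sig f = sig f'
  lt : ∀ {f : M}, f ≠ 0 → sig f = 0 → ∃ c, v.E f (algebraMap K M c)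
  ld : ∀ {f : M}, f ≠ 0 → v (g * pd f - sig f * f) < v f
  ba : ∀ f : M, ∃ c, f = algebraMap K M c ∨ sig (f - algebraMap K M c) ≠ 0
  res_d : ∀ f, Res (pd f) = 0
  res_log : ∀ {f : M}, f ≠ 0 → Res (pd f / f) = sig f
  res_le : ∀ f, v (algebraMap K M (Res f)) ≤ v (g * f)

/-- frames: coordinates `x`, `y`, the vector field `pd` of the foliation and `dy = ∂/∂y` -/
structure Fm where
  x : M
  y : M
  pd : Derivation K M M
  dy : Derivation K M M
  basis : IsTranscendenceBasis K ![x, y]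
  pd_x : pd x = 1
  dy_x : dy x = 0
  dy_y : dy y = 1

variable {K M}

namespace Fm

variable (𝔉 : Fm K M)

/-- the field `K(x)` -/
def Kx : Subfield M := (IntermediateField.adjoin K {𝔉.x}).toSubfield

/-- the algebraic closure of `K(x)` -/
noncomputable def F : Subfield M := (algebraicClosure 𝔉.Kx M).toSubfield

/-- the slope of the foliation -/
def G : M := 𝔉.pd 𝔉.y

/-- the divergence of `pd` -/
def Δ : M := 𝔉.dy 𝔉.G

/-- Taylor coefficients of `ψ` at scale `e` are bounded by `C` -/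
def Bd (v : UV M) (e ψ : M) (C : ℝ) : Prop := ∀ j, v (𝔉.dy^[j] ψ * e ^ j) ≤ C

/-- `ψ` has no zero, pole or branch point outside `S` -/
def Tm (S : Finset M) (ψ : M) : Prop :=
  ∀ (v : UV M) (e : M), (∀ β ∈ S, v e ≤ v (𝔉.y - β)) → 𝔉.Bd v e ψ (v ψ)

/-- a specialisation `y ↦ b` over `F` -/
structure Sp (b : M) where
  R : Subring M
  sp : M → M
  add : ∀ {f g : M}, f ∈ R → g ∈ R → sp (f + g) = sp f + sp g
  mul : ∀ {f g : M}, f ∈ R → g ∈ R → sp (f * g) = sp f * sp g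
  memF : ∀ {f : M}, f ∈ 𝔉.F → f ∈ R
  spF : ∀ {f : M}, f ∈ 𝔉.F → sp f = f
  mem_y : 𝔉.y ∈ R
  sp_y : sp 𝔉.y = b
  sp_mem : ∀ {f : M}, f ∈ R → sp f ∈ 𝔉.F

variable {𝔉} in
/-- the specialisation is the sum of the Taylor series for `v`, at scale `e` -/
structure Sp.Est {b : M} (t : 𝔉.Sp b) (v : UV M) (e : M) : Prop where
  one : ∀ {ψ : M} {C : ℝ}, 𝔉.Bd v e ψ C → ψ ∈ t.R ∧ v (t.sp ψ - ψ) * v e ≤ C * v (b - 𝔉.y)
  two : ∀ {ψ : M} {C : ℝ}, 𝔉.Bd v e (𝔉.dy ψ) C →
    ψ ∈ t.R ∧ v (t.sp ψ - ψ - 𝔉.dy ψ * (b - 𝔉.y)) * v e ≤ C * v (b - 𝔉.y) ^ 2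

/-- the sheets of `G`: its conjugates over `K(x, y)` and a singular set -/
structure SD where
  n : ℕ
  Gs : Fin (n + 1) → M
  P : Polynomial (Polynomial M)
  S : Finset M
  inj : Function.Injective Gs
  Gs_zero : Gs 0 = 𝔉.G
  coeff_mem : ∀ i j, (P.coeff i).coeff j ∈ 𝔉.Kx
  deg : P.natDegree ≤ n + 1
  lead : (P.coeff (n + 1)).eval 𝔉.y ≠ 0
  root : ∀ i, P.eval₂ (Polynomial.evalRingHom 𝔉.y) (Gs i) = 0
  ne : S.Nonempty
  memF : ∀ β ∈ S, β ∈ 𝔉.F
  tm_lead : 𝔉.Tm S ((P.coeff (n + 1)).eval 𝔉.y)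
  tm_G : ∀ i, 𝔉.Tm S (Gs i)
  tm_sub : ∀ i j, 𝔉.Tm S (Gs i - Gs j)
  tm_Δ : 𝔉.Tm S 𝔉.Δ

/-- `τ` fixes `K(x)` and carries the valuation ring of `v` in `F` to that of `v'` -/
structure Car (v v' : UV M) (τ : M ≃ₐ[K] M) : Prop where
  fix : τ 𝔉.x = 𝔉.x
  ring : ∀ f ∈ 𝔉.F, v f ≤ 1 ↔ v' (τ f) ≤ 1

end Fm

end Pool.Agent.Work.MP_e120ef_ag.H.MQ
end

-- merged part: Pool.Agent.Work.MP_e120ef_ag.F.Base2
section
/-! # Normalised tame points -/

namespace Pool.Agent.Work.MP_e120ef_ag.H.MQ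

variable {K M : Type} [Field K] [Field M] [Algebra K M]

/-- a tame point with a best constant approximation `x₀` of `x` -/
structure NP (𝔉 : Fm K M) extends TP 𝔉.pd where
  x₀ : K
  ne : sig (𝔉.x - algebraMap K M x₀) ≠ 0

variable {𝔉 : Fm K M}

/-- the local coordinate -/
def NP.X (p : NP 𝔉) : M := 𝔉.x - algebraMap K M p.x₀

/-- its slope -/
def NP.a (p : NP 𝔉) : ℚ := p.sig p.X

theorem NP.a_ne (p : NP 𝔉) : p.a ≠ 0 := p.ne

/-- `b` is closer to `y` than all points of `S` -/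
def Fm.In (𝔉 : Fm K M) (v : UV M) (S : Finset M) (b : M) : Prop :=
  ∀ β ∈ S, v (b - 𝔉.y) < v (𝔉.y - β)

/-- `N` kills all denominators attached to the sheets -/
structure NP.Den (p : NP 𝔉) (D : 𝔉.SD) (N : ℕ) : Prop where
  ne : N ≠ 0
  per : ∀ β ∈ D.S, ∀ τ : M ≃ₐ[K] M, τ 𝔉.x = 𝔉.x → (τ ^ N) β = β
  dist : ∀ β ∈ D.S, ∃ z : ℤ, N * p.sig (𝔉.y - β) = z * p.a
  sub : ∀ i j, ∃ z : ℤ, N * p.sig (D.Gs i - D.Gs j) = z * p.a
  kap : ∀ q : ℚ, p.v (p.X * 𝔉.Δ - q) < 1 → ∃ z : ℤ, N * q = z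

/-- along the ultrafilter either `x` itself has nonzero slope, or all slopes vanish -/
def AB {ι : Type} (U : Ultrafilter ι) (p : ι → NP 𝔉) : Prop :=
  (∀ n, (p n).x₀ = 0) ∨ ∀ f, ∀ᶠ n in (U : Filter ι), (p n).sig f = 0

/-- `b` is a best approximation of `y` -/
def Best {ι : Type} (U : Ultrafilter ι) (p : ι → NP 𝔉) (b : M) : Prop :=
  b ∈ 𝔉.F ∧ ∀ β ∈ 𝔉.F, ∀ᶠ n in (U : Filter ι), (p n).v (𝔉.y - b) ≤ (p n).v (𝔉.y - β)

end Pool.Agent.Work.MP_e120ef_ag.H.MQ
end

-- merged part: Pool.Agent.Work.MP_e120ef_ag.F.Dr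
section
/-!
# Additive maps with the Leibniz rule

Plans.  `Lb.eval`: induction on `p` (`Polynomial.induction_on'`), `Lb.pow`.  For `f` algebraic over `N₀` take `p = (minpoly N₀ f).map N₀.subtype`; it has coefficients in `N₀`, `p.eval f = 0` and `p.derivative.eval f ≠ 0` (characteristic zero: `Irreducible.separable`, `Polynomial.Separable.aeval_derivative_ne_zero`): this is `Dr_min`.  The last three lemmas solve `Lb.eval` for `d f`; for `Lb.comm` apply `Lb.eval` also to `p.map σ` at `σ f`.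
-/

open Polynomial

namespace Pool.Agent.Work.MP_e120ef_ag.H.MQ

variable {M : Type} [Field M] {d : M →+ M}

/-- a derivation as an additive map -/
def dA {K : Type} [CommRing K] [Algebra K M] (D : Derivation K M M) : M →+ M :=
  D.toLinearMap.toAddMonoidHom

theorem dA_apply {K : Type} [CommRing K] [Algebra K M] (D : Derivation K M M) (a : M) :
    dA D a = D a := rfl

theorem dA_coe {K : Type} [CommRing K] [Algebra K M] (D : Derivation K M M) :
    (dA D : M → M) = D := rfl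

theorem lb_dA {K : Type} [CommRing K] [Algebra K M] (D : Derivation K M M) : Lb (dA D) :=
  fun a b => D.leibniz a b

theorem Lb.one (h : Lb d) : d 1 = 0 := by
  have := h 1 1
  simp only [one_mul] at this
  exact left_eq_add.1 this

theorem Lb.nat (h : Lb d) (n : ℕ) : d n = 0 := by
  rw [← nsmul_one, map_nsmul, h.one, nsmul_zero]

theorem Lb.pow (h : Lb d) (a : M) (n : ℕ) : d (a ^ n) = n * a ^ (n - 1) * d a := by
  induction n with
  | zero => simp [h.one]
  | succ n ih =>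
    rw [pow_succ, h, ih]
    rcases n with _ | n
    · simp
    · simp only [Nat.add_sub_cancel]
      push_cast
      ring

theorem Lb.inv (h : Lb d) (a : M) : d a⁻¹ = -(a⁻¹ ^ 2) * d a := by
  by_cases ha : a = 0
  · simp [ha]
  have := h a a⁻¹
  rw [mul_inv_cancel₀ ha, h.one] at this
  field_simp
  field_simp at this
  linear_combination -this

theorem Lb.log_mul (h : Lb d) {a b : M} (ha : a ≠ 0) (hb : b ≠ 0) :
    d (a * b) / (a * b) = d a / a + d b / b := by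
  rw [h]
  field_simp
  ring

theorem Lb.log_inv (h : Lb d) (a : M) : d a⁻¹ / a⁻¹ = -(d a / a) := by
  by_cases ha : a = 0
  · simp [ha]
  rw [h.inv]
  field_simp

theorem Lb.log_zpow (h : Lb d) (a : M) (n : ℤ) : d (a ^ n) / a ^ n = n * (d a / a) := by
  have key : ∀ k : ℕ, d (a ^ k) / a ^ k = k * (d a / a) := fun k => by
    by_cases ha : a = 0
    · rcases k with _ | k
      · simp [h.one]
      · simp [ha]
    rw [h.pow]
    rcases k with _ | k
    · simp
    · simp only [Nat.add_sub_cancel]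
      field_simp
      ring
  cases n with
  | ofNat k => simpa using key k
  | negSucc k =>
    rw [zpow_negSucc, h.log_inv, key, Int.cast_negSucc, neg_mul]

theorem Lb.eval (h : Lb d) (p : M[X]) (f : M) :
    d (p.eval f) = (p.sum fun i c => d c * f ^ i) + p.derivative.eval f * d f := by
  induction p using Polynomial.induction_on' with
  | add p q hp hq =>
    rw [eval_add, map_add, hp, hq, derivative_add, eval_add,
      sum_add_index p q _ (fun i => by simp) fun i a b => by rw [map_add, add_mul]]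
    ring
  | monomial n c =>
    rw [eval_monomial, h, h.pow, sum_monomial_index _ _ (by simp), derivative_monomial,
      eval_monomial]
    ring

/-- the Leibniz formula for iterates -/
theorem Lb.iter (h : Lb d) (a b : M) (n : ℕ) : d^[n] (a * b) =
    ∑ i ∈ Finset.range (n + 1), (n.choose i : M) * (d^[i] a * d^[n - i] b) := by
  induction n with
  | zero => simp
  | succ n ih =>
    rw [Function.iterate_succ_apply', ih, map_sum,
      Finset.sum_choose_succ_mul (fun i j => d^[i] a * d^[j] b), ← Finset.sum_add_distrib]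
    refine Finset.sum_congr rfl fun i hi => ?_
    have hi' : n + 1 - i = n - i + 1 := by
      have := Finset.mem_range.1 hi
      omega
    rw [h, h.nat, h, hi', Function.iterate_succ_apply', Function.iterate_succ_apply']
    ring

variable [CharZero M]

theorem Dr_min {N₀ : Subfield M} {f : M} (hf : IsAlgebraic N₀ f) : ∃ p : M[X],
    (∀ i, p.coeff i ∈ N₀) ∧ p.Monic ∧ p.eval f = 0 ∧ p.derivative.eval f ≠ 0 := by
  have hi := hf.isIntegral
  refine ⟨(minpoly N₀ f).map (algebraMap N₀ M), fun i => ?_, (minpoly.monic hi).map _, ?_, ?_⟩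
  · rw [coeff_map]
    exact ((minpoly N₀ f).coeff i).2
  · rw [eval_map_algebraMap, minpoly.aeval]
  · rw [derivative_map, eval_map_algebraMap]
    exact (minpoly.irreducible hi).separable.aeval_derivative_ne_zero (minpoly.aeval _ _)

theorem Lb.mem_of_alg (h : Lb d) {N₀ L : Subfield M} (hle : N₀ ≤ L) (hd : ∀ a ∈ N₀, d a ∈ L)
    {f : M} (hL : f ∈ L) (hf : IsAlgebraic N₀ f) : d f ∈ L := by
  obtain ⟨p, h1, -, h2, h3⟩ := Dr_min hf
  have e := h.eval p f
  rw [h2, map_zero] at e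
  have e' : d f = -(p.sum fun i c => d c * f ^ i) / p.derivative.eval f := by
    rw [eq_div_iff h3]
    linear_combination -e
  rw [e']
  refine div_mem (neg_mem (sum_mem fun i _ => mul_mem (hd _ (h1 i)) (pow_mem hL i))) ?_
  rw [eval_eq_sum]
  refine sum_mem fun i _ => mul_mem ?_ (pow_mem hL i)
  rw [coeff_derivative]
  exact mul_mem (hle (h1 _)) (add_mem (natCast_mem L i) (one_mem L))

theorem Lb.zero_of_alg (h : Lb d) {N₀ : Subfield M} (hd : ∀ a ∈ N₀, d a = 0) {f : M}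
    (hf : IsAlgebraic N₀ f) : d f = 0 := by
  obtain ⟨p, h1, -, h2, h3⟩ := Dr_min hf
  have e := h.eval p f
  rw [h2, map_zero, Polynomial.sum, Finset.sum_eq_zero fun i _ => by rw [hd _ (h1 i), zero_mul],
    zero_add] at e
  exact (mul_eq_zero.1 e.symm).resolve_left h3

theorem Lb.comm (h : Lb d) {N₀ : Subfield M} (σ : M →+* M) (hσ : ∀ a ∈ N₀, d (σ a) = σ (d a))
    {f : M} (hf : IsAlgebraic N₀ f) : d (σ f) = σ (d f) := by
  obtain ⟨p, h1, -, h2, h3⟩ := Dr_min hf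
  have e := congrArg σ (h.eval p f)
  have e' := h.eval (p.map σ) (σ f)
  rw [h2, map_zero, map_zero, map_add, map_mul] at e
  rw [derivative_map, eval_map_apply, eval_map_apply, h2, map_zero, map_zero] at e'
  have e1 : ((p.map σ).sum fun i c => d c * σ f ^ i) = σ (p.sum fun i c => d c * f ^ i) := by
    rw [Polynomial.sum, Polynomial.sum, map_sum, support_map_of_injective p σ.injective]
    exact Finset.sum_congr rfl fun i _ => by rw [coeff_map, hσ _ (h1 i), map_mul, map_pow]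
  rw [e1, e] at e'
  exact (mul_left_cancel₀ ((map_ne_zero σ).2 h3) (add_left_cancel e')).symm

/-- a field generated by `s` is mapped into `L` as soon as `s` is -/
theorem Lb.mem_closure (h : Lb d) {s : Set M} {L : Subfield M} (hs : s ⊆ L)
    (hd : ∀ a ∈ s, d a ∈ L) {f : M} (hf : f ∈ Subfield.closure s) : d f ∈ L := by
  have hle : Subfield.closure s ≤ L := Subfield.closure_le.2 hs
  induction hf using Subfield.closure_induction with
  | mem x hx => exact hd x hx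
  | one => rw [h.one]; exact zero_mem L
  | add x y _ _ h1 h2 => rw [map_add]; exact add_mem h1 h2
  | neg x _ h1 => rw [map_neg]; exact neg_mem h1
  | inv x hx h1 => rw [h.inv]; exact mul_mem (neg_mem (pow_mem (inv_mem (hle hx)) 2)) h1
  | mul x y hx hy h1 h2 => rw [h]; exact add_mem (mul_mem (hle hx) h2) (mul_mem (hle hy) h1)

end Pool.Agent.Work.MP_e120ef_ag.H.MQ
end

-- merged part: Pool.Agent.Work.MP_e120ef_ag.F.HC
section
/-!
# A henselian subfield containing all leading terms is algebraically closed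

Plan for `hc`.  Let `L` be the splitting field in `M` of the minimal polynomial of `f` over `R` (`IntermediateField.adjoin R (rootSet ..)`, finite Galois), `G` its group, `f' = f - (card G)⁻¹ ∑_σ σ f`.  Suppose `f' ≠ 0`.  Let `s` be the orbit of `f'`, `g ∈ s` of maximal valuation, `r ∈ R` its leading term (`lt`), `w ψ = ψ / r - 1 ∈ 𝒪` for `ψ ∈ s`, `I = {ψ ∈ s | valuation (w ψ) < 1}`; `g ∈ I`, and `I ≠ s` because `∑_σ σ f' = 0` and `card G` is a unit.
`u = ∏_{ψ ∈ s \ I} w ψ` is a unit of `𝒪`; `σ u = u` if `σ I = I`, and `valuation (σ u) < 1` otherwise.  With `r' ∈ R` the leading term of `u`, `t = u - r'` has valuation `< 1`, its other conjugates are units.  `Q = ∏ (X - t')` over the orbit of `t` has coefficients in `R` and in `𝒪`, `Q.coeff 1` is a unit; divide by it and apply `hen`: `t ∈ R`.  So `σ u = u`, `σ I = I` for all `σ`, and `I = s` by transitivity.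
-/

open Polynomial

namespace Pool.Agent.Work.MP_e120ef_ag.H.MQ

variable {M : Type} [Field M]

theorem HC_lt (𝒪 : ValuationSubring M) {a : M} (ha : a ≠ 0) (b : M) :
    𝒪.valuation a < 𝒪.valuation b ↔ b / a ∉ 𝒪 := by
  rw [← 𝒪.valuation_le_one_iff, map_div₀,
    div_le_one₀ (zero_lt_iff.2 ((_root_.map_ne_zero _).2 ha)), not_le]

theorem HC_lt0 (𝒪 : ValuationSubring M) (b : M) : 𝒪.valuation 0 < 𝒪.valuation b ↔ b ≠ 0 := by
  rw [map_zero, zero_lt_iff, _root_.map_ne_zero]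

theorem HC_v0 (v : UV M) (b : M) : v 0 < v b ↔ b ≠ 0 := by
  rw [v.zero]
  exact ⟨v.ne_zero_of_pos, v.pos⟩

theorem HC_v (v : UV M) {a : M} (ha : a ≠ 0) (b : M) : ¬ v (b / a) ≤ 1 ↔ v a < v b := by
  rw [v.div, div_le_one (v.pos ha), not_le]

theorem ring_lt (v : UV M) (a b : M) : v.ring.valuation a < v.ring.valuation b ↔ v a < v b := by
  rcases eq_or_ne a 0 with rfl | ha
  · rw [HC_lt0, HC_v0]
  · rw [HC_lt _ ha, v.mem_ring, HC_v v ha]

theorem uring_lt {ι : Type} (v : ι → UV M) (U : Ultrafilter ι) (a b : M) :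
    (uring v U).valuation a < (uring v U).valuation b ↔ ∀ᶠ n in (U : Filter ι), v n a < v n b := by
  rcases eq_or_ne a 0 with rfl | ha
  · simp only [HC_lt0, HC_v0, Filter.eventually_const]
  · simp only [HC_lt _ ha, mem_uring, ← Ultrafilter.eventually_not, HC_v _ ha]

section abs

variable {L G Γ : Type} [Field L] [Group G] [Fintype G] [MulSemiringAction G L]
  [LinearOrderedCommGroupWithZero Γ] (v : Valuation L Γ)

theorem HC_coef (s : Finset L) (h : ∀ a ∈ s, v a ≤ 1) (i : ℕ) :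
    v ((∏ a ∈ s, (X - C a)).coeff i) ≤ 1 := by
  refine Finset.prod_induction _ (fun P : L[X] => ∀ i, v (P.coeff i) ≤ 1) (fun P Q hP hQ i => ?_)
    (fun i => ?_) (fun a ha i => ?_) i
  · rw [coeff_mul]
    exact v.map_sum_le fun x _ => by rw [map_mul]; exact mul_le_one' (hP _) (hQ _)
  · rw [coeff_one]
    split_ifs <;> simp
  · rw [coeff_sub, coeff_X, coeff_C]
    refine v.map_sub_le ?_ ?_
    · split_ifs <;> simp
    · split_ifs
      · exact h a ha
      · simp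

theorem HC_hen
    (hen : ∀ (P : L[X]) (f : L), (∀ i, (∀ σ : G, σ • P.coeff i = P.coeff i) ∧ v (P.coeff i) ≤ 1) →
      P.coeff 1 = 1 → P.eval f = 0 → v f < 1 → ∀ σ : G, σ • f = f) {t : L} (ht : v t < 1)
    (h : ∀ σ : G, σ • t = t ∨ v (σ • t) = 1) : ∀ σ : G, σ • t = t := by
  classical
  obtain ⟨s, hs⟩ : ∃ s : Finset L, ∀ a, a ∈ s ↔ ∃ σ : G, σ • t = a :=
    ⟨Finset.univ.image fun σ : G => σ • t, fun a => by simp⟩
  have h0 : t ∈ s := (hs t).2 ⟨1, one_smul _ _⟩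
  have h1 : ∀ a ∈ s.erase t, v a = 1 := fun a ha => by
    obtain ⟨k1, k2⟩ := Finset.mem_erase.1 ha
    obtain ⟨σ, rfl⟩ := (hs a).1 k2
    exact (h σ).resolve_left k1
  have h2 : ∀ a ∈ s, v a ≤ 1 := fun a ha => by
    rcases eq_or_ne a t with rfl | k
    · exact ht.le
    · exact (h1 a (Finset.mem_erase.2 ⟨k, ha⟩)).le
  have h3 : ∀ (σ : G) i, σ • (∏ a ∈ s, (X - C a)).coeff i = (∏ a ∈ s, (X - C a)).coeff i :=
    fun σ i => by
      rw [← coeff_smul, Finset.smul_prod']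
      refine congrArg (coeff · i) (Finset.prod_equiv (MulAction.toPerm σ) (fun a => ?_)
        fun a _ => by rw [smul_sub, smul_X, smul_C, MulAction.toPerm_apply])
      rw [hs, hs, MulAction.toPerm_apply]
      exact ⟨fun ⟨τ, e⟩ => ⟨σ * τ, by rw [mul_smul, e]⟩,
        fun ⟨τ, e⟩ => ⟨σ⁻¹ * τ, by rw [mul_smul, e, inv_smul_smul]⟩⟩
  have h4 : v ((∏ a ∈ s, (X - C a)).coeff 1) = 1 := by
    have k1 : v ((∏ a ∈ s.erase t, (X - C a)).coeff 0) = 1 := by
      rw [coeff_zero_eq_eval_zero, eval_prod, map_prod]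
      exact Finset.prod_eq_one fun a ha => by simpa using h1 a ha
    rw [← Finset.mul_prod_erase s _ h0, coeff_X_sub_C_mul, v.map_sub_eq_of_lt_left, k1]
    rw [k1, map_mul]
    exact (mul_le_of_le_one_right' (HC_coef v _ (fun a ha => (h1 a ha).le) _)).trans_lt ht
  have h5 : (∏ a ∈ s, (X - C a)).coeff 1 ≠ 0 := fun e => by
    rw [e, map_zero] at h4
    exact zero_ne_one h4
  refine hen (C ((∏ a ∈ s, (X - C a)).coeff 1)⁻¹ * ∏ a ∈ s, (X - C a)) t (fun i => ⟨fun σ => ?_, ?_⟩)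
    ?_ ?_ ht
  · rw [coeff_C_mul, smul_mul', smul_inv'', h3, h3]
  · rw [coeff_C_mul, map_mul, map_inv₀, h4, inv_one, one_mul]
    exact HC_coef v s h2 i
  · rw [coeff_C_mul, inv_mul_cancel₀ h5]
  · rw [eval_mul, eval_prod]
    exact mul_eq_zero_of_right _ (Finset.prod_eq_zero h0 (by simp))

variable (hn : v (Fintype.card G : L) = 1)
  (lt : ∀ f : L, f ≠ 0 → ∃ r, (∀ σ : G, σ • r = r) ∧ v (f - r) < v f)
  (hen : ∀ (P : L[X]) (f : L), (∀ i, (∀ σ : G, σ • P.coeff i = P.coeff i) ∧ v (P.coeff i) ≤ 1) →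
    P.coeff 1 = 1 → P.eval f = 0 → v f < 1 → ∀ σ : G, σ • f = f)

include hn lt hen

theorem HC_zero {f : L} (h0 : ∑ τ : G, τ • f = 0) : f = 0 := by
  classical
  by_contra hf
  obtain ⟨σ0, -, hmax⟩ := Finset.exists_max_image Finset.univ (fun σ : G => v (σ • f))
    ⟨1, Finset.mem_univ _⟩
  have hg : σ0 • f ≠ 0 := fun e => hf ((smul_eq_zero_iff_eq σ0).1 e)
  obtain ⟨r, hr, h1⟩ := lt _ hg
  have hv : v r = v (σ0 • f) := v.map_eq_of_sub_lt (by rwa [v.map_sub_swap])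
  have hp : 0 < v r := hv ▸ zero_lt_iff.2 ((_root_.map_ne_zero _).2 hg)
  have hr0 : r ≠ 0 := (_root_.map_ne_zero _).1 hp.ne'
  obtain ⟨w, hw⟩ : ∃ w : G → L, ∀ σ, w σ = σ • f / r - 1 := ⟨_, fun _ => rfl⟩
  have w1 : ∀ σ, v (w σ) ≤ 1 := fun σ => by
    rw [hw]
    refine v.map_sub_le ?_ (map_one v).le
    rw [map_div₀, div_le_one₀ hp, hv]
    exact hmax σ (Finset.mem_univ _)
  have w0 : v (w σ0) < 1 := by rwa [hw, div_sub_one hr0, map_div₀, div_lt_one₀ hp, hv]
  have wm : ∀ τ σ : G, τ • w σ = w (τ * σ) := fun τ σ => by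
    rw [hw, hw, smul_sub, smul_one, div_eq_mul_inv, smul_mul', smul_inv'', hr, mul_smul,
      div_eq_mul_inv]
  obtain ⟨J, hJ⟩ : ∃ J : Finset G, ∀ σ, σ ∈ J ↔ v (w σ) = 1 :=
    ⟨Finset.univ.filter fun σ => v (w σ) = 1, fun σ => by simp⟩
  have hJ' : ∀ σ, σ ∉ J → v (w σ) < 1 := fun σ k => lt_of_le_of_ne (w1 σ) fun e => k ((hJ σ).2 e)
  obtain ⟨σ1, k1⟩ : J.Nonempty := by
    by_contra k
    have k2 : v (∑ σ, w σ) < 1 := v.map_sum_lt one_ne_zero fun σ _ => hJ' σ fun e => k ⟨σ, e⟩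
    simp only [hw] at k2
    rw [Finset.sum_sub_distrib, ← Finset.sum_div, h0, zero_div, zero_sub, v.map_neg,
      Finset.sum_const, Finset.card_univ, nsmul_one, hn] at k2
    exact lt_irrefl _ k2
  obtain ⟨u, hu⟩ : ∃ u, u = ∏ σ ∈ J, w σ := ⟨_, rfl⟩
  have u1 : v u = 1 := by
    rw [hu, map_prod]
    exact Finset.prod_eq_one fun σ k => (hJ σ).1 k
  have u2 : ∀ τ : G, τ • u = ∏ σ ∈ J, w (τ * σ) := fun τ => by
    rw [hu, Finset.smul_prod']
    exact Finset.prod_congr rfl fun σ _ => wm τ σ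
  have u3 : ∀ τ : G, (∀ σ ∈ J, τ * σ ∈ J) → τ • u = u := fun τ k => by
    rw [u2, hu, ← Finset.prod_image (s := J) (g := (τ * ·)) (mul_right_injective τ).injOn,
      Finset.eq_of_subset_of_card_le (Finset.image_subset_iff.2 k)
        (Finset.card_image_of_injective J (mul_right_injective τ)).ge]
  have u4 : ∀ τ : G, ∀ σ ∈ J, τ * σ ∉ J → v (τ • u) < 1 := fun τ σ k k' => by
    rw [u2, map_prod, ← Finset.mul_prod_erase J _ k]
    exact (mul_le_of_le_one_right' (Finset.prod_le_one' fun _ _ => w1 _)).trans_lt (hJ' _ k')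
  obtain ⟨r', hr', h2⟩ := lt u fun e => by
    rw [e, map_zero] at u1
    exact zero_ne_one u1
  have h3 : v r' = 1 := (v.map_eq_of_sub_lt (by rwa [v.map_sub_swap])).trans u1
  have h4 := HC_hen v hen (h2.trans_eq u1) (fun τ => by
    rw [smul_sub, hr']
    by_cases k : ∀ σ ∈ J, τ * σ ∈ J
    · exact Or.inl (by rw [u3 τ k])
    · obtain ⟨σ, k⟩ := not_forall.1 k
      obtain ⟨k2, k3⟩ := Classical.not_imp.1 k
      exact Or.inr ((v.map_sub_eq_of_lt_right ((u4 τ σ k2 k3).trans_eq h3.symm)).trans h3))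
    (σ0 * σ1⁻¹)
  rw [smul_sub, hr', sub_left_inj] at h4
  have h5 := u4 (σ0 * σ1⁻¹) σ1 k1 (by
    rw [inv_mul_cancel_right, hJ]
    exact w0.ne)
  rw [h4, u1] at h5
  exact lt_irrefl _ h5

theorem HC_abs (f : L) (σ : G) : σ • f = f := by
  have h1 : (Fintype.card G : L) ≠ 0 := fun e => by
    rw [e, map_zero] at hn
    exact zero_ne_one hn
  have h2 : ∀ σ : G, σ • ((Fintype.card G : L)⁻¹ * ∑ τ : G, τ • f) =
      (Fintype.card G : L)⁻¹ * ∑ τ : G, τ • f := fun σ => by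
    have k := map_natCast (MulSemiringAction.toRingHom G L σ) (Fintype.card G)
    rw [MulSemiringAction.toRingHom_apply] at k
    rw [smul_mul', smul_inv'', k, Finset.smul_sum, ← Equiv.sum_comp (Equiv.mulLeft σ) (· • f)]
    simp only [Equiv.coe_mulLeft, mul_smul]
  have h3 := HC_zero v hn lt hen (f := f - (Fintype.card G : L)⁻¹ * ∑ τ : G, τ • f) (by
    simp only [smul_sub, h2]
    rw [Finset.sum_sub_distrib, Finset.sum_const, Finset.card_univ, nsmul_eq_mul,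
      mul_inv_cancel_left₀ h1, sub_self])
  rw [sub_eq_zero.1 h3, h2]

end abs

theorem hc [IsAlgClosed M] [CharZero M] (𝒪 : ValuationSubring M)
    (hn : ∀ n : ℕ, (n : M)⁻¹ ∈ 𝒪) (R : Subfield M)
    (lt : ∀ f, f ≠ 0 → IsAlgebraic R f → ∃ r ∈ R, 𝒪.valuation (f - r) < 𝒪.valuation f)
    (hen : ∀ (P : M[X]) (f : M), (∀ i, P.coeff i ∈ R ∧ P.coeff i ∈ 𝒪) → P.coeff 1 = 1 →
      P.eval f = 0 → 𝒪.valuation f < 1 → f ∈ R) {f : M} (hf : IsAlgebraic R f) : f ∈ R := by
  classical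
  have hi := hf.isIntegral
  have := IntermediateField.adjoin_rootSet_isSplittingField (L := M) (p := minpoly R f)
    (IsAlgClosed.splits _)
  have hm : f ∈ IntermediateField.adjoin R ((minpoly R f).rootSet M) :=
    IntermediateField.subset_adjoin _ _
      ((mem_rootSet_of_ne (minpoly.ne_zero hi)).2 (minpoly.aeval R f))
  generalize IntermediateField.adjoin R ((minpoly R f).rootSet M) = L at this hm
  have := IsGalois.of_separable_splitting_field (E := L) (minpoly.irreducible hi).separable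
  have := IsSplittingField.finiteDimensional L (minpoly R f)
  have hfix : ∀ a : L, (∀ σ : L ≃ₐ[R] L, σ • a = a) ↔ (a : M) ∈ R := fun a =>
    (IsGalois.mem_range_algebraMap_iff_fixed a).symm.trans
      ⟨fun ⟨r, e⟩ => e ▸ r.2, fun h => ⟨⟨a, h⟩, rfl⟩⟩
  refine (hfix ⟨f, hm⟩).1 (HC_abs (𝒪.valuation.comap (algebraMap L M)) ?_ (fun g hg => ?_)
    (fun P g h1 h2 h3 h4 => (hfix g).2 ?_) _)
  · rw [Valuation.comap_apply, map_natCast]
    refine le_antisymm ((𝒪.valuation_le_one_iff _).2 (natCast_mem _ _)) ?_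
    have k := (𝒪.valuation_le_one_iff _).2 (hn (Fintype.card (L ≃ₐ[R] L)))
    rwa [map_inv₀, inv_le_one₀ (zero_lt_iff.2 ((_root_.map_ne_zero _).2
      (Nat.cast_ne_zero.2 Fintype.card_ne_zero)))] at k
  · obtain ⟨r, hr, k⟩ := lt g (fun e => hg (Subtype.ext e))
      ((Algebra.IsAlgebraic.isAlgebraic (R := R) g).algebraMap (A := M))
    exact ⟨algebraMap R L ⟨r, hr⟩, (hfix _).2 hr, k⟩
  · refine hen (P.map (algebraMap L M)) g (fun i => ?_) ?_ ?_ h4
    · rw [coeff_map]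
      exact ⟨(hfix _).1 (h1 i).1, (𝒪.valuation_le_one_iff _).1 (h1 i).2⟩
    · rw [coeff_map, h2, map_one]
    · exact (eval_map_apply (algebraMap L M) g).trans (by rw [h3, map_zero])

end Pool.Agent.Work.MP_e120ef_ag.H.MQ
end

-- merged part: Pool.Agent.Work.MP_e120ef_ag.F.TM1
section
/-!
# Tameness for a finite group of isometries

Plan.  Prove by strong induction on `H.relIndex G'`, for subgroups `H ≤ G'` of `G`: if the inequality holds for the elements fixed by `G'`, it holds for the elements fixed by `H` (then `G' = ⊤`, `H = ⊥`).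
Let `f` be fixed by `H`, `m = (card G')⁻¹ ∑_{σ ∈ G'} σ • f` (fixed by `G'`, `v m ≤ v f`), `f' = f - m` (fixed by `H`, `v f' ≤ v f`, `∑_{σ ∈ G'} σ • f' = 0`); it is enough to treat `f' ≠ 0`.
`H₁ = {σ ∈ G' | v.E (σ • f') f'}` is a subgroup, `H ≤ H₁ ≤ G'`, and `H₁ ≠ G'` by `UV.os`.  If `H ≠ H₁` both `H₁.relIndex G'` and `H.relIndex H₁` are smaller than their product (`Subgroup.relIndex_mul_relIndex`, `Subgroup.relIndex_eq_one`): use the induction twice.
If `H = H₁`: let `s` be the orbit of `f'` under `G'` (a finset), `p = ∏_{ψ ∈ s} (X - C ψ)`.  Its coefficients are fixed by `G'`, `v (p.coeff i) * (v f') ^ i ≤ (v f') ^ s.card` (`TM1_coeff`), `v (f' - ψ) = v f'` for `ψ ≠ f'` in `s`, so `v (p.derivative.eval f') = (v f') ^ (s.card - 1)`; conclude with `Lb.eval`.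
-/

open Polynomial

namespace Pool.Agent.Work.MP_e120ef_ag.H.MQ

variable {L : Type} [Field L]

theorem TM1_coeff (v : UV L) (s : Finset L) {r : ℝ} (hr : 0 ≤ r) (h : ∀ ψ ∈ s, v ψ ≤ r) (i : ℕ) :
    v ((∏ ψ ∈ s, (X - C ψ)).coeff i) * r ^ i ≤ r ^ s.card := by
  classical
  induction s using Finset.induction_on generalizing i with
  | empty =>
    rw [Finset.prod_empty, coeff_one, Finset.card_empty, pow_zero]
    split_ifs with h0
    · simp [h0]
    · simp
  | insert a s ha ih =>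
    have h1 := h a (Finset.mem_insert_self a s)
    have ih' := ih fun ψ hψ => h ψ (Finset.mem_insert_of_mem hψ)
    rw [Finset.prod_insert ha, Finset.card_insert_of_notMem ha, mul_comm (X - C a), pow_succ]
    have h2 : ∀ j, v ((∏ ψ ∈ s, (X - C ψ)).coeff j * a) * r ^ j ≤ r ^ s.card * r := by
      intro j
      rw [v.mul, mul_right_comm]
      exact mul_le_mul (ih' j) h1 (v.nonneg a) (pow_nonneg hr _)
    rcases i with _ | i
    · rw [mul_coeff_zero, coeff_sub, coeff_X_zero, coeff_C_zero, zero_sub, mul_neg, v.neg]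
      exact h2 0
    · rw [coeff_mul_X_sub_C]
      refine (mul_le_mul_of_nonneg_right (v.sub_le _ _) (pow_nonneg hr _)).trans ?_
      rw [max_mul_of_nonneg _ _ (pow_nonneg hr _)]
      refine max_le ?_ (h2 _)
      rw [pow_succ, ← mul_assoc]
      exact mul_le_mul_of_nonneg_right (ih' i) hr

theorem TM1_orbit {G : Type} [Group G] [Finite G] [MulSemiringAction G L] (v : UV L)
    {d : L →+ L} (hd : Lb d) (iso : ∀ (σ : G) f, v (σ • f) = v f) {c : ℝ} (hc : 0 ≤ c)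
    (G' : Subgroup G) (h : ∀ f, (∀ σ ∈ G', σ • f = f) → v (d f) ≤ c * v f) {f : L} (hf0 : f ≠ 0)
    (hf : ∀ σ ∈ G', v.E (σ • f) f → σ • f = f) : v (d f) ≤ c * v f := by
  classical
  have := Fintype.ofFinite G
  obtain ⟨s, hs⟩ : ∃ s : Finset L, ∀ ψ, ψ ∈ s ↔ ∃ σ ∈ G', σ • f = ψ :=
    ⟨(Finset.univ.filter (· ∈ G')).image (· • f), fun ψ => by simp⟩
  have hfs : f ∈ s := (hs f).2 ⟨1, G'.one_mem, one_smul G f⟩
  have hact : ∀ τ ∈ G', ∀ ψ ∈ s, τ • ψ ∈ s := by
    intro τ hτ ψ hψ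
    obtain ⟨σ, hσ, rfl⟩ := (hs ψ).1 hψ
    exact (hs _).2 ⟨τ * σ, G'.mul_mem hτ hσ, mul_smul τ σ f⟩
  have hv : ∀ ψ ∈ s, v ψ = v f := by
    intro ψ hψ
    obtain ⟨σ, _, rfl⟩ := (hs ψ).1 hψ
    exact iso σ f
  have hr := v.pos hf0
  have hfix : ∀ i, ∀ τ ∈ G', τ • (∏ ψ ∈ s, (X - C ψ)).coeff i = (∏ ψ ∈ s, (X - C ψ)).coeff i := by
    intro i τ hτ
    have e : (∏ ψ ∈ s, (X - C ψ)).map (MulSemiringAction.toRingHom G L τ)
        = ∏ ψ ∈ s, (X - C ψ) := by
      rw [Polynomial.map_prod]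
      refine Finset.prod_nbij' (fun ψ => τ • ψ) (fun ψ => τ⁻¹ • ψ) (hact τ hτ)
        (hact τ⁻¹ (G'.inv_mem hτ)) (fun ψ _ => inv_smul_smul τ ψ) (fun ψ _ => smul_inv_smul τ ψ)
        fun ψ _ => ?_
      rw [Polynomial.map_sub, map_X, map_C]
      rfl
    have e2 := congrArg (fun p => p.coeff i) e
    simp only [coeff_map] at e2
    exact e2
  have hder : v ((∏ ψ ∈ s, (X - C ψ)).derivative.eval f) = v f ^ (s.card - 1) := by
    have e : (∏ ψ ∈ s, (X - C ψ)).derivative.eval f = ∏ ψ ∈ s.erase f, (f - ψ) := by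
      rw [← Finset.mul_prod_erase s _ hfs, derivative_mul]
      simp [eval_prod]
    rw [e, v.prod, ← Finset.card_erase_of_mem hfs, ← Finset.prod_const]
    refine Finset.prod_congr rfl fun ψ hψ => ?_
    obtain ⟨h1, h2⟩ := Finset.mem_erase.1 hψ
    refine le_antisymm (v.sub_le' le_rfl (hv ψ h2).le) (not_lt.1 fun h3 => h1 ?_)
    obtain ⟨σ, hσ, rfl⟩ := (hs ψ).1 h2
    exact hf σ hσ ((v.sub_comm _ _).trans_lt h3)
  have hev := hd.eval (∏ ψ ∈ s, (X - C ψ)) f
  have h0 : (∏ ψ ∈ s, (X - C ψ)).eval f = 0 := by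
    rw [eval_prod]
    exact Finset.prod_eq_zero hfs (by simp)
  rw [h0, map_zero] at hev
  have h1 : v ((∏ ψ ∈ s, (X - C ψ)).sum fun i c => d c * f ^ i) ≤ c * v f ^ s.card := by
    refine v.sum_le _ (by positivity) fun i _ => ?_
    rw [v.mul, v.pow]
    refine (mul_le_mul_of_nonneg_right (h _ (hfix i)) (by positivity)).trans ?_
    rw [mul_assoc]
    exact mul_le_mul_of_nonneg_left (TM1_coeff v s hr.le (fun ψ hψ => (hv ψ hψ).le) i) hc
  rw [eq_neg_of_add_eq_zero_left hev.symm, v.neg, v.mul, hder] at h1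
  have h2 : s.card = s.card - 1 + 1 := by
    have := Finset.card_pos.2 ⟨f, hfs⟩
    omega
  rw [h2, Nat.add_sub_cancel, pow_succ, mul_left_comm] at h1
  exact le_of_mul_le_mul_left h1 (by positivity)

theorem tm_iso {G : Type} [Group G] [Finite G] [MulSemiringAction G L] (v : UV L) {d : L →+ L}
    (hd : Lb d) (comm : ∀ (σ : G) f, d (σ • f) = σ • d f) (iso : ∀ (σ : G) f, v (σ • f) = v f)
    {C : ℝ} (hC : 0 ≤ C) (h : ∀ f, (∀ σ : G, σ • f = f) → v (d f) ≤ C * v f) (f : L) :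
    v (d f) ≤ C * v f := by
  classical
  have := Fintype.ofFinite G
  have := v.charZero
  have hE : ∀ (σ : G) {a b : L}, v.E a b → v.E (σ • a) (σ • b) := by
    intro σ a b hab
    rw [UV.E, ← smul_sub, iso, iso]
    exact hab
  have key : ∀ n, ∀ H G' : Subgroup G, H ≤ G' → Nat.card G' - Nat.card H = n →
      (∀ f, (∀ σ ∈ G', σ • f = f) → v (d f) ≤ C * v f) →
      ∀ f, (∀ σ ∈ H, σ • f = f) → v (d f) ≤ C * v f := by
    intro n
    induction n using Nat.strong_induction_on with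
    | _ n ih =>
    intro H G' hle hn hG f hf
    obtain ⟨t, ht⟩ : ∃ t : Finset G, ∀ σ, σ ∈ t ↔ σ ∈ G' :=
      ⟨Finset.univ.filter (· ∈ G'), fun σ => by simp⟩
    have hne : t.Nonempty := ⟨1, (ht 1).2 G'.one_mem⟩
    have hN : t.card ≠ 0 := Finset.card_ne_zero.2 hne
    have hN' : (t.card : L) ≠ 0 := Nat.cast_ne_zero.2 hN
    obtain ⟨m, hm⟩ : ∃ m : L, m = (t.card : L)⁻¹ * ∑ σ ∈ t, σ • f := ⟨_, rfl⟩
    have hm1 : ∀ τ ∈ G', τ • m = m := by
      intro τ hτ
      have e1 : τ • (t.card : L) = t.card := map_natCast (MulSemiringAction.toRingHom G L τ) _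
      rw [hm, smul_mul', smul_inv'', e1, Finset.smul_sum]
      refine congrArg _ (Finset.sum_nbij' (fun σ => τ * σ) (fun σ => τ⁻¹ * σ)
        (fun σ hσ => (ht _).2 (G'.mul_mem hτ ((ht σ).1 hσ)))
        (fun σ hσ => (ht _).2 (G'.mul_mem (G'.inv_mem hτ) ((ht σ).1 hσ)))
        (fun σ _ => inv_mul_cancel_left τ σ) (fun σ _ => mul_inv_cancel_left τ σ)
        fun σ _ => (mul_smul τ σ f).symm)
    have hm2 : v m ≤ v f := by
      rw [hm, v.mul, v.inv, v.nat _ hN, inv_one, one_mul]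
      exact v.sum_le _ (v.nonneg f) fun σ _ => (iso σ f).le
    have hm3 : v (d m) ≤ C * v f := (hG m hm1).trans (mul_le_mul_of_nonneg_left hm2 hC)
    have hsum : ∑ σ ∈ t, σ • (f - m) = 0 := by
      have e : ∑ σ ∈ t, σ • m = ∑ σ ∈ t, m :=
        Finset.sum_congr rfl fun σ hσ => hm1 σ ((ht σ).1 hσ)
      simp only [smul_sub]
      rw [Finset.sum_sub_distrib, e, Finset.sum_const, nsmul_eq_mul, hm,
        mul_inv_cancel_left₀ hN', sub_self]
    have hf' : ∀ σ ∈ H, σ • (f - m) = f - m := fun σ hσ => by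
      rw [smul_sub, hf σ hσ, hm1 σ (hle hσ)]
    have main : v (d (f - m)) ≤ C * v (f - m) := by
      rcases eq_or_ne (f - m) 0 with h0 | h0
      · simp [h0]
      let H₁ : Subgroup G :=
        { carrier := {σ | σ ∈ G' ∧ v.E (σ • (f - m)) (f - m)}
          mul_mem' := fun {σ τ} hσ hτ => ⟨G'.mul_mem hσ.1 hτ.1, by
            rw [mul_smul]
            exact (hE σ hτ.2).trans hσ.2⟩
          one_mem' := ⟨G'.one_mem, by
            rw [one_smul]
            exact UV.E.refl h0⟩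
          inv_mem' := fun {σ} hσ => ⟨G'.inv_mem hσ.1, by
            have := hE σ⁻¹ hσ.2
            rw [inv_smul_smul] at this
            exact this.symm⟩ }
      have a1 : H ≤ H₁ := fun σ hσ => ⟨hle hσ, by
        rw [hf' σ hσ]
        exact UV.E.refl h0⟩
      have a2 : H₁ ≤ G' := fun σ hσ => hσ.1
      have a3 : H₁ ≠ G' := fun e => UV.os (v := v) hne (g := f - m) (fun σ hσ =>
        (show σ ∈ H₁ from e ▸ (ht σ).1 hσ).2) hsum
      rcases eq_or_ne H H₁ with e | e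
      · exact TM1_orbit v hd iso hC G' hG h0 fun σ hσ hσ' =>
          hf' σ (e ▸ (show σ ∈ H₁ from ⟨hσ, hσ'⟩))
      have b1 : Nat.card H < Nat.card H₁ :=
        not_le.1 fun h1 => e (Subgroup.eq_of_le_of_card_ge a1 h1)
      have b2 : Nat.card H₁ < Nat.card G' :=
        not_le.1 fun h1 => a3 (Subgroup.eq_of_le_of_card_ge a2 h1)
      exact ih _ (by omega) H H₁ a1 rfl (ih _ (by omega) H₁ G' a2 rfl hG) _ hf'
    have e : d f = d (f - m) + d m := by rw [← map_add, sub_add_cancel]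
    rw [e]
    exact v.add_le (main.trans (mul_le_mul_of_nonneg_left (v.sub_le' le_rfl hm2) hC)) hm3
  exact key _ ⊥ ⊤ bot_le rfl (fun f hf => h f fun σ => hf σ (Subgroup.mem_top σ)) f
    fun σ hσ => by rw [Subgroup.mem_bot.1 hσ, one_smul]

end Pool.Agent.Work.MP_e120ef_ag.H.MQ
end

-- merged part: Pool.Agent.Work.MP_e120ef_ag.F.TM2
section
/-!
# Tameness in algebraic extensions

Plans.  `tm_fin`: `Z = {σ | ∀ f, v (σ • f) = v f}` is a subgroup; by `tm_iso` for `Z` it is enough to treat `f` fixed by `Z`.  If `v` is trivial then `Z = ⊤`.  Otherwise the absolute values `f ↦ v (σ • f)` form a finite set of nontrivial absolute values, pairwise inequivalent (if `v ∘ σ = (v ∘ σ') ^ c`, `AbsoluteValue.isEquiv_iff_exists_rpow_eq`, iterate `σ σ'⁻¹`, which has finite order: `c = 1`).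
`AbsoluteValue.exists_one_lt_lt_one_pi_of_not_isEquiv` (index type: the range) gives `a` with `1 < v a`, `v (σ • a) < 1` for `σ ∉ Z`; replace `a` by `∏_{ζ ∈ Z} ζ • a`, fixed by `Z`.  For `f ≠ 0` fixed by `Z`, `t_k = ∑_σ σ • (a ^ k f) = card Z * a ^ k f + r_k` is fixed by `G`, and `v r_k`, `v (d r_k)` stay bounded while `v (a ^ k f) → ∞`.  So for `ε > 0` and large `k`, `v (d (a ^ k f)) ≤ (C + ε) v (a ^ k f)`, the same for `f = 1`, hence `v (d f) ≤ (C + ε) v f`.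
`tm`: let `L` be the normal closure of `N₀⟮f⟯` in `N` (or `IntermediateField.adjoin N₀ (rootSet ..)`, a splitting field), finite Galois over `N₀`; `d` preserves it (`Lb.mem_of_alg`), commutes with `Gal(L/N₀)` (`Lb.comm` inside `L` with the subfield `(algebraMap N₀ L).fieldRange`, which `d` preserves), fixed elements come from `N₀` (`IsGalois.mem_range_algebraMap_iff_fixed` or `IsGalois.fixedField_top`); use `v.comap L.val`.
-/

namespace Pool.Agent.Work.MP_e120ef_ag.H.MQ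

theorem TM2_iso {L G : Type} [Field L] [Group G] [Finite G] [MulSemiringAction G L] (v : UV L)
    (ρ : G) (h : ∀ x y, v x < v y → v (ρ • x) < v (ρ • y)) (x : L) : v (ρ • x) = v x := by
  have hn : ∃ n, ρ ^ (n + 1) = 1 :=
    ⟨orderOf ρ - 1, by rw [Nat.sub_add_cancel (orderOf_pos ρ), pow_orderOf_eq_one]⟩
  obtain ⟨n, hn⟩ := hn
  have it : ∀ (m : ℕ) x y, v x < v y → v (ρ ^ m • x) < v (ρ ^ m • y) := by
    intro m
    induction m with
    | zero => intro x y e; simpa using e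
    | succ m ih => intro x y e; rw [pow_succ', mul_smul, mul_smul]; exact h _ _ (ih x y e)
  rcases lt_trichotomy (v (ρ • x)) (v x) with c | c | c
  · have : ∀ m : ℕ, v (ρ ^ (m + 1) • x) < v x := fun m => by
      induction m with
      | zero => simpa using c
      | succ m ih => rw [pow_succ, mul_smul]; exact (it _ _ _ c).trans ih
    have := this n
    rw [hn, one_smul] at this
    exact absurd this (lt_irrefl _)
  · exact c
  · have : ∀ m : ℕ, v x < v (ρ ^ (m + 1) • x) := fun m => by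
      induction m with
      | zero => simpa using c
      | succ m ih => rw [pow_succ, mul_smul]; exact ih.trans (it _ _ _ c)
    have := this n
    rw [hn, one_smul] at this
    exact absurd this (lt_irrefl _)

/-- the group of isometries -/
def TM2_Z {L : Type} (G : Type) [Field L] [Group G] [MulSemiringAction G L] (v : UV L) :
    Subgroup G where
  carrier := {σ | ∀ f, v (σ • f) = v f}
  mul_mem' := fun {σ τ} hσ hτ f => by rw [mul_smul, hσ, hτ]
  one_mem' f := by rw [one_smul]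
  inv_mem' := fun {σ} hσ f => by rw [← hσ, smul_inv_smul]

theorem TM2_sep {L G : Type} [Field L] [Group G] [Finite G] [MulSemiringAction G L] (v : UV L)
    (hv : v.v.IsNontrivial) : ∃ a : L, (∀ σ ∈ TM2_Z G v, σ • a = a) ∧ 1 < v a ∧
      ∀ σ ∉ TM2_Z G v, v (σ • a) ≤ 1 := by
  classical
  let w : G → AbsoluteValue L ℝ := fun σ => (v.comap (MulSemiringAction.toRingHom G L σ)).v
  have hw : ∀ σ f, w σ f = v (σ • f) := fun _ _ => rfl
  have : Finite (Set.range w) := Set.finite_range w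
  obtain ⟨a, h1, h2⟩ := AbsoluteValue.exists_one_lt_lt_one_pi_of_not_isEquiv
    (v := (Subtype.val : Set.range w → AbsoluteValue L ℝ)) (by
      rintro ⟨_, σ, rfl⟩
      obtain ⟨x, hx, hx'⟩ := hv
      exact ⟨σ⁻¹ • x, fun e => hx (by rw [← smul_inv_smul σ x, e, smul_zero]), by
        change w σ _ ≠ 1
        rwa [hw, smul_inv_smul]⟩) (by
      rintro ⟨_, σ, rfl⟩ ⟨_, τ, rfl⟩ hne e
      refine hne (Subtype.ext (AbsoluteValue.ext fun x => ?_))
      have := TM2_iso v (σ * τ⁻¹) (fun y z k => by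
        rw [mul_smul, mul_smul, ← hw, ← hw]
        refine e.lt_iff_lt.2 ?_
        change w τ _ < w τ _
        rwa [hw, hw, smul_inv_smul, smul_inv_smul]) (τ • x)
      rwa [mul_smul, inv_smul_smul] at this) ⟨w 1, 1, rfl⟩
  have h1' : 1 < v a := by
    have : 1 < w 1 a := h1
    rwa [hw, one_smul] at this
  have h2' : ∀ σ ∉ TM2_Z G v, v (σ • a) < 1 := fun σ hσ =>
    h2 ⟨w σ, σ, rfl⟩ fun e => hσ fun f => by
      have : w σ = w 1 := congrArg Subtype.val e
      rw [← hw, this, hw, one_smul]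
  have := Fintype.ofFinite (TM2_Z G v)
  refine ⟨∏ ζ : TM2_Z G v, (ζ : G) • a, fun σ hσ => ?_, ?_, fun σ hσ => ?_⟩
  · rw [Finset.smul_prod']
    refine Fintype.prod_equiv (Equiv.mulLeft (⟨σ, hσ⟩ : TM2_Z G v)) _ _ fun ζ => ?_
    rw [← mul_smul]
    rfl
  · rw [v.prod, Finset.prod_congr rfl fun (ζ : TM2_Z G v) _ => ζ.2 a, Finset.prod_const]
    exact one_lt_pow₀ h1' (Finset.card_ne_zero.2 Finset.univ_nonempty)
  · rw [Finset.smul_prod', v.prod]
    refine Finset.prod_le_one (fun _ _ => v.nonneg _) fun ζ _ => ?_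
    rw [← mul_smul]
    exact (h2' _ fun e => hσ ((Subgroup.mul_mem_cancel_right _ ζ.2).1 e)).le

theorem tm_fin {L G : Type} [Field L] [Group G] [Finite G] [MulSemiringAction G L] (v : UV L)
    {d : L →+ L} (hd : Lb d) (comm : ∀ (σ : G) f, d (σ • f) = σ • d f) {C : ℝ} (hC : 0 ≤ C)
    (h : ∀ f, (∀ σ : G, σ • f = f) → v (d f) ≤ C * v f) (f : L) : v (d f) ≤ C * v f := by
  classical
  refine tm_iso (G := TM2_Z G v) v hd (fun σ f => comm σ f) (fun σ f => σ.2 f) hC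
    (fun f hf => ?_) f
  by_cases hv : v.v.IsNontrivial
  swap
  · refine h f fun σ => hf ⟨σ, fun x => ?_⟩
    rcases eq_or_ne x 0 with rfl | hx
    · rw [smul_zero]
    · rw [AbsoluteValue.not_isNontrivial_apply hv hx, AbsoluteValue.not_isNontrivial_apply hv
        fun e => hx (by rw [← inv_smul_smul σ x, e, smul_zero])]
  obtain ⟨a, a1, a2, a3⟩ := TM2_sep (G := G) v hv
  have := Fintype.ofFinite G
  have key : ∀ g : L, (∀ σ ∈ TM2_Z G v, σ • g = g) →
      ∃ B, 0 ≤ B ∧ ∀ k : ℕ, v (d (a ^ k * g)) ≤ C * v (a ^ k * g) + B := by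
    intro g hg
    obtain ⟨B, hB⟩ := (Set.finite_range fun σ : G =>
      max (v (σ • g)) (max (v (σ • d g)) (v (σ • g) * v (σ • d a)))).bddAbove
    have hB' := fun σ : G => max_le_iff.1 (hB ⟨σ, rfl⟩)
    have B0 : 0 ≤ B := (v.nonneg _).trans (hB' 1).1
    refine ⟨C * B + B, by positivity, fun k => ?_⟩
    have pk : ∀ σ ∉ TM2_Z G v, ∀ m : ℕ, v (σ • a ^ m) ≤ 1 := fun σ hσ m => by
      rw [smul_pow', v.pow]
      exact pow_le_one₀ (v.nonneg _) (a3 σ hσ)
    have e1 : ∑ σ : G, σ • (a ^ k * g) =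
        (Finset.univ.filter (· ∈ TM2_Z G v)).card • (a ^ k * g) +
          ∑ σ ∈ Finset.univ.filter (· ∉ TM2_Z G v), σ • (a ^ k * g) := by
      rw [← Finset.sum_filter_add_sum_filter_not Finset.univ (· ∈ TM2_Z G v), ← Finset.sum_const]
      congr 1
      refine Finset.sum_congr rfl fun σ hσ => ?_
      have := (Finset.mem_filter.1 hσ).2
      rw [smul_mul', smul_pow', a1 σ this, hg σ this]
    have hc : (Finset.univ.filter (· ∈ TM2_Z G v)).card ≠ 0 :=
      Finset.card_ne_zero.2 ⟨1, Finset.mem_filter.2 ⟨Finset.mem_univ _, one_mem _⟩⟩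
    have e2 := h (∑ σ : G, σ • (a ^ k * g)) fun τ => by
      rw [Finset.smul_sum]
      exact Fintype.sum_equiv (Equiv.mulLeft τ) _ _ fun σ => (mul_smul _ _ _).symm
    have r1 : v (∑ σ ∈ Finset.univ.filter (· ∉ TM2_Z G v), σ • (a ^ k * g)) ≤ B :=
      v.sum_le _ B0 fun σ hσ => by
        rw [smul_mul', v.mul]
        exact (mul_le_of_le_one_left (v.nonneg _) (pk σ (Finset.mem_filter.1 hσ).2 k)).trans
          (hB' σ).1
    have r2 : v (d (∑ σ ∈ Finset.univ.filter (· ∉ TM2_Z G v), σ • (a ^ k * g))) ≤ B := by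
      rw [map_sum]
      refine v.sum_le _ B0 fun σ hσ => ?_
      have hσ' := (Finset.mem_filter.1 hσ).2
      rw [comm, hd, hd.pow, smul_add]
      refine v.add_le ?_ ?_
      · rw [smul_mul', v.mul]
        exact (mul_le_of_le_one_left (v.nonneg _) (pk σ hσ' k)).trans (max_le_iff.1 (hB' σ).2).1
      · refine le_trans ?_ (max_le_iff.1 (hB' σ).2).2
        rw [smul_mul', smul_mul', smul_mul', v.mul, v.mul, v.mul]
        refine mul_le_mul_of_nonneg_left (mul_le_of_le_one_left (v.nonneg _) ?_) (v.nonneg _)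
        refine mul_le_one₀ ?_ (v.nonneg _) (pk σ hσ' _)
        have : σ • (k : L) = k := map_natCast (MulSemiringAction.toRingHom G L σ) k
        rw [this]
        exact v.nat_le k
    have r3 : v (∑ σ : G, σ • (a ^ k * g)) ≤ v (a ^ k * g) + B := by
      rw [e1]
      refine v.add_le ?_ (r1.trans (le_add_of_nonneg_left (v.nonneg _)))
      rw [nsmul_eq_mul, v.mul, v.nat _ hc, one_mul]
      exact le_add_of_nonneg_right B0
    have e3 : v (d (a ^ k * g)) = v (d (∑ σ : G, σ • (a ^ k * g)) -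
        d (∑ σ ∈ Finset.univ.filter (· ∉ TM2_Z G v), σ • (a ^ k * g))) := by
      rw [e1, map_add, add_sub_cancel_right, map_nsmul, nsmul_eq_mul, v.mul, v.nat _ hc, one_mul]
    have n1 := mul_nonneg hC (v.nonneg (a ^ k * g))
    have n2 := mul_nonneg hC B0
    have n3 := mul_le_mul_of_nonneg_left r3 hC
    rw [e3]
    exact v.sub_le' (by linarith) (by linarith)
  obtain ⟨B1, b1, k1⟩ := key f fun σ hσ => hf ⟨σ, hσ⟩
  obtain ⟨B2, b2, k2⟩ := key 1 fun σ _ => smul_one σ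
  by_contra c
  have c' : 0 < v (d f) - C * v f := sub_pos.2 (not_le.1 c)
  obtain ⟨k, hk⟩ := pow_unbounded_of_one_lt ((B1 + v f * B2) / (v (d f) - C * v f)) a2
  rw [div_lt_iff₀ c'] at hk
  have e : a ^ k * d f = d (a ^ k * f) - f * d (a ^ k * 1) := by rw [hd, mul_one]; ring
  have k1 := k1 k
  have k2 := mul_le_mul_of_nonneg_left (k2 k) (v.nonneg f)
  have n1 := mul_nonneg (v.nonneg f) b2
  have e' : v (a ^ k * d f) ≤ C * (v a ^ k * v f) + B1 + v f * B2 := by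
    rw [e]
    rw [v.mul, v.pow] at k1
    rw [v.mul, v.pow, v.one] at k2
    exact v.sub_le' (by linarith) (by rw [v.mul]; linarith)
  rw [v.mul, v.pow] at e'
  linarith

theorem tm {N : Type} [Field N] [IsAlgClosed N] (v : UV N) {d : N →+ N} (hd : Lb d)
    (N₀ : Subfield N) (stab : ∀ a ∈ N₀, d a ∈ N₀) {C : ℝ} (hC : 0 ≤ C)
    (h : ∀ a ∈ N₀, v (d a) ≤ C * v a) {f : N} (hf : IsAlgebraic N₀ f) : v (d f) ≤ C * v f := by
  have := v.charZero
  have hi : IsIntegral N₀ f := hf.isIntegral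
  obtain ⟨L, hL⟩ : ∃ L, L = IntermediateField.adjoin N₀ ((minpoly N₀ f).rootSet N) := ⟨_, rfl⟩
  have hs : (minpoly N₀ f).IsSplittingField N₀ L :=
    hL ▸ IntermediateField.adjoin_rootSet_isSplittingField (IsAlgClosed.splits _)
  have := Polynomial.IsSplittingField.finiteDimensional L (minpoly N₀ f)
  have := Normal.of_isSplittingField (E := L) (minpoly N₀ f)
  have : IsGalois N₀ L := {}
  have hfL : f ∈ L := by
    rw [hL]
    exact IntermediateField.subset_adjoin _ _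
      (Polynomial.mem_rootSet.2 ⟨minpoly.ne_zero hi, minpoly.aeval _ _⟩)
  have hle : N₀ ≤ L.toSubfield := fun a ha => L.algebraMap_mem ⟨a, ha⟩
  have hm : ∀ x : L, d x ∈ L := fun x => hd.mem_of_alg hle (fun a ha => hle (stab a ha)) x.2
    ((Algebra.IsAlgebraic.isAlgebraic (R := N₀) x).algebraMap (A := N))
  let dL : L →+ L := (d.comp L.val.toRingHom.toAddMonoidHom).codRestrict L hm
  have hdL : Lb dL := fun a b => Subtype.ext (hd a b)
  refine tm_fin (G := L ≃ₐ[N₀] L) (v.comap L.val.toRingHom) hdL (fun σ x => ?_) hC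
    (fun x hx => ?_) ⟨f, hfL⟩
  · refine hdL.comm (N₀ := (⊥ : IntermediateField N₀ L).toSubfield) (σ : L →+* L) ?_
      ((Algebra.IsAlgebraic.isAlgebraic (R := N₀) x).tower_top (⊥ : IntermediateField N₀ L))
    intro a ha
    obtain ⟨b, rfl⟩ := IntermediateField.mem_bot.1 ha
    have e : dL (algebraMap N₀ L b) = algebraMap N₀ L ⟨d b, stab _ b.2⟩ := rfl
    rw [e]
    change dL (σ _) = σ _
    rw [σ.commutes, σ.commutes, e]
  · obtain ⟨b, rfl⟩ := (IsGalois.mem_range_algebraMap_iff_fixed x).2 hx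
    exact h _ b.2

end Pool.Agent.Work.MP_e120ef_ag.H.MQ
end

-- merged part: Pool.Agent.Work.MP_e120ef_ag.F.T1
section
/-!
# Integrality of logarithmic derivatives outside a finite set

Plan.  `A₀ = Algebra.adjoin F₀ {y}` (isomorphic to `F₀[X]`, integrally closed, fraction field `F₀⟮y⟯`).  Let `ψ₁, ..., ψ_r` be the roots in `N` of `minpoly F₀⟮y⟯ ψ`, and `p̃ ∈ A₀[T]` this polynomial with denominators cleared; `p̃' (ψ_i) ≠ 0`.  For `w ≠ 0` algebraic over `A₀` there is `g ≠ 0` in `A₀` with `g / w ∈ A₀[w]` (equation with nonzero constant term), and `g' ≠ 0` with `g' w` integral (`IsAlgebraic.exists_integral_multiple`).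
Let `f = aeval y f₀` be the product of `y` and of these `g`, `g'` for `w = ψ_i` and `w = p̃' (ψ_i)`, `B = Algebra.adjoin F₀ ({y, f⁻¹} ∪ {ψ_i})`.  Then `ψ_i⁻¹ ∈ B`, `d B ⊆ B` (`Lb.eval`, adjoin induction), each element of `B` times a power of `f` is integral over `A₀`.
Every root of the minimal polynomial of `φ = (y - β) ^ j d^[j] ψ / ψ` is `σ φ` for an `F₀⟮y⟯`-automorphism `σ` of `N` (`Normal`, `minpoly.exists_algEquiv_of_root'`), `σ` commutes with `d` (`Lb.comm`), so the roots lie in `B`, hence the coefficients (the polynomial is monic and splits).  A coefficient `c ∈ F₀⟮y⟯` with `c f ^ k` integral over `A₀` has `c f ^ k ∈ A₀`.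

The proof below is shorter than this plan: `f ^ k φ` is integral over `A₀` (`T1_core`, only `A₀[ψ]` is used), so its minimal polynomial, which is `scaleRoots` of that of `φ`, has coefficients in `A₀`.
-/

open Polynomial

namespace Pool.Agent.Work.MP_e120ef_ag.H.MQ

section
variable {A N : Type} [CommRing A] [Field N] [Algebra A N]

theorem T1_dvd {ψ w : N} (h1 : IsAlgebraic A w) (hw : w ∈ Algebra.adjoin A {ψ}) (h0 : w ≠ 0) :
    ∃ g : A, g ≠ 0 ∧ ∃ u ∈ Algebra.adjoin A {ψ}, w * u = algebraMap A N g := by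
  obtain ⟨u, hu, g, hg, e⟩ :=
    h1.exists_nonzero_eq_adjoin_mul (mem_nonZeroDivisors_of_ne_zero h0)
  exact ⟨g, hg, u, Algebra.adjoin_le (Set.singleton_subset_iff.2 hw) hu, e⟩

variable [IsDomain A] [CharZero A]

theorem T1_sep (hinj : Function.Injective (algebraMap A N)) {ψ : N} (h : IsAlgebraic A ψ) :
    ∃ P : A[X], aeval ψ P = 0 ∧ aeval ψ (derivative P) ≠ 0 := by
  classical
  have h1 : ∃ n, ∃ P : A[X], (P ≠ 0 ∧ aeval ψ P = 0) ∧ P.natDegree = n := by
    obtain ⟨P, hP⟩ := h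
    exact ⟨_, P, hP, rfl⟩
  obtain ⟨P, ⟨h2, h3⟩, h4⟩ := Nat.find_spec h1
  have h5 : P.natDegree ≠ 0 := fun e => by
    rw [eq_C_of_natDegree_eq_zero e, aeval_C, map_eq_zero_iff _ hinj] at h3
    exact h2 (by rw [eq_C_of_natDegree_eq_zero e, h3, C_0])
  exact ⟨P, h3, fun e => Nat.find_min h1 (h4 ▸ natDegree_derivative_lt h5)
    ⟨_, ⟨fun e' => h5 (derivative_eq_zero.1 e'), e⟩, rfl⟩⟩

theorem T1_core (hinj : Function.Injective (algebraMap A N)) (halg : ∀ w : N, IsAlgebraic A w)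
    {d : N →+ N} (hd : Lb d) (hA : ∀ a : A, ∃ b : A, d (algebraMap A N a) = algebraMap A N b)
    {ψ : N} (hψ : ψ ≠ 0) : ∃ g : A, g ≠ 0 ∧ ∀ f : A, g ∣ f → ∀ j : ℕ, ∃ k : ℕ,
      IsIntegral A (algebraMap A N f ^ k * (d^[j] ψ / ψ)) := by
  have hS : ψ ∈ Algebra.adjoin A {ψ} := Algebra.self_mem_adjoin_singleton A ψ
  obtain ⟨P, hP, hP'⟩ := T1_sep hinj (halg ψ)
  obtain ⟨g₁, hg₁, u₁, hu₁, e₁⟩ := T1_dvd (halg _) (aeval_mem_adjoin_singleton A ψ) hP'
  obtain ⟨g₂, hg₂, u₂, hu₂, e₂⟩ := T1_dvd (halg ψ) hS hψ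
  obtain ⟨g₃, hg₃, e₃⟩ := (halg ψ).exists_integral_multiple
  refine ⟨g₁ * g₂ * g₃, mul_ne_zero (mul_ne_zero hg₁ hg₂) hg₃, ?_⟩
  rintro _ ⟨c, rfl⟩
  set S := Algebra.adjoin A {ψ}
  set f := algebraMap A N (g₁ * g₂ * g₃ * c) with hf
  have hfS : f ∈ S := S.algebraMap_mem _
  have hdA : ∀ a : A, d (algebraMap A N a) ∈ S := fun a => by
    obtain ⟨b, hb⟩ := hA a
    exact hb ▸ S.algebraMap_mem b
  have h1 : f * d ψ ∈ S := by
    have a1 := hd.eval (P.map (algebraMap A N)) ψ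
    rw [eval_map_algebraMap, hP, map_zero, derivative_map, eval_map_algebraMap] at a1
    have a2 : ((P.map (algebraMap A N)).sum fun i c => d c * ψ ^ i) ∈ S :=
      S.sum_mem fun i _ => S.mul_mem (by rw [coeff_map]; exact hdA _) (S.pow_mem hS i)
    have a3 : f * d ψ = -(algebraMap A N (g₂ * g₃ * c) * u₁ *
        (P.map (algebraMap A N)).sum fun i c => d c * ψ ^ i) := by
      simp only [hf, map_mul, ← e₁]
      linear_combination (-(algebraMap A N g₂ * algebraMap A N g₃ * algebraMap A N c * u₁)) * a1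
    rw [a3]
    exact S.neg_mem (S.mul_mem (S.mul_mem (S.algebraMap_mem _) hu₁) a2)
  have h2 : ∀ x ∈ S, f * d x ∈ S := fun x hx => by
    induction hx using Algebra.adjoin_induction with
    | mem x hx => exact hx ▸ h1
    | algebraMap r => exact S.mul_mem hfS (hdA r)
    | add x y _ _ hx hy =>
      rw [map_add, mul_add]
      exact S.add_mem hx hy
    | mul x y hx' hy' hx hy =>
      rw [hd, mul_add, mul_left_comm, mul_left_comm f]
      exact S.add_mem (S.mul_mem hx' hy) (S.mul_mem hy' hx)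
  have h3 : ∀ j : ℕ, f ^ j * d^[j] ψ ∈ S := fun j => by
    induction j with
    | zero => simpa using hS
    | succ j ih =>
      have a1 : f ^ (j + 1) * d^[j + 1] ψ =
          f * d (f ^ j * d^[j] ψ) - j * d f * (f ^ j * d^[j] ψ) := by
        rw [hd, hd.pow, Function.iterate_succ_apply']
        rcases j with _ | j
        · simp
        · simp only [Nat.add_sub_cancel]
          ring
      rw [a1]
      exact S.sub_mem (h2 _ ih) (S.mul_mem (S.mul_mem (natCast_mem S j) (hdA _)) ih)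
  have h4 : ∀ x ∈ S, ∃ k : ℕ, IsIntegral A (f ^ k * x) := fun x hx => by
    have hfi : IsIntegral A f := isIntegral_algebraMap
    induction hx using Algebra.adjoin_induction with
    | mem x hx =>
      refine ⟨1, ?_⟩
      have := (isIntegral_algebraMap (x := g₁ * g₂ * c)).mul e₃
      rw [Algebra.smul_def] at this
      rw [hx, show f ^ 1 * ψ = algebraMap A N (g₁ * g₂ * c) * (algebraMap A N g₃ * ψ) by
        simp only [hf, map_mul]; ring]
      exact this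
    | algebraMap r => exact ⟨0, by simpa using isIntegral_algebraMap⟩
    | add x y _ _ hx hy =>
      obtain ⟨k, hk⟩ := hx
      obtain ⟨l, hl⟩ := hy
      refine ⟨k + l, ?_⟩
      rw [show f ^ (k + l) * (x + y) = f ^ l * (f ^ k * x) + f ^ k * (f ^ l * y) by ring]
      exact ((hfi.pow l).mul hk).add ((hfi.pow k).mul hl)
    | mul x y _ _ hx hy =>
      obtain ⟨k, hk⟩ := hx
      obtain ⟨l, hl⟩ := hy
      refine ⟨k + l, ?_⟩
      rw [show f ^ (k + l) * (x * y) = f ^ k * x * (f ^ l * y) by ring]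
      exact hk.mul hl
  intro j
  obtain ⟨k, hk⟩ := h4 _ (S.mul_mem (h3 j) (S.mul_mem (S.algebraMap_mem (g₁ * g₃ * c)) hu₂))
  refine ⟨k + j + 1, ?_⟩
  have a1 : f = algebraMap A N (g₁ * g₃ * c) * u₂ * ψ := by
    simp only [hf, map_mul, ← e₂]
    ring
  rw [show f ^ (k + j + 1) * (d^[j] ψ / ψ) =
    f ^ k * (f ^ j * d^[j] ψ * (algebraMap A N (g₁ * g₃ * c) * u₂)) by
      rw [pow_succ, pow_add, eq_div_of_mul_eq hψ a1.symm]
      ring]
  exact hk

end

open scoped IntermediateField.algebraAdjoinAdjoin in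
theorem t_one {F₀ N : Type} [Field F₀] [Field N] [Algebra F₀ N] [IsAlgClosed N] [CharZero N]
    {y : N} (hy : Transcendental F₀ y)
    (halg : ∀ ψ : N, IsAlgebraic (IntermediateField.adjoin F₀ {y}) ψ) {d : N →+ N} (hd : Lb d)
    (h₀ : ∀ c, d (algebraMap F₀ N c) = 0) (h₁ : d y = 1) {ψ : N} (hψ : ψ ≠ 0) :
    ∃ f₀ : F₀[X], f₀ ≠ 0 ∧ f₀.eval 0 = 0 ∧ ∀ (j : ℕ) (β : F₀) (i : ℕ), ∃ (p : F₀[X]) (k : ℕ),
      (((minpoly (IntermediateField.adjoin F₀ {y})
        ((y - algebraMap F₀ N β) ^ j * d^[j] ψ / ψ)).coeff i : IntermediateField.adjoin F₀ {y}) : N)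
          * aeval y f₀ ^ k = aeval y p := by
  let A := Algebra.adjoin F₀ {y}
  have hinj : Function.Injective (algebraMap A N) := Subtype.val_injective
  have : CharZero A := (algebraMap A N).charZero
  have := hy.uniqueFactorizationMonoid_adjoin
  have hmem : ∀ a : A, ∃ p : F₀[X], aeval y p = a := fun a =>
    (Algebra.adjoin_singleton_eq_range_aeval F₀ y).le a.2
  have hyA : y ∈ A := Algebra.self_mem_adjoin_singleton F₀ y
  obtain ⟨g, hg, h⟩ := T1_core hinj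
    (fun w => (IsFractionRing.isAlgebraic_iff A (IntermediateField.adjoin F₀ {y}) N).2 (halg w)) hd
    (fun a => by
      suffices h : ∀ x ∈ A, d x ∈ A from ⟨⟨_, h a a.2⟩, rfl⟩
      intro x hx
      induction hx using Algebra.adjoin_induction with
      | mem x hx =>
        rw [hx, h₁]
        exact A.one_mem
      | algebraMap r =>
        rw [h₀]
        exact A.zero_mem
      | add x z _ _ hx hz =>
        rw [map_add]
        exact A.add_mem hx hz
      | mul x z hx' hz' hx hz =>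
        rw [hd]
        exact A.add_mem (A.mul_mem hx' hz) (A.mul_mem hz' hx)) hψ
  obtain ⟨q, hq⟩ := hmem g
  have hy0 : y ≠ 0 := fun e => hy (e ▸ isAlgebraic_zero)
  have hf : aeval y (X * q) = algebraMap A N (⟨y, hyA⟩ * g) := by
    rw [map_mul, aeval_X, hq, map_mul]
    rfl
  have hf0 : (⟨y, hyA⟩ * g : A) ≠ 0 := mul_ne_zero (fun e => hy0 (congrArg Subtype.val e)) hg
  refine ⟨X * q, fun e => hf0 (hinj (by rw [← hf, e, map_zero, map_zero])), by simp,
    fun j β i => ?_⟩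
  obtain ⟨k, hk⟩ := h _ (dvd_mul_left g ⟨y, hyA⟩) j
  set φ := (y - algebraMap F₀ N β) ^ j * d^[j] ψ / ψ
  set r := algebraMap A (IntermediateField.adjoin F₀ {y}) ((⟨y, hyA⟩ * g) ^ k) with hr
  have hr1 : (r : N) = aeval y (X * q) ^ k := by
    rw [hf, ← map_pow]
    rfl
  have h2 : IsIntegral A (r • φ) := by
    have a1 : IsIntegral A (y - algebraMap F₀ N β) :=
      isIntegral_algebraMap (x := (⟨_, A.sub_mem hyA (A.algebraMap_mem β)⟩ : A))
    have := (a1.pow j).mul hk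
    rwa [← hf, ← hr1, mul_left_comm, ← mul_div_assoc] at this
  have h3 := minpoly.isIntegrallyClosed_eq_field_fractions' (IntermediateField.adjoin F₀ {y}) h2
  rw [IsIntegrallyClosed.minpoly_smul (map_ne_zero_iff _ (IsFractionRing.injective _ _) |>.2
    (pow_ne_zero k hf0)) (halg φ).isIntegral] at h3
  have h4 := congrArg (fun p => ((p.coeff i : IntermediateField.adjoin F₀ {y}) : N)) h3
  obtain ⟨p, hp⟩ := hmem ((minpoly A (r • φ)).coeff i)
  refine ⟨p, k * ((minpoly (IntermediateField.adjoin F₀ {y}) φ).natDegree - i), ?_⟩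
  simp only [coeff_scaleRoots, coeff_map] at h4
  rw [pow_mul, ← hr1, hp]
  exact h4

end Pool.Agent.Work.MP_e120ef_ag.H.MQ
end
end

-- merged part: Pool.Agent.Work.MP_e120ef_ag.F.CJ2
section
-- merged part: Pool.Agent.Work.MP_e120ef_ag.F.Apx
section
/-!
# Simultaneous approximation; rational powers

Plans.  `V` is finite, so `v f` is bounded for `v ∈ V`, and a family of strict inequalities `v f < 1` gives `ρ < 1` with `v f ≤ ρ`.  `apx_inv`: truncated geometric sums, `(1 - e)⁻¹ - ∑_{i < n} e ^ i = e ^ n (1 - e)⁻¹`.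
`apx_hen`: `T₀ = 0`, `T_(k+1) = T_k - P.eval T_k`; with `Q = X - P` (coefficient of degree one zero, all coefficients of size at most one) `T_(k+1) - f = Q.eval T_k - Q.eval f` and `v (T ^ i - f ^ i) ≤ ρ v (T - f)` for `i ≥ 2`, `v T ≤ ρ`, `v f ≤ ρ`; so `v (T_k - f) ≤ ρ ^ (k + 1)`.
`exists_pw`: `Additive Mˣ` is divisible (`IsAlgClosed.exists_pow_nat_eq`), so the homomorphism `ℤ → Additive Mˣ`, `1 ↦ x`, extends along `ℤ → ℚ` (`Module.Baer.of_divisible`, `Module.Baer.extension_property_addMonoidHom`).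
-/

open Polynomial

namespace Pool.Agent.Work.MP_e120ef_ag.H.MQ

variable {M : Type} [Field M] {V : Set (UV M)}

theorem Apx.of_mem {A : Set M} {f : M} (h : f ∈ A) : Apx V A f := by
  intro ε hε
  exact ⟨f, h, fun v _ => by rw [sub_self, v.zero]; exact hε⟩

theorem Apx.mono {V' : Set (UV M)} {A A' : Set M} {f : M} (h : Apx V A f) (hV : V' ⊆ V)
    (hA : A ⊆ A') : Apx V' A' f := by
  intro ε hε
  obtain ⟨p, hp, h1⟩ := h ε hε
  exact ⟨p, hA hp, fun v hv => h1 v (hV hv)⟩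

theorem Apx.lim {A : Set M} {f : M}
    (h : ∀ ε : ℝ, 0 < ε → ∃ g, Apx V A g ∧ ∀ v ∈ V, v (f - g) < ε) : Apx V A f := by
  intro ε hε
  obtain ⟨g, hg, h1⟩ := h ε hε
  obtain ⟨p, hp, h2⟩ := hg ε hε
  exact ⟨p, hp, fun v hv => v.tri_lt g (h1 v hv) (h2 v hv)⟩

theorem Apx_lt (hV : V.Finite) (g : UV M → ℝ) {c : ℝ} (hc : 0 < c) (h : ∀ v ∈ V, g v < c) :
    ∃ ρ : ℝ, 0 ≤ ρ ∧ ρ < c ∧ ∀ v ∈ V, g v ≤ ρ := by
  rcases V.eq_empty_or_nonempty with rfl | hne
  · exact ⟨0, le_rfl, hc, fun v hv => absurd hv (Set.notMem_empty v)⟩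
  · obtain ⟨a, ha, h1⟩ := Set.exists_max_image V g hV hne
    exact ⟨max 0 (g a), le_max_left _ _, max_lt hc (h a ha),
      fun v hv => (h1 v hv).trans (le_max_right _ _)⟩

theorem Apx_bdd (hV : V.Finite) (g : UV M → ℝ) : ∃ C : ℝ, 0 < C ∧ ∀ v ∈ V, g v ≤ C := by
  obtain ⟨C, hC⟩ := (hV.image g).bddAbove
  exact ⟨max 1 C, lt_max_of_lt_left one_pos,
    fun v hv => (hC ⟨v, hv, rfl⟩).trans (le_max_right _ _)⟩

theorem Apx_mul (hV : V.Finite) (A : Subring M) {f g : M} (hf : Apx V A f) (hg : Apx V A g) :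
    Apx V A (f * g) := by
  intro ε hε
  obtain ⟨C, hC, h1⟩ := Apx_bdd hV fun v => max (v f) (v g)
  obtain ⟨p, hp, h2⟩ := hf (ε / C) (div_pos hε hC)
  obtain ⟨q, hq, h3⟩ := hg (min C (ε / C)) (lt_min hC (div_pos hε hC))
  refine ⟨p * q, A.mul_mem hp hq, fun v hv => ?_⟩
  have e : f * g - p * q = f * (g - q) + q * (f - p) := by ring
  have a1 : v f ≤ C := (le_max_left _ _).trans (h1 v hv)
  have a2 : v g ≤ C := (le_max_right _ _).trans (h1 v hv)
  have a3 : v q ≤ C := by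
    have := v.sub_le' a2 ((h3 v hv).le.trans (min_le_left _ _))
    rwa [sub_sub_cancel] at this
  have key : ∀ a b : M, v a ≤ C → v b < ε / C → v (a * b) < ε := by
    intro a b ha hb
    rw [v.mul]
    calc v a * v b ≤ C * v b := mul_le_mul_of_nonneg_right ha (v.nonneg b)
      _ < ε := by rwa [lt_div_iff₀ hC, mul_comm] at hb
  rw [e]
  exact v.add_lt (key _ _ a1 ((h3 v hv).trans_le (min_le_right _ _))) (key _ _ a3 (h2 v hv))

theorem exists_apxRing (hV : V.Finite) (A : Subring M) :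
    ∃ R : Subring M, ∀ f, f ∈ R ↔ Apx V A f := by
  refine ⟨{ carrier := {f | Apx V A f}
            mul_mem' := fun ha hb => Apx_mul hV A ha hb
            one_mem' := Apx.of_mem A.one_mem
            add_mem' := fun {a b} ha hb ε hε => ?_
            zero_mem' := Apx.of_mem A.zero_mem
            neg_mem' := fun {a} ha ε hε => ?_ }, fun f => Iff.rfl⟩
  · obtain ⟨p, hp, h1⟩ := ha ε hε
    obtain ⟨q, hq, h2⟩ := hb ε hε
    refine ⟨p + q, A.add_mem hp hq, fun v hv => ?_⟩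
    rw [add_sub_add_comm]
    exact v.add_lt (h1 v hv) (h2 v hv)
  · obtain ⟨p, hp, h1⟩ := ha ε hε
    refine ⟨-p, A.neg_mem hp, fun v hv => ?_⟩
    rw [neg_sub_neg, v.sub_comm]
    exact h1 v hv

theorem apx_inv (hV : V.Finite) (A : Subring M) {e : M} (he : Apx V A e) (h : ∀ v ∈ V, v e < 1) :
    Apx V A (1 - e)⁻¹ := by
  obtain ⟨R, hR⟩ := exists_apxRing hV A
  rcases V.eq_empty_or_nonempty with rfl | ⟨v0, hv0⟩
  · exact fun ε _ => ⟨0, A.zero_mem, fun v hv => absurd hv (Set.notMem_empty v)⟩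
  have h1 : ∀ v ∈ V, v (1 - e) = 1 := fun v hv => by
    rw [v.sub_eq_left (by rw [v.one]; exact h v hv), v.one]
  have h0 : 1 - e ≠ 0 := v0.ne_zero_of_pos (by rw [h1 v0 hv0]; exact one_pos)
  obtain ⟨ρ, r0, r1, r2⟩ := Apx_lt hV (fun v => v e) one_pos h
  refine Apx.lim fun ε hε => ?_
  obtain ⟨n, hn⟩ := exists_pow_lt_of_lt_one hε r1
  refine ⟨∑ i ∈ Finset.range n, e ^ i,
    (hR _).1 (R.sum_mem fun i _ => R.pow_mem ((hR e).2 he) i), fun v hv => ?_⟩
  have e1 : (1 - e)⁻¹ - ∑ i ∈ Finset.range n, e ^ i = e ^ n * (1 - e)⁻¹ := by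
    have := geom_sum_mul_neg e n
    field_simp
    linear_combination -this
  rw [e1, v.mul, v.inv, h1 v hv, inv_one, mul_one, v.pow]
  exact (pow_le_pow_left₀ (v.nonneg e) (r2 v hv) n).trans_lt hn

/-- the inverse of an element with an invertible leading term -/
theorem apx_inv' (hV : V.Finite) (A : Subring M) {f r : M} (hf : Apx V A f) (hr : Apx V A r⁻¹)
    (h : ∀ v ∈ V, v.E f r) : Apx V A f⁻¹ := by
  obtain ⟨R, hR⟩ := exists_apxRing hV A
  rcases V.eq_empty_or_nonempty with rfl | ⟨v0, hv0⟩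
  · exact fun ε _ => ⟨0, A.zero_mem, fun v hv => absurd hv (Set.notMem_empty v)⟩
  have hr0 := (h v0 hv0).ne_zero'
  have hf0 := (h v0 hv0).ne_zero
  have h1 := apx_inv hV A (e := 1 - f * r⁻¹)
    ((hR _).1 (R.sub_mem R.one_mem (R.mul_mem ((hR _).2 hf) ((hR _).2 hr)))) fun v hv => by
      rw [v.sub_comm, ← div_eq_mul_inv]
      exact (UV.E_iff_div hr0).1 (h v hv)
  have e : f⁻¹ = (1 - (1 - f * r⁻¹))⁻¹ * r⁻¹ := by
    rw [sub_sub_cancel]
    field_simp
  rw [e]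
  exact Apx_mul hV A h1 hr

theorem Apx_pow_sub (v : UV M) {a b : M} {ρ : ℝ} (h0 : 0 ≤ ρ) (ha : v a ≤ ρ) (hb : v b ≤ ρ)
    (i : ℕ) : v (a ^ (i + 1) - b ^ (i + 1)) ≤ ρ ^ i * v (a - b) := by
  induction i with
  | zero => simp
  | succ i ih =>
    have e : a ^ (i + 1 + 1) - b ^ (i + 1 + 1) =
        a * (a ^ (i + 1) - b ^ (i + 1)) + b ^ (i + 1) * (a - b) := by ring
    rw [e]
    refine v.add_le ?_ ?_
    · rw [v.mul, pow_succ' ρ, mul_assoc]
      exact mul_le_mul ha ih (v.nonneg _) h0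
    · rw [v.mul, v.pow]
      exact mul_le_mul_of_nonneg_right (pow_le_pow_left₀ (v.nonneg b) hb _) (v.nonneg _)

theorem Apx_step (v : UV M) {P : M[X]} {f T : M} {ρ : ℝ} (h0 : 0 ≤ ρ) (h1 : ρ ≤ 1)
    (hP : ∀ i, v (P.coeff i) ≤ 1) (h₁ : P.coeff 1 = 1) (h₀ : P.eval f = 0) (hf : v f ≤ ρ)
    (hT : v T ≤ ρ) : v (f - (T - P.eval T)) ≤ ρ * v (f - T) := by
  have e : f - (T - P.eval T) = (X - P).eval f - (X - P).eval T := by
    rw [eval_sub, eval_sub, eval_X, eval_X, h₀, sub_zero]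
  rw [e, eval_eq_sum_range, eval_eq_sum_range, ← Finset.sum_sub_distrib]
  have hn : 0 ≤ ρ * v (f - T) := mul_nonneg h0 (v.nonneg _)
  refine v.sum_le _ hn fun i _ => ?_
  rw [← mul_sub]
  match i with
  | 0 => rwa [pow_zero, pow_zero, sub_self, mul_zero, v.zero]
  | 1 => rwa [coeff_sub, coeff_X_one, h₁, sub_self, zero_mul, v.zero]
  | i + 2 =>
    rw [coeff_sub, coeff_X_of_ne_one (by omega), zero_sub, v.mul, v.neg]
    refine (mul_le_of_le_one_left (v.nonneg _) (hP _)).trans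
      ((Apx_pow_sub v h0 hf hT (i + 1)).trans (mul_le_mul_of_nonneg_right ?_ (v.nonneg _)))
    exact pow_le_of_le_one h0 h1 (by omega)

theorem apx_hen (hV : V.Finite) (A : Subring M) {P : M[X]} {f : M}
    (hP : ∀ i, Apx V A (P.coeff i)) (hP' : ∀ i, ∀ v ∈ V, v (P.coeff i) ≤ 1) (h₁ : P.coeff 1 = 1)
    (h₀ : P.eval f = 0) (hf : ∀ v ∈ V, v f < 1) : Apx V A f := by
  obtain ⟨R, hR⟩ := exists_apxRing hV A
  obtain ⟨ρ, r0, r1, r2⟩ := Apx_lt hV (fun v => v f) one_pos hf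
  have key : ∀ k : ℕ, ∃ T ∈ R, ∀ v ∈ V, v (f - T) ≤ ρ ^ (k + 1) := by
    intro k
    induction k with
    | zero => exact ⟨0, R.zero_mem, fun v hv => by rw [sub_zero, zero_add, pow_one]; exact r2 v hv⟩
    | succ k ih =>
      obtain ⟨T, hT, h1⟩ := ih
      refine ⟨T - P.eval T, R.sub_mem hT ?_, fun v hv => ?_⟩
      · rw [eval_eq_sum_range]
        exact R.sum_mem fun i _ => R.mul_mem ((hR _).2 (hP i)) (R.pow_mem hT i)
      · have h2 : v T ≤ ρ := by
          have := v.sub_le' (r2 v hv) ((h1 v hv).trans (pow_le_of_le_one r0 r1.le (by omega)))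
          rwa [sub_sub_cancel] at this
        refine (Apx_step v r0 r1.le (fun i => hP' i v hv) h₁ h₀ (r2 v hv) h2).trans ?_
        rw [pow_succ' ρ (k + 1)]
        exact mul_le_mul_of_nonneg_left (h1 v hv) r0
  refine Apx.lim fun ε hε => ?_
  obtain ⟨n, hn⟩ := exists_pow_lt_of_lt_one hε r1
  obtain ⟨T, hT, h1⟩ := key n
  exact ⟨T, (hR T).1 hT, fun v hv => ((h1 v hv).trans
    (pow_le_pow_of_le_one r0 r1.le (Nat.le_succ n))).trans_lt hn⟩

theorem exists_pw [IsAlgClosed M] {x : M} (hx : x ≠ 0) : ∃ E, Pw x E := by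
  letI : DivisibleBy (Additive Mˣ) ℕ := divisibleByOfSMulRightSurj _ _ fun {n} hn a => by
    obtain ⟨z, hz⟩ := IsAlgClosed.exists_pow_nat_eq ((Additive.toMul a : Mˣ) : M)
      (Nat.pos_of_ne_zero hn)
    have hz0 : z ≠ 0 := by
      rintro rfl
      rw [zero_pow hn] at hz
      exact (Additive.toMul a).ne_zero hz.symm
    refine ⟨Additive.ofMul (Units.mk0 z hz0), ?_⟩
    apply Additive.toMul.injective
    apply Units.ext
    simpa using hz
  letI : DivisibleBy (Additive Mˣ) ℤ := AddGroup.divisibleByIntOfDivisibleByNat _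
  obtain ⟨φ, hφ⟩ := (Module.Baer.of_divisible (Additive Mˣ)).extension_property_addMonoidHom
    (Int.castAddHom ℚ) Int.cast_injective
    (zmultiplesHom (Additive Mˣ) (Additive.ofMul (Units.mk0 x hx)))
  refine ⟨fun q => ((Additive.toMul (φ q) : Mˣ) : M), fun q r => by simp, by simp, ?_⟩
  have := DFunLike.congr_fun hφ 1
  simp only [AddMonoidHom.comp_apply, Int.coe_castAddHom, Int.cast_one, zmultiplesHom_apply,
    one_zsmul] at this
  rw [this]
  rfl

variable {x : M} {E : ℚ → M}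

theorem Pw.ne_zero (h : Pw x E) (q : ℚ) : E q ≠ 0 := by
  have := h.add q (-q)
  rw [add_neg_cancel, h.zero] at this
  exact left_ne_zero_of_mul_eq_one this.symm

theorem Pw.neg (h : Pw x E) (q : ℚ) : E (-q) = (E q)⁻¹ := by
  have := h.add q (-q)
  rw [add_neg_cancel, h.zero] at this
  exact eq_inv_of_mul_eq_one_right this.symm

theorem Apx_pw_pow (h : Pw x E) (q : ℚ) (n : ℕ) : E q ^ n = E (n * q) := by
  induction n with
  | zero => rw [pow_zero, Nat.cast_zero, zero_mul, h.zero]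
  | succ n ih => rw [pow_succ, ih, ← h.add, Nat.cast_succ, add_mul, one_mul]

theorem Pw.zpow (h : Pw x E) (q : ℚ) (n : ℤ) : E q ^ n = E (n * q) := by
  obtain ⟨n, rfl | rfl⟩ := n.eq_nat_or_neg
  · rw [zpow_natCast, Int.cast_natCast, Apx_pw_pow h]
  · rw [zpow_neg, zpow_natCast, Int.cast_neg, Int.cast_natCast, neg_mul, h.neg, Apx_pw_pow h]

theorem Pw.int (h : Pw x E) (n : ℤ) : E n = x ^ n := by
  rw [← h.one, h.zpow, mul_one]

theorem Pw.pow_den (h : Pw x E) (q : ℚ) : E q ^ q.den = x ^ q.num := by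
  rw [Apx_pw_pow h, Rat.den_mul_eq_num, h.int]

theorem Pw.der [CharZero M] (h : Pw x E) {d : M →+ M} (hd : Lb d) (q : ℚ) :
    d (E q) = q * E q * (d x / x) := by
  let L : ℚ →+ M := AddMonoidHom.mk' (fun q => d (E q) / E q) fun q r => by
    have h1 := h.ne_zero q
    have h2 := h.ne_zero r
    rw [h.add, hd]
    field_simp
    ring
  have h1 : L q = q • L 1 := by rw [← map_rat_smul L q 1, smul_eq_mul, mul_one]
  have h2 : d (E q) / E q = q * (d x / x) := by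
    rw [Rat.smul_def] at h1
    rw [← h.one]
    exact h1
  rw [div_eq_iff (h.ne_zero q)] at h2
  rw [h2]
  ring

/-- finite sums `∑ c_q E q` form a ring -/
theorem Pw.exists_ring (h : Pw x E) (K : Type) [Field K] [Algebra K M] :
    ∃ A : Subring M, ∀ f, f ∈ A ↔ f ∈ Submodule.span K (Set.range E) := by
  refine ⟨((Submodule.span K (Set.range E)).toSubalgebra
    (Submodule.subset_span ⟨0, h.zero⟩) fun a b ha hb => ?_).toSubring, fun f => Iff.rfl⟩
  have h1 := Submodule.mul_mem_mul ha hb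
  rw [Submodule.span_mul_span] at h1
  refine Submodule.span_mono ?_ h1
  rintro _ ⟨_, ⟨q, rfl⟩, _, ⟨r, rfl⟩, rfl⟩
  exact ⟨q + r, h.add q r⟩

end Pool.Agent.Work.MP_e120ef_ag.H.MQ
end

-- merged part: Pool.Agent.Work.MP_e120ef_ag.F.Fm1
section
/-!
# Frames

Plans.  `mem_F` is `mem_algebraicClosure_iff`.  `x_trans`, `y_trans`: `𝔉.basis.1` with `AlgebraicIndependent.option_iff` or `algebraicIndependent_fin_cons`-type lemmas (`AlgebraicIndependent.transcendental_adjoin`), `Transcendental.algebraicClosure`, `IntermediateField.isAlgebraic_adjoin_iff`.  `alg`, `alg_xy`: `IsTranscendenceBasis.isAlgebraic_field`, then enlarge the base (`IsAlgebraic.tower_top` or directly with polynomials).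
`dep3`: `IsTranscendenceBasis.cardinalMk_eq_trdeg`, `AlgebraicIndependent.cardinalMk_le_trdeg`.  `chain`: `der_unique` (in `Der.lean`) for `d - (d x) • pd - (d y - G * d x) • dy`.  `bracket`: `der_unique` for `⁅pd, dy⁆ + Δ • dy`.
`fix_Kx`: `IntermediateField.adjoin_induction`; `map_F`, `period`: `τ` permutes the roots in `M` of the minimal polynomial over `Kx`; take `N = (card of the root set)!`.
`exists_fm`: `exists_der_ext` with `F₀ = K`, `δ = 0` gives `dy`.  `exists_basis`: if `x` and `y` were both algebraic over `K[x']` the transcendence degree would be at most one; an independent family of cardinality the transcendence degree is a basis (`AlgebraicIndependent.isTranscendenceBasis_of_trdeg_le_of_finite` or similar).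
-/

namespace Pool.Agent.Work.MP_e120ef_ag.H.MQ

theorem Fm1_iff {M : Type} [Field M] {N : Subfield M} {f : M} : IsAlgebraic N f ↔
    ∃ p : Polynomial M, p ≠ 0 ∧ (∀ i, p.coeff i ∈ N) ∧ p.eval f = 0 := by
  constructor
  · rintro ⟨p, hp, h⟩
    refine ⟨p.map (algebraMap N M), Polynomial.map_ne_zero hp, fun i => ?_, ?_⟩
    · rw [Polynomial.coeff_map]
      exact (p.coeff i).2
    · rw [Polynomial.eval_map_algebraMap, h]
  · rintro ⟨p, hp, h1, h2⟩
    have h3 : p ∈ Polynomial.lifts (algebraMap N M) :=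
      (Polynomial.lifts_iff_coeff_lifts p).2 fun i => ⟨⟨_, h1 i⟩, rfl⟩
    obtain ⟨q, rfl⟩ := (Polynomial.mem_lifts p).1 h3
    refine ⟨q, fun h => hp (by rw [h, Polynomial.map_zero]), ?_⟩
    rwa [Polynomial.eval_map_algebraMap] at h2

theorem Fm1_mono {M : Type} [Field M] {N N' : Subfield M} (h : N ≤ N') {f : M}
    (hf : IsAlgebraic N f) : IsAlgebraic N' f := by
  obtain ⟨p, hp, h1, h2⟩ := Fm1_iff.1 hf
  exact Fm1_iff.2 ⟨p, hp, fun i => h (h1 i), h2⟩

theorem Fm1_two {K M : Type} [Field K] [Field M] [Algebra K M] {a b : M} :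
    AlgebraicIndependent K ![a, b] ↔
      Transcendental K a ∧ Transcendental (Algebra.adjoin K {a}) b := by
  rw [AlgebraicIndependent.iff_transcendental_adjoin_image (1 : Fin 2)]
  have e : (![a, b] : Fin 2 → M) '' {1}ᶜ = {a} := by
    ext z
    constructor
    · rintro ⟨i, hi, rfl⟩
      fin_cases i
      · rfl
      · exact absurd rfl hi
    · rintro rfl
      exact ⟨0, by simp, rfl⟩
  rw [e]
  refine and_congr ?_ Iff.rfl
  have : Subsingleton {j : Fin 2 // j ≠ 1} := ⟨fun i j => Subtype.ext (by omega)⟩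
  exact algebraicIndependent_singleton_iff (⟨0, by simp⟩ : {j : Fin 2 // j ≠ 1})

namespace Fm

variable {K M : Type} [Field K] [Field M] [Algebra K M] (𝔉 : Fm K M)

theorem alg_mem_Kx (c : K) : algebraMap K M c ∈ 𝔉.Kx := by
  exact (IntermediateField.adjoin K {𝔉.x}).algebraMap_mem c

theorem x_mem_Kx : 𝔉.x ∈ 𝔉.Kx := by
  exact IntermediateField.mem_adjoin_simple_self K 𝔉.x

theorem mem_F {f : M} : f ∈ 𝔉.F ↔ IsAlgebraic 𝔉.Kx f := by
  exact mem_algebraicClosure_iff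

theorem Kx_le_F : 𝔉.Kx ≤ 𝔉.F := by
  intro f hf
  exact 𝔉.mem_F.2 (isAlgebraic_algebraMap (⟨f, hf⟩ : 𝔉.Kx))

theorem alg_mem_F (c : K) : algebraMap K M c ∈ 𝔉.F := 𝔉.Kx_le_F (𝔉.alg_mem_Kx c)

theorem x_mem_F : 𝔉.x ∈ 𝔉.F := 𝔉.Kx_le_F 𝔉.x_mem_Kx

theorem mem_F_of_alg {f : M} (h : IsAlgebraic 𝔉.F f) : f ∈ 𝔉.F := by
  have h' : IsAlgebraic (algebraicClosure 𝔉.Kx M) f := h
  exact mem_algebraicClosure_iff'.2 (isIntegral_trans f h'.isIntegral)

theorem mem_F_of_root {p : Polynomial M} (hp : p ≠ 0) (h : ∀ i, p.coeff i ∈ 𝔉.F) {f : M}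
    (hf : p.eval f = 0) : f ∈ 𝔉.F := by
  exact 𝔉.mem_F_of_alg (Fm1_iff.2 ⟨p, hp, h, hf⟩)

theorem mem_F_of_pow {f : M} {n : ℕ} (hn : n ≠ 0) (h : f ^ n ∈ 𝔉.F) : f ∈ 𝔉.F := by
  exact 𝔉.mem_F.2 ((𝔉.mem_F.1 h).of_pow (Nat.pos_of_ne_zero hn))

theorem F_closed [IsAlgClosed M] : IsAlgClosed 𝔉.F := by
  exact (algebraicClosure.isAlgClosure 𝔉.Kx M).isAlgClosed

theorem x_trans : Transcendental K 𝔉.x := by
  exact (Fm1_two.1 𝔉.basis.1).1

theorem y_trans : Transcendental 𝔉.F 𝔉.y := by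
  have h : Transcendental (IntermediateField.adjoin K {𝔉.x}) 𝔉.y :=
    IntermediateField.transcendental_adjoin_iff.2 (Fm1_two.1 𝔉.basis.1).2
  intro h'
  exact h (𝔉.mem_F.1 (𝔉.mem_F_of_alg h'))

theorem y_sub_ne {b : M} (hb : b ∈ 𝔉.F) : 𝔉.y - b ≠ 0 := by
  intro h
  refine 𝔉.y_trans ?_
  rw [sub_eq_zero.1 h]
  exact isAlgebraic_algebraMap (⟨b, hb⟩ : 𝔉.F)

theorem Fm1_xy (f : M) :
    IsAlgebraic (IntermediateField.adjoin K {𝔉.x, 𝔉.y}).toSubfield f := by
  have h := 𝔉.basis.isAlgebraic_field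
  rw [Matrix.range_cons, Matrix.range_cons, Matrix.range_empty, Set.union_empty,
    Set.singleton_union] at h
  exact h.isAlgebraic f

theorem Fm1_alg {N : Subfield M} (hN : 𝔉.Kx ≤ N) (f : M) :
    IsAlgebraic (IntermediateField.adjoin N {𝔉.y}) f := by
  refine Fm1_mono (N' := (IntermediateField.adjoin N {𝔉.y}).toSubfield) ?_ (𝔉.Fm1_xy f)
  have h : ∀ z ∈ N, z ∈ IntermediateField.adjoin N {𝔉.y} := fun z hz =>
    (IntermediateField.adjoin N {𝔉.y}).algebraMap_mem ⟨z, hz⟩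
  rw [IntermediateField.adjoin_toSubfield, Subfield.closure_le]
  rintro z (⟨c, rfl⟩ | rfl | rfl)
  · exact h _ (hN (𝔉.alg_mem_Kx c))
  · exact h _ (hN 𝔉.x_mem_Kx)
  · exact IntermediateField.mem_adjoin_simple_self N 𝔉.y

theorem alg (f : M) : IsAlgebraic (IntermediateField.adjoin 𝔉.F {𝔉.y}) f := by
  exact 𝔉.Fm1_alg 𝔉.Kx_le_F f

theorem alg_Kx (f : M) : IsAlgebraic (IntermediateField.adjoin 𝔉.Kx {𝔉.y}) f := by
  exact 𝔉.Fm1_alg le_rfl f

theorem alg_xy (f : M) : IsAlgebraic (IntermediateField.adjoin K {𝔉.x, 𝔉.y}) f := by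
  exact 𝔉.Fm1_xy f

include 𝔉 in
theorem dep3 (a b c : M) :
    ∃ Q : MvPolynomial (Fin 3) K, Q ≠ 0 ∧ MvPolynomial.aeval ![a, b, c] Q = 0 := by
  by_contra h
  have h1 : AlgebraicIndependent K ![a, b, c] :=
    algebraicIndependent_iff.2 fun Q hQ => by_contra fun h0 => h ⟨Q, h0, hQ⟩
  have h2 := h1.cardinalMk_le_trdeg
  rw [← 𝔉.basis.cardinalMk_eq_trdeg, Cardinal.mk_fin, Cardinal.mk_fin, Nat.cast_le] at h2
  omega

/-- an element of `F` satisfies an equation over `K[x]` -/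
theorem dep2 {f : M} (hf : f ∈ 𝔉.F) :
    ∃ Q : MvPolynomial (Fin 2) K, Q ≠ 0 ∧ MvPolynomial.aeval ![𝔉.x, f] Q = 0 := by
  by_contra h
  have h1 : AlgebraicIndependent K ![𝔉.x, f] :=
    algebraicIndependent_iff.2 fun Q hQ => by_contra fun h0 => h ⟨Q, h0, hQ⟩
  exact IntermediateField.transcendental_adjoin_iff.2 (Fm1_two.1 h1).2 (𝔉.mem_F.1 hf)

theorem fix_Kx {τ : M ≃ₐ[K] M} (hτ : τ 𝔉.x = 𝔉.x) {f : M} (hf : f ∈ 𝔉.Kx) : τ f = f := by
  induction hf using IntermediateField.adjoin_induction with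
  | mem z hz => rw [hz, hτ]
  | algebraMap c => exact τ.commutes c
  | add a b _ _ h1 h2 => rw [map_add, h1, h2]
  | inv a _ h1 => rw [map_inv₀, h1]
  | mul a b _ _ h1 h2 => rw [map_mul, h1, h2]

theorem Fm1_root {τ : M ≃ₐ[K] M} (hτ : τ 𝔉.x = 𝔉.x) {p : Polynomial M}
    (h : ∀ i, p.coeff i ∈ 𝔉.Kx) {f : M} (hf : p.eval f = 0) : p.eval (τ f) = 0 := by
  have e : p.map (τ : M →+* M) = p := by
    ext i
    rw [Polynomial.coeff_map]
    exact 𝔉.fix_Kx hτ (h i)
  have e' := Polynomial.eval_map_apply (p := p) (τ : M →+* M) f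
  rw [e, hf, map_zero] at e'
  exact e'

theorem map_F {τ : M ≃ₐ[K] M} (hτ : τ 𝔉.x = 𝔉.x) {f : M} (hf : f ∈ 𝔉.F) : τ f ∈ 𝔉.F := by
  obtain ⟨p, hp, h1, h2⟩ := Fm1_iff.1 (𝔉.mem_F.1 hf)
  exact 𝔉.mem_F.2 (Fm1_iff.2 ⟨p, hp, h1, 𝔉.Fm1_root hτ h1 h2⟩)

theorem period {β : M} (hβ : β ∈ 𝔉.F) :
    ∃ N : ℕ, N ≠ 0 ∧ ∀ τ : M ≃ₐ[K] M, τ 𝔉.x = 𝔉.x → (τ ^ N) β = β := by
  classical
  obtain ⟨p, hp, h1, h2⟩ := Fm1_iff.1 (𝔉.mem_F.1 hβ)
  refine ⟨(Fintype.card (Equiv.Perm p.roots.toFinset)), Fintype.card_ne_zero, fun τ hτ => ?_⟩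
  have hm : ∀ z, z ∈ p.roots.toFinset ↔ p.eval z = 0 := fun z => by
    rw [Multiset.mem_toFinset, Polynomial.mem_roots hp, Polynomial.IsRoot.def]
  have hτ' : τ.symm 𝔉.x = 𝔉.x := by
    conv_lhs => rw [← hτ]
    exact τ.symm_apply_apply _
  let σ : Equiv.Perm p.roots.toFinset := Equiv.Perm.subtypePerm τ.toEquiv fun z => by
    rw [hm, hm]
    refine ⟨fun h => ?_, fun h => 𝔉.Fm1_root hτ h1 h⟩
    have := 𝔉.Fm1_root hτ' h1 h
    rwa [show τ.symm (τ.toEquiv z) = z from τ.symm_apply_apply z] at this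
  have key : ∀ (n : ℕ) (z : p.roots.toFinset), (((σ ^ n) z : p.roots.toFinset) : M) =
      (τ ^ n) z := by
    intro n
    induction n with
    | zero => intro z; rfl
    | succ n ih =>
      intro z
      rw [pow_succ, pow_succ, Equiv.Perm.mul_apply, ih, AlgEquiv.mul_apply]
      rfl
  rw [← key _ ⟨β, (hm β).2 h2⟩, pow_card_eq_one]
  rfl

/-- the conjugates of `β` form a finite set -/
theorem orbit_finite {β : M} (hβ : β ∈ 𝔉.F) :
    {b | ∃ τ : M ≃ₐ[K] M, τ 𝔉.x = 𝔉.x ∧ τ β = b}.Finite := by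
  obtain ⟨p, hp, h1, h2⟩ := Fm1_iff.1 (𝔉.mem_F.1 hβ)
  refine (Polynomial.finite_setOfPred_isRoot hp).subset ?_
  rintro _ ⟨τ, hτ, rfl⟩
  exact 𝔉.Fm1_root hτ h1 h2

include 𝔉 in
theorem exists_basis {x' : M} (hx : Transcendental K x') :
    ∃ y', IsTranscendenceBasis K ![x', y'] := by
  have hc : Algebra.trdeg K M = 2 := by
    rw [← 𝔉.basis.cardinalMk_eq_trdeg, Cardinal.mk_fin]
    rfl
  have h1 : ¬ Algebra.IsAlgebraic (Algebra.adjoin K {x'}) M := fun h => by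
    have h2 := Algebra.IsAlgebraic.trdeg_le_cardinalMk K ({x'} : Set M)
    rw [hc, Cardinal.mk_singleton] at h2
    exact absurd h2 (by norm_num)
  obtain ⟨y', hy⟩ := Algebra.transcendental_iff_not_isAlgebraic.2 h1
  refine ⟨y', (Fm1_two.2 ⟨hx, hy⟩).isTranscendenceBasis_of_trdeg_le_of_finite ?_⟩
  rw [hc, Cardinal.mk_fin]
  rfl

variable [CharZero K] [CharZero M]

set_option linter.unusedSectionVars false

omit [CharZero K] [CharZero M] in
theorem Fm1_Kx : 𝔉.Kx = Subfield.closure (Set.range (algebraMap K M) ∪ {𝔉.x}) :=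
  IntermediateField.adjoin_toSubfield K _

theorem dy_F {f : M} (hf : f ∈ 𝔉.F) : 𝔉.dy f = 0 := by
  refine (lb_dA 𝔉.dy).zero_of_alg (N₀ := 𝔉.Kx) (fun a ha => ?_) (𝔉.mem_F.1 hf)
  rw [dA_apply]
  induction ha using IntermediateField.adjoin_induction with
  | mem z hz => rw [hz, 𝔉.dy_x]
  | algebraMap c => exact 𝔉.dy.map_algebraMap c
  | add a b _ _ h1 h2 => rw [map_add, h1, h2, add_zero]
  | inv a _ h1 => rw [Derivation.leibniz_inv, h1, smul_zero]
  | mul a b _ _ h1 h2 => rw [Derivation.leibniz, h1, h2, smul_zero, smul_zero, add_zero]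

theorem pd_Kx {f : M} (hf : f ∈ 𝔉.Kx) : 𝔉.pd f ∈ 𝔉.Kx := by
  refine (lb_dA 𝔉.pd).mem_closure (s := Set.range (algebraMap K M) ∪ {𝔉.x}) ?_ ?_
    (𝔉.Fm1_Kx ▸ hf)
  · rw [𝔉.Fm1_Kx]
    exact Subfield.subset_closure
  · rintro a (⟨c, rfl⟩ | rfl)
    · rw [dA_apply, Derivation.map_algebraMap]
      exact zero_mem _
    · rw [dA_apply, 𝔉.pd_x]
      exact one_mem _

theorem pd_F {f : M} (hf : f ∈ 𝔉.F) : 𝔉.pd f ∈ 𝔉.F := by
  exact (lb_dA 𝔉.pd).mem_of_alg 𝔉.Kx_le_F (fun a ha => 𝔉.Kx_le_F (𝔉.pd_Kx ha)) hf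
    (𝔉.mem_F.1 hf)

theorem map_pd {τ : M ≃ₐ[K] M} (hτ : τ 𝔉.x = 𝔉.x) {f : M} (hf : f ∈ 𝔉.F) :
    τ (𝔉.pd f) = 𝔉.pd (τ f) := by
  refine ((lb_dA 𝔉.pd).comm (N₀ := 𝔉.Kx) (τ : M →+* M) (fun a ha => ?_) (𝔉.mem_F.1 hf)).symm
  change 𝔉.pd (τ a) = τ (𝔉.pd a)
  rw [𝔉.fix_Kx hτ ha, 𝔉.fix_Kx hτ (𝔉.pd_Kx ha)]

theorem chain (d : Derivation K M M) (f : M) :
    d f = d 𝔉.x * 𝔉.pd f + (d 𝔉.y - 𝔉.G * d 𝔉.x) * 𝔉.dy f := by
  have h := der_unique 𝔉.basis (d - (d 𝔉.x) • 𝔉.pd - (d 𝔉.y - 𝔉.G * d 𝔉.x) • 𝔉.dy) (by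
    intro i
    fin_cases i
    · simp [𝔉.pd_x, 𝔉.dy_x]
    · simp [𝔉.dy_y, G]
      ring)
  have h1 := DFunLike.congr_fun h f
  simp only [Derivation.sub_apply, Derivation.smul_apply, smul_eq_mul,
    Derivation.zero_apply] at h1
  linear_combination h1

theorem bracket (f : M) : 𝔉.pd (𝔉.dy f) - 𝔉.dy (𝔉.pd f) = -𝔉.Δ * 𝔉.dy f := by
  have h := der_unique 𝔉.basis (⁅𝔉.pd, 𝔉.dy⁆ + 𝔉.Δ • 𝔉.dy) (by
    intro i
    fin_cases i
    · simp [Derivation.commutator_apply, 𝔉.pd_x, 𝔉.dy_x]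
    · simp [Derivation.commutator_apply, 𝔉.dy_y, G, Δ])
  have h1 := DFunLike.congr_fun h f
  simp only [Derivation.add_apply, Derivation.commutator_apply, Derivation.smul_apply,
    smul_eq_mul, Derivation.zero_apply] at h1
  linear_combination h1

omit 𝔉 in
theorem exists_fm {x y : M} (h : IsTranscendenceBasis K ![x, y]) (pd : Derivation K M M)
    (hx : pd x = 1) : ∃ 𝔉 : Fm K M, 𝔉.x = x ∧ 𝔉.y = y ∧ 𝔉.pd = pd := by
  obtain ⟨D, -, hD⟩ := exists_der_ext (Algebra.ofId K M) 0 ![x, y]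
    (fun P hP => algebraicIndependent_iff.1 h.1 P hP) ![0, 1]
  exact ⟨⟨x, y, pd, D, h, hx, hD 0, hD 1⟩, rfl, rfl, rfl⟩

end Fm

end Pool.Agent.Work.MP_e120ef_ag.H.MQ
end

-- merged part: Pool.Agent.Work.MP_e120ef_ag.F.TPa
section
/-!
# Slopes at a tame point

Plans.  `two_terms`: take a term of maximal size; if all others were smaller the sum would have that size.  `ds` follows.  `rescale`: `g' = g μ`, `Res' f = Res (μ f)`.
`g_lead`: `ld` for `X` (`pd X = 1`, `v a = 1`).  `ldX`: `a (X pd f - (sig f / a) f) = (a X - g) pd f + (g pd f - sig f f)` and `v (g pd f) ≤ v f`.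
`lead`: `sig f / a = j / D`, `t ^ D = X` (`IsAlgClosed.exists_pow_nat_eq`, `mem_F_of_pow`), `sig (f / t ^ j) = 0`, `lt`.  `closer`: induction on `S` (`lead` for `y - β` with `β` nearest; for `S = ∅` any `b`).
`alg_den`: `two_terms` for `∑ q_i f ^ i = 0` gives `(i - j) sig f = sig q_j - sig q_i`, and `|i - j|` divides `N!`.
-/

namespace Pool.Agent.Work.MP_e120ef_ag.H.MQ

variable {K M : Type} [Field K] [Field M] [Algebra K M]

theorem UV.two_terms (v : UV M) {ι : Type} {s : Finset ι} {w : ι → M} (h : ∑ i ∈ s, w i = 0)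
    (h' : ∃ i ∈ s, w i ≠ 0) : ∃ i ∈ s, ∃ j ∈ s, i ≠ j ∧ w i ≠ 0 ∧ w j ≠ 0 ∧ v (w i) = v (w j) ∧
      ∀ l ∈ s, v (w l) ≤ v (w i) := by
  classical
  obtain ⟨i₀, h1, h2⟩ := h'
  obtain ⟨i, hi, hm⟩ := Finset.exists_max_image s (fun i => v (w i)) ⟨i₀, h1⟩
  have h3 : 0 < v (w i) := (v.pos h2).trans_le (hm i₀ h1)
  by_contra hc
  have h4 : v (∑ j ∈ s.erase i, w j) < v (w i) := v.sum_lt _ h3 fun j hj =>
    (hm j (Finset.mem_of_mem_erase hj)).lt_of_ne fun e => hc ⟨i, hi, j, Finset.mem_of_mem_erase hj,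
      (Finset.ne_of_mem_erase hj).symm, v.ne_zero_of_pos h3, v.ne_zero_of_pos (e ▸ h3), e.symm, hm⟩
  have h5 := v.add_eq_left h4
  rw [Finset.add_sum_erase s w hi, h, v.zero] at h5
  exact h3.ne h5

namespace TP

variable {pd : Derivation K M M} (p : TP pd) {f f' : M}

theorem sig_zero : p.sig 0 = 0 := by
  simpa using p.sig_alg 0

theorem sig_one : p.sig 1 = 0 := by
  simpa using p.sig_alg 1

theorem sig_rat (q : ℚ) : p.sig q = 0 := by
  rcases eq_or_ne q 0 with rfl | h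
  · rw [Rat.cast_zero, p.sig_zero]
  · rw [p.sig_congr ((p.v.rat h).trans p.v.one.symm), p.sig_one]

theorem sig_neg (f : M) : p.sig (-f) = p.sig f := by
  exact p.sig_congr (p.v.neg f)

theorem sig_inv (f : M) : p.sig f⁻¹ = -p.sig f := by
  rcases eq_or_ne f 0 with rfl | h
  · rw [inv_zero, p.sig_zero, neg_zero]
  · have := p.sig_mul h (inv_ne_zero h)
    rw [mul_inv_cancel₀ h, p.sig_one] at this
    linarith

theorem sig_div (h : f ≠ 0) (h' : f' ≠ 0) : p.sig (f / f') = p.sig f - p.sig f' := by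
  rw [div_eq_mul_inv, p.sig_mul h (inv_ne_zero h'), p.sig_inv, sub_eq_add_neg]

theorem sig_pow (f : M) (n : ℕ) : p.sig (f ^ n) = n * p.sig f := by
  induction n with
  | zero => rw [pow_zero, p.sig_one, Nat.cast_zero, zero_mul]
  | succ n ih =>
    rcases eq_or_ne f 0 with rfl | h
    · rw [pow_succ, mul_zero, p.sig_zero, mul_zero]
    · rw [pow_succ, p.sig_mul (pow_ne_zero n h) h, ih, Nat.cast_succ, add_mul, one_mul]

theorem sig_zpow (f : M) (n : ℤ) : p.sig (f ^ n) = n * p.sig f := by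
  obtain ⟨m, rfl | rfl⟩ := Int.eq_nat_or_neg n
  · rw [zpow_natCast, p.sig_pow, Int.cast_natCast]
  · rw [zpow_neg, zpow_natCast, p.sig_inv, p.sig_pow, Int.cast_neg, Int.cast_natCast, neg_mul]

theorem sig_prod {ι : Type} (s : Finset ι) {w : ι → M} (h : ∀ i ∈ s, w i ≠ 0) :
    p.sig (∏ i ∈ s, w i) = ∑ i ∈ s, p.sig (w i) := by
  classical
  induction s using Finset.induction_on with
  | empty => rw [Finset.prod_empty, Finset.sum_empty, p.sig_one]
  | insert i s hi ih =>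
    have h1 := fun j hj => h j (Finset.mem_insert_of_mem hj)
    rw [Finset.prod_insert hi, Finset.sum_insert hi,
      p.sig_mul (h i (Finset.mem_insert_self i s)) (Finset.prod_ne_zero_iff.2 h1), ih h1]

theorem sig_E (h : p.v.E f f') : p.sig f = p.sig f' := p.sig_congr h.eq

theorem ne_of_sig (h : p.sig f ≠ 0) : f ≠ 0 := fun h0 => h (h0 ▸ p.sig_zero)

theorem ds {ι : Type} {s : Finset ι} {w : ι → M} (h' : ∃ i ∈ s, w i ≠ 0)
    (h : ∀ i ∈ s, ∀ j ∈ s, w i ≠ 0 → w j ≠ 0 → p.sig (w i) = p.sig (w j) → i = j) :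
    ∑ i ∈ s, w i ≠ 0 := by
  intro h0
  obtain ⟨i, hi, j, hj, h1, h2, h3, h4, -⟩ := p.v.two_terms h0 h'
  exact h1 (h i hi j hj h2 h3 (p.sig_congr h4))

theorem ld_le (f : M) : p.v (p.g * pd f) ≤ p.v f := by
  rcases eq_or_ne f 0 with rfl | h
  · rw [map_zero, mul_zero]
  · have h1 := p.v.add_le (p.ld h).le (b := p.sig f * f) (by
      rw [p.v.mul]
      exact mul_le_of_le_one_left (p.v.nonneg f) (p.v.rat_le _))
    rwa [sub_add_cancel] at h1

theorem pd_ne (h : p.sig f ≠ 0) : pd f ≠ 0 := by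
  intro h0
  have h1 := p.ld (p.ne_of_sig h)
  rw [h0, mul_zero, zero_sub, p.v.neg, p.v.mul, p.v.rat h, one_mul] at h1
  exact lt_irrefl _ h1

theorem alg_den {q : Polynomial M} (hq : q ≠ 0) {N : ℕ} (hN : q.natDegree ≤ N)
    (h₀ : q.eval f = 0) {δ : ℚ} (h : ∀ i, ∃ z : ℤ, p.sig (q.coeff i) = z * δ) :
    ∃ z : ℤ, (N.factorial : ℚ) * p.sig f = z * δ := by
  rcases eq_or_ne f 0 with rfl | hf
  · exact ⟨0, by rw [p.sig_zero, mul_zero, Int.cast_zero, zero_mul]⟩
  rw [Polynomial.eval_eq_sum_range] at h₀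
  obtain ⟨i, hi, j, hj, h1, h2, h3, h4, -⟩ := p.v.two_terms h₀ ⟨q.natDegree,
    Finset.self_mem_range_succ _,
    mul_ne_zero (Polynomial.leadingCoeff_ne_zero.2 hq) (pow_ne_zero _ hf)⟩
  have h5 := p.sig_congr h4
  obtain ⟨a, ha⟩ := h i
  obtain ⟨b, hb⟩ := h j
  rw [p.sig_mul (left_ne_zero_of_mul h2) (pow_ne_zero _ hf),
    p.sig_mul (left_ne_zero_of_mul h3) (pow_ne_zero _ hf), p.sig_pow, p.sig_pow, ha, hb] at h5
  rw [Finset.mem_range] at hi hj
  obtain ⟨m, hm⟩ : (i - j : ℤ) ∣ (N.factorial : ℤ) := Int.natAbs_dvd.1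
    (Int.natCast_dvd_natCast.2 (Nat.dvd_factorial (by omega) (by omega)))
  have h6 : (N.factorial : ℚ) = (i - j) * m := by exact_mod_cast hm
  refine ⟨m * (b - a), ?_⟩
  rw [h6]
  push_cast
  linear_combination m * h5

theorem rescale {μ : M} (hμ : μ ≠ 0) : ∃ p' : TP (μ⁻¹ • pd), p'.v = p.v ∧ p'.sig = p.sig ∧
    p'.g = p.g * μ ∧ ∀ f, p'.Res f = p.Res (μ * f) := by
  have e : ∀ f, μ * (μ⁻¹ • pd) f = pd f := fun f => by
    rw [Derivation.smul_apply, smul_eq_mul, mul_inv_cancel_left₀ hμ]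
  exact ⟨{
    v := p.v
    g := p.g * μ
    sig := p.sig
    Res := p.Res ∘ₗ LinearMap.mulLeft K μ
    sig_mul := p.sig_mul
    sig_alg := p.sig_alg
    sig_congr := p.sig_congr
    lt := p.lt
    ld := fun h => by
      rw [mul_assoc, e]
      exact p.ld h
    ba := p.ba
    res_d := fun f => by rw [LinearMap.comp_apply, LinearMap.mulLeft_apply, e, p.res_d]
    res_log := fun h => by
      rw [LinearMap.comp_apply, LinearMap.mulLeft_apply, ← mul_div_assoc, e, p.res_log h]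
    res_le := fun f => by
      rw [mul_assoc]
      exact p.res_le (μ * f) }, rfl, rfl, rfl, fun _ => rfl⟩

end TP

theorem TP.exists_np {𝔉 : Fm K M} (p : TP 𝔉.pd) : ∃ p' : NP 𝔉, p'.toTP = p := by
  obtain ⟨c, h | h⟩ := p.ba 𝔉.x
  · have := 𝔉.pd_x
    rw [h, Derivation.map_algebraMap] at this
    exact absurd this zero_ne_one
  · exact ⟨⟨p, c, h⟩, rfl⟩

namespace NP

variable {𝔉 : Fm K M} (p : NP 𝔉) {f : M}

theorem X_ne : p.X ≠ 0 := p.ne_of_sig p.ne

theorem X_mem : p.X ∈ 𝔉.Kx := by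
  exact sub_mem 𝔉.x_mem_Kx (𝔉.alg_mem_Kx _)

theorem pd_X : 𝔉.pd p.X = 1 := by
  rw [X, map_sub, 𝔉.pd_x, Derivation.map_algebraMap, sub_zero]

theorem g_lead : p.v.E p.g (p.a * p.X) := by
  have h := p.ld p.X_ne
  rw [p.pd_X, mul_one] at h
  rw [UV.E, p.v.mul, p.v.rat p.a_ne, one_mul]
  exact h

theorem v_g : p.v p.g = p.v p.X := by
  rw [p.g_lead.eq, p.v.mul, p.v.rat p.a_ne, one_mul]

theorem sig_g : p.sig p.g = p.a := by
  exact p.sig_congr p.v_g

theorem ldX (hf : f ≠ 0) : p.v (p.X * 𝔉.pd f - ((p.sig f / p.a : ℚ) : M) * f) < p.v f := by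
  have := p.v.charZero
  have ha : (p.a : M) ≠ 0 := Rat.cast_ne_zero.2 p.a_ne
  have e : (p.a : M) * (p.X * 𝔉.pd f - ((p.sig f / p.a : ℚ) : M) * f) =
      (p.a * p.X - p.g) * 𝔉.pd f + (p.g * 𝔉.pd f - p.sig f * f) := by
    rw [Rat.cast_div]
    field_simp
    ring
  rw [← one_mul (p.v (_ - _)), ← p.v.rat p.a_ne, ← p.v.mul, e]
  refine p.v.add_lt ?_ (p.ld hf)
  rcases eq_or_ne (𝔉.pd f) 0 with h | h
  · rw [h, mul_zero, p.v.zero]
    exact p.v.pos hf
  · refine lt_of_lt_of_le ?_ (p.ld_le f)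
    rw [p.v.mul, p.v.mul]
    exact mul_lt_mul_of_pos_right p.g_lead.symm (p.v.pos h)

theorem ldX_le (f : M) : p.v (p.X * 𝔉.pd f) ≤ p.v f := by
  rw [p.v.mul, ← p.v_g, ← p.v.mul]
  exact p.ld_le f

theorem res_leX (f : M) : p.v (algebraMap K M (p.Res f)) ≤ p.v (p.X * f) := by
  rw [p.v.mul, ← p.v_g, ← p.v.mul]
  exact p.res_le f

theorem res_invX : p.Res p.X⁻¹ = p.a := by
  have h := p.res_log p.X_ne
  rwa [p.pd_X, one_div] at h

/-- the residue modulo the maximal ideal -/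
theorem res_mod {c : K} (h : p.v (p.X * f - algebraMap K M c) < 1) :
    p.v (algebraMap K M (p.Res f - p.a * c)) < 1 := by
  have h1 := p.res_leX (f - c • p.X⁻¹)
  rw [map_sub, map_smul, p.res_invX, smul_eq_mul, mul_comm c, mul_sub, mul_smul_comm,
    mul_inv_cancel₀ p.X_ne, ← Algebra.algebraMap_eq_smul_one] at h1
  exact h1.trans_lt h

theorem lead [IsAlgClosed M] (hf : f ≠ 0) : ∃ f₀ ∈ 𝔉.F, p.v.E f₀ f := by
  obtain ⟨q, hq⟩ : ∃ q : ℚ, p.sig f = q * p.a := ⟨p.sig f / p.a, (div_mul_cancel₀ _ p.a_ne).symm⟩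
  obtain ⟨t, ht⟩ := IsAlgClosed.exists_pow_nat_eq p.X q.den_pos
  have h0 : t ≠ 0 := fun e => p.X_ne (by rw [← ht, e, zero_pow q.den_ne_zero])
  have h1 : t ∈ 𝔉.F := 𝔉.mem_F_of_pow q.den_ne_zero (ht ▸ 𝔉.Kx_le_F p.X_mem)
  have h2 : t ^ q.num ≠ 0 := zpow_ne_zero _ h0
  have h3 := p.sig_pow t q.den
  rw [ht] at h3
  obtain ⟨c, hc⟩ := p.lt (div_ne_zero hf h2) (by
    rw [p.sig_div hf h2, p.sig_zpow, hq, a, h3, ← mul_assoc, Rat.mul_den_eq_num, sub_self])
  have h4 := hc.mul (UV.E.refl h2)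
  rw [div_mul_cancel₀ _ h2] at h4
  exact ⟨_, mul_mem (𝔉.alg_mem_F c) (zpow_mem h1 _), h4.symm⟩

theorem closer [IsAlgClosed M] (S : Finset M) (hS : ∀ β ∈ S, β ∈ 𝔉.F) :
    ∃ b ∈ 𝔉.F, 𝔉.In p.v S b := by
  rcases S.eq_empty_or_nonempty with rfl | hne
  · exact ⟨0, zero_mem _, fun β hβ => absurd hβ (Finset.notMem_empty β)⟩
  obtain ⟨β, h1, h2⟩ := Finset.exists_min_image S (fun β => p.v (𝔉.y - β)) hne
  obtain ⟨f₀, h3, h4⟩ := p.lead (𝔉.y_sub_ne (hS β h1))
  refine ⟨f₀ + β, add_mem h3 (hS β h1), fun γ hγ => lt_of_lt_of_le ?_ (h2 γ hγ)⟩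
  rw [show f₀ + β - 𝔉.y = f₀ - (𝔉.y - β) by ring]
  exact h4

end NP

end Pool.Agent.Work.MP_e120ef_ag.H.MQ
end

-- merged part: Pool.Agent.Work.MP_e120ef_ag.F.LTA
section
/-!
# Leading terms in algebraic extensions

Plans.  `LTA_root`: `r = C c * ∏ (X - β)` over `K`; if `1 ≤ v (f - β)` for all roots then `v (f - β) = max 1 (v β)`, and by induction on the multiset of roots every coefficient of `∏ (X - β)` has size at most `∏ max 1 (v β)`; so `v (coeff) ≤ v (aeval f r)`.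
`lta`: write `∑ a_j f ^ j = 0` with `a_j ∈ N₀` not all zero, `a_j ≡ c_j E q_j` for `a_j ≠ 0`.  `UV.two_terms` gives `(v f) ^ (i - j) = v (c E q)`; extract roots (`IsAlgClosed.exists_pow_nat_eq` in `K`, `Pw.zpow`): `v f = v g`, `g = c' E q'`.  For `f' = f / g` (size one) the terms `a_j g ^ j` have leading terms `c'_j E q'_j`; those of maximal size `μ` have the same `q'_j = q₀` (`ort`); `r = ∑ c'_j X ^ j` over these `j` has `v (aeval f' r) * v (E q₀) < μ`.  `LTA_root` gives `β` with `v (f' - β) < 1`.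
-/

namespace Pool.Agent.Work.MP_e120ef_ag.H.MQ

variable {K N : Type} [Field K] [Field N] [Algebra K N] [IsAlgClosed K] (v : UV N)

omit [IsAlgClosed K] in
theorem LTA_prod {f : N} (hf : v f = 1) (h : ∀ β : K, 1 ≤ v (f - algebraMap K N β)) (c : K)
    (s : Multiset K) : ∀ i, v (algebraMap K N ((Polynomial.C c *
      (s.map fun a => Polynomial.X - Polynomial.C a).prod).coeff i)) ≤
      v (Polynomial.aeval f (Polynomial.C c * (s.map fun a => Polynomial.X - Polynomial.C a).prod)) := by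
  induction s using Multiset.induction_on with
  | empty =>
    intro i
    simp only [Multiset.map_zero, Multiset.prod_zero, mul_one, Polynomial.aeval_C,
      Polynomial.coeff_C]
    split_ifs
    · exact le_rfl
    · rw [map_zero, v.zero]
      exact v.nonneg _
  | cons β s ih =>
    intro i
    rw [Multiset.map_cons, Multiset.prod_cons, mul_left_comm]
    generalize Polynomial.C c * (s.map fun a => Polynomial.X - Polynomial.C a).prod = r at ih
    have h1 := h β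
    have h2 : v (algebraMap K N β) ≤ v (f - algebraMap K N β) := by
      have := v.sub_le' (hf.le.trans h1) (le_refl (v (f - algebraMap K N β)))
      rwa [sub_sub_cancel] at this
    have h3 : ∀ j, v (algebraMap K N (β * r.coeff j)) ≤
        v (f - algebraMap K N β) * v (Polynomial.aeval f r) := fun j => by
      rw [map_mul, v.mul]
      exact mul_le_mul h2 (ih j) (v.nonneg _) (v.nonneg _)
    rw [map_mul, v.mul, map_sub, Polynomial.aeval_X, Polynomial.aeval_C, sub_mul,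
      Polynomial.coeff_sub, Polynomial.coeff_C_mul, map_sub]
    refine v.sub_le' ?_ (h3 i)
    cases i with
    | zero =>
      rw [Polynomial.coeff_X_mul_zero, map_zero, v.zero]
      exact mul_nonneg (v.nonneg _) (v.nonneg _)
    | succ i =>
      rw [Polynomial.coeff_X_mul]
      exact (ih i).trans (le_mul_of_one_le_left (v.nonneg _) h1)

theorem LTA_root {f : N} (hf : v f = 1) {r : Polynomial K} {i : ℕ}
    (h : v (Polynomial.aeval f r) < v (algebraMap K N (r.coeff i))) :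
    ∃ β : K, v (f - algebraMap K N β) < 1 := by
  by_contra hc
  have := LTA_prod v hf (fun β => not_lt.1 fun e => hc ⟨β, e⟩) r.leadingCoeff r.roots i
  rw [← (IsAlgClosed.splits r).eq_prod_roots] at this
  exact absurd h (not_lt.2 this)

omit [IsAlgClosed K] in
theorem LTA_div {ζ : N} {E : ℚ → N} (hE : Pw ζ E) (c c' : K) (q q' : ℚ) :
    algebraMap K N c * E q / (algebraMap K N c' * E q') = algebraMap K N (c / c') * E (q - q') := by
  rw [sub_eq_add_neg, hE.add, hE.neg, map_div₀, mul_div_mul_comm, div_eq_mul_inv (E q)]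

theorem LTA_size {ζ : N} {E : ℚ → N} (hE : Pw ζ E) {f a b : N} (h₀ : f ≠ 0) {c c' : K}
    {q q' : ℚ} (ha : v.E a (algebraMap K N c * E q)) (hb : v.E b (algebraMap K N c' * E q'))
    {i j : ℕ} (hij : j < i) (h : v (a * f ^ i) = v (b * f ^ j)) :
    ∃ (c₁ : K) (q₁ : ℚ), v f = v (algebraMap K N c₁ * E q₁) := by
  obtain ⟨n, rfl⟩ : ∃ n, i = j + (n + 1) := ⟨i - j - 1, by omega⟩
  obtain ⟨c₁, hc⟩ := IsAlgClosed.exists_pow_nat_eq (c' / c) n.succ_pos
  refine ⟨c₁, (q' - q) / (n + 1 : ℕ), (pow_left_inj₀ (v.nonneg _) (v.nonneg _) n.succ_ne_zero).1 ?_⟩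
  have h1 : ((n + 1 : ℕ) : ℚ) ≠ 0 := by positivity
  rw [← v.pow, ← v.pow, mul_pow, ← map_pow, hc, Apx_pw_pow hE, mul_div_cancel₀ _ h1,
    ← LTA_div hE, v.div, ← ha.eq, ← hb.eq, eq_div_iff (v.pos ha.ne_zero).ne']
  refine mul_right_cancel₀ (v.pos (pow_ne_zero j h₀)).ne' ?_
  rw [← v.mul b, ← h, ← v.mul, ← v.mul]
  congr 1
  rw [Nat.succ_eq_add_one]
  ring

theorem lta {ζ : N} {E : ℚ → N} (hE : Pw ζ E)
    (ort : ∀ (c : K) (q : ℚ), v (algebraMap K N c * E q) = 1 → q = 0) (N₀ : Subfield N)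
    (lt : ∀ a ∈ N₀, a ≠ 0 → ∃ (c : K) (q : ℚ), v.E a (algebraMap K N c * E q)) {f : N}
    (hf : IsAlgebraic N₀ f) (h₀ : f ≠ 0) : ∃ (c : K) (q : ℚ), v.E f (algebraMap K N c * E q) := by
  classical
  obtain ⟨p, hp, hpf⟩ := hf
  obtain ⟨a, ha⟩ : ∃ a : ℕ → N, ∀ j, a j = (p.coeff j : N) := ⟨_, fun _ => rfl⟩
  have hsum : ∑ j ∈ Finset.range (p.natDegree + 1), a j * f ^ j = 0 := by
    rw [← hpf, Polynomial.aeval_eq_sum_range]
    exact Finset.sum_congr rfl fun j _ => by rw [ha]; rfl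
  have hlead : a p.natDegree ≠ 0 := by
    rw [ha]
    exact fun e => Polynomial.leadingCoeff_ne_zero.2 hp (Subtype.ext e)
  have hcq : ∀ j, ∃ (c : K) (q : ℚ), a j ≠ 0 → v.E (a j) (algebraMap K N c * E q) := fun j => by
    by_cases e : a j = 0
    · exact ⟨0, 0, fun e' => absurd e e'⟩
    · obtain ⟨c, q, h⟩ := lt (a j) (ha j ▸ (p.coeff j).2) e
      exact ⟨c, q, fun _ => h⟩
  choose c q hcq using hcq
  generalize hs : Finset.range (p.natDegree + 1) = s at hsum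
  have hmem : p.natDegree ∈ s := hs ▸ Finset.self_mem_range_succ _
  obtain ⟨c₁, q₁, hg⟩ : ∃ (c₁ : K) (q₁ : ℚ), v f = v (algebraMap K N c₁ * E q₁) := by
    obtain ⟨i, -, j, -, h1, h2, h3, h4, -⟩ := v.two_terms hsum
      ⟨_, hmem, mul_ne_zero hlead (pow_ne_zero _ h₀)⟩
    have hi := hcq i (left_ne_zero_of_mul h2)
    have hj := hcq j (left_ne_zero_of_mul h3)
    rcases lt_or_gt_of_ne h1 with h | h
    · exact LTA_size v hE h₀ hj hi h h4.symm
    · exact LTA_size v hE h₀ hi hj h h4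
  obtain ⟨g, hgd⟩ : ∃ g, g = algebraMap K N c₁ * E q₁ := ⟨_, rfl⟩
  rw [← hgd] at hg
  have hg0 : g ≠ 0 := v.ne_zero_of_pos (hg ▸ v.pos h₀)
  have hf' : v (f / g) = 1 := by rw [v.div, hg, div_self (v.pos hg0).ne']
  have hb : ∀ j, a j ≠ 0 →
      v.E (a j * g ^ j) (algebraMap K N (c j * c₁ ^ j) * E (q j + j * q₁)) := fun j hj => by
    have := (hcq j hj).mul (UV.E.refl (v := v) (pow_ne_zero j hg0))
    rw [hE.add, ← Apx_pw_pow hE, map_mul, map_pow, mul_mul_mul_comm, ← mul_pow, ← hgd]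
    exact this
  obtain ⟨i, hi, hm⟩ := Finset.exists_max_image s (fun j => v (a j * g ^ j)) ⟨_, hmem⟩
  have hμ : 0 < v (a i * g ^ i) :=
    (v.pos (mul_ne_zero hlead (pow_ne_zero _ hg0))).trans_le (hm _ hmem)
  have hai : a i ≠ 0 := left_ne_zero_of_mul (v.ne_zero_of_pos hμ)
  have hq : ∀ j, v (a j * g ^ j) = v (a i * g ^ i) → a j ≠ 0 ∧ q j + j * q₁ = q i + i * q₁ :=
    fun j hj => by
      have haj : a j ≠ 0 := left_ne_zero_of_mul (v.ne_zero_of_pos (hj ▸ hμ))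
      refine ⟨haj, sub_eq_zero.1 (ort (c j * c₁ ^ j / (c i * c₁ ^ i)) _ ?_)⟩
      rw [← LTA_div hE, v.div, ← (hb j haj).eq, ← (hb i hai).eq, hj, div_self hμ.ne']
  obtain ⟨d, hd⟩ : ∃ d : ℕ → K, ∀ j, d j =
      if v (a j * g ^ j) = v (a i * g ^ i) then c j * c₁ ^ j else 0 := ⟨_, fun _ => rfl⟩
  have hco : (∑ j ∈ s, Polynomial.monomial j (d j)).coeff i = c i * c₁ ^ i := by
    rw [Polynomial.finsetSum_coeff, Finset.sum_eq_single i]
    · rw [Polynomial.coeff_monomial_same, hd, if_pos rfl]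
    · exact fun j _ hj => Polynomial.coeff_monomial_of_ne _ hj.symm
    · exact fun h => absurd hi h
  have hev : Polynomial.aeval (f / g) (∑ j ∈ s, Polynomial.monomial j (d j)) * E (q i + i * q₁) =
      ∑ j ∈ s, (algebraMap K N (d j) * E (q i + i * q₁) - a j * g ^ j) * (f / g) ^ j := by
    have e : ∀ j, a j * g ^ j * (f / g) ^ j = a j * f ^ j := fun j => by
      rw [mul_assoc, ← mul_pow, mul_div_cancel₀ _ hg0]
    simp only [sub_mul, e, Finset.sum_sub_distrib, hsum, sub_zero, map_sum,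
      Polynomial.aeval_monomial, Finset.sum_mul]
    exact Finset.sum_congr rfl fun j _ => by ring
  have hlt : v (Polynomial.aeval (f / g) (∑ j ∈ s, Polynomial.monomial j (d j)) *
      E (q i + i * q₁)) < v (a i * g ^ i) := by
    rw [hev]
    refine v.sum_lt s hμ fun j hj => ?_
    rw [v.mul, v.pow, hf', one_pow, mul_one, hd]
    split_ifs with e
    · obtain ⟨haj, hqj⟩ := hq j e
      rw [← hqj, ← e]
      exact (hb j haj).symm
    · rw [map_zero, zero_mul, zero_sub, v.neg]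
      exact (hm j hj).lt_of_ne e
  rw [(hb i hai).eq, v.mul, v.mul, ← hco] at hlt
  obtain ⟨β, hβ⟩ := LTA_root v hf' (lt_of_mul_lt_mul_right hlt (v.nonneg _))
  have hβ1 : v (algebraMap K N β) = 1 := by
    have := v.sub_eq_left (a := f / g) (hf' ▸ hβ)
    rwa [sub_sub_cancel, hf'] at this
  have h1 : v.E (f / g) (algebraMap K N β) := by
    rw [UV.E, hβ1]
    exact hβ
  refine ⟨β * c₁, q₁, ?_⟩
  have h2 := h1.mul (UV.E.refl (v := v) hg0)
  rw [div_mul_cancel₀ _ hg0] at h2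
  rwa [map_mul, mul_assoc, ← hgd]

end Pool.Agent.Work.MP_e120ef_ag.H.MQ
end

-- merged part: Pool.Agent.Work.MP_e120ef_ag.F.AX
section
/-!
# Extension of absolute values and of embeddings

Plans.  `ax`: if `v` is trivial take the trivial absolute value on `N`.  Otherwise `K₁ = v.v.Completion` (or the completion of `WithAbs v.v`) is a complete nontrivially normed ultrametric field; on `AlgebraicClosure K₁` the `spectralNorm` is a multiplicative ultrametric norm extending that of `K₁` (see `exists_Kp` in `H/KP.lean`, which you may import and use with `K = K₁`); embed `N` by `IsAlgClosed.lift` and pull back.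
`ext`: `Transcendental` gives `AlgebraicIndependent` families indexed by `Unit`; lift `j` to `F₀[X]` (`Polynomial.eval₂RingHom j η`, injective), to `F₀⟮y⟯` (`IsFractionRing.lift` through `RatFunc.algEquivOfTranscendental` or `Polynomial.algEquivOfTranscendental`), then `IsAlgClosed.lift` with the algebra structure on `Ω` given by this map.
`gauss`: on `N[X]` the Gauss norm `Polynomial.gaussNorm v.v r` is multiplicative (`Polynomial.gaussNorm_mul`), extend it to `FractionRing N[X]` (`Gauss_abs` in `H/Gauss.lean`), then by `ax` to the algebraic closure `Ω`; `η = y + X` is transcendental over `F₀`; pull back along `ext`.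
-/

namespace Pool.Agent.Work.MP_e120ef_ag.H.MQ

theorem ax {N₀ N : Type} [Field N₀] [Field N] [Algebra N₀ N] [Algebra.IsAlgebraic N₀ N]
    (v : UV N₀) : ∃ v' : UV N, ∀ a, v' (algebraMap N₀ N a) = v a := by
  classical
  have := v.charZero
  by_cases h : ∀ a, a ≠ 0 → v a = 1
  · have : CharZero N := (RingHom.charZero_iff (algebraMap N₀ N).injective).1 inferInstance
    refine ⟨⟨AbsoluteValue.trivial, fun a b => ?_, fun n hn =>
      AbsoluteValue.trivial_apply (Nat.cast_ne_zero.2 hn)⟩, fun a => ?_⟩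
    · by_cases ha : a = 0
      · simp [ha]
      · rw [AbsoluteValue.trivial_apply ha]
        refine le_max_of_le_left ?_
        by_cases hb : a + b = 0
        · simp [hb]
        · rw [AbsoluteValue.trivial_apply hb]
    · by_cases ha : a = 0
      · simp [ha]
      · rw [h a ha]
        exact AbsoluteValue.trivial_apply ((map_ne_zero _).2 ha)
  · push Not at h
    obtain ⟨a, ha, h1⟩ := h
    let i0 : NormedField N₀ := v.v.toNormedField
    let i1 : NontriviallyNormedField N₀ := NontriviallyNormedField.ofNormNeOne ⟨a, ha, h1⟩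
    have : IsUltrametricDist N₀ := IsUltrametricDist.isUltrametricDist_of_forall_norm_add_le_max_norm v.na
    let K := UniformSpace.Completion N₀
    let i2 : NormedField K := inferInstance
    let i3 : NormedAlgebra N₀ K := inferInstance
    let i4 : NontriviallyNormedField K :=
      { i2 with
        non_trivial := by
          obtain ⟨x, hx⟩ := NontriviallyNormedField.non_trivial (α := N₀)
          exact ⟨algebraMap N₀ K x, by rwa [norm_algebraMap']⟩ }
    have : IsUltrametricDist K := IsUltrametricDist.of_normedAlgebra N₀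
    have : CompleteSpace K := inferInstance
    obtain ⟨K', j1, j2, -, j4, -, -, j7, -⟩ := exists_Kp N₀ K
    let φ : N →ₐ[N₀] K' := IsAlgClosed.lift
    refine ⟨UV.comap ⟨NormedField.toAbsoluteValue K', IsUltrametricDist.norm_add_le_max, fun n hn => ?_⟩
      (φ : N →+* K'), fun a => ?_⟩
    · change ‖(n : K')‖ = 1
      rw [← map_natCast (algebraMap N₀ K'), norm_algebraMap']
      exact v.nat n hn
    · change ‖φ (algebraMap N₀ N a)‖ = _
      rw [φ.commutes, norm_algebraMap']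
      rfl

theorem ext {F₀ N Ω : Type} [Field F₀] [Field N] [Field Ω] [Algebra F₀ N] [IsAlgClosed Ω] {y : N}
    (hy : Transcendental F₀ y) (halg : ∀ ψ : N, IsAlgebraic (IntermediateField.adjoin F₀ {y}) ψ)
    (j : F₀ →+* Ω) {η : Ω} (hη : ∀ p : Polynomial F₀, p.eval₂ j η = 0 → p = 0) :
    ∃ ι : N →+* Ω, (∀ c, ι (algebraMap F₀ N c) = j c) ∧ ι y = η := by
  let _ : Algebra F₀ Ω := j.toAlgebra
  have h1 : Transcendental F₀ η := transcendental_iff.2 hη
  let φ : IntermediateField.adjoin F₀ {y} →ₐ[F₀] Ω := (IntermediateField.adjoin F₀ {η}).val.comp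
    ((RatFunc.algEquivOfTranscendental η h1).toAlgHom.comp
      (RatFunc.algEquivOfTranscendental y hy).symm.toAlgHom)
  let _ : Algebra (IntermediateField.adjoin F₀ {y}) Ω := φ.toRingHom.toAlgebra
  have : Algebra.IsAlgebraic (IntermediateField.adjoin F₀ {y}) N := ⟨halg⟩
  let ι : N →ₐ[IntermediateField.adjoin F₀ {y}] Ω := IsAlgClosed.lift
  refine ⟨ι, fun c => ?_, ?_⟩
  · exact (ι.commutes (algebraMap F₀ _ c)).trans (φ.commutes c)
  · refine (ι.commutes (IntermediateField.AdjoinSimple.gen F₀ y)).trans ?_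
    change ((RatFunc.algEquivOfTranscendental η h1 ((RatFunc.algEquivOfTranscendental y hy).symm
      (IntermediateField.AdjoinSimple.gen F₀ y)) : IntermediateField.adjoin F₀ {η}) : Ω) = η
    rw [RatFunc.algEquivOfTranscendental_symm_gen, RatFunc.algEquivOfTranscendental_X]

theorem gauss {F₀ N : Type} [Field F₀] [Field N] [Algebra F₀ N] {y : N}
    (hy : Transcendental F₀ y) (halg : ∀ ψ : N, IsAlgebraic (IntermediateField.adjoin F₀ {y}) ψ)
    (v : UV N) {r : ℝ} (hr : 0 < r) : ∃ v' : UV N,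
      (∀ c, v' (algebraMap F₀ N c) = v (algebraMap F₀ N c)) ∧
      ∀ β, v' (y - algebraMap F₀ N β) = max r (v (y - algebraMap F₀ N β)) := by
  obtain ⟨w, h1, h2⟩ := Gauss_abs (FractionRing (Polynomial N)) (Polynomial.gaussNorm v.v r)
    (fun p => p.gaussNorm_nonneg _ hr.le)
    (fun p => p.gaussNorm_eq_zero_iff _ (fun _ h => v.eq_zero.1 h) hr)
    (Polynomial.isNonarchimedean_gaussNorm _ v.na hr.le) (Polynomial.gaussNorm_mul v.na hr)
  obtain ⟨w', h3⟩ := ax (N := AlgebraicClosure (FractionRing (Polynomial N))) ⟨w, h2, fun n hn => by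
    rw [← map_natCast (algebraMap (Polynomial N) _), h1, ← map_natCast Polynomial.C, Polynomial.gaussNorm_C]
    exact v.nat n hn⟩
  let κ : Polynomial N →+* AlgebraicClosure (FractionRing (Polynomial N)) :=
    (algebraMap (FractionRing (Polynomial N)) _).comp (algebraMap (Polynomial N) _)
  have h4 : ∀ p, w' (κ p) = p.gaussNorm v.v r := fun p => (h3 _).trans (h1 p)
  have h5 : Function.Injective κ :=
    (algebraMap (FractionRing (Polynomial N)) _).injective.comp (IsFractionRing.injective _ _)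
  obtain ⟨ι, h6, h7⟩ := ext hy halg (κ.comp (Polynomial.C.comp (algebraMap F₀ N)))
    (η := κ (Polynomial.X + Polynomial.C y)) fun p hp => by
      rw [← Polynomial.hom_eval₂, map_eq_zero_iff _ h5, ← Polynomial.eval₂_map] at hp
      exact (Polynomial.map_eq_zero_iff (algebraMap F₀ N).injective).1
        (Polynomial.comp_X_add_C_eq_zero_iff.1 hp)
  refine ⟨w'.comap ι, fun c => ?_, fun β => ?_⟩
  · rw [UV.comap_apply, h6]
    exact (h4 _).trans (Polynomial.gaussNorm_C _ _ _)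
  · have e : ι (y - algebraMap F₀ N β) = κ (Polynomial.X + Polynomial.C (y - algebraMap F₀ N β)) := by
      rw [map_sub, h6, h7, map_sub, ← add_sub_assoc, map_sub]
      rfl
    rw [UV.comap_apply, e, h4]
    generalize y - algebraMap F₀ N β = c
    refine le_antisymm ((Polynomial.isNonarchimedean_gaussNorm _ v.na hr.le _ _).trans_eq ?_) (max_le ?_ ?_)
    · rw [Polynomial.gaussNorm_C, ← Polynomial.monomial_one_one_eq_X, Polynomial.gaussNorm_monomial]
      simp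
    · refine Eq.trans_le ?_ (Polynomial.le_gaussNorm v.v _ hr.le 1)
      simp [Polynomial.coeff_C]
    · refine Eq.trans_le ?_ (Polynomial.le_gaussNorm v.v _ hr.le 0)
      simp

end Pool.Agent.Work.MP_e120ef_ag.H.MQ
end

-- merged part: Pool.Agent.Work.MP_e120ef_ag.F.TAY
section
/-!
# Taylor series

Plans.  `Sp.eval`: induction on polynomials.  `exists_rt`: from `𝔉.alg ψ` get `Q ≠ 0` in `M[Y][T]` with coefficients in `F` and `Q (y, ψ) = 0`; among such `Q` one has `Q (b, T) ≠ 0` (divide by `Y - b` as long as all coefficients vanish at `b`; `y - b ≠ 0`; induction on the sum of the degrees); take the roots in `M` of `Q (b, T)`.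
`exists_sp`: `R = {ψ | ∃ C, 𝔉.Bd v e ψ C}` is a subring (`Lb.iter`).  With `ρ = v (b - y) / v e < 1` the terms `dy^[j] ψ * (b - y) ^ j / j!` have size at most `C ρ ^ j`; sum them in the completion `v.v.Completion` (a complete normed field, `‖↑a‖ = v a`): `T ψ`.  `T` is additive and multiplicative on `R` (`Lb.iter`, `tsum_mul_tsum_eq_tsum_sum_range_of_summable_norm`), `T f = f` on `F` (`dy_F`), `T y = b`.  So `T ψ` is a root of `Q (b, T)`, which splits in `M`: `T ψ = ↑γ` with `γ ∈ F` (`mem_F_of_root`); `sp ψ` is this `γ` (choice; injectivity of the coercion).  The estimates: norm of a `tsum` in an ultrametric space (`IsUltrametricDist.norm_tsum_le_of_forall_le_of_nonneg`) or limits of finite sums.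
-/

open Polynomial

namespace Pool.Agent.Work.MP_e120ef_ag.H.MQ

theorem TAY_ev {M N A : Type} [CommRing M] [CommRing N] [Semiring A] {R : Subring M} {T : M → N}
    (add : ∀ {f g : M}, f ∈ R → g ∈ R → T (f + g) = T f + T g)
    (mul : ∀ {f g : M}, f ∈ R → g ∈ R → T (f * g) = T f * T g) (h0 : T 0 = 0) (h1 : T 1 = 1)
    (f : A →+* M) (g : A →+* N) {Q : A[X]}
    (hQ : ∀ i, f (Q.coeff i) ∈ R ∧ T (f (Q.coeff i)) = g (Q.coeff i)) {ψ : M} (hψ : ψ ∈ R) :
    Q.eval₂ f ψ ∈ R ∧ T (Q.eval₂ f ψ) = Q.eval₂ g (T ψ) := by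
  classical
  have hp : ∀ n : ℕ, T (ψ ^ n) = T ψ ^ n := fun n => by
    induction n with
    | zero => rw [pow_zero, pow_zero, h1]
    | succ n ih => rw [pow_succ, pow_succ, mul (pow_mem hψ n) hψ, ih]
  rw [eval₂_eq_sum, eval₂_eq_sum, Polynomial.sum, Polynomial.sum]
  induction Q.support using Finset.induction_on with
  | empty => exact ⟨zero_mem R, h0⟩
  | insert i s hi ih =>
    have hm := mul_mem (hQ i).1 (pow_mem hψ i)
    rw [Finset.sum_insert hi, Finset.sum_insert hi, add hm ih.1, ih.2,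
      mul (hQ i).1 (pow_mem hψ i), hp, (hQ i).2]
    exact ⟨add_mem hm ih.1, rfl⟩

theorem TAY_compl {M : Type} [Field M] (v : UV M) : ∃ (N : Type) (_ : NormedField N)
    (_ : CompleteSpace N) (φ : M →+* N), ∀ a, ‖φ a‖ = v a :=
  ⟨v.v.Completion, inferInstance, inferInstance,
    UniformSpace.Completion.coeRingHom.comp (WithAbs.equiv v.v).symm.toRingHom,
    fun a => UniformSpace.Completion.norm_coe (WithAbs.toAbs v.v a)⟩

theorem TAY_tail {M N : Type} [Field M] [NormedField N] {v : UV M} {φ : M →+* N}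
    (hφ : ∀ a, ‖φ a‖ = v a) {a : ℕ → M} (hs : Summable fun j => φ (a j)) (k : ℕ) {r : ℝ}
    (h : ∀ j, v (a (j + k)) ≤ r) :
    ‖∑' j, φ (a j) - φ (∑ j ∈ Finset.range k, a j)‖ ≤ r := by
  rw [← hs.sum_add_tsum_nat_add k, map_sum, add_sub_cancel_left]
  refine le_of_tendsto' ((summable_nat_add_iff k).2 hs).hasSum.tendsto_sum_nat.norm fun n => ?_
  rw [← map_sum, hφ]
  exact v.sum_le _ ((v.nonneg _).trans (h 0)) fun j _ => h j

namespace Fm

variable {K M : Type} [Field K] [Field M] [Algebra K M] {𝔉 : Fm K M} {b : M}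

theorem Sp.neg (t : 𝔉.Sp b) {f : M} (hf : f ∈ t.R) : t.sp (-f) = -t.sp f := by
  have h := t.add (neg_mem hf) hf
  rw [neg_add_cancel, t.spF (zero_mem _)] at h
  exact eq_neg_of_add_eq_zero_left h.symm

theorem Sp.sub (t : 𝔉.Sp b) {f g : M} (hf : f ∈ t.R) (hg : g ∈ t.R) :
    t.sp (f - g) = t.sp f - t.sp g := by
  rw [sub_eq_add_neg, t.add hf (neg_mem hg), t.neg hg, sub_eq_add_neg]

theorem Sp.eval₁ (t : 𝔉.Sp b) {q : M[X]} (hq : ∀ j, q.coeff j ∈ 𝔉.F) :
    q.eval 𝔉.y ∈ t.R ∧ t.sp (q.eval 𝔉.y) = q.eval b := by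
  have h := TAY_ev t.add t.mul (t.spF (zero_mem _)) (t.spF (one_mem _)) (RingHom.id M)
    (RingHom.id M) (Q := q) (fun i => ⟨t.memF (hq i), t.spF (hq i)⟩) t.mem_y
  rwa [t.sp_y] at h

theorem Sp.eval (t : 𝔉.Sp b) {Q : M[X][X]} (hQ : ∀ i j, (Q.coeff i).coeff j ∈ 𝔉.F) {ψ : M}
    (hψ : ψ ∈ t.R) : Q.eval₂ (evalRingHom 𝔉.y) ψ ∈ t.R ∧
      t.sp (Q.eval₂ (evalRingHom 𝔉.y) ψ) = Q.eval₂ (evalRingHom b) (t.sp ψ) :=
  TAY_ev t.add t.mul (t.spF (zero_mem _)) (t.spF (one_mem _)) _ _ (fun i => t.eval₁ (hQ i)) hψ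

theorem Sp.Est.lead {t : 𝔉.Sp b} {v : UV M} {e : M} (h : t.Est v e) (he : v (b - 𝔉.y) < v e)
    {ψ : M} (hψ : ψ ≠ 0) (hB : 𝔉.Bd v e ψ (v ψ)) : v.E (t.sp ψ) ψ :=
  lt_of_mul_lt_mul_right ((h.one hB).2.trans_lt (mul_lt_mul_of_pos_left he (v.pos hψ)))
    (v.nonneg e)

theorem TAY_poly (𝔉 : Fm K M) (hb : b ∈ 𝔉.F) (ψ : M) : ∃ Q : M[X][X],
    (∀ i j, (Q.coeff i).coeff j ∈ 𝔉.F) ∧ Q.eval₂ (evalRingHom 𝔉.y) ψ = 0 ∧
      Q.map (evalRingHom b) ≠ 0 := by
  obtain ⟨p, hp, h0⟩ := IntermediateField.isAlgebraic_adjoin_iff.1 (𝔉.alg ψ)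
  have hl : p.map (algebraMap _ M) ∈ lifts (eval₂RingHom 𝔉.F.subtype 𝔉.y) := by
    refine (lifts_iff_coeff_lifts _).2 fun n => ?_
    rw [coeff_map]
    exact (Algebra.adjoin_singleton_eq_range_aeval 𝔉.F 𝔉.y).le (p.coeff n).2
  obtain ⟨Q0, hQ0⟩ := (mem_lifts _).1 hl
  have h1 : Q0 ≠ 0 := by
    rintro rfl
    rw [Polynomial.map_zero] at hQ0
    exact (Polynomial.map_ne_zero_iff Subtype.val_injective).2 hp hQ0.symm
  obtain ⟨n, Q, hn, rfl⟩ := WfDvdMonoid.max_power_factor' h1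
    (x := C (X - C (⟨b, hb⟩ : 𝔉.F))) fun h => not_isUnit_X_sub_C _ (isUnit_C.1 h)
  have e : ∀ z : M, (evalRingHom z).comp (mapRingHom 𝔉.F.subtype) = eval₂RingHom 𝔉.F.subtype z :=
    fun z => RingHom.ext fun q => eval_map _ _
  refine ⟨Q.map (mapRingHom 𝔉.F.subtype), fun i j => ?_, ?_, fun h => hn ?_⟩
  · rw [coeff_map, coe_mapRingHom, coeff_map]
    exact ((Q.coeff i).coeff j).2
  · rw [← eval_map_algebraMap, ← hQ0, eval_map, eval₂_mul, eval₂_pow, eval₂_C, coe_eval₂RingHom,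
      eval₂_sub, eval₂_X, eval₂_C] at h0
    rw [eval₂_map, e]
    exact (mul_eq_zero.1 h0).resolve_left (pow_ne_zero n (𝔉.y_sub_ne hb))
  · refine (C_dvd_iff_dvd_coeff _ _).2 fun i => dvd_iff_isRoot.2 (Subtype.ext ?_)
    have h2 := congrArg (fun q => q.coeff i) h
    simp only [Polynomial.map_map, e, coeff_map, coeff_zero, coe_eval₂RingHom] at h2
    exact (eval₂_at_apply 𝔉.F.subtype ⟨b, hb⟩).symm.trans h2

theorem exists_rt (𝔉 : Fm K M) (hb : b ∈ 𝔉.F) (ψ : M) :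
    ∃ Rt : Finset M, ∀ t : 𝔉.Sp b, ψ ∈ t.R → t.sp ψ ∈ Rt := by
  classical
  obtain ⟨Q, h1, h2, h3⟩ := 𝔉.TAY_poly hb ψ
  refine ⟨(Q.map (evalRingHom b)).roots.toFinset, fun t ht => ?_⟩
  have h := (t.eval h1 ht).2
  rw [h2, t.spF (zero_mem _)] at h
  rw [Multiset.mem_toFinset, mem_roots h3, IsRoot, eval_map, ← h]

/-- the elements with bounded Taylor coefficients -/
def TAY_R (𝔉 : Fm K M) (v : UV M) (e : M) : Subring M where
  carrier := {ψ | ∃ C, 𝔉.Bd v e ψ C}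
  mul_mem' := by
    rintro f g ⟨C, hf⟩ ⟨C', hg⟩
    refine ⟨C * C', fun n => ?_⟩
    have h0 := (v.nonneg _).trans (hf 0)
    rw [← dA_coe, (lb_dA 𝔉.dy).iter, Finset.sum_mul]
    refine v.sum_le _ (mul_nonneg h0 ((v.nonneg _).trans (hg 0))) fun i hi => ?_
    obtain ⟨k, rfl⟩ := Nat.exists_eq_add_of_le (Nat.lt_succ_iff.1 (Finset.mem_range.1 hi))
    rw [Nat.add_sub_cancel_left, pow_add, mul_assoc, mul_mul_mul_comm, v.mul, v.mul]
    exact (mul_le_of_le_one_left (mul_nonneg (v.nonneg _) (v.nonneg _)) (v.nat_le _)).trans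
      (mul_le_mul (hf i) (hg k) (v.nonneg _) h0)
  one_mem' := ⟨1, fun j => by
    rcases j with _ | j
    · simp
    · rw [Function.iterate_succ_apply, 𝔉.dy.map_one_eq_zero, iterate_map_zero, zero_mul, v.zero]
      exact zero_le_one⟩
  add_mem' := by
    rintro f g ⟨C, hf⟩ ⟨C', hg⟩
    refine ⟨max C C', fun n => ?_⟩
    rw [iterate_map_add, add_mul]
    exact (v.na _ _).trans (max_le_max (hf n) (hg n))
  zero_mem' := ⟨0, fun j => by rw [iterate_map_zero, zero_mul, v.zero]⟩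
  neg_mem' := by
    rintro f ⟨C, hf⟩
    refine ⟨C, fun n => ?_⟩
    rw [iterate_map_neg, neg_mul, v.neg]
    exact hf n

theorem TAY_dy {v : UV M} {e ψ : M} {C : ℝ} (h : 𝔉.Bd v e (𝔉.dy ψ) C) : ψ ∈ 𝔉.TAY_R v e := by
  refine ⟨max (v ψ) (C * v e), fun j => ?_⟩
  rcases j with _ | j
  · simp
  · rw [Function.iterate_succ_apply, pow_succ, ← mul_assoc, v.mul]
    exact (mul_le_mul_of_nonneg_right (h j) (v.nonneg e)).trans (le_max_right _ _)

/-- the terms of the Taylor series -/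
def TAY_a (𝔉 : Fm K M) (b ψ : M) (j : ℕ) : M := 𝔉.dy^[j] ψ * (b - 𝔉.y) ^ j / j.factorial

theorem TAY_v (v : UV M) (ψ : M) (j : ℕ) :
    v (𝔉.TAY_a b ψ j) = v (𝔉.dy^[j] ψ) * v (b - 𝔉.y) ^ j := by
  rw [TAY_a, v.div, v.nat _ j.factorial_ne_zero, div_one, v.mul, v.pow]

theorem TAY_le {v : UV M} {e ψ : M} {C : ℝ} (he : 0 < v e) (h : 𝔉.Bd v e ψ C) (j : ℕ) :
    v (𝔉.dy^[j] ψ) * v (b - 𝔉.y) ^ j ≤ C * (v (b - 𝔉.y) / v e) ^ j := by
  have h1 := h j
  rw [v.mul, v.pow] at h1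
  rw [div_pow, ← mul_div_assoc, le_div_iff₀ (pow_pos he j), mul_right_comm]
  exact mul_le_mul_of_nonneg_right h1 (pow_nonneg (v.nonneg _) j)

theorem TAY_mul [CharZero M] (f g : M) (n : ℕ) : 𝔉.TAY_a b (f * g) n =
    ∑ k ∈ Finset.range (n + 1), 𝔉.TAY_a b f k * 𝔉.TAY_a b g (n - k) := by
  rw [TAY_a, ← dA_coe, (lb_dA 𝔉.dy).iter, Finset.sum_mul, Finset.sum_div]
  refine Finset.sum_congr rfl fun i hi => ?_
  obtain ⟨k, rfl⟩ := Nat.exists_eq_add_of_le (Nat.lt_succ_iff.1 (Finset.mem_range.1 hi))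
  have h1 : (i.factorial : M) ≠ 0 := Nat.cast_ne_zero.2 i.factorial_ne_zero
  have h2 : (k.factorial : M) ≠ 0 := Nat.cast_ne_zero.2 k.factorial_ne_zero
  have h3 : ((i + k).factorial : M) ≠ 0 := Nat.cast_ne_zero.2 (i + k).factorial_ne_zero
  rw [Nat.add_sub_cancel_left, TAY_a, TAY_a, dA_coe, Nat.cast_add_choose]
  field_simp
  ring

theorem exists_sp [CharZero K] [CharZero M] [IsAlgClosed M] (𝔉 : Fm K M) (hb : b ∈ 𝔉.F) (v : UV M)
    {e : M} (he : v (b - 𝔉.y) < v e) : ∃ t : 𝔉.Sp b, t.Est v e := by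
  obtain ⟨N, _, _, φ, hφ⟩ := TAY_compl v
  have e0 : 0 < v e := (v.nonneg _).trans_lt he
  have r0 : 0 ≤ v (b - 𝔉.y) / v e := div_nonneg (v.nonneg _) e0.le
  have r1 : v (b - 𝔉.y) / v e < 1 := (div_lt_one e0).2 he
  have hs : ∀ {ψ}, ψ ∈ 𝔉.TAY_R v e → Summable fun j => ‖φ (𝔉.TAY_a b ψ j)‖ := by
    rintro ψ ⟨C, h⟩
    refine Summable.of_nonneg_of_le (fun _ => norm_nonneg _) (fun j => ?_)
      ((summable_geometric_of_lt_one r0 r1).mul_left C)
    rw [hφ, TAY_v]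
    exact TAY_le e0 h j
  obtain ⟨T, hT⟩ : ∃ T : M → N, ∀ ψ, T ψ = ∑' j, φ (𝔉.TAY_a b ψ j) := ⟨_, fun _ => rfl⟩
  have tl : ∀ {ψ}, ψ ∈ 𝔉.TAY_R v e → ∀ (k : ℕ) {r : ℝ},
      (∀ j, v (𝔉.dy^[j + k] ψ) * v (b - 𝔉.y) ^ (j + k) ≤ r) →
      ‖T ψ - φ (∑ j ∈ Finset.range k, 𝔉.TAY_a b ψ j)‖ ≤ r := fun h k r hr => by
    rw [hT]
    exact TAY_tail hφ (hs h).of_norm k fun j => (TAY_v v _ _).trans_le (hr j)
  have s1 : ∀ ψ, ∑ j ∈ Finset.range 1, 𝔉.TAY_a b ψ j = ψ := fun ψ => by simp [TAY_a]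
  have s2 : ∀ ψ, ∑ j ∈ Finset.range 2, 𝔉.TAY_a b ψ j = ψ + 𝔉.dy ψ * (b - 𝔉.y) := fun ψ => by
    rw [Finset.sum_range_succ, s1]
    simp [TAY_a]
  have add : ∀ {f g}, f ∈ 𝔉.TAY_R v e → g ∈ 𝔉.TAY_R v e → T (f + g) = T f + T g :=
    fun {f g} hf hg => by
    rw [hT, hT, hT, ← (hs hf).of_norm.tsum_add (hs hg).of_norm]
    refine tsum_congr fun j => ?_
    rw [← map_add, TAY_a, TAY_a, TAY_a, iterate_map_add, add_mul, add_div]
  have mul : ∀ {f g}, f ∈ 𝔉.TAY_R v e → g ∈ 𝔉.TAY_R v e → T (f * g) = T f * T g :=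
    fun {f g} hf hg => by
    rw [hT, hT, hT, tsum_mul_tsum_eq_tsum_sum_range_of_summable_norm (hs hf) (hs hg)]
    refine tsum_congr fun j => ?_
    simp only [TAY_mul, map_sum, map_mul]
  have memF : ∀ {f}, f ∈ 𝔉.F → f ∈ 𝔉.TAY_R v e := fun h =>
    TAY_dy (C := 0) fun j => by rw [𝔉.dy_F h, iterate_map_zero, zero_mul, v.zero]
  have spF : ∀ {f}, f ∈ 𝔉.F → T f = φ f := fun {f} h => by
    have k := tl (memF h) 1 (r := 0) fun j => by
      rw [Function.iterate_succ_apply, 𝔉.dy_F h, iterate_map_zero, v.zero, zero_mul]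
    rwa [s1, norm_le_zero_iff, sub_eq_zero] at k
  have memy : 𝔉.y ∈ 𝔉.TAY_R v e := by
    obtain ⟨C, h⟩ := (𝔉.TAY_R v e).one_mem
    exact TAY_dy (𝔉.dy_y ▸ h)
  have spy : T 𝔉.y = φ b := by
    have k := tl memy 2 (r := 0) fun j => by
      rw [Function.iterate_succ_apply, Function.iterate_succ_apply, 𝔉.dy_y,
        𝔉.dy.map_one_eq_zero, iterate_map_zero, v.zero, zero_mul]
    rwa [s2, norm_le_zero_iff, sub_eq_zero, 𝔉.dy_y, one_mul, add_sub_cancel] at k
  have t0 := (spF (zero_mem _)).trans (map_zero φ)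
  have t1 := (spF (one_mem _)).trans (map_one φ)
  have rt : ∀ {ψ}, ψ ∈ 𝔉.TAY_R v e → ∃ γ ∈ 𝔉.F, φ γ = T ψ := fun {ψ} h => by
    obtain ⟨Q, h1, h2, h3⟩ := 𝔉.TAY_poly hb ψ
    have k := (TAY_ev add mul t0 t1 (evalRingHom 𝔉.y) (φ.comp (evalRingHom b)) (Q := Q) (fun i => by
      have k := TAY_ev add mul t0 t1 (RingHom.id M) φ (Q := Q.coeff i)
        (fun j => ⟨memF (h1 i j), spF (h1 i j)⟩) memy
      rwa [spy, eval₂_at_apply] at k) h).2
    rw [h2, t0, ← eval₂_map] at k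
    obtain ⟨γ, hγ⟩ := (IsAlgClosed.splits _).mem_range_of_isRoot h3 (i := φ) (x := T ψ)
      ((eval_map _ _).trans k.symm)
    rw [← hγ, eval₂_at_apply, eq_comm, map_eq_zero] at k
    refine ⟨γ, 𝔉.mem_F_of_root h3 (fun i => ?_) k, hγ⟩
    rw [coeff_map, coe_evalRingHom, eval_eq_sum]
    exact sum_mem fun j _ => mul_mem (h1 i j) (pow_mem hb j)
  have : Nonempty M := ⟨0⟩
  have iv : ∀ {ψ}, ψ ∈ 𝔉.TAY_R v e → φ (Function.invFun φ (T ψ)) = T ψ := fun h =>
    Function.invFun_eq ((rt h).imp fun _ => And.right)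
  refine ⟨⟨𝔉.TAY_R v e, fun ψ => Function.invFun φ (T ψ), fun hf hg => φ.injective ?_,
    fun hf hg => φ.injective ?_, memF, fun h => φ.injective ?_, memy, φ.injective ?_,
    fun h => ?_⟩, fun {ψ C} h => ⟨⟨C, h⟩, ?_⟩, fun {ψ C} h => ⟨TAY_dy h, ?_⟩⟩
  · rw [map_add, iv hf, iv hg, iv (add_mem hf hg), add hf hg]
  · rw [map_mul, iv hf, iv hg, iv (mul_mem hf hg), mul hf hg]
  · rw [iv (memF h), spF h]
  · rw [iv memy, spy]
  · obtain ⟨γ, h1, h2⟩ := rt h
    rwa [φ.injective ((iv h).trans h2.symm)]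
  · have c0 := (v.nonneg _).trans (h 0)
    have k := tl ⟨C, h⟩ 1 fun j => (TAY_le e0 h _).trans
      (mul_le_mul_of_nonneg_left (pow_le_of_le_one r0 r1.le j.succ_ne_zero) c0)
    rw [s1, ← iv ⟨C, h⟩, ← map_sub, hφ, ← mul_div_assoc, le_div_iff₀ e0] at k
    exact k
  · have c0 := (v.nonneg _).trans (h 0)
    have k := tl (TAY_dy h) 2 (r := C * (v (b - 𝔉.y) / v e) * v (b - 𝔉.y)) fun j => by
      rw [show j + 2 = j + 1 + 1 from rfl, Function.iterate_succ_apply, pow_succ, ← mul_assoc]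
      exact mul_le_mul_of_nonneg_right ((TAY_le e0 h _).trans (mul_le_mul_of_nonneg_left
        (pow_le_of_le_one r0 r1.le j.succ_ne_zero) c0)) (v.nonneg _)
    rw [s2, ← iv (TAY_dy h), ← map_sub, hφ, ← sub_sub, ← mul_div_assoc, div_mul_eq_mul_div,
      le_div_iff₀ e0, mul_assoc, ← sq] at k
    exact k

end Fm

end Pool.Agent.Work.MP_e120ef_ag.H.MQ
end

-- merged part: Pool.Agent.Work.MP_e120ef_ag.F.T2
section
/-!
# Cauchy estimates

Plans.  `t_two`: `ψ = 0` is trivial; take `f₀` from `t_one`, `S = f₀.roots.toFinset` (contains `0`).  Given `v`, `e`, choose `β₀ ∈ S` with `r = v (y - β₀)` minimal (`r > 0`), `v'` from `gauss`.  On `F₀⟮y⟯` one has `v' (d a) ≤ r⁻¹ v' a`: the set of such `a ≠ 0` is closed under products and inverses (`Lb.log_mul`, `Lb.log_inv`), contains constants and the `y - β`, and polynomials over `F₀` split.  By `tm` this holds on `N`, so all conjugates `σ φ` of `φ = (y - β₀) ^ j d^[j] ψ / ψ` have `v'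 ≤ 1` (`σ` commutes with `d`, `Lb.comm`), so the coefficients `c` of the minimal polynomial have `v' c ≤ 1` (they lie in `v'.ring`).
Since `v (aeval y p) ≤ v' (aeval y p)` for all `p` and `v (aeval y f₀) = v' (aeval y f₀)` (factor), `v c ≤ 1`; so `φ` is integral over `v.ring` and `v φ ≤ 1` (if `1 < v φ` the leading term of the monic equation dominates).  Finally `v e ≤ r`.
`toolT`: apply `t_two` to `N = algebraicClosure F₀⟮y⟯ M` (algebraically closed, `d` preserves it by `Lb.mem_closure` / `Lb.mem_of_alg`), with `v.comap`; for `e ∈ M` use the element `y - β₀ ∈ N` with `β₀ ∈ S` nearest to `y` and `v e ≤ v (y - β₀)`.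
-/

open Polynomial

namespace Pool.Agent.Work.MP_e120ef_ag.H.MQ

section
variable {F₀ N : Type} [Field F₀] [Field N] [Algebra F₀ N]

theorem T2_ind [IsAlgClosed F₀] {Q : N → Prop} {y : N} (hc : ∀ c, Q (algebraMap F₀ N c))
    (hm : ∀ u w, Q u → Q w → Q (u * w)) (p : F₀[X])
    (hp : ∀ β ∈ p.roots, Q (y - algebraMap F₀ N β)) : Q (aeval y p) := by
  rw [(IsAlgClosed.splits p).eq_prod_roots, map_mul, aeval_C, map_multiset_prod]
  refine hm _ _ (hc _) (Multiset.prod_induction _ _ hm (by simpa using hc 1) fun a ha => ?_)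
  obtain ⟨_, hb, rfl⟩ := Multiset.mem_map.1 ha
  obtain ⟨β, hβ, rfl⟩ := Multiset.mem_map.1 hb
  simpa using hp β hβ

theorem T2_coeff [IsAlgClosed N] (v : UV N) {P : N[X]} (hP : P.Monic)
    (h : ∀ ρ ∈ P.roots, v ρ ≤ 1) (i : ℕ) : v (P.coeff i) ≤ 1 := by
  rw [(IsAlgClosed.splits P).eq_prod_roots_of_monic hP]
  refine Multiset.prod_induction (fun Q : N[X] => ∀ i, v (Q.coeff i) ≤ 1) _ (fun a b ha hb i => ?_)
    (fun i => ?_) (fun a ha i => ?_) i
  · rw [coeff_mul]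
    exact v.sum_le _ zero_le_one fun x _ => v.ring.mul_mem _ _ (ha _) (hb _)
  · rw [coeff_one]
    split_ifs <;> simp
  · obtain ⟨ρ, hρ, rfl⟩ := Multiset.mem_map.1 ha
    rw [coeff_sub, coeff_X, coeff_C]
    refine v.sub_le' ?_ ?_
    · split_ifs <;> simp
    · split_ifs
      · exact h ρ hρ
      · simp

theorem T2_root (v : UV N) {P : N[X]} (hP : P.Monic) (h : ∀ i, v (P.coeff i) ≤ 1) {φ : N}
    (hφ : P.eval φ = 0) : v φ ≤ 1 := by
  by_contra hc
  have h1 : 1 < v φ := not_le.1 hc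
  have h0 : 0 < v φ := one_pos.trans h1
  rw [eval_eq_sum_range, Finset.sum_range_succ, hP.coeff_natDegree, one_mul,
    add_eq_zero_iff_eq_neg] at hφ
  have h2 := v.sum_lt (Finset.range P.natDegree) (f := fun i => P.coeff i * φ ^ i)
    (pow_pos h0 P.natDegree) fun i hi => by
      rw [v.mul, v.pow]
      exact (mul_le_of_le_one_left (pow_pos h0 i).le (h i)).trans_lt
        (pow_lt_pow_right₀ h1 (Finset.mem_range.1 hi))
  rw [hφ, v.neg, v.pow] at h2
  exact lt_irrefl _ h2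

theorem T2_stab [CharZero N] {y : N} {d : N →+ N} (hd : Lb d) (h₀ : ∀ c, d (algebraMap F₀ N c) = 0)
    (h₁ : d y = 1) : ∀ a ∈ (IntermediateField.adjoin F₀ {y}).toSubfield,
      d a ∈ (IntermediateField.adjoin F₀ {y}).toSubfield := by
  refine fun a ha => hd.mem_closure Subfield.subset_closure ?_ ha
  rintro _ (⟨c, rfl⟩ | rfl)
  · rw [h₀]
    exact zero_mem _
  · rw [h₁]
    exact one_mem _

theorem T2_tame [IsAlgClosed F₀] [IsAlgClosed N] [CharZero N] {y : N}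
    (halg : ∀ ψ : N, IsAlgebraic (IntermediateField.adjoin F₀ {y}) ψ) {d : N →+ N} (hd : Lb d)
    (h₀ : ∀ c, d (algebraMap F₀ N c) = 0) (h₁ : d y = 1) (v : UV N) {r : ℝ} (hr : 0 < r)
    (hv : ∀ β, r ≤ v (y - algebraMap F₀ N β)) (j : ℕ) (f : N) : v (d^[j] f) * r ^ j ≤ v f := by
  have hm : ∀ u w, v (d u) ≤ r⁻¹ * v u → v (d w) ≤ r⁻¹ * v w →
      v (d (u * w)) ≤ r⁻¹ * v (u * w) := fun u w hu hw => by
    rw [hd, v.mul u w]
    refine v.add_le ?_ ?_
    · rw [v.mul, mul_left_comm]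
      exact mul_le_mul_of_nonneg_left hw (v.nonneg _)
    · rw [v.mul, mul_comm (v u), mul_left_comm]
      exact mul_le_mul_of_nonneg_left hu (v.nonneg _)
  have hp : ∀ p : F₀[X], v (d (aeval y p)) ≤ r⁻¹ * v (aeval y p) := fun p => by
    refine T2_ind (Q := fun u => v (d u) ≤ r⁻¹ * v u) (fun c => ?_) hm p fun β _ => ?_
    · rw [h₀, v.zero]
      exact mul_nonneg (inv_nonneg.2 hr.le) (v.nonneg _)
    · rw [map_sub, h₀, h₁, sub_zero, v.one, le_inv_mul_iff₀ hr, mul_one]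
      exact hv β
  have hi : ∀ u, v (d u) ≤ r⁻¹ * v u → v (d u⁻¹) ≤ r⁻¹ * v u⁻¹ := fun u hu => by
    rcases eq_or_ne u 0 with rfl | h
    · rwa [inv_zero]
    · rw [hd.inv, v.mul, v.neg, v.pow]
      refine (mul_le_mul_of_nonneg_left hu (sq_nonneg _)).trans (le_of_eq ?_)
      have := (v.pos h).ne'
      rw [v.inv]
      field_simp
  have h1 : ∀ f, v (d f) ≤ r⁻¹ * v f := fun f =>
    tm v hd _ (T2_stab hd h₀ h₁) (inv_nonneg.2 hr.le) (fun a ha => by
      obtain ⟨p, q, rfl⟩ := (IntermediateField.mem_adjoin_simple_iff F₀ a).1 ha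
      rw [div_eq_mul_inv]
      exact hm _ _ (hp p) (hi _ (hp q))) (halg f)
  induction j with
  | zero => simp
  | succ j ih =>
    have h2 := (le_inv_mul_iff₀ hr).1 (h1 (d^[j] f))
    rw [Function.iterate_succ_apply', pow_succ', ← mul_assoc, mul_comm _ r]
    exact (mul_le_mul_of_nonneg_right h2 (pow_pos hr j).le).trans ih

theorem T2_alg {M : Type} [Field M] [Algebra F₀ M] (g : N →ₐ[F₀] M) {y ψ : N}
    (h : IsAlgebraic (IntermediateField.adjoin F₀ {g y}) (g ψ)) :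
    IsAlgebraic (IntermediateField.adjoin F₀ {y}) ψ := by
  have h1 : ∀ x : IntermediateField.adjoin F₀ {y},
      (g.comp (IntermediateField.adjoin F₀ {y}).val).toRingHom x ∈
        IntermediateField.adjoin F₀ {g y} := fun x => by
    obtain ⟨p, q, e⟩ := (IntermediateField.mem_adjoin_simple_iff F₀ _).1 x.2
    refine (IntermediateField.mem_adjoin_simple_iff F₀ _).2 ⟨p, q, ?_⟩
    rw [aeval_algHom_apply, aeval_algHom_apply, ← map_div₀, ← e]
    rfl
  refine h.of_ringHom_of_comp_eq (RingHom.codRestrict _ _ h1) g.toRingHom (fun x => ?_)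
    g.injective rfl
  obtain ⟨p, q, e⟩ := (IntermediateField.mem_adjoin_simple_iff F₀ _).1 x.2
  refine ⟨⟨_, (IntermediateField.mem_adjoin_simple_iff F₀ _).2 ⟨p, q, rfl⟩⟩, Subtype.ext ?_⟩
  rw [e, aeval_algHom_apply, aeval_algHom_apply]
  exact map_div₀ g _ _

end

theorem t_two {F₀ N : Type} [Field F₀] [Field N] [Algebra F₀ N] [IsAlgClosed F₀] [IsAlgClosed N]
    [CharZero N] {y : N} (hy : Transcendental F₀ y)
    (halg : ∀ ψ : N, IsAlgebraic (IntermediateField.adjoin F₀ {y}) ψ) {d : N →+ N} (hd : Lb d)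
    (h₀ : ∀ c, d (algebraMap F₀ N c) = 0) (h₁ : d y = 1) (ψ : N) :
    ∃ S : Finset F₀, S.Nonempty ∧ ∀ (v : UV N) (e : N),
      (∀ β ∈ S, v e ≤ v (y - algebraMap F₀ N β)) → ∀ j, v (d^[j] ψ * e ^ j) ≤ v ψ := by
  classical
  rcases eq_or_ne ψ 0 with rfl | hψ
  · exact ⟨{0}, Finset.singleton_nonempty _, fun v e _ j => by
      rw [Function.iterate_fixed (map_zero d), zero_mul]⟩
  obtain ⟨f₀, hf, hf0, hf1⟩ := t_one hy halg hd h₀ h₁ hψ
  have hS : f₀.roots.toFinset.Nonempty := ⟨0, Multiset.mem_toFinset.2 ((mem_roots hf).2 hf0)⟩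
  refine ⟨_, hS, fun v e he j => ?_⟩
  obtain ⟨β₀, hβ₀, hmin⟩ := Finset.exists_min_image _ (fun β => v (y - algebraMap F₀ N β)) hS
  have hr : 0 < v (y - algebraMap F₀ N β₀) :=
    v.pos fun h => hy (sub_eq_zero.1 h ▸ isAlgebraic_algebraMap β₀)
  obtain ⟨v', hv0, hv1⟩ := gauss hy halg v hr
  have h1 := T2_tame halg hd h₀ h₁ v' hr fun β => by
    rw [hv1]
    exact le_max_left _ _
  have h2 : ∀ p : F₀[X], v (aeval y p) ≤ v' (aeval y p) := fun p =>
    T2_ind (Q := fun u => v u ≤ v' u) (fun c => (hv0 c).ge) (fun u w hu hw => by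
      rw [v.mul, v'.mul]
      exact mul_le_mul hu hw (v.nonneg _) (v'.nonneg _)) p fun β _ => by
        rw [hv1]
        exact le_max_right _ _
  have h3 : v' (aeval y f₀) = v (aeval y f₀) :=
    T2_ind (Q := fun u => v' u = v u) hv0 (fun u w hu hw => by rw [v.mul, v'.mul, hu, hw]) f₀
      fun β hβ => by rw [hv1, max_eq_right (hmin β (Multiset.mem_toFinset.2 hβ))]
  have h4 : 0 < v (aeval y f₀) := v.pos fun h => hy ⟨f₀, hf, h⟩
  have : IsAlgClosure (IntermediateField.adjoin F₀ {y}) N := ⟨inferInstance, ⟨halg⟩⟩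
  obtain ⟨φ, hφ⟩ : ∃ φ, φ = (y - algebraMap F₀ N β₀) ^ j * d^[j] ψ / ψ := ⟨_, rfl⟩
  have h5 : ((minpoly (IntermediateField.adjoin F₀ {y}) φ).map (algebraMap _ N)).Monic :=
    (minpoly.monic (halg φ).isIntegral).map _
  have h6 := T2_coeff v' h5 fun ρ hρ => by
    obtain ⟨σ, rfl⟩ := minpoly.exists_algEquiv_of_root' (halg φ)
      (by rw [← eval_map_algebraMap]; exact isRoot_of_mem_roots hρ)
    have k0 : ∀ a ∈ IntermediateField.adjoin F₀ {y}, σ a = a := fun a ha => σ.commutes ⟨a, ha⟩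
    have k1 : Function.Commute d σ := fun f =>
      hd.comm (N₀ := (IntermediateField.adjoin F₀ {y}).toSubfield) (σ : N →+* N) (fun a ha => by
        rw [RingHom.coe_coe, k0 a ha, k0 _ (T2_stab hd h₀ h₁ a ha)]) (halg f)
    have k2 := v'.pos ((map_ne_zero σ).2 hψ)
    rw [hφ, map_div₀, map_mul, map_pow, k0 _ (sub_mem (IntermediateField.mem_adjoin_simple_self _ _)
      (IntermediateField.algebraMap_mem _ _)), ← (k1.iterate_left j).eq, v'.div, v'.mul, v'.pow,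
      hv1, max_self, div_le_one k2, mul_comm]
    exact h1 j _
  have h7 := T2_root v h5 (φ := φ) (fun i => by
    obtain ⟨p, k, hp⟩ := hf1 j β₀ i
    have k0 := h2 p
    have k1 := h6 i
    rw [coeff_map] at k1 ⊢
    rw [← hp, ← hφ, v.mul, v'.mul, v.pow, v'.pow, h3] at k0
    exact (le_of_mul_le_mul_right k0 (pow_pos h4 k)).trans k1)
    (by rw [eval_map_algebraMap, minpoly.aeval])
  rw [hφ, v.div, div_le_one (v.pos hψ), v.mul, v.pow, mul_comm] at h7
  rw [v.mul, v.pow]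
  exact (mul_le_mul_of_nonneg_left (pow_le_pow_left₀ (v.nonneg _) (he β₀ hβ₀) j)
    (v.nonneg _)).trans h7

theorem toolT {M : Type} [Field M] [IsAlgClosed M] [CharZero M] (F₀ : Subfield M)
    (hF : IsAlgClosed F₀) {y : M} (hy : Transcendental F₀ y) {d : M →+ M} (hd : Lb d)
    (h₀ : ∀ c ∈ F₀, d c = 0) (h₁ : d y = 1) {ψ : M}
    (hψ : IsAlgebraic (IntermediateField.adjoin F₀ {y}) ψ) :
    ∃ S : Finset M, S.Nonempty ∧ (∀ β ∈ S, β ∈ F₀) ∧ ∀ (v : UV M) (e : M),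
      (∀ β ∈ S, v e ≤ v (y - β)) → ∀ j, v (d^[j] ψ * e ^ j) ≤ v ψ := by
  classical
  let N := algebraicClosure (IntermediateField.adjoin F₀ {y}) M
  have : IsAlgClosed N := IsAlgClosure.isAlgClosed (IntermediateField.adjoin F₀ {y})
  have hle : (IntermediateField.adjoin F₀ {y}).toSubfield ≤ N.toSubfield := fun a ha =>
    N.algebraMap_mem ⟨a, ha⟩
  have hN : ∀ f : N, d f ∈ N := fun f =>
    hd.mem_of_alg hle (fun a ha => hle (T2_stab hd (fun c : F₀ => h₀ c c.2) h₁ a ha)) f.2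
      (mem_algebraicClosure_iff.1 f.2)
  let d' : N →+ N := AddMonoidHom.mk' (fun f => ⟨d f, hN f⟩) fun a b => Subtype.ext (map_add d _ _)
  let g : N →ₐ[F₀] M := N.val.restrictScalars F₀
  let y' : N := ⟨y, hle (IntermediateField.mem_adjoin_simple_self _ _)⟩
  obtain ⟨S, hS, h⟩ := t_two (F₀ := F₀) (y := y') (fun h => hy (h.algHom g))
    (fun f => T2_alg g (mem_algebraicClosure_iff.1 f.2)) (d := d')
    (fun a b => Subtype.ext (hd a b)) (fun c => Subtype.ext (h₀ c c.2)) (Subtype.ext h₁)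
    ⟨ψ, mem_algebraicClosure_iff.2 hψ⟩
  refine ⟨S.image Subtype.val, hS.image _, fun β hβ => ?_, fun v e he j => ?_⟩
  · obtain ⟨c, -, rfl⟩ := Finset.mem_image.1 hβ
    exact c.2
  · obtain ⟨β₀, hβ₀, hmin⟩ := Finset.exists_min_image S (fun β => v (y - β)) hS
    have h1 := h (v.comap g.toRingHom) (y' - algebraMap F₀ N β₀) hmin j
    have h2 : Function.Semiconj g d' d := fun _ => rfl
    change v (g _) ≤ v ψ at h1
    rw [map_mul, map_pow, (h2.iterate_right j).eq, v.mul, v.pow] at h1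
    rw [v.mul, v.pow]
    exact (mul_le_mul_of_nonneg_left (pow_le_pow_left₀ (v.nonneg _)
      (he β₀ (Finset.mem_image_of_mem _ hβ₀)) j) (v.nonneg _)).trans h1

end Pool.Agent.Work.MP_e120ef_ag.H.MQ
end

-- merged part: Pool.Agent.Work.MP_e120ef_ag.F.Fm2
section
/-!
# Singular sets, sheets, change of frame

Plans.  `exists_tm`: `toolT` with `F₀ = 𝔉.F`, `d = dA 𝔉.dy`.  `exists_tmx`: `toolT` with `F₀ = (algebraMap K M).fieldRange`, `y := x`, `d = dA 𝔉.pd`.
`exists_SD`: `p = minpoly 𝔉.Kx⟮y⟯ G` is separable and splits in `M`; enumerate its roots by `Fin (n + 1)` with `G` first.  Clear denominators: each coefficient is `aeval y a / aeval y b` with `a, b ∈ Kx[X]` (`IntermediateField.mem_adjoin_simple_iff`); `P` has the coefficients `(a_i * ∏_{l ≠ i} b_l).map Kx.subtype`.  `S` is the union of the finitely many sets given by `exists_tm`.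
`chg`: `x'` is transcendental since `pd` kills elements algebraic over `K` (`Lb.zero_of_alg`); `exists_basis`, `exists_fm`.  With `W = dy' y - G dy' x`, `c = dy' x`, `chain` gives `dy' f = c pd f + W dy f`.  `W ≠ 0`: otherwise `dy' = c pd`, evaluate at `x'` and `y'`.  Compute `pd (dy' f) - dy' (pd f)` in two ways (`𝔉.bracket`, `𝔉'.bracket`, `pd = μ pd'`) and evaluate at `f = x` and `f = y` (or compare modulo multiples of `pd`, using `y - ` the combination `L f = ` coefficient of `dy`).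
-/

namespace Pool.Agent.Work.MP_e120ef_ag.H.MQ

section
open Polynomial

variable {k M : Type} [Field k] [Field M] [Algebra k M] {y : M}

theorem Fm2_den (c : ℕ → IntermediateField.adjoin k {y}) (m : ℕ) : ∃ b : k[X], aeval y b ≠ 0 ∧
    ∀ i < m, ∃ a : k[X], aeval y a = aeval y b * c i := by
  induction m with
  | zero => exact ⟨1, by simp, by simp⟩
  | succ m ih =>
    obtain ⟨b, hb, h⟩ := ih
    obtain ⟨r, s, e⟩ := (IntermediateField.mem_adjoin_simple_iff k _).1 (c m).2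
    by_cases hs : aeval y s = 0
    · refine ⟨b, hb, fun i hi => (Nat.lt_succ_iff_lt_or_eq.1 hi).elim (h i) fun hi => ⟨0, ?_⟩⟩
      rw [hi, e, hs, div_zero, mul_zero, map_zero]
    · refine ⟨s * b, by rw [map_mul]; exact mul_ne_zero hs hb, fun i hi => ?_⟩
      rcases Nat.lt_succ_iff_lt_or_eq.1 hi with hi | rfl
      · obtain ⟨a, ha⟩ := h i hi
        exact ⟨s * a, by rw [map_mul, map_mul, ha, mul_assoc]⟩
      · exact ⟨b * r, by rw [map_mul, map_mul, e]; field_simp⟩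

theorem Fm2_poly {k : Subfield M} (p : (IntermediateField.adjoin k {y})[X]) :
    ∃ (B : M) (P : M[X][X]), B ≠ 0 ∧ (∀ i j, (P.coeff i).coeff j ∈ k) ∧
      P.natDegree ≤ p.natDegree ∧
      (P.coeff p.natDegree).eval y = B * algebraMap _ M (p.coeff p.natDegree) ∧
      ∀ g, P.eval₂ (evalRingHom y) g = B * aeval g p := by
  obtain ⟨b, hb, h⟩ := Fm2_den p.coeff (p.natDegree + 1)
  choose! a ha using h
  have h1 : ∀ i, (∑ j ∈ Finset.range (p.natDegree + 1),
      monomial j ((a j).map (algebraMap k M))).coeff i =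
      if i ∈ Finset.range (p.natDegree + 1) then (a i).map (algebraMap k M) else 0 := fun i => by
    simp only [finsetSum_coeff, coeff_monomial, Finset.sum_ite_eq']
  refine ⟨_, ∑ j ∈ Finset.range (p.natDegree + 1), monomial j ((a j).map (algebraMap k M)), hb,
    fun i j => ?_, natDegree_le_iff_coeff_eq_zero.2 fun i hi => ?_, ?_, fun g => ?_⟩
  · rw [h1]
    split_ifs
    · rw [coeff_map]
      exact ((a i).coeff j).2
    · exact zero_mem k
  · rw [h1, if_neg (by simpa using hi)]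
  · rw [h1, if_pos (Finset.self_mem_range_succ _), eval_map_algebraMap, ha _ (Nat.lt_succ_self _)]
    rfl
  · rw [eval₂_finsetSum, aeval_eq_sum_range (p := p), Finset.mul_sum]
    refine Finset.sum_congr rfl fun i hi => ?_
    rw [eval₂_monomial, coe_evalRingHom, eval_map_algebraMap, ha _ (Finset.mem_range.1 hi),
      mul_assoc]
    rfl

end

namespace Fm

variable {K M : Type} [Field K] [Field M] [Algebra K M] (𝔉 : Fm K M)

theorem Tm.mono {𝔉 : Fm K M} {S S' : Finset M} {ψ : M} (h : 𝔉.Tm S ψ) (hS : S ⊆ S') :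
    𝔉.Tm S' ψ := fun v e he => h v e fun β hβ => he β (hS hβ)

variable [CharZero K] [CharZero M] [IsAlgClosed K] [IsAlgClosed M]

theorem exists_tm (ψ : M) : ∃ S : Finset M, S.Nonempty ∧ (∀ β ∈ S, β ∈ 𝔉.F) ∧ 𝔉.Tm S ψ := by
  exact toolT 𝔉.F 𝔉.F_closed 𝔉.y_trans (lb_dA 𝔉.dy) (fun _ hc => 𝔉.dy_F hc) 𝔉.dy_y (𝔉.alg ψ)

theorem exists_tmx {γ : M} (hγ : γ ∈ 𝔉.F) : ∃ S : Finset K, ∀ (v : UV M) (e : M),
    (∀ β ∈ S, v e ≤ v (𝔉.x - algebraMap K M β)) → ∀ j, v (𝔉.pd^[j] γ * e ^ j) ≤ v γ := by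
  let e := (algebraMap K M).rangeRestrictFieldEquiv
  have h1 : 𝔉.Kx ≤ (IntermediateField.adjoin (algebraMap K M).fieldRange {𝔉.x}).toSubfield := by
    refine Subfield.closure_le.2 ?_
    rintro _ (⟨c, rfl⟩ | rfl)
    · exact IntermediateField.algebraMap_mem _ (e c)
    · exact IntermediateField.mem_adjoin_simple_self _ _
  obtain ⟨S, -, h2, h3⟩ := toolT (algebraMap K M).fieldRange (IsAlgClosed.of_ringEquiv K _ e)
    (𝔉.x_trans.ringHom_of_comp_eq e (RingHom.id M) e.surjective Function.injective_id rfl)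
    (lb_dA 𝔉.pd) (by rintro _ ⟨c, rfl⟩; exact 𝔉.pd.map_algebraMap c) 𝔉.pd_x
    ((𝔉.mem_F.1 hγ).ringHom_of_comp_eq (Subfield.inclusion h1) (RingHom.id M)
      (Subfield.inclusion h1).injective rfl)
  refine ⟨S.preimage _ (algebraMap K M).injective.injOn, fun v e he => h3 v e fun β hβ => ?_⟩
  obtain ⟨c, rfl⟩ := h2 β hβ
  exact he c (Finset.mem_preimage.2 hβ)

theorem Fm2_fin (T : Finset M) :
    ∃ S : Finset M, S.Nonempty ∧ (∀ β ∈ S, β ∈ 𝔉.F) ∧ ∀ ψ ∈ T, 𝔉.Tm S ψ := by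
  classical
  induction T using Finset.induction_on with
  | empty =>
    obtain ⟨S, h1, h2, -⟩ := 𝔉.exists_tm 0
    exact ⟨S, h1, h2, by simp⟩
  | insert ψ T _ ih =>
    obtain ⟨S, h1, h2, h3⟩ := ih
    obtain ⟨S', -, k2, k3⟩ := 𝔉.exists_tm ψ
    exact ⟨S ∪ S', h1.inl, fun β hβ => (Finset.mem_union.1 hβ).elim (h2 β) (k2 β),
      Finset.forall_mem_insert .. |>.2
        ⟨k3.mono Finset.subset_union_right, fun φ hφ => (h3 φ hφ).mono Finset.subset_union_left⟩⟩

theorem exists_SD : Nonempty 𝔉.SD := by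
  classical
  have hi := (𝔉.alg_Kx 𝔉.G).isIntegral
  obtain ⟨n, hn⟩ := Nat.exists_eq_add_one_of_ne_zero (minpoly.natDegree_pos hi).ne'
  have e := Fintype.equivFinOfCardEq
    ((Polynomial.card_rootSet_eq_natDegree (K := M) (minpoly.irreducible hi).separable
      (IsAlgClosed.splits _)).trans hn)
  obtain ⟨G, hG⟩ : ∃ G : (minpoly (IntermediateField.adjoin 𝔉.Kx {𝔉.y}) 𝔉.G).rootSet M,
      G.1 = 𝔉.G :=
    ⟨⟨_, (Polynomial.mem_rootSet_of_ne (minpoly.ne_zero hi)).2 (minpoly.aeval _ _)⟩, rfl⟩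
  obtain ⟨B, P, hB, h1, h2⟩ := Fm2_poly (minpoly (IntermediateField.adjoin 𝔉.Kx {𝔉.y}) 𝔉.G)
  let Gs : Fin (n + 1) → M := fun i => (e.symm (Equiv.swap 0 (e G) i)).1
  obtain ⟨S, k1, k2, k3⟩ := 𝔉.Fm2_fin (insert ((P.coeff (n + 1)).eval 𝔉.y) (insert 𝔉.Δ
    (Finset.univ.image Gs ∪ Finset.univ.image fun z : _ × _ => Gs z.1 - Gs z.2)))
  refine ⟨⟨n, Gs, P, S, fun i j h => ?_, ?_, h1, ?_, ?_, fun i => ?_, k1, k2, k3 _ (by simp),
    fun i => k3 _ (by simp), fun i j => k3 _ (by simp), k3 _ (by simp)⟩⟩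
  · exact (Equiv.swap _ _).injective (e.symm.injective (Subtype.ext h))
  · simp only [Gs, Equiv.swap_apply_left, Equiv.symm_apply_apply, hG]
  · exact hn ▸ h2.1
  · rw [← hn, h2.2.1, (minpoly.monic hi).coeff_natDegree, map_one, mul_one]
    exact hB
  · rw [h2.2.2, Polynomial.aeval_eq_zero_of_mem_rootSet (e.symm _).2, mul_zero]

theorem chg {x' : M} (hx : 𝔉.pd x' ≠ 0) : ∃ 𝔉' : Fm K M, 𝔉'.x = x' ∧
    𝔉'.pd = (𝔉.pd x')⁻¹ • 𝔉.pd ∧ 𝔉'.dy 𝔉.y - 𝔉.G * 𝔉'.dy 𝔉.x ≠ 0 ∧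
    𝔉.Δ = 𝔉.pd (𝔉'.dy 𝔉.y - 𝔉.G * 𝔉'.dy 𝔉.x) / (𝔉'.dy 𝔉.y - 𝔉.G * 𝔉'.dy 𝔉.x) +
      𝔉.pd x' * 𝔉'.Δ := by
  have ht : Transcendental K x' := fun h => hx <| by
    have h1 := 𝔉.pd.map_aeval (minpoly K x') x'
    rw [minpoly.aeval, map_zero, smul_eq_mul] at h1
    exact (mul_eq_zero.1 h1.symm).resolve_left
      ((minpoly.irreducible h.isIntegral).separable.aeval_derivative_ne_zero (minpoly.aeval _ _))
  obtain ⟨y', hb⟩ : ∃ y', IsTranscendenceBasis K ![x', y'] := by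
    first | exact 𝔉.exists_basis ht | exact exists_basis ht
  obtain ⟨𝔊, h1, h2, h3⟩ := exists_fm hb ((𝔉.pd x')⁻¹ • 𝔉.pd) (inv_mul_cancel₀ hx)
  have hW : 𝔊.dy 𝔉.y - 𝔉.G * 𝔊.dy 𝔉.x ≠ 0 := fun h => by
    have k1 := 𝔉.chain 𝔊.dy 𝔊.x
    have k2 := 𝔉.chain 𝔊.dy 𝔊.y
    rw [h, zero_mul, add_zero, 𝔊.dy_x, h1] at k1
    rw [h, 𝔊.dy_y, (mul_eq_zero.1 k1.symm).resolve_right hx, zero_mul, zero_mul, add_zero] at k2
    exact one_ne_zero k2
  refine ⟨𝔊, h1, h3, hW, ?_⟩
  have k1 := 𝔊.bracket 𝔉.x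
  have k2 := 𝔊.bracket 𝔉.y
  have k3 := 𝔉.chain 𝔊.dy 𝔉.G
  simp only [h3, Derivation.smul_apply, smul_eq_mul, 𝔉.pd_x, mul_one] at k1 k2
  rw [𝔊.dy.leibniz, smul_eq_mul, smul_eq_mul] at k2
  rw [map_sub, 𝔉.pd.leibniz, smul_eq_mul, smul_eq_mul, div_add' _ _ _ hW, eq_div_iff hW]
  change _ - ((𝔉.pd x')⁻¹ * 𝔊.dy 𝔉.G + 𝔉.G * _) = _ at k2
  change _ = _ + _ * 𝔉.Δ at k3
  have k4 := mul_inv_cancel₀ hx
  linear_combination (-(𝔉.pd x')) * k2 + 𝔉.pd x' * 𝔉.G * k1 - k3 +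
    (𝔉.pd (𝔊.dy 𝔉.y) - 𝔉.G * 𝔉.pd (𝔊.dy 𝔉.x) - 𝔊.dy 𝔉.G) * k4

end Fm

end Pool.Agent.Work.MP_e120ef_ag.H.MQ
end

-- merged part: Pool.Agent.Work.MP_e120ef_ag.F.Ty
section
/-!
# The two types of limits

Plans.  `u_const`: `Ultrafilter.eventually_exists_mem_iff` or `Ultrafilter.finite_biUnion_mem_iff`.
`ty1_con`: `exists_tm ψ`, `Filter.eventually_all_finset`, `j = 1`.  `ty1_res`, with `u = y - b`: `Δ = dy (pd u)` (`pd_F`, `dy_F`).  If all `x₀ = 0`, put `ψ₀ = x pd u / u - q`; then `x Δ = q + ψ₀ + u dy ψ₀`, `v ψ₀ < 1` by `ldX`.  If all slopes vanish then `q = 0` (`a ≠ 0`); with `ψ₀ = pd u / u`, `Δ = ψ₀ + u dy ψ₀`, so `v (X Δ) ≤ v (X ψ₀) < 1`.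
`ty2_step`: negate `Best` (`Ultrafilter.eventually_not`).  `ty2_close`: the nearest point of `S` is constant on a set of `U`.  `ty2_val`: for each `n` in the set, `exists_sp` at scale `y - β` (`β` nearest), `exists_rt`, `u_const`.
`ty2_gam`: `S` from `exists_tm Δ`, `b₀` from `ty2_close`.  Let `ψ = G - pd b₀ = pd (y - b₀)`, `dy ψ = Δ`, `S'` from `exists_tm ψ`, `b` from `ty2_close (S ∪ S' ∪ {b₀})`.  With `e = y - β'`, `β'` nearest in `S'`: `v (Δ e) ≤ v ψ` and `v (X ψ) ≤ v (y - b₀)`, so `v (X Δ) * v (b - y) ≤ v (y - b₀) < v (y - β)` for `β ∈ S`.  Now `ty2_val` for `Δ`.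
-/

open Filter

namespace Pool.Agent.Work.MP_e120ef_ag.H.MQ

theorem u_const {ι α : Type} (U : Ultrafilter ι) {s : Set α} (hs : s.Finite) {r : ι → α → Prop}
    (h : ∀ᶠ n in (U : Filter ι), ∃ a ∈ s, r n a) : ∃ a ∈ s, ∀ᶠ n in (U : Filter ι), r n a := by
  exact (Ultrafilter.eventually_exists_mem_iff (P := fun a n => r n a) hs).1 h

variable {K M ι : Type} [Field K] [Field M] [Algebra K M] [CharZero K] [CharZero M]
  [IsAlgClosed K] [IsAlgClosed M] {𝔉 : Fm K M} {U : Ultrafilter ι} {p : ι → NP 𝔉}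

omit [IsAlgClosed K] [IsAlgClosed M] in
theorem Ty_Δ (𝔉 : Fm K M) {b : M} (hb : b ∈ 𝔉.F) : 𝔉.dy (𝔉.pd (𝔉.y - b)) = 𝔉.Δ := by
  rw [map_sub, map_sub, 𝔉.dy_F (𝔉.pd_F hb), sub_zero]
  rfl

omit [IsAlgClosed K] [IsAlgClosed M] in
theorem Ty_eq (𝔉 : Fm K M) {b c : M} (hb : b ∈ 𝔉.F) (hc : 𝔉.dy c = 0) (q : ℚ) :
    c * 𝔉.Δ - q = (c * 𝔉.pd (𝔉.y - b) / (𝔉.y - b) - q) +
      (𝔉.y - b) * 𝔉.dy (c * 𝔉.pd (𝔉.y - b) / (𝔉.y - b) - q) := by
  have hu := 𝔉.y_sub_ne hb
  have h1 : 𝔉.dy (𝔉.y - b) = 1 := by rw [map_sub, 𝔉.dy_y, 𝔉.dy_F hb, sub_zero]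
  have h2 : 𝔉.dy (q : M) = 0 := 𝔉.dy_F (SubfieldClass.ratCast_mem _ q)
  have h3 := 𝔉.dy.leibniz (𝔉.y - b) (c * 𝔉.pd (𝔉.y - b) / (𝔉.y - b))
  rw [mul_div_cancel₀ _ hu, 𝔉.dy.leibniz, Ty_Δ 𝔉 hb, hc, h1] at h3
  simp only [smul_eq_mul] at h3
  rw [map_sub 𝔉.dy _ (q : M), h2]
  linear_combination h3

theorem ty1_con {b : M} (h : Best U p b) (ψ : M) :
    ∀ᶠ n in (U : Filter ι), (p n).v ((𝔉.y - b) * 𝔉.dy ψ) ≤ (p n).v ψ := by
  obtain ⟨S, -, hF, hT⟩ := 𝔉.exists_tm ψ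
  filter_upwards [(eventually_all_finset S).2 fun β hβ => h.2 β (hF β hβ)] with n hn
  have := hT (p n).v _ hn 1
  rwa [pow_one, Function.iterate_one, mul_comm] at this

theorem ty1_res (hAB : AB U p) {b : M} (h : Best U p b) {q : ℚ}
    (hq : ∀ᶠ n in (U : Filter ι), (p n).sig (𝔉.y - b) = q * (p n).a) :
    ∀ᶠ n in (U : Filter ι), (p n).v ((p n).X * 𝔉.Δ - q) < 1 := by
  have hu := 𝔉.y_sub_ne h.1
  rcases hAB with hA | hB
  · filter_upwards [hq, ty1_con h (𝔉.x * 𝔉.pd (𝔉.y - b) / (𝔉.y - b) - q)] with n h1 h2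
    have hX : (p n).X = 𝔉.x := by rw [NP.X, hA, map_zero, sub_zero]
    have h3 := (p n).ldX hu
    rw [h1, mul_div_cancel_right₀ _ (p n).a_ne, hX, ← div_lt_one ((p n).v.pos hu), ← (p n).v.div,
      sub_div, mul_div_cancel_right₀ _ hu] at h3
    rw [hX, Ty_eq 𝔉 h.1 𝔉.dy_x q]
    exact (p n).v.add_lt h3 (h2.trans_lt h3)
  · filter_upwards [hq, hB (𝔉.y - b),
      ty1_con h (1 * 𝔉.pd (𝔉.y - b) / (𝔉.y - b) - (0 : ℚ))] with n h1 h0 h2
    obtain rfl : q = 0 := (mul_eq_zero.1 (h1.symm.trans h0)).resolve_right (p n).a_ne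
    have h3 := (p n).ldX hu
    have h4 := Ty_eq 𝔉 h.1 𝔉.dy.map_one_eq_zero 0
    rw [h0, zero_div, Rat.cast_zero, zero_mul, sub_zero, ← div_lt_one ((p n).v.pos hu),
      ← (p n).v.div, mul_div_assoc, (p n).v.mul] at h3
    rw [Rat.cast_zero, sub_zero, one_mul] at h2
    rw [Rat.cast_zero, sub_zero, sub_zero, one_mul, one_mul] at h4
    rw [Rat.cast_zero, sub_zero, (p n).v.mul, h4]
    exact (mul_le_mul_of_nonneg_left ((p n).v.add_le le_rfl h2) ((p n).v.nonneg _)).trans_lt h3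

variable (h : ∀ b, ¬ Best U p b)
include h

theorem ty2_step {b : M} (hb : b ∈ 𝔉.F) :
    ∃ β ∈ 𝔉.F, ∀ᶠ n in (U : Filter ι), (p n).v (𝔉.y - β) < (p n).v (𝔉.y - b) := by
  by_contra c
  refine h b ⟨hb, fun β hβ => ?_⟩
  have := Ultrafilter.eventually_not.2 fun e => c ⟨β, hβ, e⟩
  exact this.mono fun n hn => not_lt.1 hn

theorem ty2_close (S : Finset M) (hS : ∀ β ∈ S, β ∈ 𝔉.F) :
    ∃ b ∈ 𝔉.F, ∀ᶠ n in (U : Filter ι), 𝔉.In (p n).v S b := by
  rcases S.eq_empty_or_nonempty with rfl | hne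
  · exact ⟨0, zero_mem _, Eventually.of_forall fun n β hβ => absurd hβ (Finset.notMem_empty _)⟩
  obtain ⟨β, hβ, h1⟩ := u_const U S.finite_toSet
    (r := fun n β => ∀ β' ∈ S, (p n).v (𝔉.y - β) ≤ (p n).v (𝔉.y - β'))
    (Eventually.of_forall fun n => S.exists_min_image _ hne)
  obtain ⟨b, hb, h2⟩ := ty2_step h (hS β hβ)
  refine ⟨b, hb, ?_⟩
  filter_upwards [h1, h2] with n k1 k2 β' hβ'
  rw [(p n).v.sub_comm]
  exact k2.trans_le (k1 β' hβ')

omit h in
theorem ty2_val {S : Finset M} (hS : S.Nonempty) {ψ : M} (hψ : 𝔉.Tm S ψ) {b : M} (hb : b ∈ 𝔉.F)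
    (h : ∀ᶠ n in (U : Filter ι), 𝔉.In (p n).v S b) : ∃ γ ∈ 𝔉.F, ∀ᶠ n in (U : Filter ι),
      ∃ β ∈ S, (p n).v (γ - ψ) * (p n).v (𝔉.y - β) ≤ (p n).v ψ * (p n).v (b - 𝔉.y) := by
  obtain ⟨Rt, hR⟩ := 𝔉.exists_rt hb ψ
  obtain ⟨γ, hγ, h1⟩ := u_const U (s := {γ | γ ∈ Rt ∧ γ ∈ 𝔉.F})
    (Rt.finite_toSet.subset fun _ k => k.1) (r := fun n γ =>
      ∃ β ∈ S, (p n).v (γ - ψ) * (p n).v (𝔉.y - β) ≤ (p n).v ψ * (p n).v (b - 𝔉.y))
    (h.mono fun n hn => by
      obtain ⟨β, hβ, k⟩ := S.exists_min_image (fun β => (p n).v (𝔉.y - β)) hS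
      obtain ⟨t, ht⟩ := 𝔉.exists_sp hb (p n).v (hn β hβ)
      obtain ⟨k1, k2⟩ := ht.one (hψ _ _ k)
      exact ⟨_, ⟨hR t k1, t.sp_mem k1⟩, β, hβ, k2⟩)
  exact ⟨γ, hγ.2, h1⟩

theorem ty2_lead {ψ : M} (hψ : ψ ≠ 0) : ∃ f ∈ 𝔉.F, ∀ᶠ n in (U : Filter ι), (p n).v.E f ψ := by
  obtain ⟨S, hne, hF, hT⟩ := 𝔉.exists_tm ψ
  obtain ⟨b, hb, h1⟩ := ty2_close h S hF
  obtain ⟨γ, hγ, h2⟩ := ty2_val hne hT hb h1
  refine ⟨γ, hγ, ?_⟩
  filter_upwards [h1, h2] with n k1 ⟨β, hβ, k2⟩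
  exact lt_of_mul_lt_mul_right (k2.trans_lt (mul_lt_mul_of_pos_left (k1 β hβ) ((p n).v.pos hψ)))
    ((p n).v.nonneg _)

theorem ty2_gam : ∃ γ ∈ 𝔉.F, ∀ᶠ n in (U : Filter ι), (p n).v ((p n).X * (𝔉.Δ - γ)) < 1 := by
  classical
  obtain ⟨S, hne, hF, hT⟩ := 𝔉.exists_tm 𝔉.Δ
  obtain ⟨b₀, hb₀, h0⟩ := ty2_close h S hF
  obtain ⟨S', hne', hF', hT'⟩ := 𝔉.exists_tm (𝔉.pd (𝔉.y - b₀))
  obtain ⟨b, hb, h1⟩ := ty2_close h (S ∪ S') fun β hβ =>
    (Finset.mem_union.1 hβ).elim (hF β) (hF' β)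
  obtain ⟨γ, hγ, h2⟩ := ty2_val hne hT hb
    (h1.mono fun n hn β hβ => hn β (Finset.mem_union_left _ hβ))
  refine ⟨γ, hγ, ?_⟩
  filter_upwards [h0, h1, h2] with n k0 k1 ⟨β, hβ, k2⟩
  obtain ⟨β', hβ', k⟩ := S'.exists_min_image (fun β => (p n).v (𝔉.y - β)) hne'
  have k3 := hT' _ _ k 1
  rw [pow_one, Function.iterate_one, Ty_Δ 𝔉 hb₀, (p n).v.mul] at k3
  have k4 := (p n).ldX_le (𝔉.y - b₀)
  have k5 := k0 β hβ
  have k6 := k1 β' (Finset.mem_union_right _ hβ')
  rw [(p n).v.mul] at k4 ⊢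
  rw [(p n).v.sub_comm] at k2 k5
  refine lt_of_mul_lt_mul_right ?_ ((p n).v.nonneg (𝔉.y - β))
  rw [one_mul, mul_assoc]
  exact ((mul_le_mul_of_nonneg_left (k2.trans ((mul_le_mul_of_nonneg_left k6.le
    ((p n).v.nonneg _)).trans k3)) ((p n).v.nonneg _)).trans k4).trans_lt k5

end Pool.Agent.Work.MP_e120ef_ag.H.MQ
end

-- merged part: Pool.Agent.Work.MP_e120ef_ag.F.CJ1
section
/-!
# Extensions of a valuation to a normal extension are conjugate

Plan.  `A = O.comap (algebraMap E F)` (a valuation subring of `E`, equal to that of `O'`), `B = integralClosure A F`; `B ⊆ O`, `B ⊆ O'` (valuation rings are integrally closed).  `G = F ≃ₐ[E] F` acts on `B` with invariants `A` (`IsGalois`, `A` integrally closed in `E`); the primes `𝔪_O ∩ B` and `𝔪_O' ∩ B` lie over the maximal ideal of `A`, so they are conjugate by `Algebra.IsInvariant.exists_smul_of_under_eq_of_profinite` (Krull topology on `G`, discrete topology on `B`).  Alternatively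 use compactness or Zorn and the finite version `Algebra.IsInvariant.exists_smul_of_under_eq`.
`CJ1_frac`: each `f ∈ O` is `t / s` with `s, t ∈ B`, `s` a unit of `O`.  Take `∑ c_i f ^ i = 0`, `c_i ∈ A`, some `c_i` a unit of `A`, `j` the largest such index, `s = c_N f ^ (N - j) + ... + c_j`, `t = s f`.  The Horner sums `c_N f ^ i + ... + c_(N - i)` are integral over `A`: they lie in every valuation subring `V` of `F` containing `A` (clear if `f ∈ V`, otherwise they are polynomials in `f⁻¹`); use `ValuationSubring` characterisation of the integral closure (`iInf_valuationSubring_superset` or `Subring.exists_le_valuationSubring_of_isIntegrallyClosedIn` in `Mathlib/RingTheory/Valuation/LocalSubring.lean`), and `t` is the next Horner sum minus `c_(j - 1)` (or `0`).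
So a valuation subring above `A` is determined by its centre on `B`.
-/

namespace Pool.Agent.Work.MP_e120ef_ag.H.MQ

section

variable (E : Type) {F : Type} [Field E] [Field F] [Algebra E F]

/-- the intersection of all valuation subrings containing the restriction of `O` -/
def CJ1_B (O : ValuationSubring F) : Subring F where
  carrier := {x | ∀ V : ValuationSubring F,
    (∀ e : E, algebraMap E F e ∈ O → algebraMap E F e ∈ V) → x ∈ V}
  mul_mem' ha hb V h := mul_mem (ha V h) (hb V h)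
  one_mem' _ _ := one_mem _
  add_mem' ha hb V h := add_mem (ha V h) (hb V h)
  zero_mem' _ _ := zero_mem _
  neg_mem' ha V h := neg_mem (ha V h)

variable {E}

theorem CJ1_eq {O O' : ValuationSubring F}
    (h : ∀ e : E, algebraMap E F e ∈ O ↔ algebraMap E F e ∈ O') : CJ1_B E O = CJ1_B E O' :=
  Subring.ext fun _ => forall_congr' fun _ => imp_congr_left
    (forall_congr' fun e => imp_congr_left (h e))

theorem CJ1_frac [Algebra.IsAlgebraic E F] (O : ValuationSubring F) {f : F} (hf : f ∈ O) :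
    ∃ s ∈ CJ1_B E O, s * f ∈ CJ1_B E O ∧ s ∉ O.nonunits := by
  classical
  obtain ⟨p, hp, h0⟩ := Algebra.IsAlgebraic.isAlgebraic (R := E) f
  let v : ℕ → O.ValueGroup := fun i => O.valuation (algebraMap E F (p.coeff i))
  obtain ⟨k, hk, hm⟩ := Finset.exists_max_image (Finset.range (p.natDegree + 1)) v ⟨0, by simp⟩
  obtain ⟨j, hj, hm'⟩ := Finset.exists_max_image
    ((Finset.range (p.natDegree + 1)).filter fun i => v i = v k) id ⟨k, by simp [hk]⟩
  obtain ⟨hj1, hj2⟩ := Finset.mem_filter.1 hj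
  rw [← hj2] at hm hm'
  have vj : 0 < v j := lt_of_lt_of_le (zero_lt_iff.2 (by
    simpa [v] using hp)) (hm p.natDegree (by simp))
  have cj : p.coeff j ≠ 0 := fun e => by simp [v, e] at vj
  let d : ℕ → F := fun i => algebraMap E F (p.coeff i / p.coeff j)
  have vd : ∀ i, O.valuation (d i) = v i / v j := fun i => by simp [d, v]
  obtain ⟨n, hn⟩ : ∃ n, p.natDegree + 1 = j + (n + 1) :=
    ⟨p.natDegree - j, by have := Finset.mem_range.1 hj1; omega⟩
  have d1 : ∀ i < j + (n + 1), d i ∈ O := fun i hi => by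
    rw [← O.valuation_le_one_iff, vd]
    exact div_le_one_of_le₀ (hm i (Finset.mem_range.2 (hn ▸ hi))) zero_le
  have e0 : ∑ i ∈ Finset.range j, d i * f ^ i +
      (∑ x ∈ Finset.range (n + 1), d (j + x) * f ^ x) * f ^ j = 0 := by
    have e1 : ∑ i ∈ Finset.range (j + (n + 1)), d i * f ^ i = 0 := by
      rw [Polynomial.aeval_eq_sum_range, hn] at h0
      rw [← mul_zero (algebraMap E F (p.coeff j)⁻¹), ← h0, Finset.mul_sum]
      refine Finset.sum_congr rfl fun i _ => ?_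
      rw [Algebra.smul_def, ← mul_assoc, ← map_mul, inv_mul_eq_div]
    rw [← e1, Finset.sum_range_add _ j, Finset.sum_mul]
    congr 1
    exact Finset.sum_congr rfl fun i _ => by ring
  have key : ∀ V : ValuationSubring F, (∀ e : E, algebraMap E F e ∈ O → algebraMap E F e ∈ V) →
      ∑ x ∈ Finset.range (n + 1), d (j + x) * f ^ x ∈ V ∧
      (∑ x ∈ Finset.range (n + 1), d (j + x) * f ^ x) * f ∈ V := fun V hV => by
    by_cases k1 : f ∈ V
    · have : ∑ x ∈ Finset.range (n + 1), d (j + x) * f ^ x ∈ V := sum_mem fun x hx =>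
        mul_mem (hV _ (d1 _ (by have := Finset.mem_range.1 hx; omega))) (pow_mem k1 _)
      exact ⟨this, mul_mem this k1⟩
    have f0 : f ≠ 0 := fun e => k1 (e ▸ zero_mem _)
    have k2 := (V.mem_or_inv_mem f).resolve_left k1
    have e2 : (∑ x ∈ Finset.range (n + 1), d (j + x) * f ^ x) * f =
        -∑ i ∈ Finset.range j, d i * f⁻¹ ^ (j - 1 - i) := by
      refine mul_right_cancel₀ (pow_ne_zero j f0) ?_
      rw [mul_right_comm, eq_neg_of_add_eq_zero_right e0, neg_mul, neg_mul, Finset.sum_mul,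
        Finset.sum_mul]
      refine congrArg _ (Finset.sum_congr rfl fun i hi => ?_)
      obtain ⟨r, rfl⟩ : ∃ r, j = i + 1 + r := ⟨j - 1 - i, by have := Finset.mem_range.1 hi; omega⟩
      rw [show i + 1 + r - 1 - i = r by omega, inv_pow]
      field_simp
      ring
    have k3 : (∑ x ∈ Finset.range (n + 1), d (j + x) * f ^ x) * f ∈ V := by
      rw [e2]
      exact neg_mem (sum_mem fun i hi => mul_mem
        (hV _ (d1 _ (by have := Finset.mem_range.1 hi; omega))) (pow_mem k2 _))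
    exact ⟨by simpa [f0] using mul_mem k3 k2, k3⟩
  refine ⟨_, fun V hV => (key V hV).1, fun V hV => (key V hV).2, ?_⟩
  have dj : d (j + 0) * f ^ 0 = 1 := by simp [d, cj]
  rw [ValuationSubring.mem_nonunits_iff, Finset.sum_range_succ', dj, add_comm,
    Valuation.map_one_add_of_lt]
  · exact lt_irrefl _
  refine Valuation.map_sum_lt _ one_ne_zero fun x hx => ?_
  have hx' : j + (x + 1) ∈ Finset.range (p.natDegree + 1) := by
    have := Finset.mem_range.1 hx
    rw [Finset.mem_range]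
    omega
  rw [map_mul, vd]
  refine mul_lt_one_of_lt_of_le ((div_lt_one₀ vj).2 ((hm _ hx').lt_of_ne fun e => ?_))
    ((O.valuation_le_one_iff _).2 (pow_mem hf _))
  have := hm' _ (Finset.mem_filter.2 ⟨hx', e⟩)
  simp at this

theorem CJ1_le [Algebra.IsAlgebraic E F] {O O' : ValuationSubring F}
    (h : ∀ e : E, algebraMap E F e ∈ O → algebraMap E F e ∈ O')
    (hc : ∀ x ∈ CJ1_B E O, x ∈ O'.nonunits → x ∈ O.nonunits) {f : F} (hf : f ∈ O) : f ∈ O' := by
  obtain ⟨s, h1, h2, h3⟩ := CJ1_frac (E := E) O hf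
  have h4 := mt (hc s h1) h3
  rw [ValuationSubring.mem_nonunits_iff_or, not_or, not_not] at h4
  simpa [h4.1] using mul_mem h4.2 (h2 O' h)

end

theorem conj {E F : Type} [Field E] [Field F] [Algebra E F] [IsGalois E F]
    (O O' : ValuationSubring F) (h : ∀ e : E, algebraMap E F e ∈ O ↔ algebraMap E F e ∈ O') :
    ∃ τ : F ≃ₐ[E] F, ∀ f, f ∈ O ↔ τ f ∈ O' := by
  have inv : IsInvariantSubring (F ≃ₐ[E] F) (CJ1_B E O) := ⟨fun σ x hx V hV =>
    hx (V.comap (σ : F →+* F)) fun e he => by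
      rw [ValuationSubring.mem_comap, RingHom.coe_coe, σ.commutes]
      exact hV e he⟩
  let _ : TopologicalSpace (CJ1_B E O) := ⊥
  have : DiscreteTopology (CJ1_B E O) := ⟨rfl⟩
  have : ContinuousSMul (F ≃ₐ[E] F) (CJ1_B E O) := continuousSMul_iff_stabilizer_isOpen.2 fun x => by
    have e : MulAction.stabilizer (F ≃ₐ[E] F) x = MulAction.stabilizer (F ≃ₐ[E] F) (x : F) :=
      Subgroup.ext fun _ => Subtype.ext_iff
    rw [e]
    exact stabilizer_isOpen_of_isIntegral _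
  have : Algebra.IsInvariant (FixedPoints.subring (CJ1_B E O) (F ≃ₐ[E] F)) (CJ1_B E O)
      (F ≃ₐ[E] F) := ⟨fun b hb => ⟨⟨b, hb⟩, rfl⟩⟩
  have ctr : ∀ V : ValuationSubring F, (∀ e : E, algebraMap E F e ∈ O → algebraMap E F e ∈ V) →
      ∃ P : Ideal (CJ1_B E O), P.IsPrime ∧ ∀ x, x ∈ P ↔ (x : F) ∈ V.nonunits := fun V hV =>
    ⟨(IsLocalRing.maximalIdeal V).comap ((CJ1_B E O).subtype.codRestrict V fun x => x.2 V hV),
      inferInstance, fun x => 
        (ValuationSubring.coe_mem_nonunits_iff (A := V) (a := ⟨(x : F), x.2 V hV⟩)).symm⟩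
  obtain ⟨P, _, hP⟩ := ctr O fun _ he => he
  obtain ⟨Q, _, hQ⟩ := ctr O' fun e => (h e).1
  obtain ⟨τ, hτ⟩ := Algebra.IsInvariant.exists_smul_of_under_eq_of_profinite
    (A := FixedPoints.subring (CJ1_B E O) (F ≃ₐ[E] F)) (G := F ≃ₐ[E] F) Q P (Ideal.ext fun a => by
      obtain ⟨e, he⟩ := (InfiniteGalois.mem_range_algebraMap_iff_fixed (k := E) (a.1 : F)).2
        fun σ => congrArg Subtype.val (a.2 σ)
      change a.1 ∈ Q ↔ a.1 ∈ P
      rw [hP, hQ, ← he, ValuationSubring.mem_nonunits_iff_or,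
        ValuationSubring.mem_nonunits_iff_or, ← map_inv₀, h])
  have h1 : ∀ e : E, algebraMap E F e ∈ O ↔ algebraMap E F e ∈ O'.comap (τ.symm : F →+* F) :=
    fun e => by rw [ValuationSubring.mem_comap, RingHom.coe_coe, τ.symm.commutes, h]
  have h2 : ∀ x ∈ CJ1_B E O, x ∈ O.nonunits ↔ x ∈ (O'.comap (τ.symm : F →+* F)).nonunits :=
    fun x hx => by
      rw [← hP ⟨x, hx⟩, hτ, Ideal.mem_pointwise_smul_iff_inv_smul_mem, hQ,
        ValuationSubring.mem_nonunits_iff_or, ValuationSubring.mem_nonunits_iff_or,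
        ValuationSubring.mem_comap, map_inv₀, ← map_eq_zero (τ.symm : F →+* F) (a := x)]
      rfl
  exact ⟨τ.symm, fun f => ⟨CJ1_le (fun e => (h1 e).1) fun x hx => (h2 x hx).2,
    CJ1_le (O := O'.comap (τ.symm : F →+* F)) (fun e => (h1 e).2)
      fun x hx => (h2 x (CJ1_eq h1 ▸ hx)).1⟩⟩

end Pool.Agent.Work.MP_e120ef_ag.H.MQ
end

-- merged part: Pool.Agent.Work.MP_e120ef_ag.F.CJ2
section
/-!
# Automorphisms carrying one valuation to another

Plans.  `Car.le`: apply `ring` to `f / g` (`g = 0` apart).  `lift_aut`: an automorphism `τ₀` of the field `F` fixing `K` extends to `M`: `ext` with `j = F.subtype ∘ τ₀`, `η = y` gives `ι : M →+* M`; it is surjective because `M` is algebraic over the image, which is algebraically closed (or: `ι` restricts to an automorphism of `F⟮y⟯`, and use `IsAlgClosure.equivOfEquiv` / `AlgHom.bijective` after composing with the extension of the inverse).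
`car_of_agree`: `conj` for `F` over the subfield `E` (as types: `E` acts on `F` through `Subfield.inclusion`; `F` is algebraically closed, algebraic over `E`, of characteristic zero, so Galois: `IsAlgClosure.isGalois`), with the rings `(v.comap F.subtype).ring`; then `lift_aut`.
`exists_tau`: first `τ₁` with `τ₁ t = ζ t`, from `ext` for `F` over `K` with the transcendental element `t` (the map `F → F` fixes `Kx`, over which `F` is algebraic, so it is bijective: `Algebra.IsAlgebraic.algHom_bijective`), `lift_aut`.  The absolute values `v` and `v.comap τ₁` agree on `E = K⟮t⟯`: the terms `c t ^ i` have distinct slopes `i a / D`, hence distinct sizes, so `v (r (t))` is the maximum of the terms, and `v ζ = 1`.  `car_of_agree` gives `ρ` fixing `E` with `Car v (v.comap τ₁) ρ`; take `τ₁ * ρ`.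
`fin_ext`: `conj` for `M` over `L₀` (Galois) gives `τ n` with `f ∈ O n₀ ↔ τ n f ∈ O n`; the finitely many `(τ n)⁻¹ ψ` lie in finite sets (roots of minimal polynomials), so they are constant on a set of `U` (`Ultrafilter.eq_pure_of_finite_mem`, `Ultrafilter.finite_biUnion_mem_iff`, `Ultrafilter.eventually_exists_mem_iff`); there `(τ n)⁻¹` and `(τ m)⁻¹` agree on the field generated by `L₀` and `Ψ`.
-/

namespace Pool.Agent.Work.MP_e120ef_ag.H.MQ

variable {K M : Type} [Field K] [Field M] [Algebra K M] {𝔉 : Fm K M}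

theorem CJ2_alg {A B N M : Type} [Field A] [Field B] [Field N] [Field M] [Algebra A M]
    [Algebra B N] (φ : N →+* M) {ψ : N} (h : IsAlgebraic A (φ ψ))
    (hA : ∀ a : A, ∃ b : B, φ (algebraMap B N b) = algebraMap A M a) : IsAlgebraic B ψ := by
  obtain ⟨p, hp, h0⟩ := h
  obtain ⟨q, hq⟩ := (Polynomial.mem_lifts (f := φ.comp (algebraMap B N)) _).1
    ((Polynomial.lifts_iff_coeff_lifts (p.map (algebraMap A M))).2 fun n => by
      rw [Polynomial.coeff_map]
      exact hA _)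
  refine ⟨q, fun e => ?_, φ.injective ?_⟩
  · rw [e, Polynomial.map_zero] at hq
    exact hp (Polynomial.map_eq_zero_iff (algebraMap A M).injective |>.1 hq.symm)
  · rw [map_zero, Polynomial.aeval_def, Polynomial.hom_eval₂, ← Polynomial.eval_map, hq,
      Polynomial.eval_map, ← Polynomial.aeval_def, h0]

theorem CJ2_surj {A N M : Type} [Field A] [Field N] [Field M] [Algebra A M] [IsAlgClosed N]
    (ι : N →+* M) (h : ∀ f : M, IsAlgebraic A f) (hA : ∀ a : A, ∃ b, ι b = algebraMap A M a) :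
    Function.Surjective ι := by
  let _ : Algebra N M := ι.toAlgebra
  have : Algebra.IsAlgebraic N M := ⟨fun f => CJ2_alg (RingHom.id M) (h f) hA⟩
  exact (IsAlgClosed.algebraMap_bijective_of_isIntegral (k := N) (K := M)).2

theorem CJ2_range {F₀ N M : Type} [Field F₀] [Field N] [Field M] [Algebra F₀ M] (ι : N →+* M)
    {y : M} (h : ∀ c, ∃ b, ι b = algebraMap F₀ M c) (hy : ∃ b, ι b = y)
    (a : IntermediateField.adjoin F₀ {y}) :
    ∃ b, ι b = algebraMap (IntermediateField.adjoin F₀ {y}) M a := by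
  have : IntermediateField.adjoin F₀ {y} ≤ ι.fieldRange.toIntermediateField h :=
    IntermediateField.adjoin_simple_le_iff.2 hy
  exact this a.2

namespace Fm

variable {v v' v'' : UV M} {τ τ' : M ≃ₐ[K] M} {f g : M}

theorem Car.le (h : 𝔉.Car v v' τ) (hf : f ∈ 𝔉.F) (hg : g ∈ 𝔉.F) :
    v f ≤ v g ↔ v' (τ f) ≤ v' (τ g) := by
  rcases eq_or_ne g 0 with rfl | h0
  · rw [map_zero τ, v.zero, v'.zero, (v.nonneg f).ge_iff_eq', (v'.nonneg _).ge_iff_eq', v.eq_zero,
      v'.eq_zero, map_eq_zero]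
  · have := h.ring (f / g) (div_mem hf hg)
    rwa [map_div₀ τ, v.div, v'.div, div_le_one (v.pos h0),
      div_le_one (v'.pos ((map_ne_zero τ).2 h0))] at this

theorem Car.lt (h : 𝔉.Car v v' τ) (hf : f ∈ 𝔉.F) (hg : g ∈ 𝔉.F) :
    v f < v g ↔ v' (τ f) < v' (τ g) := by
  rw [← not_le, ← not_le, h.le hg hf]

theorem Car.E (h : 𝔉.Car v v' τ) (hf : f ∈ 𝔉.F) (hg : g ∈ 𝔉.F) :
    v.E f g ↔ v'.E (τ f) (τ g) := by
  rw [UV.E, UV.E, ← map_sub]
  exact h.lt (sub_mem hf hg) hg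

theorem Car.mul (h : 𝔉.Car v v' τ) (h' : 𝔉.Car v' v'' τ') : 𝔉.Car v v'' (τ' * τ) :=
  ⟨by rw [AlgEquiv.mul_apply, h.fix, h'.fix],
    fun f hf => (h.ring f hf).trans (h'.ring _ (𝔉.map_F h.fix hf))⟩

theorem Car.inv (h : 𝔉.Car v v' τ) : 𝔉.Car v' v τ⁻¹ := by
  have h1 : τ⁻¹ 𝔉.x = 𝔉.x := (AlgEquiv.symm_apply_eq τ).2 h.fix.symm
  refine ⟨h1, fun f hf => ?_⟩
  rw [h.ring _ (𝔉.map_F h1 hf), show τ (τ⁻¹ f) = f from τ.apply_symm_apply f]

theorem Car.pow (h : 𝔉.Car v v τ) (n : ℕ) : 𝔉.Car v v (τ ^ n) := by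
  induction n with
  | zero => exact ⟨rfl, fun _ _ => Iff.rfl⟩
  | succ n ih => rw [pow_succ]; exact h.mul ih

variable [IsAlgClosed M] [CharZero M]

theorem lift_aut (τ₀ : 𝔉.F ≃+* 𝔉.F)
    (h : ∀ c, τ₀ ⟨algebraMap K M c, 𝔉.alg_mem_F c⟩ = ⟨algebraMap K M c, 𝔉.alg_mem_F c⟩) :
    ∃ τ : M ≃ₐ[K] M, ∀ f : 𝔉.F, τ f = τ₀ f := by
  obtain ⟨ι, h1, h2⟩ := ext 𝔉.y_trans 𝔉.alg ((algebraMap 𝔉.F M).comp τ₀.toRingHom) (η := 𝔉.y)
    fun p hp => by
      rw [← Polynomial.eval₂_map, ← Polynomial.aeval_def] at hp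
      exact (Polynomial.map_eq_zero_iff τ₀.toRingHom.injective).1
        (transcendental_iff.1 𝔉.y_trans _ hp)
  have hs : Function.Surjective ι := CJ2_surj ι 𝔉.alg (CJ2_range ι
    (fun c => ⟨_, (h1 (τ₀.symm c)).trans (congrArg Subtype.val (τ₀.apply_symm_apply c))⟩) ⟨_, h2⟩)
  exact ⟨AlgEquiv.ofBijective ⟨ι, fun c => (h1 ⟨_, 𝔉.alg_mem_F c⟩).trans
    (congrArg Subtype.val (h c))⟩ ⟨ι.injective, hs⟩, h1⟩

theorem car_of_agree (E : Subfield M) (h₁ : 𝔉.Kx ≤ E) (h₂ : E ≤ 𝔉.F) {v v' : UV M}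
    (h : ∀ f ∈ E, v f ≤ 1 ↔ v' f ≤ 1) : ∃ τ : M ≃ₐ[K] M, 𝔉.Car v v' τ ∧ ∀ f ∈ E, τ f = f := by
  let _ : Algebra E 𝔉.F := (Subfield.inclusion h₂).toAlgebra
  have : IsAlgClosure E 𝔉.F := ⟨𝔉.F_closed, ⟨fun f =>
    CJ2_alg 𝔉.F.subtype (𝔉.mem_F.1 f.2) fun a => ⟨⟨a, h₁ a.2⟩, rfl⟩⟩⟩
  obtain ⟨τ₀, h0⟩ := conj (E := E) (v.comap 𝔉.F.subtype).ring (v'.comap 𝔉.F.subtype).ring
    fun e => h e e.2
  obtain ⟨τ, hτ⟩ := 𝔉.lift_aut τ₀.toRingEquiv fun c => τ₀.commutes ⟨_, h₁ (𝔉.alg_mem_Kx c)⟩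
  have h3 : ∀ f ∈ E, τ f = f := fun f hf =>
    (hτ ⟨f, h₂ hf⟩).trans (congrArg Subtype.val (τ₀.commutes ⟨f, hf⟩))
  refine ⟨τ, ⟨h3 _ (h₁ 𝔉.x_mem_Kx), fun f hf => ?_⟩, h3⟩
  rw [hτ ⟨f, hf⟩]
  exact h0 ⟨f, hf⟩

end Fm

theorem CJ2_dom (v : UV M) {ι : Type} {s : Finset ι} {w : ι → M} {i : ι} (hi : i ∈ s)
    (h0 : w i ≠ 0) (h : ∀ j ∈ s, j ≠ i → v (w j) < v (w i)) : v (∑ j ∈ s, w j) = v (w i) := by
  classical
  rw [← Finset.add_sum_erase s w hi]
  exact v.add_eq_left (v.sum_lt _ (v.pos h0) fun j hj =>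
    h j (Finset.mem_of_mem_erase hj) (Finset.ne_of_mem_erase hj))

theorem CJ2_sum (v : UV M) {ι : Type} {s : Finset ι} {w w' : ι → M} (e : ∀ i, v (w' i) = v (w i))
    (h : ∀ i j, w i ≠ 0 → v (w j) = v (w i) → j = i) :
    v (∑ j ∈ s, w' j) = v (∑ j ∈ s, w j) := by
  by_cases h0 : ∀ i ∈ s, w i = 0
  · rw [Finset.sum_eq_zero h0, Finset.sum_eq_zero fun i hi =>
      v.eq_zero.1 ((e i).trans (v.eq_zero.2 (h0 i hi)))]
  · push Not at h0
    obtain ⟨k, hk, hk0⟩ := h0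
    obtain ⟨i, hi, hm⟩ := Finset.exists_max_image s (fun i => v (w i)) ⟨k, hk⟩
    have h1 : w i ≠ 0 := v.ne_zero_of_pos ((v.pos hk0).trans_le (hm k hk))
    have h2 : ∀ j ∈ s, j ≠ i → v (w j) < v (w i) := fun j hj hne =>
      (hm j hj).lt_of_ne fun k => hne (h i j h1 k)
    rw [CJ2_dom v hi h1 h2, CJ2_dom v hi (v.ne_zero_of_pos ((e i).symm ▸ v.pos h1))
      fun j hj hne => by rw [e, e]; exact h2 j hj hne, e]

theorem CJ2_tau [IsAlgClosed M] (𝔉 : Fm K M) {D : ℕ} {t : M} {x₀ : K}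
    (ht : t ^ D = 𝔉.x - algebraMap K M x₀) {ζ : K} (hζ : ζ ≠ 0) :
    ∃ τ : M ≃ₐ[K] M, τ t = algebraMap K M ζ * t := by
  have hx : Transcendental (IntermediateField.adjoin K {𝔉.y}) 𝔉.x := by
    have := 𝔉.basis.1.transcendental_adjoin (s := {1}) (i := 0) (by simp)
    rw [Set.image_singleton] at this
    exact IntermediateField.transcendental_adjoin_iff.2 this
  have hxe : 𝔉.x = t ^ D + algebraMap K M x₀ := by rw [ht, sub_add_cancel]
  have hK : ∀ c, algebraMap K M c = algebraMap (IntermediateField.adjoin K {𝔉.y}) M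
      (algebraMap K _ c) := fun _ => rfl
  have h1 : Transcendental (IntermediateField.adjoin K {𝔉.y}) t := fun k => hx (by
    rw [hxe, hK]
    exact (k.pow D).add (isAlgebraic_algebraMap _))
  have h2 : Transcendental (IntermediateField.adjoin K {𝔉.y}) (algebraMap K M ζ * t) :=
    fun k => h1 (by
      have e : t = algebraMap K M ζ⁻¹ * (algebraMap K M ζ * t) := by
        rw [← mul_assoc, ← map_mul, inv_mul_cancel₀ hζ, map_one, one_mul]
      rw [e, hK ζ⁻¹]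
      exact (isAlgebraic_algebraMap _).mul k)
  have h3 : ∀ ψ : M, IsAlgebraic
      (IntermediateField.adjoin (IntermediateField.adjoin K {𝔉.y}) {t}) ψ := fun ψ => by
    refine CJ2_alg (RingHom.id M) (𝔉.alg_xy ψ) fun a => ⟨⟨a, ?_⟩, rfl⟩
    have : IntermediateField.adjoin K {𝔉.x, 𝔉.y} ≤ (IntermediateField.adjoin
        (IntermediateField.adjoin K {𝔉.y}) {t}).restrictScalars K := by
      rw [IntermediateField.adjoin_le_iff]
      rintro _ (rfl | rfl)
      · rw [hxe]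
        exact add_mem (pow_mem (IntermediateField.mem_adjoin_simple_self _ t) D)
          (IntermediateField.algebraMap_mem _ x₀)
      · exact IntermediateField.algebraMap_mem _
          (⟨_, IntermediateField.mem_adjoin_simple_self K 𝔉.y⟩ : IntermediateField.adjoin K {𝔉.y})
    exact this a.2
  obtain ⟨ι, h4, h5⟩ := ext h1 h3 (algebraMap _ M) fun p hp => transcendental_iff.1 h2 p hp
  have hs : Function.Surjective ι := CJ2_surj ι h3 (CJ2_range ι (fun c => ⟨_, h4 c⟩)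
    ⟨algebraMap K M ζ⁻¹ * t, by
      rw [map_mul, hK, h4, ← hK, h5, ← mul_assoc, ← map_mul, inv_mul_cancel₀ hζ, map_one,
        one_mul]⟩)
  exact ⟨AlgEquiv.ofBijective ⟨ι, fun c => h4 (algebraMap K _ c)⟩ ⟨ι.injective, hs⟩, h5⟩

theorem NP.exists_tau [IsAlgClosed M] (p : NP 𝔉) {D : ℕ} (hD : D ≠ 0) {t : M} (ht : t ^ D = p.X)
    {ζ : K} (hζ : ζ ^ D = 1) :
    ∃ τ : M ≃ₐ[K] M, 𝔉.Car p.v p.v τ ∧ τ t = algebraMap K M ζ * t := by
  have := p.v.charZero
  have hζ0 : ζ ≠ 0 := fun k => by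
    rw [k, zero_pow hD] at hζ
    exact zero_ne_one hζ
  obtain ⟨τ₁, h1⟩ := CJ2_tau 𝔉 ht hζ0
  have hxe : 𝔉.x = t ^ D + algebraMap K M p.x₀ := by rw [ht, NP.X, sub_add_cancel]
  have hx : τ₁ 𝔉.x = 𝔉.x := by
    rw [hxe, map_add, map_pow, h1, τ₁.commutes, mul_pow, ← map_pow, hζ, map_one, one_mul]
  have hv : p.v (algebraMap K M ζ) = 1 := by
    rw [← pow_eq_one_iff_of_nonneg (p.v.nonneg _) hD, ← p.v.pow, ← map_pow, hζ, map_one, p.v.one]
  have t0 : t ≠ 0 := fun k => p.X_ne (by rw [← ht, k, zero_pow hD])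
  have hs : p.sig t ≠ 0 := fun k => p.a_ne (by rw [NP.a, ← ht, p.sig_pow, k, mul_zero])
  have h2 : ∀ r : Polynomial K, p.v (τ₁ (Polynomial.aeval t r)) = p.v (Polynomial.aeval t r) := by
    intro r
    rw [← Polynomial.aeval_algHom_apply, h1, Polynomial.aeval_eq_sum_range,
      Polynomial.aeval_eq_sum_range]
    refine CJ2_sum p.v (fun i => ?_) fun i j k1 k2 => ?_
    · rw [Algebra.smul_def, Algebra.smul_def, mul_pow, p.v.mul, p.v.mul, p.v.mul, p.v.pow, hv,
        one_pow, one_mul]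
    · have k3 : r.coeff j • t ^ j ≠ 0 := p.v.ne_zero_of_pos (k2 ▸ p.v.pos k1)
      have k4 := p.sig_congr k2
      rw [Algebra.smul_def] at k1 k3
      rw [Algebra.smul_def, Algebra.smul_def, p.sig_mul (left_ne_zero_of_mul k1) (pow_ne_zero _ t0),
        p.sig_mul (left_ne_zero_of_mul k3) (pow_ne_zero _ t0), p.sig_alg, p.sig_alg, p.sig_pow,
        p.sig_pow, zero_add, zero_add] at k4
      exact_mod_cast mul_right_cancel₀ hs k4
  have tF : t ∈ 𝔉.F := 𝔉.mem_F_of_pow hD (ht ▸ 𝔉.Kx_le_F p.X_mem)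
  obtain ⟨ρ, h3, h4⟩ := Fm.car_of_agree (𝔉 := 𝔉) (IntermediateField.adjoin K {t}).toSubfield
    (v := p.v) (v' := p.v.comap (τ₁ : M →+* M))
    (show IntermediateField.adjoin K {𝔉.x} ≤ IntermediateField.adjoin K {t} from
      IntermediateField.adjoin_simple_le_iff.2 (by
        rw [hxe]
        exact add_mem (pow_mem (IntermediateField.mem_adjoin_simple_self _ t) D)
          (IntermediateField.algebraMap_mem _ _)))
    (show IntermediateField.adjoin K {t} ≤ 𝔉.F.toIntermediateField 𝔉.alg_mem_F from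
      IntermediateField.adjoin_simple_le_iff.2 tF)
    fun f hf => by
      obtain ⟨r, s, rfl⟩ := (IntermediateField.mem_adjoin_simple_iff K f).1 hf
      rw [UV.comap_apply, RingHom.coe_coe, map_div₀ τ₁, p.v.div, p.v.div, h2, h2]
  refine ⟨τ₁ * ρ, ⟨by rw [AlgEquiv.mul_apply, h3.fix, hx], h3.ring⟩, ?_⟩
  rw [AlgEquiv.mul_apply, h4 t (IntermediateField.mem_adjoin_simple_self K t), h1]

theorem fin_ext [IsAlgClosed M] [CharZero M] {ι : Type} (U : Ultrafilter ι)
    (O : ι → ValuationSubring M) (L₀ : Subfield M) (halg : ∀ f : M, IsAlgebraic L₀ f) {I : Set ι}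
    (hI : I ∈ U) (h : ∀ n ∈ I, ∀ m ∈ I, ∀ f ∈ L₀, f ∈ O n ↔ f ∈ O m) (Ψ : Finset M) :
    ∃ J ∈ U, ∀ n ∈ J, ∀ m ∈ J, ∀ f ∈ Subfield.closure ((L₀ : Set M) ∪ Ψ), f ∈ O n ↔ f ∈ O m := by
  have : IsAlgClosure L₀ M := ⟨inferInstance, ⟨halg⟩⟩
  obtain ⟨n₀, h₀⟩ := U.nonempty_of_mem hI
  have h1 : ∀ n, ∃ τ : M ≃ₐ[L₀] M, n ∈ I → ∀ f, f ∈ O n ↔ τ f ∈ O n₀ := fun n => by
    by_cases hn : n ∈ I
    · obtain ⟨τ, hτ⟩ := conj (E := L₀) (O n) (O n₀) fun e => h n hn n₀ h₀ e e.2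
      exact ⟨τ, fun _ => hτ⟩
    · exact ⟨1, fun k => (hn k).elim⟩
  choose τ hτ using h1
  have h2 : ∀ ψ : M, ∃ c, ∀ᶠ n in (U : Filter ι), τ n ψ = c := fun ψ => by
    obtain ⟨c, -, hc⟩ := (Ultrafilter.eventually_exists_mem_iff (f := U)
      (P := fun c n => τ n ψ = c) ((minpoly L₀ ψ).rootSet_finite M)).1
      (Filter.Eventually.of_forall fun n => ⟨_, Polynomial.mem_rootSet.2
        ⟨minpoly.ne_zero (halg ψ).isIntegral, by
          rw [Polynomial.aeval_algHom_apply, minpoly.aeval, map_zero]⟩, rfl⟩)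
    exact ⟨c, hc⟩
  choose c hc using h2
  refine ⟨{n | n ∈ I ∧ ∀ ψ ∈ Ψ, τ n ψ = c ψ},
    Filter.Eventually.and hI ((Filter.eventually_all_finset Ψ).2 fun ψ _ => hc ψ),
    fun n hn m hm f hf => ?_⟩
  have h3 : τ n f = τ m f := RingHom.eqOn_field_closure (f := (τ n : M →+* M))
    (g := (τ m : M →+* M)) (by
      rintro a (ha | ha)
      · exact ((τ n).commutes ⟨a, ha⟩).trans ((τ m).commutes ⟨a, ha⟩).symm
      · exact (hn.2 a ha).trans (hm.2 a ha).symm) hf
  rw [hτ n hn.1, hτ m hm.1, h3]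

end Pool.Agent.Work.MP_e120ef_ag.H.MQ
end
end
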