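import Mathlib

/-! Pluricanonical sections evaluated in a valuation ring, for derivations with values in `N`. -/

namespace Pool.Agent.Work.MP_e120ef_ag.H.MQ

/-- `h (ds₀ ∧ ds₁) ^ m` is integral for every valuation ring -/
def TVq (k : Type) [Field k] {Y : Type} [Field Y] [Algebra k Y] (s : Fin 2 → Y) (m : ℕ) (h : Y) :
    Prop :=
  ∀ (N : Type) [Field N] (χ : Y →+* N) (𝒪 : ValuationSubring N) (d : Fin 2 → Y →+ N),
    (∀ l a b, d l (a * b) = χ a * d l b + χ b * d l a) →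
    (∀ c, χ (algebraMap k Y c) ∈ 𝒪) → (∀ l c, d l (algebraMap k Y c) = 0) →
    (∀ l a, χ a ∈ 𝒪 → d l a ∈ 𝒪) →
    χ h * (d 0 (s 0) * d 1 (s 1) - d 0 (s 1) * d 1 (s 0)) ^ m ∈ 𝒪

end Pool.Agent.Work.MP_e120ef_ag.H.MQ
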