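import Pool.Agent.Work.MP_e120ef_ag.F.Sy
import Pool.Agent.Work.MP_e120ef_ag.F.TVd

attribute [-instance] Subalgebra.normedCommRing Subalgebra.seminormedCommRing
  Subalgebra.seminormedRing Subalgebra.normedRing
  Localization.subalgebra.instIsFractionRingSubtypeMemSubalgebra
attribute [local instance 2000] RingHomClass.toAddMonoidHomClass AddMonoidHomClass.toAddHomClass
  RingHom.instRingHomClass AlgHomClass.toRingHomClass IsDomain.to_noZeroDivisors
  IsDomain.toNontrivial NeZero.one RingHomClass.toMonoidHomClass MonoidHomClass.toMulHomClass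
  RingHomClass.toMonoidWithZeroHomClass AddMonoidHomClass.toZeroHomClass MonoidHomClass.toOneHomClass
attribute [-instance] instCharZeroOfIsSemireal AlgHom.instContinuousLinearMapClassOfAlgHomClass
  RingHomClass.toLinearMapClassRat RingHomClass.toLinearMapClassNNRat NumberField.to_charZero

/-!
# All but finitely many branches are good

Plan.  `PtG_seq`: if no finite set of representatives exists choose recursively `u n` bad and not related to the previous ones.
`ptg`: `exists_am`, `ptp`, `ptp_rs`, and `p z` from `TP.restrict` with `Λ = algebraMap (zl z / zf K * θ x)`; so `(p z).Res Δ = res z (θ x * Δ)`.  Suppose the claim false, take the sequence `u` of `PtG_seq`, `U = Filter.hyperfilter ℕ`, `w` the trivial absolute value of `K` (for instance `(q z).v.comap (algebraMap K N)`), `Ψ'` a finset of preimages of `Ψ` in `M` (`mem`), and use `pts`.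
Second case: `I` is infinite, two different indices give related points (an element of `adjoin K Ψ` is `j f` with `f ∈ adjoin K Ψ'`, `IntermediateField.adjoin_induction`; `IsPt.le`, `IsPt.sig`).  First case: `χM : Y →+* M` with `j ∘ χM = algebraMap ∘ χ` (choice, injectivity of `j`); apply `TVq` with `N`, `algebraMap ∘ χ`, `𝒪 = uring (fun n => (q (u n)).v) U`, `d 0 a = algebraMap (D (χ a))`, `d 1 a = j (d (χM a))` (`regV_D`).  The determinant is `algebraMap (θ x) * j W`; `IsPt.le`, `sig_mul`, `sig_pow` and `pr (r : ℚ) = r` show that `u n` is good for `U`-most `n`.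
-/

namespace Pool.Agent.Work.MP_e120ef_ag.H.MQ

theorem PtG_seq {α : Type} {good : α → Prop} {r : α → α → Prop}
    (h : ¬ ∃ B : Finset α, ∀ z, good z ∨ ∃ z' ∈ B, r z z') :
    ∃ u : ℕ → α, (∀ n, ¬ good (u n)) ∧ ∀ m n, m < n → ¬ r (u n) (u m) := by
  refine exists_seq_of_forall_finset_exists (fun z => ¬ good z) (fun a b => ¬ r b a) fun s _ => ?_
  by_contra k
  exact h ⟨s, fun z => by_contra fun k' =>
    k ⟨z, fun a => k' (Or.inl a), fun x hx b => k' (Or.inr ⟨x, hx, b⟩)⟩⟩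

variable {K : Type} [NontriviallyNormedField K] [IsUltrametricDist K] [IsAlgClosed K]
  [CompleteSpace K] [CharZero K]

theorem PtG_lift {Y M N : Type} [Field Y] [Field M] [Field N] (j : M →+* N) (χ : Y →+* N)
    (h : ∀ a, ∃ f, j f = χ a) : ∃ χ' : Y →+* M, ∀ a, j (χ' a) = χ a := by
  choose f hf using h
  have h1 : f 1 = 1 := j.injective (by rw [hf, map_one, map_one])
  have h2 : ∀ a b, f (a * b) = f a * f b := fun a b =>
    j.injective (by rw [map_mul, hf, hf, hf, map_mul])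
  have h3 : f 0 = 0 := j.injective (by rw [hf, map_zero, map_zero])
  have h4 : ∀ a b, f (a + b) = f a + f b := fun a b =>
    j.injective (by rw [map_add, hf, hf, hf, map_add])
  exact ⟨⟨⟨⟨f, h1⟩, h2⟩, h3, h4⟩, hf⟩

section Aux

variable {N : Type} [Field N] [Algebra K N] [Algebra (Mo K) N] [IsScalarTower K (Mo K) N]
  {ϑ : Derivation K N N} {M : Type} [Field M] [Algebra K M]

omit [IsScalarTower K (Mo K) N] in
theorem PtG_le {z : Pt1 K Rad.out} {q : TP (algebraMap (Mo K) N (zl z / zf K) • ϑ)} (h : IsPt z q)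
    (a : Mo K) : q.v (algebraMap (Mo K) N a) ≤ 1 ↔ 0 ≤ (No K).ord z a := by
  rcases eq_or_ne a 0 with rfl | ha
  · simp [(No K).ord_zero]
  · rw [h.le _ ((map_ne_zero _).2 ha), h.sig]
    exact Int.cast_nonneg_iff

omit [CharZero K] in
theorem PtG_adj (j : M →ₐ[K] N) {Ψ : Set (Mo K)} {Ψ' : Set M}
    (h : ∀ a ∈ Ψ, ∃ f ∈ Ψ', j f = algebraMap (Mo K) N a) {a : Mo K}
    (ha : a ∈ IntermediateField.adjoin K Ψ) :
    ∃ f ∈ IntermediateField.adjoin K Ψ', j f = algebraMap (Mo K) N a := by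
  induction ha using IntermediateField.adjoin_induction with
  | mem z hz =>
    obtain ⟨f, h1, h2⟩ := h z hz
    exact ⟨f, IntermediateField.subset_adjoin K _ h1, h2⟩
  | algebraMap c =>
    exact ⟨algebraMap K M c, IntermediateField.algebraMap_mem _ c, by
      rw [AlgHom.commutes, IsScalarTower.algebraMap_apply K (Mo K) N]⟩
  | add a b _ _ h1 h2 =>
    obtain ⟨f, h1, h3⟩ := h1
    obtain ⟨g, h2, h4⟩ := h2
    exact ⟨f + g, add_mem h1 h2, by rw [map_add, map_add, h3, h4]⟩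
  | inv a _ h1 =>
    obtain ⟨f, h1, h3⟩ := h1
    exact ⟨f⁻¹, inv_mem h1, by rw [map_inv₀, map_inv₀, h3]⟩
  | mul a b _ _ h1 h2 =>
    obtain ⟨f, h1, h3⟩ := h1
    obtain ⟨g, h2, h4⟩ := h2
    exact ⟨f * g, mul_mem h1 h2, by rw [map_mul, map_mul, h3, h4]⟩

theorem PtG_tv {u : ℕ → Pt1 K Rad.out} {q : ∀ n, TP (algebraMap (Mo K) N (zl (u n) / zf K) • ϑ)}
    (hq : ∀ n, IsPt (u n) (q n)) (U : Ultrafilter ℕ) (j : M →ₐ[K] N) {k Y : Type} [Field k]
    [Field Y] [Algebra k Y] (χ : Y →+* Mo K) (χ' : Y →+* M)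
    (hχ : ∀ c : k, ∃ c' : K, χ (algebraMap k Y c) = algebraMap K _ c')
    (hχ' : ∀ a, j (χ' a) = algebraMap (Mo K) N (χ a)) (d : Derivation K M M)
    (hd : ∀ f, ∀ᶠ n in (U : Filter ℕ), (q n).v (j (d f)) ≤ (q n).v (j f)) {s : Fin 2 → Y} {m : ℕ}
    {h : Y} (hh : TVq k s m h) : ∀ᶠ n in (U : Filter ℕ), (q n).v (algebraMap (Mo K) N (χ h) *
      (algebraMap (Mo K) N ((No K).D (χ (s 0))) * j (d (χ' (s 1))) -
        algebraMap (Mo K) N ((No K).D (χ (s 1))) * j (d (χ' (s 0)))) ^ m) ≤ 1 := by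
  refine hh N ((algebraMap (Mo K) N).comp χ) (uring (fun n => (q n).v) U)
    ![(algebraMap (Mo K) N).toAddMonoidHom.comp ((dA (No K).D).comp χ.toAddMonoidHom),
      j.toRingHom.toAddMonoidHom.comp ((dA d).comp χ'.toAddMonoidHom)]
    (Fin.forall_fin_two.2 ⟨fun a b => ?_, fun a b => ?_⟩) (fun c => ?_)
    (Fin.forall_fin_two.2 ⟨fun c => ?_, fun c => ?_⟩)
    (Fin.forall_fin_two.2 ⟨fun a ha => ?_, fun a ha => ?_⟩)
  · change algebraMap (Mo K) N ((No K).D (χ (a * b))) = algebraMap (Mo K) N (χ a) *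
      algebraMap (Mo K) N ((No K).D (χ b)) + algebraMap (Mo K) N (χ b) *
        algebraMap (Mo K) N ((No K).D (χ a))
    rw [map_mul, Derivation.leibniz, smul_eq_mul, smul_eq_mul, map_add, map_mul, map_mul]
  · change j (d (χ' (a * b))) = algebraMap (Mo K) N (χ a) * j (d (χ' b)) +
      algebraMap (Mo K) N (χ b) * j (d (χ' a))
    rw [map_mul, Derivation.leibniz, smul_eq_mul, smul_eq_mul, map_add, map_mul, map_mul, hχ', hχ']
  · obtain ⟨c', hc⟩ := hχ c
    refine mem_uring.2 (Filter.Eventually.of_forall fun n => (PtG_le (hq n) _).2 ?_)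
    rw [hc, (No K).ord_alg]
  · obtain ⟨c', hc⟩ := hχ c
    change algebraMap (Mo K) N ((No K).D (χ (algebraMap k Y c))) = 0
    rw [hc, Derivation.map_algebraMap, map_zero]
  · obtain ⟨c', hc⟩ := hχ c
    have e : j (χ' (algebraMap k Y c)) = j (algebraMap K M c') := by
      rw [hχ', hc, j.commutes, IsScalarTower.algebraMap_apply K (Mo K) N]
    change j (d (χ' (algebraMap k Y c))) = 0
    rw [j.injective e, Derivation.map_algebraMap, map_zero]
  · exact mem_uring.2 ((mem_uring.1 ha).mono fun n hn =>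
      (PtG_le (hq n) _).2 ((No K).regV_D ((PtG_le (hq n) _).1 hn)))
  · exact mem_uring.2 (((mem_uring.1 ha).and (hd (χ' a))).mono fun n hn =>
      hn.2.trans ((congrArg (q n).v (hχ' a)).trans_le hn.1))

end Aux

theorem ptg (S : Sy K (Mo K)) (hθ : S.θ = (No K).D) {k Y : Type} [Field k] [Field Y] [Algebra k Y]
    (χ : Y →+* Mo K) (hχ : ∀ c : k, ∃ c' : K, χ (algebraMap k Y c) = algebraMap K _ c')
    {s : Fin 2 → Y} (h₀ : χ (s 0) = S.x) (h₁ : χ (s 1) = S.y)
    (halg : ∀ a, IsAlgebraic (Algebra.adjoin K {S.x, S.y}) (χ a)) {m : ℕ} (H : Finset Y)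
    (hH : ∀ h ∈ H, h ≠ 0 ∧ TVq k s m h) {pr : K →ₗ[ℚ] ℚ} (hpr : pr 1 = 1) (Ψ : Finset (Mo K))
    (hΨ : ∀ a ∈ Ψ, IsAlgebraic (Algebra.adjoin K {S.x, S.y}) a) :
    ∃ res, RS res ∧ ∃ B : Finset (Pt1 K Rad.out), ∀ z,
      (∀ h ∈ H, 0 ≤ nu res pr (S.θ S.x) S.Δ m z (χ h)) ∨ ∃ z' ∈ B,
        ∀ f ∈ IntermediateField.adjoin K (Ψ : Set (Mo K)),
          0 ≤ (No K).ord z f ↔ 0 ≤ (No K).ord z' f := by
  classical
  obtain ⟨N, M, _, _, _, _, _, _, _, _, _, ⟨A⟩⟩ := exists_am S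
  have : CharZero M := charZero_of_injective_algebraMap (algebraMap K M).injective
  have hϑ : ∀ a, A.ϑ (algebraMap (Mo K) N a) = algebraMap (Mo K) N ((No K).D a) := fun a => by
    rw [A.ϑ_alg, hθ]
  choose q hq using ptp hϑ
  obtain ⟨res, hres, hr⟩ := ptp_rs hϑ q hq
  have hp := fun z => (q z).restrict (hq z).g A.𝔉 A.j
    (Λ := algebraMap (Mo K) N (zl z / zf K * S.θ S.x)) fun f => by
      rw [Derivation.smul_apply, smul_eq_mul, A.ϑ_j, map_mul, mul_assoc]
  choose p hv hs hR _ using hp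
  refine ⟨res, hres, by_contra fun hn => ?_⟩
  obtain ⟨u, hu, hu'⟩ := PtG_seq hn
  choose! f hf using A.mem
  have hw : ∀ n c, (p (u n)).v (algebraMap K M c) = (q (u 0)).v.comap (algebraMap K N) c :=
    fun n c => by
      rw [hv, A.j.commutes, UV.comap_apply]
      rcases eq_or_ne c 0 with rfl | hc
      · simp
      · rw [(hq _).triv c hc, (hq _).triv c hc]
  rcases pts (fun c hc => (hq (u 0)).triv c hc) (Filter.hyperfilter ℕ) (fun n => p (u n)) hw
    (Ψ.image f) with ⟨d, hd, hW, hΔ⟩ | ⟨I, hI, hII⟩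
  · obtain ⟨χ', hχ'⟩ := PtG_lift A.j.toRingHom ((algebraMap (Mo K) N).comp χ)
      fun a => ⟨_, hf _ (halg a)⟩
    change ∀ a, A.j (χ' a) = algebraMap (Mo K) N (χ a) at hχ'
    have hx : χ' (s 0) = A.𝔉.x := A.j.injective ((hχ' _).trans (h₀ ▸ A.jx.symm))
    have hy : χ' (s 1) = A.𝔉.y := A.j.injective ((hχ' _).trans (h₁ ▸ A.jy.symm))
    have key : ∀ h ∈ H, ∀ᶠ n in (Filter.hyperfilter ℕ : Filter ℕ),
        0 ≤ nu res pr (S.θ S.x) S.Δ m (u n) (χ h) := fun h hh => by
      have h1 := PtG_tv (fun n => hq (u n)) (Filter.hyperfilter ℕ) A.j χ χ' hχ hχ' d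
        (fun a => by simpa only [hv] using hd a) (hH h hh).2
      rw [h₀, h₁, hx, hy, ← hθ, S.hθ, map_mul, ← A.jG] at h1
      filter_upwards [h1, hΔ] with n h2 h3
      have e : algebraMap (Mo K) N (S.θ S.x) * A.j (d A.𝔉.y) -
          A.j A.𝔉.G * algebraMap (Mo K) N (S.θ S.x) * A.j (d A.𝔉.x) =
          algebraMap (Mo K) N (S.θ S.x) * A.j (d A.𝔉.y - A.𝔉.G * d A.𝔉.x) := by
        rw [map_sub, map_mul]
        ring
      have n1 : algebraMap (Mo K) N (χ h) ≠ 0 := by simpa using (hH h hh).1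
      have n2 : algebraMap (Mo K) N (S.θ S.x) ≠ 0 := (map_ne_zero _).2 S.hx
      have n3 := (map_ne_zero A.j).2 hW
      have n4 := pow_ne_zero m (mul_ne_zero n2 n3)
      rw [e, (hq _).le _ (mul_ne_zero n1 n4), (q _).sig_mul n1 n4, (q _).sig_pow,
        (q _).sig_mul n2 n3, (hq _).sig, (hq _).sig, ← hs] at h2
      rw [hR, A.jΔ, ← map_mul, mul_assoc, ← hr] at h3
      rw [nu, h3, ← Rat.smul_one_eq_cast K, map_smul, hpr, smul_eq_mul, mul_one]
      exact h2
    obtain ⟨n, hn⟩ := ((Filter.eventually_all_finset H).2 key).exists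
    exact hu n hn
  · have hinf : I.Infinite := fun k => k.notMem_hyperfilter hI
    obtain ⟨a, ha⟩ := hinf.nonempty
    obtain ⟨b, hb, hab⟩ := hinf.exists_gt a
    refine hu' a b hab fun c hc => ?_
    obtain ⟨e, he, hj⟩ := PtG_adj A.j (Ψ' := (Ψ.image f : Finset M))
      (fun a ha => ⟨f a, Finset.mem_coe.2 (Finset.mem_image_of_mem f ha), hf a (hΨ a ha)⟩) hc
    rw [← PtG_le (hq _), ← PtG_le (hq _), ← hj, ← hv, ← hv]
    exact hII b hb a ha e he

end Pool.Agent.Work.MP_e120ef_ag.H.MQ
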