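import Pool.Agent.Work.MP_e120ef_ag.F.CJ2
import Pool.Agent.Work.MP_e120ef_ag.H.Mer
import Pool.Agent.Work.MP_e120ef_ag.H.DerL

attribute [-instance] Subalgebra.normedCommRing Subalgebra.seminormedCommRing
  Subalgebra.seminormedRing Subalgebra.normedRing
  Localization.subalgebra.instIsFractionRingSubtypeMemSubalgebra
attribute [local instance 2000] RingHomClass.toAddMonoidHomClass AddMonoidHomClass.toAddHomClass
  RingHom.instRingHomClass AlgHomClass.toRingHomClass IsDomain.to_noZeroDivisors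
  IsDomain.toNontrivial NeZero.one RingHomClass.toMonoidHomClass MonoidHomClass.toMulHomClass
  RingHomClass.toMonoidWithZeroHomClass AddMonoidHomClass.toZeroHomClass MonoidHomClass.toOneHomClass
attribute [-instance] instCharZeroOfIsSemireal AlgHom.instContinuousLinearMapClassOfAlgHomClass
  RingHomClass.toLinearMapClassRat RingHomClass.toLinearMapClassNNRat NumberField.to_charZero

-- merged part: Pool.Agent.Work.MP_e120ef_ag.F.PtP
section
-- merged part: Pool.Agent.Work.MP_e120ef_ag.F.GD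
section
/-! # Definitions for the global part -/

namespace Pool.Agent.Work.MP_e120ef_ag.H.MQ

section

variable {K M : Type} [NontriviallyNormedField K] [Field M] [Algebra K M] (N : Nev K Rad.out M)

/-- `n` is the slope of `log |φ|` at the radius of `w` -/
def Sl (w : Pt1 K Rad.out) (φ : M) (n : ℝ) : Prop :=
  ∀ w', Real.log (N.nr w' φ) = Real.log (N.nr w φ) + n * Real.log (‖w'.v‖ / ‖w.v‖) +
    ∑ᶠ z, (N.ord z φ : ℝ) * wp w w' z

variable (x y : M)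

/-- pole orders of `x` and `y` -/
def pl (z : Pt1 K Rad.out) : ℤ := max (-N.ord z x) 0 + max (-N.ord z y) 0

/-- integrated counting function -/
noncomputable def NN (w : Pt1 K Rad.out) : ℝ := ∑ᶠ z, (pl N x y z : ℝ) * wp (Pt1.one K _) w z

open Classical in
/-- counting function -/
noncomputable def nn (w : Pt1 K Rad.out) : ℝ :=
  ∑ᶠ z : Pt1 K Rad.out, if 1 < ‖z.v‖ ∧ ‖z.v‖ ≤ ‖w.v‖ then (pl N x y z : ℝ) else 0

/-- characteristic function -/
noncomputable def TT (w : Pt1 K Rad.out) : ℝ := N.T x w + N.T y w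

/-- among the polynomials of bidegree at most `(k, k)` the slopes are spread by `δ` -/
def Spr (w : Pt1 K Rad.out) (δ : ℝ) : Prop :=
  ∀ (k : ℕ) (B : ℝ), (∀ (Q : MvPolynomial (Fin 2) K) (n : ℝ), Q ≠ 0 → (∀ i, Q.degreeOf i ≤ k) →
    Sl N w (MvPolynomial.aeval ![x, y] Q) n → -B ≤ n) →
    ∃ (Q : MvPolynomial (Fin 2) K) (n : ℝ), Q ≠ 0 ∧ (∀ i, Q.degreeOf i ≤ k) ∧
      Sl N w (MvPolynomial.aeval ![x, y] Q) n ∧ -B + ((k + 1) ^ 2 - 1) * δ ≤ n

end

variable (K : Type) [NontriviallyNormedField K] [IsUltrametricDist K] [IsAlgClosed K]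
  [CompleteSpace K] [CharZero K]

/-- meromorphic functions -/
abbrev Mo : Type := MM K Rad.out

/-- their Nevanlinna data -/
noncomputable abbrev No : Nev K Rad.out (Mo K) := nev K Rad.out

/-- the coordinate -/
noncomputable def zf : Mo K := im (Zf K Rad.out)

variable {K}

/-- the local coordinate at `z` -/
noncomputable def zl (z : Pt1 K Rad.out) : Mo K := im (lin z.v)

/-- `c` is the constant term of the Laurent expansion of `φ` at the radius of `w` -/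
def RC (w : Pt1 K Rad.out) (φ : Mo K) (c : K) : Prop :=
  ∀ ε : ℝ, 0 < ε → ∃ p : ℤ →₀ K,
    (No K).nr w (φ - p.sum fun j a => a • zf K ^ j) < ε ∧ ‖p 0 - c‖ < ε

/-- `res z φ` is the residue at `z` of `φ dz / z` -/
structure RS (res : Pt1 K Rad.out → Mo K →ₗ[K] K) : Prop where
  reg : ∀ z φ, 0 ≤ (No K).ord z φ → res z φ = 0
  exa : ∀ z ψ, res z ((No K).D ψ) = 0
  one : ∀ z, res z (zf K / zl z) = 1

/-- order of a pluricanonical form along the leaf -/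
noncomputable def nu (res : Pt1 K Rad.out → Mo K →ₗ[K] K) (pr : K →ₗ[ℚ] ℚ) (lam Δ : Mo K) (m : ℕ)
    (z : Pt1 K Rad.out) (h : Mo K) : ℚ :=
  (No K).ord z h + m * ((No K).ord z lam + pr (res z (lam * Δ)))

variable (K) in
/-- functions with coefficients in a small field, and the radii outside its value group -/
structure Ds (K₀ 𝓜₀ : Type) [Field K₀] [Field 𝓜₀] [Algebra K₀ 𝓜₀] where
  κ : K₀ →+* K
  i : 𝓜₀ →+* Mo K
  i_alg : ∀ c, i (algebraMap K₀ 𝓜₀ c) = algebraMap K (Mo K) (κ c)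
  θ : Derivation K₀ 𝓜₀ 𝓜₀
  i_θ : ∀ f, i (θ f) = (No K).D (i f)
  z : 𝓜₀
  i_z : i z = zf K
  closed : IsClosed (Set.range κ)
  good : Set (Pt1 K Rad.out)
  dense : ∀ a b : ℝ, 1 ≤ a → a < b → ∃ w ∈ good, a < ‖w.v‖ ∧ ‖w.v‖ < b
  ort : ∀ w ∈ good, ∀ (c : K₀) (j : ℤ), ‖κ c‖ * ‖w.v‖ ^ j = 1 → j = 0
  lt : ∀ w ∈ good, ∀ f, f ≠ 0 → ∃ (c : K₀) (j : ℤ),
    (No K).nr w (i (f - algebraMap K₀ 𝓜₀ c * z ^ j)) < (No K).nr w (i (algebraMap K₀ 𝓜₀ c * z ^ j))
      ∧ Sl (No K) w (i f) j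
  den : ∀ w ∈ good, ∀ f, ∀ ε : ℝ, 0 < ε →
    ∃ p : ℤ →₀ K₀, (No K).nr w (i (f - p.sum fun j a => a • z ^ j)) < ε
  reg : ∀ w ∈ good, ∀ f, ∀ u : Pt1 K Rad.out, ‖u.v‖ = ‖w.v‖ → (No K).ord u (i f) = 0

theorem zl_eq (z : Pt1 K Rad.out) : zl z = zf K - algebraMap K (Mo K) z.v := by
  rw [zl, zf, lin, im, im, map_sub, ← IsScalarTower.algebraMap_apply]

theorem D_zl (z : Pt1 K Rad.out) : (No K).D (zl z) = zf K := by
  rw [zl, nev_D, D1_lin, zf]

theorem D_zf : (No K).D (zf K) = zf K := by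
  have := D_zl (Pt1.one K Rad.out)
  rwa [zl_eq, map_sub, Derivation.map_algebraMap, sub_zero] at this

theorem zl_ne (z : Pt1 K Rad.out) : zl z ≠ 0 := im_ne (lin_ne_zero _)

theorem nr_zl (w z : Pt1 K Rad.out) : (No K).nr w (zl z) = max ‖w.v‖ ‖z.v‖ := by
  rw [zl, nev_nr, gn_lin]

theorem nr_zf (w : Pt1 K Rad.out) : (No K).nr w (zf K) = ‖w.v‖ := by
  have h : Zf K Rad.out = lin 0 := by rw [lin, map_zero, sub_zero]
  rw [zf, nev_nr, h, gn_lin, norm_zero, max_eq_left (norm_nonneg _)]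

theorem zf_ne : zf K ≠ 0 := fun h => by
  have h1 := nr_zf (Pt1.one K Rad.out)
  rw [h, ((No K).nr_eq_zero _ _).2 rfl] at h1
  exact (Pt1.one K Rad.out).1.ne_zero (norm_eq_zero.1 h1.symm)

theorem ord_zl_self (z : Pt1 K Rad.out) : (No K).ord z (zl z) = 1 := by
  rw [zl, nev_ord z (lin_ne_zero _), ord₀_eq (g := 1) (n := 1) one_ne_zero (by simp)]
  rfl

theorem ord_zl_ne {u z : Pt1 K Rad.out} (h : u ≠ z) : (No K).ord u (zl z) = 0 := by
  rw [zl, nev_ord u (lin_ne_zero _), (ord₀_eq_zero (lin_ne_zero _) u).2 fun h0 => h (Div_eq h0)]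
  rfl

theorem ord_zf (u : Pt1 K Rad.out) : (No K).ord u (zf K) = 0 := by
  have h : Zf K Rad.out ≠ 0 := fun h => zf_ne (K := K) (by rw [zf, h]; exact map_zero _)
  rw [zf, nev_ord u h, (ord₀_eq_zero h u).2 u.1.ne_zero]
  rfl

end Pool.Agent.Work.MP_e120ef_ag.H.MQ
end

-- merged part: Pool.Agent.Work.MP_e120ef_ag.F.MK1
section
/-!
# Puiseux expansions and the constant term

Plans.  `mk_den`: `R = {f | Apx {v} A f}` with `A` from `Pw.exists_ring` is a subfield (`exists_apxRing`, `apx_inv'` and `lt`) containing `N₀`; apply `hc` with `𝒪 = v.ring` (`ring_lt`, `apx_hen`).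
`mk_orth`: distinct nonzero terms have distinct sizes (`ort`), so no term is larger than the sum (take the largest term, `UV.add_eq_left`, `UV.sum_lt`).
`mk_ct`: for `f` choose `p k : ℚ →₀ K` with `v (f - ev (p k)) < 1 / (k + 1)` (`Finsupp.mem_span_range_iff_exists_finsupp`); by `mk_orth` the sequence `p k 0` is Cauchy, let `c` be its limit (`cpl`).  It satisfies `(*)`: `v (c - p 0) ≤ v (f - ev p)` for every `p`.  The relation: for all `ε` there is `p` with `v (f - ev p) < ε` and `v (c - p 0) < ε` determines `c`, and is additive and homogeneous; this gives linearity.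
-/

namespace Pool.Agent.Work.MP_e120ef_ag.H.MQ

variable {K N : Type} [Field K] [Field N] [Algebra K N] (v : UV N) {ζ : N} {E : ℚ → N}
  (hE : Pw ζ E)
include hE

/-- `K` is complete for `v` -/
def Cpl (K : Type) [Field K] {N : Type} [Field N] [Algebra K N] (v : UV N) : Prop :=
  ∀ c : ℕ → K, (∀ ε : ℝ, 0 < ε → ∃ n, ∀ i ≥ n, ∀ j ≥ n, v (algebraMap K N (c i - c j)) < ε) →
    ∃ l : K, ∀ ε : ℝ, 0 < ε → ∃ n, ∀ i ≥ n, v (algebraMap K N (c i - l)) < ε

theorem mk_den [IsAlgClosed N]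
    (lt : ∀ f, f ≠ 0 → ∃ (c : K) (q : ℚ), v.E f (algebraMap K N c * E q)) (N₀ : Subfield N)
    (halg : ∀ f : N, IsAlgebraic N₀ f)
    (den : ∀ a ∈ N₀, Apx {v} (Submodule.span K (Set.range E)) a) (f : N) :
    Apx {v} (Submodule.span K (Set.range E)) f := by
  have := v.charZero
  obtain ⟨A, hA⟩ := hE.exists_ring K
  have eA : (Submodule.span K (Set.range E) : Set N) = A := Set.ext fun f => (hA f).symm
  rw [eA] at den ⊢
  have hV := Set.finite_singleton v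
  obtain ⟨R, hR⟩ := exists_apxRing hV A
  have hm : ∀ (c : K) (q : ℚ), Apx {v} A (algebraMap K N c * E q) := fun c q =>
    Apx.of_mem ((hA _).2 (by
      rw [← Algebra.smul_def]
      exact Submodule.smul_mem _ _ (Submodule.subset_span ⟨q, rfl⟩)))
  let R' : Subfield N :=
    { R with
      inv_mem' := fun f hf => by
        rcases eq_or_ne f 0 with rfl | h0
        · rw [inv_zero]
          exact hf
        · obtain ⟨c, q, h⟩ := lt f h0
          refine (hR _).2 (apx_inv' hV A ((hR _).1 hf) (r := algebraMap K N c * E q) ?_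
            fun w hw => by rwa [hw])
          rw [mul_inv, ← map_inv₀, ← hE.neg]
          exact hm _ _ }
  have hle : N₀ ≤ R' := fun a ha => (hR a).2 (den a ha)
  let _ : Algebra N₀ R' := (Subfield.inclusion hle).toAlgebra
  have : IsScalarTower N₀ R' N := .of_algebraMap_eq fun _ => rfl
  refine (hR f).1 (hc v.ring (fun n => ?_) R' (fun g hg _ => ?_) (fun P g h1 h2 h3 h4 => ?_)
    ((halg f).tower_top R'))
  · rw [UV.mem_ring, v.inv]
    rcases eq_or_ne n 0 with rfl | hn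
    · simp
    · rw [v.nat n hn, inv_one]
  · obtain ⟨c, q, h⟩ := lt g hg
    refine ⟨_, (hR _).2 (hm c q), (ring_lt v _ _).2 ?_⟩
    rw [h.eq]
    exact h
  · refine (hR _).2 (apx_hen hV A (fun i => (hR _).1 (h1 i).1) (fun i w hw => ?_) h2 h3
      fun w hw => ?_)
    · rw [hw]
      exact (h1 i).2
    · rw [hw, ← v.one, ← ring_lt, map_one]
      exact h4

theorem mk_orth (ort : ∀ (c : K) (q : ℚ), v (algebraMap K N c * E q) = 1 → q = 0) (p : ℚ →₀ K)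
    (q : ℚ) : v (algebraMap K N (p q) * E q) ≤ v (p.sum fun q c => c • E q) := by
  by_cases hq : p q = 0
  · rw [hq, map_zero, zero_mul, v.zero]
    exact v.nonneg _
  have hq' := Finsupp.mem_support_iff.2 hq
  obtain ⟨i, hi, hm⟩ := Finset.exists_max_image p.support
    (fun i => v (algebraMap K N (p i) * E i)) ⟨q, hq'⟩
  have h0 : algebraMap K N (p i) * E i ≠ 0 :=
    mul_ne_zero ((map_ne_zero _).2 (Finsupp.mem_support_iff.1 hi)) (hE.ne_zero i)
  refine (hm q hq').trans_eq ?_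
  simp only [Finsupp.sum, Algebra.smul_def]
  rw [← Finset.add_sum_erase _ _ hi]
  refine (v.add_eq_left (v.sum_lt _ (v.pos h0) fun j hj =>
    (hm j (Finset.mem_of_mem_erase hj)).lt_of_ne fun e => Finset.ne_of_mem_erase hj ?_)).symm
  refine sub_eq_zero.1 (ort (p j / p i) _ ?_)
  rw [sub_eq_add_neg, hE.add, hE.neg, map_div₀ (algebraMap K N), ← div_eq_mul_inv,
    div_mul_div_comm, v.div, e, div_self (v.pos h0).ne']

theorem mk_ct (ort : ∀ (c : K) (q : ℚ), v (algebraMap K N c * E q) = 1 → q = 0) (cpl : Cpl K v)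
    (den : ∀ f, Apx {v} (Submodule.span K (Set.range E)) f) : ∃ CT : N →ₗ[K] K,
      (∀ f, v (algebraMap K N (CT f)) ≤ v f) ∧ CT 1 = 1 ∧ ∀ q, q ≠ 0 → CT (E q) = 0 := by
  let ev := Finsupp.linearCombination K E
  have h0 : ∀ p : ℚ →₀ K, v (algebraMap K N (p 0)) ≤ v (ev p) := fun p => by
    have := mk_orth v hE ort p 0
    rwa [hE.zero, mul_one] at this
  have h1 : ∀ f (ε : ℝ), 0 < ε → ∃ p, v (f - ev p) < ε := fun f ε hε => by
    obtain ⟨a, ha, h⟩ := den f ε hε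
    obtain ⟨p, rfl⟩ := Finsupp.mem_span_range_iff_exists_finsupp.1 ha
    exact ⟨p, h v rfl⟩
  have h2 : ∀ {f : N} {p p' : ℚ →₀ K} {ε : ℝ}, v (f - ev p) < ε → v (f - ev p') < ε →
      v (algebraMap K N (p 0 - p' 0)) < ε := fun {f p p' ε} a b => by
    refine (h0 (p - p')).trans_lt ?_
    rw [map_sub]
    exact v.tri_lt f (by rwa [v.sub_comm]) b
  have h3 : ∀ f, ∃ c : K, ∀ p, v (algebraMap K N (c - p 0)) ≤ v (f - ev p) := fun f => by
    choose P hP using fun k : ℕ => h1 f (1 / ((k : ℝ) + 1)) Nat.one_div_pos_of_nat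
    have hP' : ∀ ε : ℝ, 0 < ε → ∃ n, ∀ i ≥ n, v (f - ev (P i)) < ε := fun ε hε => by
      obtain ⟨n, hn⟩ := exists_nat_one_div_lt hε
      exact ⟨n, fun i hi => (hP i).trans ((Nat.one_div_le_one_div hi).trans_lt hn)⟩
    obtain ⟨l, hl⟩ := cpl (fun k => P k 0) fun ε hε => by
      obtain ⟨n, hn⟩ := hP' ε hε
      exact ⟨n, fun i hi j hj => h2 (hn i hi) (hn j hj)⟩
    refine ⟨l, fun p => not_lt.1 fun h => ?_⟩
    have hε := (v.nonneg _).trans_lt h
    obtain ⟨n, hn⟩ := hP' _ hε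
    obtain ⟨m, hm⟩ := hl _ hε
    have a1 := h2 (hn _ (le_max_left n m)) h
    have a2 := hm _ (le_max_right n m)
    have a3 := v.sub_lt a1 a2
    rw [← map_sub, sub_sub_sub_cancel_left] at a3
    exact lt_irrefl _ a3
  choose CT hCT using h3
  have h4 : ∀ f c, (∀ ε : ℝ, 0 < ε → ∃ p, v (f - ev p) < ε ∧ v (algebraMap K N (c - p 0)) < ε) →
      CT f = c := fun f c h => by
    by_contra hne
    obtain ⟨p, a1, a2⟩ := h _ (v.pos ((map_ne_zero (algebraMap K N)).2 (sub_ne_zero.2 hne)))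
    have a3 := v.sub_lt ((hCT f p).trans_lt a1) a2
    rw [← map_sub, sub_sub_sub_cancel_right] at a3
    exact lt_irrefl _ a3
  refine ⟨⟨⟨CT, fun f g => h4 _ _ fun ε hε => ?_⟩, fun a f => h4 _ _ fun ε hε => ?_⟩,
    fun f => ?_, h4 _ _ fun ε hε => ⟨Finsupp.single 0 1, ?_⟩,
    fun q hq => h4 _ _ fun ε hε => ⟨Finsupp.single q 1, ?_⟩⟩
  · obtain ⟨p, hp⟩ := h1 f ε hε
    obtain ⟨p', hp'⟩ := h1 g ε hε
    refine ⟨p + p', ?_, ?_⟩
    · rw [map_add, add_sub_add_comm]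
      exact v.add_lt hp hp'
    · rw [Finsupp.add_apply, add_sub_add_comm, map_add]
      exact v.add_lt ((hCT f p).trans_lt hp) ((hCT g p').trans_lt hp')
  · have a0 := v.nonneg (algebraMap K N a)
    obtain ⟨p, hp⟩ := h1 f (ε / (v (algebraMap K N a) + 1)) (by positivity)
    rw [lt_div_iff₀ (by positivity)] at hp
    have a1 : v (algebraMap K N a) * v (f - ev p) < ε := by
      have := v.nonneg (f - ev p)
      nlinarith
    refine ⟨a • p, ?_, ?_⟩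
    · rwa [map_smul, ← smul_sub, Algebra.smul_def, v.mul]
    · rw [Finsupp.smul_apply, RingHom.id_apply, ← smul_sub, smul_eq_mul, map_mul, v.mul]
      exact (mul_le_mul_of_nonneg_left (hCT f p) a0).trans_lt a1
  · simpa using hCT f 0
  · simpa [ev, hE.zero] using hε
  · simpa [ev, hq.symm] using hε

end Pool.Agent.Work.MP_e120ef_ag.H.MQ
end

-- merged part: Pool.Agent.Work.MP_e120ef_ag.F.MK
section
/-!
# Construction of tame points

Plans.  `mk_tp`: `sig f` is the `q` of a leading term `c E q` (unique by `ort`; `0` for `f = 0`), `Res = CT`, `g = 1`.  `ld`: `f = c E q (1 + ε)`, `ϑ (E q) = q E q` (`Pw.der`), `v (ϑ ε) ≤ v ε < 1`.  `res_d`: on the span by `Pw.der`, then by density and `con`.  `res_log`: `ϑ f / f = q + ϑ ε / (1 + ε)`, and `ϑ ε / (1 + ε) - ϑ (∑_{j < n} (-1) ^ j ε ^ (j + 1) / (j + 1)) = (-ε) ^ n ϑ ε / (1 + ε)`.  `ba`: `c = CT f`; if `f - c ≠ 0` had leading term `c' ∈ K`, then `v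 (CT (f - c - c')) = v c'` would exceed `v (f - c - c')`.
`mk`: `ax`, `exists_pw`, `N₀ = (algebraMap 𝓜 N).fieldRange`, `tm` with `C = 1`, `lta`, `mk_den`, `mk_ct`, `mk_tp`; `ort` for `E q` from its `q.den`-th power (`Pw.pow_den`).
`restrict`: `X = x - x₀` with `x₀` from `q.ba (j x)` (`x_trans`), `a = q.sig (j X)`, `g = a X`; `Λ = ϑ (j X)` has the leading term of `j g` (`q.ld`).
-/

namespace Pool.Agent.Work.MP_e120ef_ag.H.MQ

variable {K N : Type} [Field K] [Field N] [Algebra K N]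

theorem MK_uniq (v : UV N) {ζ : N} {E : ℚ → N} (hE : Pw ζ E)
    (ort : ∀ (c : K) (q : ℚ), v (algebraMap K N c * E q) = 1 → q = 0) {c c' : K} {q q' : ℚ}
    (hc : algebraMap K N c' * E q' ≠ 0)
    (h : v (algebraMap K N c * E q) = v (algebraMap K N c' * E q')) : q = q' := by
  refine sub_eq_zero.1 (ort (c / c') _ ?_)
  rw [sub_eq_add_neg, hE.add, hE.neg, map_div₀, ← div_eq_mul_inv, div_mul_div_comm, v.div, h,
    div_self (v.pos hc).ne']

theorem MK_zero (v : UV N) {c : K} (h : ∀ ε : ℝ, 0 < ε → v (algebraMap K N c) < ε) : c = 0 := by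
  by_contra hc
  exact lt_irrefl _ (h _ (v.pos ((map_ne_zero _).2 hc)))

theorem MK_der (v : UV N) {ζ : N} {E : ℚ → N} (hE : Pw ζ E) (ϑ : Derivation K N N) (hζ : ϑ ζ = ζ)
    (q : ℚ) : ϑ (E q) = q * E q := by
  have := v.charZero
  have h := hE.der (lb_dA ϑ) q
  rwa [dA_apply, dA_apply, hζ, div_self (hE.one ▸ hE.ne_zero 1), mul_one] at h

theorem MK_log (v : UV N) (ϑ : Derivation K N N) (CT : N →ₗ[K] K)
    (h₁ : ∀ f, v (algebraMap K N (CT f)) ≤ v f) (h₂ : ∀ f, CT (ϑ f) = 0) {u : N} (hu : v u < 1) :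
    CT (ϑ u / (1 - u)) = 0 := by
  have := v.charZero
  have : CharZero K := (algebraMap K N).charZero
  have h0 : 1 - u ≠ 0 := fun h => by
    rw [← sub_eq_zero.1 h, v.one] at hu
    exact lt_irrefl _ hu
  have h3 : ∀ n : ℕ, CT (u ^ n * ϑ u) = 0 := fun n => by
    have h4 := h₂ (u ^ (n + 1))
    rw [Derivation.leibniz_pow, map_nsmul, nsmul_eq_mul, add_tsub_cancel_right, smul_eq_mul] at h4
    exact (mul_eq_zero.1 h4).resolve_left (Nat.cast_ne_zero.2 n.succ_ne_zero)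
  have h4 : ∀ n : ℕ, CT (ϑ u / (1 - u)) = CT (u ^ n * (ϑ u / (1 - u))) := fun n => by
    induction n with
    | zero => rw [pow_zero, one_mul]
    | succ n ih =>
      have e : u ^ n * (ϑ u / (1 - u)) = u ^ (n + 1) * (ϑ u / (1 - u)) + u ^ n * ϑ u := by
        field_simp
        ring
      rw [ih, e, map_add, h3, add_zero]
  refine MK_zero v fun ε hε => ?_
  have h5 := (tendsto_pow_atTop_nhds_zero_of_lt_one (v.nonneg u) hu).mul_const
    (v (ϑ u / (1 - u)))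
  rw [zero_mul] at h5
  obtain ⟨n, hn⟩ := (h5.eventually (gt_mem_nhds hε)).exists
  rw [h4 n]
  refine (h₁ _).trans_lt ?_
  rwa [v.mul, v.pow]

theorem mk_tp (v : UV N) {ζ : N} {E : ℚ → N} (hE : Pw ζ E) (ϑ : Derivation K N N) (hζ : ϑ ζ = ζ)
    (ort : ∀ (c : K) (q : ℚ), v (algebraMap K N c * E q) = 1 → q = 0)
    (lt : ∀ f, f ≠ 0 → ∃ (c : K) (q : ℚ), v.E f (algebraMap K N c * E q))
    (con : ∀ f, v (ϑ f) ≤ v f) (den : ∀ f, Apx {v} (Submodule.span K (Set.range E)) f)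
    (CT : N →ₗ[K] K) (h₁ : ∀ f, v (algebraMap K N (CT f)) ≤ v f) (h₂ : CT 1 = 1)
    (h₃ : ∀ q, q ≠ 0 → CT (E q) = 0) : ∃ p : TP ϑ, p.v = v ∧ p.g = 1 ∧ p.sig ζ = 1 := by
  classical
  have hex : ∀ f : N, ∃ q : ℚ, (f = 0 → q = 0) ∧
      (f ≠ 0 → ∃ c : K, v.E f (algebraMap K N c * E q)) := fun f => by
    by_cases h : f = 0
    · exact ⟨0, fun _ => rfl, fun h' => (h' h).elim⟩
    · obtain ⟨c, q, hq⟩ := lt f h
      exact ⟨q, fun h' => (h h').elim, fun _ => ⟨c, hq⟩⟩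
  choose sig s0 s1 using hex
  have hs : ∀ {f : N} {c : K} {q : ℚ}, f ≠ 0 → v f = v (algebraMap K N c * E q) → sig f = q :=
    fun {f c q} hf h => by
      obtain ⟨c', h'⟩ := s1 f hf
      exact (MK_uniq v hE ort h'.ne_zero' (h.symm.trans h'.eq)).symm
  have hd : ∀ (c : K) (q : ℚ), ϑ (algebraMap K N c * E q) = q * (algebraMap K N c * E q) :=
    fun c q => by
      rw [← Algebra.smul_def, Derivation.map_smul, MK_der v hE ϑ hζ, mul_smul_comm]
  have hc : ∀ c : K, CT (algebraMap K N c) = c := fun c => by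
    rw [Algebra.algebraMap_eq_smul_one, map_smul, h₂, smul_eq_mul, mul_one]
  have rd : ∀ f, CT (ϑ f) = 0 := fun f => MK_zero v fun ε hε => by
    obtain ⟨p, hp, h⟩ := den f ε hε
    have h0 : CT (ϑ p) = 0 := by
      refine Submodule.span_induction (p := fun p _ => CT (ϑ p) = 0) ?_ ?_ ?_ ?_ hp
      · rintro _ ⟨q, rfl⟩
        rw [MK_der v hE ϑ hζ, ← map_ratCast (algebraMap K N), ← Algebra.smul_def, map_smul]
        rcases eq_or_ne q 0 with rfl | hq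
        · rw [Rat.cast_zero, zero_smul]
        · rw [h₃ q hq, smul_zero]
      · rw [map_zero, map_zero]
      · intro a b _ _ ha hb
        rw [map_add, map_add, ha, hb, add_zero]
      · intro c a _ ha
        rw [Derivation.map_smul, map_smul, ha, smul_zero]
    have e : CT (ϑ f) = CT (ϑ (f - p)) := by rw [map_sub, map_sub, h0, sub_zero]
    rw [e]
    exact ((h₁ _).trans (con _)).trans_lt (h v rfl)
  have lt' : ∀ {f : N}, f ≠ 0 → sig f = 0 → ∃ c, v.E f (algebraMap K N c) := fun {f} hf h => by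
    obtain ⟨c, h'⟩ := s1 f hf
    rw [h, hE.zero, mul_one] at h'
    exact ⟨c, h'⟩
  refine ⟨⟨v, 1, sig, CT, fun {f f'} hf hf' => ?_, fun c => ?_, fun {f f'} h => ?_, lt',
    fun {f} hf => ?_, fun f => ⟨CT f, ?_⟩, rd, fun {f} hf => ?_, fun f => ?_⟩, rfl, rfl, ?_⟩
  · obtain ⟨c, h⟩ := s1 f hf
    obtain ⟨c', h'⟩ := s1 f' hf'
    refine hs (c := c * c') (mul_ne_zero hf hf') ?_
    rw [(h.mul h').eq, hE.add, map_mul (algebraMap K N), mul_mul_mul_comm]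
  · rcases eq_or_ne (algebraMap K N c) 0 with h | h
    · exact s0 _ h
    · exact hs (c := c) h (by rw [hE.zero, mul_one])
  · rcases eq_or_ne f' 0 with rfl | hf'
    · rw [v.eq_zero.1 (h.trans v.zero)]
    · obtain ⟨c', h'⟩ := s1 f' hf'
      exact hs (v.ne_zero_of_pos (h ▸ v.pos hf')) (h.trans h'.eq)
  · obtain ⟨c, h⟩ := s1 f hf
    have e : 1 * ϑ f - sig f * f = ϑ (f - algebraMap K N c * E (sig f)) -
        sig f * (f - algebraMap K N c * E (sig f)) := by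
      rw [map_sub, hd]
      ring
    rw [e, h.eq]
    refine v.sub_lt ((con _).trans_lt h) (lt_of_le_of_lt ?_ h)
    rw [v.mul]
    exact mul_le_of_le_one_left (v.nonneg _) (v.rat_le _)
  · by_contra hn
    rw [not_or, not_not] at hn
    obtain ⟨c, h⟩ := lt' (sub_ne_zero.2 hn.1) hn.2
    have h4 := (h₁ _).trans_lt h
    rw [map_sub CT, map_sub CT, hc, hc, sub_self, zero_sub, map_neg (algebraMap K N), v.neg] at h4
    exact lt_irrefl _ h4
  · obtain ⟨c, h⟩ := s1 f hf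
    have ht := h.ne_zero'
    have hu : v (1 - f / (algebraMap K N c * E (sig f))) < 1 := by
      rw [v.sub_comm]
      exact (UV.E_iff_div ht).1 h
    have h4 := MK_log v ϑ CT h₁ rd hu
    have e : ϑ (1 - f / (algebraMap K N c * E (sig f))) /
        (1 - (1 - f / (algebraMap K N c * E (sig f)))) = algebraMap K N (sig f) - ϑ f / f := by
      have h5 := hd c (sig f)
      generalize algebraMap K N c * E (sig f) = t at ht h5
      rw [sub_sub_cancel, map_sub, Derivation.map_one_eq_zero, Derivation.leibniz_div, h5,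
        map_ratCast]
      simp only [smul_eq_mul]
      field_simp
      ring
    rw [e, map_sub, hc] at h4
    exact (sub_eq_zero.1 h4).symm
  · rw [one_mul]
    exact h₁ f
  · exact hs (c := 1) (hE.one ▸ hE.ne_zero 1) (by rw [map_one, one_mul, hE.one])

theorem mk [IsAlgClosed K] [IsAlgClosed N] {𝓜 : Type} [Field 𝓜] [Algebra K 𝓜] [Algebra 𝓜 N]
    [IsScalarTower K 𝓜 N] [Algebra.IsAlgebraic 𝓜 N] (v₀ : UV 𝓜) (ϑ₀ : Derivation K 𝓜 𝓜)
    (ϑ : Derivation K N N) (hϑ : ∀ a, ϑ (algebraMap 𝓜 N a) = algebraMap 𝓜 N (ϑ₀ a)) {ζ : 𝓜}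
    (h₀ : ζ ≠ 0) (hζ : ϑ₀ ζ = ζ) (cpl : Cpl K v₀)
    (ort : ∀ (c : K) (j : ℤ), v₀ (algebraMap K 𝓜 c * ζ ^ j) = 1 → j = 0)
    (con : ∀ f, v₀ (ϑ₀ f) ≤ v₀ f)
    (lt : ∀ f, f ≠ 0 → ∃ (c : K) (j : ℤ), v₀.E f (algebraMap K 𝓜 c * ζ ^ j))
    (den : ∀ f, Apx {v₀} (Submodule.span K (Set.range fun j : ℤ => ζ ^ j)) f) :
    ∃ p : TP ϑ, (∀ a, p.v (algebraMap 𝓜 N a) = v₀ a) ∧ p.g = 1 ∧ p.sig (algebraMap 𝓜 N ζ) = 1 := by
  obtain ⟨v, hv⟩ := ax (N := N) v₀
  obtain ⟨E, hE⟩ := exists_pw ((map_ne_zero (algebraMap 𝓜 N)).2 h₀)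
  have hK : ∀ c : K, algebraMap 𝓜 N (algebraMap K 𝓜 c) = algebraMap K N c := fun c =>
    (IsScalarTower.algebraMap_apply K 𝓜 N c).symm
  have ort' : ∀ (c : K) (q : ℚ), v (algebraMap K N c * E q) = 1 → q = 0 := fun c q h => by
    refine Rat.num_eq_zero.1 (ort (c ^ q.den) _ ?_)
    rw [← hv, map_mul, hK, map_zpow₀, ← hE.pow_den, map_pow, ← mul_pow, v.pow, h, one_pow]
  have halg : ∀ f : N, IsAlgebraic (algebraMap 𝓜 N).fieldRange f := fun f => by
    obtain ⟨p, hp, h⟩ := Algebra.IsAlgebraic.isAlgebraic (R := 𝓜) f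
    refine Fm1_iff.2 ⟨p.map (algebraMap 𝓜 N), Polynomial.map_ne_zero hp, fun i => ?_, ?_⟩
    · rw [Polynomial.coeff_map]
      exact ⟨_, rfl⟩
    · rwa [Polynomial.eval_map_algebraMap]
  have con' : ∀ f, v (ϑ f) ≤ v f := fun f => by
    have := tm v (lb_dA ϑ) (algebraMap 𝓜 N).fieldRange (C := 1) ?_ zero_le_one ?_ (halg f)
    · rwa [one_mul] at this
    · rintro _ ⟨a, rfl⟩
      exact ⟨_, (hϑ a).symm⟩
    · rintro _ ⟨a, rfl⟩
      rw [dA_apply, hϑ, hv, hv, one_mul]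
      exact con a
  have lt' : ∀ f, f ≠ 0 → ∃ (c : K) (q : ℚ), v.E f (algebraMap K N c * E q) := fun f hf => by
    refine lta v hE ort' _ ?_ (halg f) hf
    rintro _ ⟨a, rfl⟩ ha
    obtain ⟨c, j, h⟩ := lt a ((map_ne_zero _).1 ha)
    refine ⟨c, j, ?_⟩
    rwa [UV.E, hE.int, ← map_zpow₀, ← hK, ← map_mul, ← map_sub, hv, hv]
  have den' : ∀ f, Apx {v} (Submodule.span K (Set.range E)) f := by
    refine mk_den v hE lt' _ halg ?_
    rintro _ ⟨a, rfl⟩ ε hε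
    obtain ⟨p, hp, h⟩ := den a ε hε
    refine ⟨algebraMap 𝓜 N p, ?_, ?_⟩
    · have h1 : Submodule.span K (Set.range fun j : ℤ => ζ ^ j) ≤
          (Submodule.span K (Set.range E)).comap (IsScalarTower.toAlgHom K 𝓜 N).toLinearMap := by
        rw [Submodule.span_le]
        rintro _ ⟨j, rfl⟩
        exact Submodule.subset_span ⟨j, (hE.int j).trans (map_zpow₀ (algebraMap 𝓜 N) ζ j).symm⟩
      exact h1 hp
    · rintro _ rfl
      rw [← map_sub, hv]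
      exact h v₀ rfl
  have cpl' : Cpl K v := by
    unfold Cpl at cpl ⊢
    simpa only [← hK, hv] using cpl
  obtain ⟨CT, h₁, h₂, h₃⟩ := mk_ct v hE ort' cpl' den'
  obtain ⟨p, h4, h5, h6⟩ := mk_tp v hE ϑ (by rw [hϑ, hζ]) ort' lt' con' den' CT h₁ h₂ h₃
  exact ⟨p, fun a => h4 ▸ hv a, h5, h6⟩

theorem TP.restrict {ϑ : Derivation K N N} (q : TP ϑ) (hg : q.g = 1) {M : Type} [Field M]
    [Algebra K M] (𝔉 : Fm K M) (j : M →ₐ[K] N) {Λ : N} (h : ∀ f, ϑ (j f) = Λ * j (𝔉.pd f)) :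
    ∃ p : TP 𝔉.pd, (∀ f, p.v f = q.v (j f)) ∧ (∀ f, p.sig f = q.sig (j f)) ∧
      (∀ f, p.Res f = q.Res (Λ * j f)) ∧ p.sig p.g = q.sig Λ := by
  obtain ⟨x₀, hx⟩ := q.ba (j 𝔉.x)
  rw [← j.commutes, ← map_sub] at hx
  have ha := hx.resolve_left fun e => 𝔉.x_trans (j.injective e ▸ isAlgebraic_algebraMap x₀)
  generalize hX : 𝔉.x - algebraMap K M x₀ = X at ha
  have hΛ : ϑ (j X) = Λ := by
    rw [h, ← hX, map_sub 𝔉.pd, 𝔉.pd_x, Derivation.map_algebraMap, sub_zero, map_one, mul_one]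
  have hl : q.v.E Λ (j (q.sig (j X) * X)) := by
    have h1 := q.ld (q.ne_of_sig ha)
    rw [hg, one_mul, hΛ] at h1
    rwa [UV.E, map_mul, map_ratCast, q.v.mul, q.v.rat ha, one_mul]
  generalize (q.sig (j X) : M) * X = g at hl
  refine ⟨⟨q.v.comap j, g, fun f => q.sig (j f), q.Res ∘ₗ LinearMap.mulLeft K Λ ∘ₗ j.toLinearMap,
    fun {f f'} hf hf' => ?_, fun c => ?_, fun {f f'} e => q.sig_congr e, fun {f} hf e => ?_,
    fun {f} hf => ?_, fun f => ?_, fun f => ?_, fun {f} hf => ?_, fun f => ?_⟩,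
    fun _ => rfl, fun _ => rfl, fun _ => rfl, (q.sig_E hl).symm⟩
  · rw [map_mul, q.sig_mul ((map_ne_zero j).2 hf) ((map_ne_zero j).2 hf')]
  · rw [j.commutes, q.sig_alg]
  · obtain ⟨c, hc⟩ := q.lt ((map_ne_zero j).2 hf) e
    refine ⟨c, ?_⟩
    change q.v (j (f - algebraMap K M c)) < q.v (j (algebraMap K M c))
    rwa [map_sub, j.commutes]
  · change q.v (j (g * 𝔉.pd f - q.sig (j f) * f)) < q.v (j f)
    have hj := (map_ne_zero j).2 hf
    have h1 := q.ld hj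
    have h2 := q.ld_le (j f)
    rw [hg, one_mul, h] at h1 h2
    have e : j (g * 𝔉.pd f - q.sig (j f) * f) = Λ * j (𝔉.pd f) - q.sig (j f) * j f -
        (Λ - j g) * j (𝔉.pd f) := by
      rw [map_sub, map_mul, map_mul, map_ratCast]
      ring
    rw [e]
    refine q.v.sub_lt h1 ?_
    rcases eq_or_ne (j (𝔉.pd f)) 0 with h0 | h0
    · rw [h0, mul_zero, q.v.zero]
      exact q.v.pos hj
    · refine lt_of_lt_of_le ?_ h2
      rw [q.v.mul, q.v.mul, hl.eq]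
      exact mul_lt_mul_of_pos_right hl (q.v.pos h0)
  · obtain ⟨c, hc⟩ := q.ba (j f)
    rw [← j.commutes, ← map_sub] at hc
    exact ⟨c, hc.imp_left fun e => j.injective e⟩
  · change q.Res (Λ * j (𝔉.pd f)) = 0
    rw [← h, q.res_d]
  · change q.Res (Λ * j (𝔉.pd f / f)) = q.sig (j f)
    rw [map_div₀, ← mul_div_assoc, ← h, q.res_log ((map_ne_zero j).2 hf)]
  · change q.v (j (algebraMap K M (q.Res (Λ * j f)))) ≤ q.v (j (g * f))
    have h1 := q.res_le (Λ * j f)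
    rw [hg, one_mul, q.v.mul, hl.eq] at h1
    rwa [j.commutes, map_mul j, q.v.mul]

end Pool.Agent.Work.MP_e120ef_ag.H.MQ
end

-- merged part: Pool.Agent.Work.MP_e120ef_ag.F.PtP
section
/-!
# The tame point attached to a point of the annulus

Plans.  `ptp`: `v₀ = NevT_av (No K) z` (see `NevT_av_abs` in `H/NevT.lean`) is a `UV`, trivial on `K`; `mk` with `ϑ₀ = (zl z / zf K) • D`, `ζ = zl z`.  `Cpl`: a Cauchy sequence is eventually constant.  `con`: `ord_D` if `ord f ≠ 0`, `regV_D` if `ord f = 0`.  `lt`: `ord_val` for `f / ζ ^ ord f`.  `den`: by induction on `n`, there is `p` in the span with `f - p = 0` or `ord f + n ≤ ord (f - p)`.  For the last two claims: `f ^ den / ζ ^ num` has slope zero, so size one, and `v ζ = exp (-1) < 1`.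
`ptp_rs`: `res z φ = (q z).Res (algebraMap (zl z / zf K * φ))`; `res_le` and triviality, `res_d`, `res_log` for `zl z`.
-/

namespace Pool.Agent.Work.MP_e120ef_ag.H.MQ

section

variable {K M : Type} [NontriviallyNormedField K] [CharZero K] [Field M] [Algebra K M] {P : Rad}
  (A : Nev K P M) (z : Pt1 K P)

/-- the order of vanishing at `z` as an absolute value -/
noncomputable def PtP_uv : UV M where
  v :=
    { toFun := NevT_av A z
      map_mul' := (NevT_av_abs A z).mul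
      nonneg' := (NevT_av_abs A z).nonneg
      eq_zero' := (NevT_av_abs A z).eq_zero
      add_le' := fun a b => ((NevT_av_abs A z).add a b).trans
        (max_le_add_of_nonneg ((NevT_av_abs A z).nonneg a) ((NevT_av_abs A z).nonneg b)) }
  na := (NevT_av_abs A z).add
  nat n hn := by
    have h : (n : M) = algebraMap K M n := (map_natCast _ n).symm
    change NevT_av A z n = 1
    rw [NevT_av, h, if_neg ((map_ne_zero _).2 (Nat.cast_ne_zero.2 hn)), A.ord_alg, Int.cast_zero,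
      neg_zero, Real.exp_zero]

theorem PtP_val {u : M} (h : u ≠ 0) : PtP_uv A z u = Real.exp (-A.ord z u) := if_neg h

theorem PtP_alg {c : K} (h : c ≠ 0) : PtP_uv A z (algebraMap K M c) = 1 := by
  rw [PtP_val A z ((map_ne_zero _).2 h), A.ord_alg, Int.cast_zero, neg_zero, Real.exp_zero]

theorem PtP_zpow {u : M} (h : u ≠ 0) (j : ℤ) : A.ord z (u ^ j) = j * A.ord z u := by
  have h1 := congrArg Real.log ((PtP_uv A z).zpow u j)
  rw [Real.log_zpow, PtP_val A z h, PtP_val A z (zpow_ne_zero j h), Real.log_exp, Real.log_exp,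
    mul_neg, neg_inj] at h1
  exact_mod_cast h1

theorem PtP_step {a b : M} (h : PtP_uv A z a < PtP_uv A z b) :
    PtP_uv A z a ≤ PtP_uv A z b * Real.exp (-1) := by
  have hb := (PtP_uv A z).ne_zero_of_pos (((PtP_uv A z).nonneg a).trans_lt h)
  rcases eq_or_ne a 0 with rfl | ha
  · rw [UV.zero]
    exact mul_nonneg ((PtP_uv A z).nonneg b) (Real.exp_pos _).le
  rw [PtP_val A z ha, PtP_val A z hb, Real.exp_lt_exp, neg_lt_neg_iff, Int.cast_lt] at h
  rw [PtP_val A z ha, PtP_val A z hb, ← Real.exp_add, Real.exp_le_exp, ← neg_add, neg_le_neg_iff]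
  exact_mod_cast h

theorem PtP_cpl : Cpl K (PtP_uv A z) := fun c hc => by
  obtain ⟨n, hn⟩ := hc 1 one_pos
  refine ⟨c n, fun ε hε => ⟨n, fun i hi => ?_⟩⟩
  rcases eq_or_ne (c i - c n) 0 with h | h
  · rwa [h, map_zero, UV.zero]
  · have h1 := hn i hi n le_rfl
    rw [PtP_alg A z h] at h1
    exact (lt_irrefl _ h1).elim

theorem PtP_con {μ : M} (h₀ : μ ≠ 0) (h : A.ord z μ = 1) (f : M) :
    PtP_uv A z ((μ • A.D) f) ≤ PtP_uv A z f := by
  rw [Derivation.smul_apply, smul_eq_mul]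
  rcases eq_or_ne (A.D f) 0 with h1 | h1
  · rw [h1, mul_zero, UV.zero]
    exact (PtP_uv A z).nonneg f
  have hf : f ≠ 0 := fun h2 => h1 (by rw [h2, map_zero])
  rw [PtP_val A z (mul_ne_zero h₀ h1), PtP_val A z hf, Real.exp_le_exp, neg_le_neg_iff,
    Int.cast_le, A.ord_mul z _ _ h₀ h1, h]
  rcases eq_or_ne (A.ord z f) 0 with h2 | h2
  · have := A.mem_regV.1 (A.regV_D (A.mem_regV.2 h2.ge))
    omega
  · have := (A.ord_D z f h2).2
    omega

variable {ζ : M} (h₀ : ζ ≠ 0) (h : A.ord z ζ = 1)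
include h₀ h

theorem PtP_ort (c : K) (j : ℤ) (h1 : PtP_uv A z (algebraMap K M c * ζ ^ j) = 1) : j = 0 := by
  have h2 := (PtP_uv A z).ne_zero_of_pos (h1 ▸ one_pos)
  rw [PtP_val A z h2, A.ord_mul z _ _ (left_ne_zero_of_mul h2) (right_ne_zero_of_mul h2),
    A.ord_alg, PtP_zpow A z h₀, h, zero_add, mul_one, Real.exp_eq_one_iff, neg_eq_zero] at h1
  exact_mod_cast h1

theorem PtP_lt {f : M} (hf : f ≠ 0) :
    ∃ c : K, (PtP_uv A z).E f (algebraMap K M c * ζ ^ A.ord z f) := by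
  have h1 := zpow_ne_zero (A.ord z f) h₀
  have h2 : A.ord z (f / ζ ^ A.ord z f) = 0 := by
    rw [div_eq_mul_inv, A.ord_mul z _ _ hf (inv_ne_zero h1), NevA_ord_inv, PtP_zpow A z h₀, h,
      mul_one, add_neg_cancel]
  obtain ⟨c, hc⟩ := A.ord_val z _ h2
  have hc0 : c ≠ 0 := by
    rintro rfl
    rw [map_zero, sub_zero, h2] at hc
    exact hc.elim (div_ne_zero hf h1) (lt_irrefl _)
  have h3 : (PtP_uv A z).E (f / ζ ^ A.ord z f) (algebraMap K M c) := by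
    rw [UV.E, PtP_alg A z hc0]
    rcases eq_or_ne (f / ζ ^ A.ord z f - algebraMap K M c) 0 with h3 | h3
    · rw [h3, UV.zero]
      exact one_pos
    · rw [PtP_val A z h3, Real.exp_lt_one_iff, neg_lt_zero, Int.cast_pos]
      exact hc.resolve_left (sub_ne_zero.1 h3)
  have h4 := h3.mul (UV.E.refl h1)
  rw [div_mul_cancel₀ _ h1] at h4
  exact ⟨c, h4⟩

theorem PtP_den (f : M) :
    Apx {PtP_uv A z} (Submodule.span K (Set.range fun j : ℤ => ζ ^ j)) f := by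
  have key : ∀ n : ℕ, ∃ p ∈ Submodule.span K (Set.range fun j : ℤ => ζ ^ j),
      PtP_uv A z (f - p) ≤ PtP_uv A z f * Real.exp (-1) ^ n := fun n => by
    induction n with
    | zero => exact ⟨0, zero_mem _, by rw [sub_zero, pow_zero, mul_one]⟩
    | succ n ih =>
      obtain ⟨p, hp, h1⟩ := ih
      rcases eq_or_ne (f - p) 0 with h2 | h2
      · refine ⟨p, hp, ?_⟩
        rw [h2, UV.zero]
        exact mul_nonneg ((PtP_uv A z).nonneg f) (pow_nonneg (Real.exp_pos _).le _)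
      obtain ⟨c, hc⟩ := PtP_lt A z h₀ h h2
      refine ⟨p + algebraMap K M c * ζ ^ A.ord z (f - p), add_mem hp ?_, ?_⟩
      · rw [← Algebra.smul_def]
        exact Submodule.smul_mem _ _ (Submodule.subset_span ⟨_, rfl⟩)
      · rw [← sub_sub, pow_succ, ← mul_assoc]
        refine (PtP_step A z hc).trans (mul_le_mul_of_nonneg_right ?_ (Real.exp_pos _).le)
        rwa [← hc.eq]
  intro ε hε
  have h1 := (tendsto_pow_atTop_nhds_zero_of_lt_one (Real.exp_pos (-1)).le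
    (Real.exp_lt_one_iff.2 neg_one_lt_zero)).const_mul (PtP_uv A z f)
  rw [mul_zero] at h1
  obtain ⟨n, hn⟩ := (h1.eventually (gt_mem_nhds hε)).exists
  obtain ⟨p, hp, h2⟩ := key n
  refine ⟨p, hp, ?_⟩
  rintro _ rfl
  exact h2.trans_lt hn

end

theorem PtP_exp {K N : Type} [Field K] [Field N] [Algebra K N] {ϑ : Derivation K N N} (q : TP ϑ)
    (triv : ∀ c, c ≠ 0 → q.v (algebraMap K N c) = 1) {Z : N} (h₁ : q.sig Z = 1)
    (h₂ : q.v Z = Real.exp (-1)) {f : N} (hf : f ≠ 0) : q.v f = Real.exp (-q.sig f) := by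
  have hZ : Z ≠ 0 := q.ne_of_sig (h₁ ▸ one_ne_zero)
  have h1 := pow_ne_zero (q.sig f).den hf
  have h2 := zpow_ne_zero (q.sig f).num hZ
  obtain ⟨c, hc⟩ := q.lt (div_ne_zero h1 h2) (by
    rw [q.sig_div h1 h2, q.sig_pow, q.sig_zpow, h₁, mul_one, Rat.den_mul_eq_num, sub_self])
  have h3 := hc.eq
  rw [triv c ((map_ne_zero _).1 hc.ne_zero'), q.v.div, div_eq_one_iff_eq (q.v.pos h2).ne',
    q.v.pow, q.v.zpow, h₂] at h3
  have h4 := congrArg Real.log h3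
  rw [Real.log_pow, Real.log_zpow, Real.log_exp] at h4
  rw [← Real.exp_log (q.v.pos hf), Rat.cast_def]
  have h5 : ((q.sig f).den : ℝ) ≠ 0 := Nat.cast_ne_zero.2 (q.sig f).den_ne_zero
  congr 1
  field_simp
  linarith

variable {K : Type} [NontriviallyNormedField K] [IsUltrametricDist K] [IsAlgClosed K]
  [CompleteSpace K] [CharZero K] {N : Type} [Field N] [Algebra K N] [Algebra (Mo K) N]
  [IsScalarTower K (Mo K) N] {ϑ : Derivation K N N}

/-- the properties of the tame point at `z` -/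
structure IsPt (z : Pt1 K Rad.out) (q : TP (algebraMap (Mo K) N (zl z / zf K) • ϑ)) : Prop where
  g : q.g = 1
  triv : ∀ c, c ≠ 0 → q.v (algebraMap K N c) = 1
  sig : ∀ f, q.sig (algebraMap (Mo K) N f) = (No K).ord z f
  le : ∀ f, f ≠ 0 → (q.v f ≤ 1 ↔ 0 ≤ q.sig f)
  lt : ∀ f, f ≠ 0 → (q.v f < 1 ↔ 0 < q.sig f)

theorem PtP_ord (z : Pt1 K Rad.out) : (No K).ord z (zl z / zf K) = 1 := by
  rw [div_eq_mul_inv, (No K).ord_mul z _ _ (zl_ne z) (inv_ne_zero zf_ne), NevA_ord_inv, ord_zf,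
    ord_zl_self, neg_zero, add_zero]

theorem PtP_zl (z : Pt1 K Rad.out) : ((zl z / zf K) • (No K).D) (zl z) = zl z := by
  rw [Derivation.smul_apply, D_zl, smul_eq_mul, div_mul_cancel₀ _ zf_ne]

variable (hϑ : ∀ a, ϑ (algebraMap (Mo K) N a) = algebraMap (Mo K) N ((No K).D a))
include hϑ

omit [IsScalarTower K (Mo K) N] in
theorem PtP_der (z : Pt1 K Rad.out) (a : Mo K) :
    (algebraMap (Mo K) N (zl z / zf K) • ϑ) (algebraMap (Mo K) N a) =
      algebraMap (Mo K) N (((zl z / zf K) • (No K).D) a) := by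
  rw [Derivation.smul_apply, Derivation.smul_apply, hϑ, smul_eq_mul, smul_eq_mul, map_mul]

theorem ptp [Algebra.IsAlgebraic (Mo K) N] [IsAlgClosed N] (z : Pt1 K Rad.out) :
    ∃ q : TP (algebraMap (Mo K) N (zl z / zf K) • ϑ), IsPt z q := by
  obtain ⟨q, hv, hg, hs⟩ := mk (PtP_uv (No K) z) ((zl z / zf K) • (No K).D) _ (PtP_der hϑ z)
    (zl_ne z) (PtP_zl z) (PtP_cpl _ z) (PtP_ort _ z (zl_ne z) (ord_zl_self z))
    (PtP_con _ z (div_ne_zero (zl_ne z) zf_ne) (PtP_ord z))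
    (fun f hf => (PtP_lt _ z (zl_ne z) (ord_zl_self z) hf).imp fun _ h => ⟨_, h⟩)
    (PtP_den _ z (zl_ne z) (ord_zl_self z))
  have triv : ∀ c, c ≠ 0 → q.v (algebraMap K N c) = 1 := fun c hc => by
    rw [IsScalarTower.algebraMap_apply K (Mo K) N, hv, PtP_alg _ z hc]
  have hZ : q.v (algebraMap (Mo K) N (zl z)) = Real.exp (-1) := by
    rw [hv, PtP_val _ z (zl_ne z), ord_zl_self, Int.cast_one]
  refine ⟨q, hg, triv, fun f => ?_, fun f hf => ?_, fun f hf => ?_⟩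
  · rcases eq_or_ne f 0 with rfl | hf
    · rw [map_zero, q.sig_zero, (No K).ord_zero, Int.cast_zero]
    have h1 := congrArg Real.log ((hv f).symm.trans
      (PtP_exp q triv hs hZ ((map_ne_zero _).2 hf)))
    rw [PtP_val _ z hf, Real.log_exp, Real.log_exp, neg_inj] at h1
    exact_mod_cast h1.symm
  · rw [PtP_exp q triv hs hZ hf, Real.exp_le_one_iff, neg_nonpos, Rat.cast_nonneg]
  · rw [PtP_exp q triv hs hZ hf, Real.exp_lt_one_iff, neg_lt_zero, Rat.cast_pos]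

theorem ptp_rs (q : ∀ z : Pt1 K Rad.out, TP (algebraMap (Mo K) N (zl z / zf K) • ϑ))
    (hq : ∀ z, IsPt z (q z)) : ∃ res : Pt1 K Rad.out → Mo K →ₗ[K] K, RS res ∧
      ∀ z φ, res z φ = (q z).Res (algebraMap (Mo K) N (zl z / zf K * φ)) := by
  refine ⟨fun z => (q z).Res ∘ₗ (IsScalarTower.toAlgHom K (Mo K) N).toLinearMap ∘ₗ
    LinearMap.mulLeft K (zl z / zf K), ⟨fun z φ h => ?_, fun z ψ => ?_, fun z => ?_⟩,
    fun _ _ => rfl⟩
  · change (q z).Res (algebraMap (Mo K) N (zl z / zf K * φ)) = 0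
    rcases eq_or_ne φ 0 with rfl | hφ
    · rw [mul_zero, map_zero, map_zero]
    have h0 := div_ne_zero (zl_ne z) (zf_ne (K := K))
    have h1 := (q z).res_le (algebraMap (Mo K) N (zl z / zf K * φ))
    rw [(hq z).g, one_mul] at h1
    have h2 := ((hq z).lt _ ((map_ne_zero (algebraMap (Mo K) N)).2 (mul_ne_zero h0 hφ))).2 (by
      rw [(hq z).sig, (No K).ord_mul z _ _ h0 hφ, PtP_ord, Int.cast_pos]
      omega)
    by_contra h3
    rw [(hq z).triv _ h3] at h1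
    exact h1.not_gt h2
  · exact (congrArg (q z).Res (PtP_der hϑ z ψ).symm).trans ((q z).res_d _)
  · change (q z).Res (algebraMap (Mo K) N (zl z / zf K * (zf K / zl z))) = 1
    have h0 := (map_ne_zero (algebraMap (Mo K) N)).2 (zl_ne z)
    have h1 := (q z).res_log h0
    rw [PtP_der hϑ, PtP_zl, div_self h0, (hq z).sig, ord_zl_self, Int.cast_one, Rat.cast_one] at h1
    rw [div_mul_div_cancel₀ zf_ne, div_self (zl_ne z), map_one, h1]

end Pool.Agent.Work.MP_e120ef_ag.H.MQ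
end
end

-- merged part: Pool.Agent.Work.MP_e120ef_ag.F.Sy
section
-- merged part: Pool.Agent.Work.MP_e120ef_ag.F.SL
section
/-!
# Finiteness of slope ratios and of leading coefficients

Plans.  `SL_poly`: `r` splits over `K`; for a root `β`, `v (ψ - β)` is `v β` or `v ψ = v c'`, or smaller than both.
`sl`: if `pd x₀ = 0` no point has `sig x₀ ≠ 0` (`pd_ne`); `f = 0` is trivial.  Let `ψ = x₀ pd f / (f pd x₀)`; at a point with `b = sig x₀ ≠ 0`, `v (ψ - sig f / b) < 1` (`ld` for `f` and `x₀`).  Take `Q` from `dep3 x₀ f ψ` and write `0 = ∑_{(i, j)} r_ij (ψ) x₀ ^ i f ^ j` with `r_ij ∈ K[T]` (`MvPolynomial.aeval_def`, `eval₂_eq'`, `Finset.sum_fiberwise_of_maps_to`; or use `finSuccEquiv` after reordering the variables).  All points considered have the same restriction `w` to `K`.  Then `Q₁ = {q | ∃ root β, w (q - β) < 1}` is finite (`UV.rat_eq`), and if `sig f / b ∉ Q₁ ∪ {0}` all `r_ij (ψ)` with `r_ij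 ≠ 0` are nonzero of slope zero, so `ds` fails: `i b + j sig f = i' b + j' sig f` for some `(i, j) ≠ (i', j')`, and `sig f / b = (i' - i) / (j - j')`.
`rt0`: `dep2`, `0 = ∑_i r_i (f) x ^ i`, `SL_poly`, `ds`.
-/

namespace Pool.Agent.Work.MP_e120ef_ag.H.MQ

variable {K M : Type} [Field K] [Field M] [Algebra K M] [IsAlgClosed K]

theorem SL_poly {pd : Derivation K M M} (p : TP pd) {r : Polynomial K} (hr : r ≠ 0) {ψ : M}
    (hψ : p.sig ψ = 0) (h : ∀ β ∈ r.roots, ¬ p.v.E ψ (algebraMap K M β))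
    (h₀ : ψ ≠ 0) : Polynomial.aeval ψ r ≠ 0 ∧ p.sig (Polynomial.aeval ψ r) = 0 := by
  have e : Polynomial.aeval ψ r = algebraMap K M r.leadingCoeff *
      (r.roots.map fun β => ψ - algebraMap K M β).prod := by
    conv_lhs => rw [(IsAlgClosed.splits r).eq_prod_roots]
    simp [map_multiset_prod]
  have k : ∀ a b : M, a ≠ 0 ∧ p.sig a = 0 → b ≠ 0 ∧ p.sig b = 0 → a * b ≠ 0 ∧ p.sig (a * b) = 0 :=
    fun a b ha hb => ⟨mul_ne_zero ha.1 hb.1, by rw [p.sig_mul ha.1 hb.1, ha.2, hb.2, add_zero]⟩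
  rw [e]
  refine k _ _ ⟨by simpa using hr, p.sig_alg _⟩
    (Multiset.prod_induction (fun a => a ≠ 0 ∧ p.sig a = 0) _ k ⟨one_ne_zero, p.sig_one⟩ fun a ha => ?_)
  obtain ⟨β, hβ, rfl⟩ := Multiset.mem_map.1 ha
  refine ⟨fun e0 => h β hβ ?_, ?_⟩
  · rw [← sub_eq_zero.1 e0]
    exact UV.E.refl h₀
  · rcases (not_lt.1 (h β hβ)).eq_or_lt with h1 | h1
    · rw [← p.sig_congr h1, p.sig_alg]
    · have := p.v.add_eq_left h1
      rw [sub_add_cancel] at this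
      rw [← p.sig_congr this, hψ]

theorem SL_core {σ τ : Type} [Fintype σ] (e : τ ≃ Option σ) {Q : MvPolynomial τ K} (hQ : Q ≠ 0) :
    ∃ (Rt : Finset K) (S : Finset (σ →₀ ℕ)), ∀ (pd : Derivation K M M) (p : TP pd) (y : τ → M),
      MvPolynomial.aeval y Q = 0 → (∀ i, y i ≠ 0) → p.sig (y (e.symm none)) = 0 →
      (∃ β ∈ Rt, p.v.E (y (e.symm none)) (algebraMap K M β)) ∨ ∃ m ∈ S, ∃ m' ∈ S, m ≠ m' ∧
        ∑ i, m i * p.sig (y (e.symm (some i))) = ∑ i, m' i * p.sig (y (e.symm (some i))) := by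
  classical
  obtain ⟨P, hP⟩ : ∃ P, P = MvPolynomial.optionEquivRight K σ (MvPolynomial.renameEquiv K e Q) :=
    ⟨_, rfl⟩
  have P0 : P ≠ 0 := by
    rw [hP, Ne, map_eq_zero_iff _ (AlgEquiv.injective _), map_eq_zero_iff _ (AlgEquiv.injective _)]
    exact hQ
  refine ⟨P.support.biUnion fun m => (P.coeff m).roots.toFinset, P.support,
    fun pd p y hy h0 hψ => ?_⟩
  have e1 : (MvPolynomial.aevalTower (Polynomial.aeval (y (e.symm none)))
      fun i => y (e.symm (some i))).comp ((MvPolynomial.optionEquivRight K σ).toAlgHom.comp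
        (MvPolynomial.renameEquiv K e).toAlgHom) = MvPolynomial.aeval y := by
    refine MvPolynomial.algHom_ext fun i => ?_
    obtain ⟨_ | i, rfl⟩ := e.symm.surjective i <;> simp
  have e2 : ∑ m ∈ P.support, Polynomial.aeval (y (e.symm none)) (P.coeff m) *
      ∏ i, y (e.symm (some i)) ^ m i = 0 := by
    rw [← hy, ← e1, hP]
    exact (MvPolynomial.eval₂_eq' _ _ _).symm
  by_contra hn
  push Not at hn
  have k : ∀ m ∈ P.support, Polynomial.aeval (y (e.symm none)) (P.coeff m) ≠ 0 ∧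
      p.sig (Polynomial.aeval (y (e.symm none)) (P.coeff m)) = 0 := fun m hm =>
    SL_poly p (MvPolynomial.mem_support_iff.1 hm) hψ (fun β hβ => hn.1 β
      (Finset.mem_biUnion.2 ⟨m, hm, Multiset.mem_toFinset.2 hβ⟩)) (h0 _)
  have k1 : ∀ m : σ →₀ ℕ, ∏ i, y (e.symm (some i)) ^ m i ≠ 0 := fun m =>
    Finset.prod_ne_zero_iff.2 fun i _ => pow_ne_zero _ (h0 _)
  obtain ⟨m, hm⟩ := MvPolynomial.support_nonempty.2 P0
  refine p.ds ⟨m, hm, mul_ne_zero (k m hm).1 (k1 m)⟩ (fun a ha b hb _ _ hs => ?_) e2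
  rw [p.sig_mul (k a ha).1 (k1 a), p.sig_mul (k b hb).1 (k1 b), (k a ha).2, (k b hb).2, zero_add,
    zero_add, p.sig_prod _ fun i _ => pow_ne_zero _ (h0 _),
    p.sig_prod _ fun i _ => pow_ne_zero _ (h0 _)] at hs
  simp only [p.sig_pow] at hs
  by_contra hne
  exact hn.2 a ha b hb hne hs

omit [IsAlgClosed K] in
theorem SL_dep3 (𝔉 : Fm K M) (a b c : M) :
    ∃ Q : MvPolynomial (Fin 3) K, Q ≠ 0 ∧ MvPolynomial.aeval ![a, b, c] Q = 0 := by
  by_contra hn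
  have hi : AlgebraicIndependent K ![a, b, c] :=
    algebraicIndependent_iff.2 fun Q hQ => by_contra fun h => hn ⟨Q, h, hQ⟩
  have h1 := hi.cardinalMk_le_trdeg
  rw [← 𝔉.basis.cardinalMk_eq_trdeg, Cardinal.mk_fin, Cardinal.mk_fin, Nat.cast_le] at h1
  omega

omit [IsAlgClosed K] in
theorem SL_ld {pd : Derivation K M M} (p : TP pd) {f : M} (h : p.sig f ≠ 0) :
    p.v.E (p.g * pd f / f) (p.sig f) := by
  have h0 := p.ne_of_sig h
  rw [UV.E, p.v.rat h, div_sub' h0, p.v.div, div_lt_one (p.v.pos h0), mul_comm f]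
  exact p.ld h0

theorem sl (𝔉 : Fm K M) (w : UV K) (x₀ f : M) : ∃ Q : Finset ℚ, ∀ p : TP 𝔉.pd,
    (∀ c, p.v (algebraMap K M c) = w c) → p.sig x₀ ≠ 0 → p.sig f / p.sig x₀ ∈ Q := by
  classical
  obtain ⟨Q, hQ, hy⟩ := SL_dep3 𝔉 (x₀ * 𝔉.pd f / (f * 𝔉.pd x₀)) x₀ f
  obtain ⟨Rt, S, h⟩ := SL_core (M := M) (finSuccEquiv 2) hQ
  have hc : ∀ β : K, ∃ q₀ : ℚ, ∀ q : ℚ, w (q - β) < 1 → q = q₀ := fun β => by
    by_cases hq : ∃ q : ℚ, w (q - β) < 1
    · obtain ⟨q₀, h0⟩ := hq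
      exact ⟨q₀, fun q hq => w.rat_eq (w.tri_lt β hq (by rwa [w.sub_comm]))⟩
    · exact ⟨0, fun q h0 => absurd ⟨q, h0⟩ hq⟩
  choose q₀ hq₀ using hc
  refine ⟨insert 0 (Rt.image q₀ ∪ (S ×ˢ S).image fun m =>
    ((m.1 0 : ℚ) - m.2 0) / (m.2 1 - m.1 1)), fun p hw hb => ?_⟩
  have := p.v.charZero
  by_cases ha : p.sig f = 0
  · rw [ha, zero_div]
    exact Finset.mem_insert_self _ _
  have f0 := p.ne_of_sig ha
  have x0 := p.ne_of_sig hb
  have g0 : p.g ≠ 0 := left_ne_zero_of_mul (div_ne_zero_iff.1 (SL_ld p ha).ne_zero).1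
  have e : p.v.E (x₀ * 𝔉.pd f / (f * 𝔉.pd x₀)) (p.sig f / p.sig x₀ : ℚ) := by
    have := (SL_ld p ha).div (SL_ld p hb)
    rwa [← Rat.cast_div, show p.g * 𝔉.pd f / f / (p.g * 𝔉.pd x₀ / x₀) =
      x₀ * 𝔉.pd f / (f * 𝔉.pd x₀) by field_simp] at this
  refine Finset.mem_insert_of_mem (Finset.mem_union.2 ?_)
  rcases h _ p _ hy (fun i => by fin_cases i; exacts [e.ne_zero, x0, f0])
    ((p.sig_E e).trans (p.sig_rat _)) with ⟨β, hβ, h1⟩ | ⟨m, hm, m', hm', hne, h1⟩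
  · refine Or.inl (Finset.mem_image.2 ⟨β, hβ, (hq₀ β _ ?_).symm⟩)
    have h2 : p.v.E (algebraMap K M β) _ := h1.symm.trans e
    rw [UV.E, p.v.rat (div_ne_zero ha hb), p.v.sub_comm] at h2
    rwa [← hw, map_sub, map_ratCast]
  · refine Or.inr (Finset.mem_image.2 ⟨(m, m'), Finset.mem_product.2 ⟨hm, hm'⟩, ?_⟩)
    have h2 : (m 0 : ℚ) * p.sig x₀ + m 1 * p.sig f = m' 0 * p.sig x₀ + m' 1 * p.sig f := by
      simpa [Fin.sum_univ_two] using h1
    have h3 : (m' 1 : ℚ) - m 1 ≠ 0 := fun h3 => hne (by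
      have h4 : (m 1 : ℚ) = m' 1 := (sub_eq_zero.1 h3).symm
      rw [h4, add_left_inj, mul_left_inj' hb] at h2
      ext i
      fin_cases i
      exacts [Nat.cast_injective h2, Nat.cast_injective h4])
    rw [div_eq_div_iff h3 hb]
    linear_combination h2

theorem rt0 (𝔉 : Fm K M) {f : M} (hf : f ∈ 𝔉.F) (h₀ : f ≠ 0) : ∃ Rt : Finset K, ∀ p : TP 𝔉.pd,
    p.sig 𝔉.x ≠ 0 → p.sig f = 0 → ∃ r ∈ Rt, p.v.E f (algebraMap K M r) := by
  obtain ⟨Q, hQ, hy⟩ := 𝔉.dep2 hf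
  obtain ⟨Rt, S, h⟩ := SL_core (M := M) (finSuccEquivLast (n := 1)) hQ
  refine ⟨Rt, fun p hx hs => ?_⟩
  rcases h _ p _ hy (fun i => by fin_cases i; exacts [p.ne_of_sig hx, h₀]) hs with h1 |
    ⟨m, -, m', -, hne, h1⟩
  · exact h1
  · have h2 : (m 0 : ℚ) * p.sig 𝔉.x = m' 0 * p.sig 𝔉.x := by simpa using h1
    refine absurd (Finsupp.ext fun i => ?_) hne
    rw [Subsingleton.elim i 0]
    exact Nat.cast_injective ((mul_left_inj' hx).1 h2)

end Pool.Agent.Work.MP_e120ef_ag.H.MQ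
end

-- merged part: Pool.Agent.Work.MP_e120ef_ag.F.CTU
section
/-!
# Residues of algebraic differentials are constant along an ultrafilter

Plans.  `lead_u`: `sl` with `x₀ = x` and `u_const` give `q` with `sig f = q a`; `sig (E q) = q a` (`Pw.pow_den`, `sig_pow`), `E q ∈ F` (`mem_F_of_pow`), so `rt0` and `u_const` apply to `f / E q`.
`apx_u`: let `A` be the ring of `Pw.exists_ring`, `R = {f ∈ F | ∃ I ∈ U, ∀ n m ∈ I, Apx {v n, v m} A f}`.  It is a subfield (`exists_apxRing`; inverses by `lead_u` and `apx_inv'`, the inverse of `c E q` being in `A`), contains `K` and `x`, hence `Kx`.  Apply `hc` with `𝒪 = uring (fun n => (p n).v) U`: elements algebraic over `R` are in `F`; `lt` is `lead_u` (`uring_lt`), `hen` is `apx_hen` (only finitely many coefficients are nonzero).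
`res_u`: `L n f = Res_n (f / x) / a_n` is `K`-linear, `L n (E 0) = 1` (`res_invX`), `L n (E q) = 0` for `q ≠ 0` (`Pw.der`, `res_d`), so `L n = L m` on the span, and `w (L n f) ≤ v n f` (`res_leX`).  Hence `w (L n f - L m f) < ε` for all `ε` when `n, m ∈ I`.
`res_zero`: `S` from `exists_tmx`.  For `β ∈ S`, `v X < v (x - β)` (`x - β = X + (x₀ - β)`; compare slopes with `sig_congr`).  Let `e = x - β` with `β` nearest (if `S = ∅` take `e = 1` or `e = X ^ 2`, so that `v X < v e`; `v X ≠ 1` by `sig_congr`), `t j = pd^[j] γ X ^ j / j!`, `Γ N = ∑_{j < N} (-1) ^ j pd^[j] γ X ^ (j + 1) / (j + 1)!`; `pd (Γ N) = γ - (-1) ^ N t N`, so `v (Res γ) ≤ v X * v γ * (v X / v e) ^ N`.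
-/

open Filter

namespace Pool.Agent.Work.MP_e120ef_ag.H.MQ

theorem CTU_alg {M : Type} [Field M] {R R' : Subfield M} (h : R ≤ R') {f : M}
    (hf : IsAlgebraic R f) : IsAlgebraic R' f := by
  obtain ⟨P, h0, h1⟩ := hf
  refine ⟨P.map (Subfield.inclusion h), Polynomial.map_ne_zero h0, ?_⟩
  rw [Polynomial.aeval_def, Polynomial.eval₂_map]
  exact h1

theorem CTU_E {K M : Type} [Field K] [Field M] [Algebra K M] (𝔉 : Fm K M) {E : ℚ → M}
    (hE : Pw 𝔉.x E) (q : ℚ) : E q ∈ 𝔉.F :=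
  𝔉.mem_F_of_pow q.den_ne_zero (by rw [hE.pow_den]; exact zpow_mem 𝔉.x_mem_F _)

theorem CTU_X {K M : Type} [Field K] [Field M] [Algebra K M] {𝔉 : Fm K M} {p : NP 𝔉}
    (h : p.x₀ = 0) : p.X = 𝔉.x := by
  rw [NP.X, h, map_zero, sub_zero]

variable {K M ι : Type} [Field K] [Field M] [Algebra K M] [CharZero K] [CharZero M]
  [IsAlgClosed K] [IsAlgClosed M] {𝔉 : Fm K M} {U : Ultrafilter ι} {p : ι → NP 𝔉} {w : UV K}
  (hw : ∀ n c, (p n).v (algebraMap K M c) = w c) (hx : ∀ n, (p n).x₀ = 0)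
include hw hx

theorem lead_u {E : ℚ → M} (hE : Pw 𝔉.x E) {f : M} (hf : f ∈ 𝔉.F) (h₀ : f ≠ 0) :
    ∃ (c : K) (q : ℚ), ∀ᶠ n in (U : Filter ι), (p n).v.E f (algebraMap K M c * E q) := by
  obtain ⟨Q, hQ⟩ := sl 𝔉 w 𝔉.x f
  have ha : ∀ n, (p n).sig 𝔉.x ≠ 0 := fun n => CTU_X (hx n) ▸ (p n).a_ne
  obtain ⟨q, -, hq⟩ := u_const U Q.finite_toSet (r := fun n q => (p n).sig f / (p n).sig 𝔉.x = q)
    (.of_forall fun n => ⟨_, hQ (p n).toTP (hw n) (ha n), rfl⟩)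
  have hs : ∀ n, (p n).sig (E q) = q * (p n).sig 𝔉.x := fun n => by
    have h1 := (p n).sig_pow (E q) q.den
    rw [hE.pow_den, (p n).sig_zpow, ← Rat.mul_den_eq_num, mul_right_comm, mul_comm] at h1
    exact (mul_left_cancel₀ (Nat.cast_ne_zero.2 q.den_ne_zero) h1).symm
  obtain ⟨Rt, hR⟩ := rt0 𝔉 (div_mem hf (CTU_E 𝔉 hE q)) (div_ne_zero h₀ (hE.ne_zero q))
  obtain ⟨c, -, hc⟩ := u_const U Rt.finite_toSet
    (r := fun n r => (p n).v.E (f / E q) (algebraMap K M r)) (hq.mono fun n hn =>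
      hR (p n).toTP (ha n) (by
        rw [(p n).sig_div h₀ (hE.ne_zero q), hs, ← hn, div_mul_cancel₀ _ (ha n), sub_self]))
  refine ⟨c, q, hc.mono fun n hn => ?_⟩
  have h1 := hn.mul (UV.E.refl (hE.ne_zero q))
  rwa [div_mul_cancel₀ _ (hE.ne_zero q)] at h1

theorem apx_u {E : ℚ → M} (hE : Pw 𝔉.x E) {f : M} (hf : f ∈ 𝔉.F) : ∃ I ∈ U, ∀ n ∈ I, ∀ m ∈ I,
    Apx {(p n).v, (p m).v} (Submodule.span K (Set.range E)) f := by
  obtain ⟨A, hA⟩ := hE.exists_ring K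
  have hV : ∀ z : ι × ι, ({(p z.1).v, (p z.2).v} : Set (UV M)).Finite := fun z => Set.toFinite _
  choose Rg hRg using fun z => exists_apxRing (hV z) A
  have hm : ∀ (c : K) q, algebraMap K M c * E q ∈ A := fun c q => (hA _).2
    (Algebra.smul_def c (E q) ▸ Submodule.smul_mem _ c (Submodule.subset_span ⟨q, rfl⟩))
  have two : ∀ {Q : UV M → Prop}, (∀ᶠ n in (U : Filter ι), Q (p n).v) →
      ∀ᶠ z in (U : Filter ι) ×ˢ (U : Filter ι), ∀ v ∈ ({(p z.1).v, (p z.2).v} : Set (UV M)), Q v :=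
    fun h => (h.prod_mk h).mono fun z k v hv => by
      rcases hv with rfl | rfl
      exacts [k.1, k.2]
  let R : Subfield M :=
    { carrier := {f | f ∈ 𝔉.F ∧ ∀ᶠ z in (U : Filter ι) ×ˢ (U : Filter ι), f ∈ Rg z}
      mul_mem' := fun h h' => ⟨mul_mem h.1 h'.1, (h.2.and h'.2).mono fun z k => mul_mem k.1 k.2⟩
      one_mem' := ⟨one_mem _, .of_forall fun z => one_mem _⟩
      add_mem' := fun h h' => ⟨add_mem h.1 h'.1, (h.2.and h'.2).mono fun z k => add_mem k.1 k.2⟩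
      zero_mem' := ⟨zero_mem _, .of_forall fun z => zero_mem _⟩
      neg_mem' := fun h => ⟨neg_mem h.1, h.2.mono fun z k => neg_mem k⟩
      inv_mem' := fun g h => ⟨inv_mem h.1, by
        rcases eq_or_ne g 0 with rfl | h0
        · exact .of_forall fun z => by simp
        obtain ⟨c, q, k⟩ := lead_u (U := U) hw hx hE h.1 h0
        refine (h.2.and (two (Q := fun v => v.E g _) k)).mono fun z k => (hRg z _).2
          (apx_inv' (hV z) A ((hRg z _).1 k.1) (.of_mem ?_) k.2)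
        rw [mul_inv, ← map_inv₀, ← hE.neg]
        exact hm _ _⟩ }
  have hR : ∀ (c : K) q, algebraMap K M c * E q ∈ R := fun c q =>
    ⟨mul_mem (𝔉.alg_mem_F c) (CTU_E 𝔉 hE q), .of_forall fun z => (hRg z _).2 (.of_mem (hm c q))⟩
  have h1 : 𝔉.Kx ≤ R := (IntermediateField.adjoin_simple_le_iff
    (K := R.toIntermediateField fun c => by simpa [hE.zero] using hR c 0)).2
      (show 𝔉.x ∈ R by simpa [hE.one] using hR 1 1)
  have h2 : f ∈ R := by
    refine hc (uring (fun n => (p n).v) U) (fun k => Eventually.of_forall fun n => ?_) R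
      (fun g h0 hg => ?_) (fun P g k1 k2 k3 k4 => ⟨?_, ?_⟩) (CTU_alg h1 (𝔉.mem_F.1 hf))
    · simpa using (p n).v.rat_le (k : ℚ)⁻¹
    · obtain ⟨c, q, k⟩ := lead_u (U := U) hw hx hE
        (𝔉.mem_F_of_alg (CTU_alg (R := R) (fun _ h => h.1) hg)) h0
      exact ⟨_, hR c q, (uring_lt _ _ _ _).2 (k.mono fun n k => k.eq ▸ k)⟩
    · refine 𝔉.mem_F_of_root (fun e => ?_) (fun i => (k1 i).1.1) k3
      rw [e, Polynomial.coeff_zero] at k2
      exact zero_ne_one k2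
    · rw [← map_one (uring (fun n => (p n).v) U).valuation, uring_lt] at k4
      have k5 := (eventually_all_finset P.support).2 fun i _ =>
        (k1 i).1.2.and (two (Q := fun v => v (P.coeff i) ≤ 1) (k1 i).2)
      refine (k5.and (two (Q := fun v => v g < v 1) k4)).mono fun z k => (hRg z _).2
        (apx_hen (hV z) A (fun i => ?_) (fun i v hv => ?_) k2 k3 fun v hv => v.one ▸ k.2 v hv)
      · by_cases e : i ∈ P.support
        · exact (hRg z _).1 (k.1 i e).1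
        · exact Polynomial.notMem_support_iff.1 e ▸ .of_mem (zero_mem A)
      · by_cases e : i ∈ P.support
        · exact (k.1 i e).2 v hv
        · rw [Polynomial.notMem_support_iff.1 e, v.zero]
          exact zero_le_one
  obtain ⟨I, hI, h3⟩ := (eventually_prod_self_iff (r := fun n m => f ∈ Rg (n, m))).1 h2.2
  exact ⟨I, hI, fun n hn m hm => ((hRg _ _).1 (h3 n hn m hm)).mono subset_rfl
    fun g hg => (hA g).1 hg⟩

theorem res_u {γ : M} (hγ : γ ∈ 𝔉.F) :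
    ∃ c : K, ∀ᶠ n in (U : Filter ι), (p n).Res γ = (p n).a * c := by
  have h0 : 𝔉.x ≠ 0 := fun e => 𝔉.x_trans (e ▸ isAlgebraic_zero)
  obtain ⟨E, hE⟩ := exists_pw h0
  obtain ⟨I, hI, h⟩ := apx_u (U := U) hw hx hE (mul_mem hγ 𝔉.x_mem_F)
  obtain ⟨L, hL⟩ : ∃ L : ι → M →ₗ[K] K, ∀ n f, L n f = ((p n).a : K)⁻¹ * (p n).Res (f * 𝔉.x⁻¹) :=
    ⟨fun n => ((p n).a : K)⁻¹ • (p n).Res ∘ₗ LinearMap.mulRight K 𝔉.x⁻¹, fun _ _ => rfl⟩
  have ha : ∀ n, ((p n).a : K) ≠ 0 := fun n => Rat.cast_ne_zero.2 (p n).a_ne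
  have h1 : ∀ n q, L n (E q) = if q = 0 then 1 else 0 := fun n q => by
    rw [hL]
    split_ifs with e
    · rw [e, hE.zero, one_mul, ← CTU_X (hx n), (p n).res_invX, inv_mul_cancel₀ (ha n)]
    · have k := (p n).res_d (E q)
      rw [← dA_apply, hE.der (lb_dA _), dA_apply, 𝔉.pd_x, one_div, mul_assoc,
        ← map_ratCast (algebraMap K M), ← Algebra.smul_def, map_smul, smul_eq_mul] at k
      rw [(mul_eq_zero.1 k).resolve_left (Rat.cast_ne_zero.2 e), mul_zero]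
  have h2 : ∀ n f, w (L n f) ≤ (p n).v f := fun n f => by
    have k := (p n).res_leX (f * 𝔉.x⁻¹)
    rw [CTU_X (hx n), mul_comm 𝔉.x, inv_mul_cancel_right₀ h0, hw] at k
    rwa [hL, w.mul, w.inv, w.rat (p n).a_ne, inv_one, one_mul]
  have h3 : ∀ n ∈ I, ∀ m ∈ I, L n (γ * 𝔉.x) = L m (γ * 𝔉.x) := fun n hn m hm => by
    refine sub_eq_zero.1 (w.eq_zero.1 (le_antisymm (le_of_forall_pos_le_add fun ε hε => ?_)
      (w.nonneg _)))
    obtain ⟨g, hg, k⟩ := h n hn m hm ε hε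
    have k1 : L n g = L m g := LinearMap.eqOn_span (by
      rintro _ ⟨q, rfl⟩
      rw [h1, h1]) hg
    rw [zero_add, ← sub_sub_sub_cancel_right _ _ (L n g), ← map_sub, k1, ← map_sub]
    exact (w.sub_lt ((h2 _ _).trans_lt (k _ (Or.inl rfl))) ((h2 _ _).trans_lt (k _ (Or.inr rfl)))).le
  obtain ⟨m, hm⟩ := Ultrafilter.nonempty_of_mem hI
  refine ⟨L m (γ * 𝔉.x), eventually_of_mem hI fun n hn => ?_⟩
  rw [← h3 n hn m hm, hL, mul_inv_cancel_left₀ (ha n), mul_inv_cancel_right₀ h0]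

omit hw hx in
theorem res_zero {γ : M} (hγ : γ ∈ 𝔉.F) : ∃ S : Finset K, ∀ p : NP 𝔉,
    (∀ β ∈ S, p.sig (𝔉.x - algebraMap K M β) = 0) → p.Res γ = 0 := by
  obtain ⟨S, hS⟩ := 𝔉.exists_tmx hγ
  refine ⟨S, fun p h => ?_⟩
  have h0 := p.v.pos p.X_ne
  have h1 : ∀ β ∈ S, p.v p.X < p.v (𝔉.x - algebraMap K M β) := fun β hβ => by
    by_contra k
    rcases (not_lt.1 k).eq_or_lt with k | k
    · exact p.a_ne ((p.sig_congr k).symm.trans (h β hβ))
    · have k1 := p.v.sub_eq_right k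
      rw [NP.X, sub_sub_sub_cancel_left, ← map_sub] at k1
      exact p.ne ((p.sig_congr k1).symm.trans (p.sig_alg _))
  obtain ⟨e, e1, e2⟩ : ∃ e, p.v p.X < p.v e ∧ ∀ β ∈ S, p.v e ≤ p.v (𝔉.x - algebraMap K M β) := by
    rcases S.eq_empty_or_nonempty with rfl | hne
    · rcases lt_trichotomy (p.v p.X) (p.v 1) with k | k | k
      · exact ⟨1, k, by simp⟩
      · exact absurd ((p.sig_congr k).trans p.sig_one) p.a_ne
      · rw [p.v.one] at k
        exact ⟨p.X * p.X, p.v.mul _ _ ▸ lt_mul_of_one_lt_right h0 k, by simp⟩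
    · obtain ⟨β, k1, k2⟩ := S.exists_min_image (fun β => p.v (𝔉.x - algebraMap K M β)) hne
      exact ⟨_, h1 β k1, k2⟩
  have e0 := h0.trans e1
  have h2 : ∀ N : ℕ, p.v (algebraMap K M (p.Res (𝔉.pd^[N] γ * p.X ^ N))) =
      p.v (algebraMap K M (p.Res γ)) := fun N => by
    induction N with
    | zero => simp
    | succ N ih =>
      have k := p.res_d (𝔉.pd^[N] γ * p.X ^ (N + 1))
      rw [Derivation.leibniz, Derivation.leibniz_pow, p.pd_X, smul_eq_mul, smul_eq_mul, smul_eq_mul,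
        mul_one, Nat.add_sub_cancel, mul_smul_comm, map_add, map_nsmul, mul_comm (p.X ^ (N + 1)),
        ← Function.iterate_succ_apply' 𝔉.pd] at k
      rw [eq_neg_of_add_eq_zero_right k, map_neg, p.v.neg, map_nsmul, nsmul_eq_mul, p.v.mul,
        p.v.nat _ N.succ_ne_zero, one_mul, ih]
  have h3 : ∀ N : ℕ, p.v (algebraMap K M (p.Res γ)) ≤
      p.v p.X * p.v γ * (p.v p.X / p.v e) ^ N := fun N => by
    have k := hS p.v e e2 N
    rw [p.v.mul, p.v.pow, ← le_div_iff₀ (pow_pos e0 N)] at k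
    refine (h2 N).symm.trans_le ((p.res_leX _).trans ?_)
    rw [p.v.mul, p.v.mul, p.v.pow, div_pow, mul_assoc, mul_div_left_comm, mul_comm _ (_ / _)]
    exact mul_le_mul_of_nonneg_left (mul_le_mul_of_nonneg_right k (pow_pos h0 N).le) h0.le
  have h4 := ge_of_tendsto' ((tendsto_pow_atTop_nhds_zero_of_lt_one (div_pos h0 e0).le
    ((div_lt_one e0).2 e1)).const_mul (p.v p.X * p.v γ)) h3
  rw [mul_zero] at h4
  exact (map_eq_zero _).1 (p.v.eq_zero.1 (le_antisymm h4 (p.v.nonneg _)))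

end Pool.Agent.Work.MP_e120ef_ag.H.MQ
end

-- merged part: Pool.Agent.Work.MP_e120ef_ag.F.RIG0
section
/-!
# Rigidity: the core estimate

Plans.  `sheet`: `r i = t.sp (Gs i)`, `r' i = t'.sp (Gs i)`.  By `Sp.eval`, `r i` is a root of `P (b, T)` and `r' i` of `Q = P.map (evalRingHom (τ b))`; `τ (r i)` is a root of `Q` too (`fix_Kx` for the coefficients).  `Q ≠ 0` has degree at most `n + 1` (its coefficient `n + 1` is `t'.sp` of the leading coefficient, nonzero by `Est.lead`), the `r' i` are distinct (`r' i - r' j = t'.sp (Gs i - Gs j)` has the leading term of `Gs i - Gs j`), so they are all the roots: `τ (r i) = r' (π i)`, `π` injective, a permutation.  For `i ≠ j`, `r' (π i) - r' (π j) = τ (r i - r j)` and `r' i - r' j` have the same leading term for `v'` (`hψ`, `Car.E`).  If `π i ≠ i` put `w l = r' (π ^ (l + 1) i) - r' (π ^ l i)`; all `w l` have the leading term of `w 0`, and their sum over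 `l < orderOf π` is zero, against `UV.os`.
`rig0`: take `e₀ = y - β`, `e₀' = y - β'` with `β`, `β'` nearest in `S`, `t`, `t'` from `exists_sp`.  `R = X pd b - X t.sp G ∈ F` equals `X pd e - X (t.sp G - G)` for `e = b - y`, so `v R ≤ max (v f) (v (X γ f))` (`ldX_le`, `Est.two` with `tm_Δ`).  Transfer with `Car.le` (in the two cases of the maximum): `v' (τ R) ≤ v' (τ f) * max 1 (v' (X Δ))`.  `τ R = X pd e' - X Δ e' - X ρ` with `e' = τ b - y`, `v' ρ * v' e₀' ≤ v' Δ * (v' e') ^ 2` (`map_pd`, `sheet`).  Suppose `v' (τ f) < v' e'`.  If `1 < v' (X Δ)` the term `X Δ e'` dominates: contradiction.  Otherwise `v' (X pd e' - X Δ e') < v' e'`, and `ldX` gives the second alternative.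
`rigA`: `S₁` from `exists_tm A`; choose `b` with `closer` for `S₀ ∪ S₁ ∪ τ⁻¹ S₁`, `f₁` with `lead` for `b - y`.  For `β ∈ S₁`: `v' (τ b - y) ≤ v' (τ f₁) < v' (τ b - β) = v' (y - β)`.  With `t`, `t'` from `exists_sp`, `τ (t.sp A) = t'.sp A` by `Algebra.adjoin_induction`; `f = t.sp A`.
-/

namespace Pool.Agent.Work.MP_e120ef_ag.H.MQ

theorem RIG0_eval {M : Type} [Field M] (σ : M →+* M) {q : Polynomial M}
    (hq : ∀ j, σ (q.coeff j) = q.coeff j) (b : M) : σ (q.eval b) = q.eval (σ b) := by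
  rw [Polynomial.eval_eq_sum_range, Polynomial.eval_eq_sum_range, map_sum]
  exact Finset.sum_congr rfl fun j _ => by rw [map_mul, map_pow, hq]

theorem RIG0_eval₂ {M : Type} [Field M] (σ : M →+* M) {P : Polynomial (Polynomial M)}
    (hP : ∀ i j, σ ((P.coeff i).coeff j) = (P.coeff i).coeff j) (b r : M) :
    σ (P.eval₂ (Polynomial.evalRingHom b) r) = P.eval₂ (Polynomial.evalRingHom (σ b)) (σ r) := by
  rw [Polynomial.eval₂_eq_sum_range, Polynomial.eval₂_eq_sum_range, map_sum]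
  refine Finset.sum_congr rfl fun i _ => ?_
  rw [map_mul, map_pow, Polynomial.coe_evalRingHom, Polynomial.coe_evalRingHom,
    RIG0_eval σ (hP i)]

/-- a permutation which respects the leading terms of all differences is trivial -/
theorem RIG0_cycle {M ι : Type} [Field M] [Finite ι] (v : UV M) {r : ι → M}
    (hr : Function.Injective r) (π : Equiv.Perm ι)
    (h : ∀ i j, i ≠ j → v.E (r (π i) - r (π j)) (r i - r j)) (i : ι) : π i = i := by
  by_contra hne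
  have h1 : ∀ l : ℕ, (π ^ (l + 1)) i ≠ (π ^ l) i := fun l e => by
    rw [pow_succ, Equiv.Perm.mul_apply] at e
    exact hne ((π ^ l).injective e)
  have h2 : ∀ l : ℕ, v.E (r ((π ^ (l + 1)) i) - r ((π ^ l) i))
      (r ((π ^ (0 + 1)) i) - r ((π ^ 0) i)) := by
    intro l
    induction l with
    | zero => exact UV.E.refl (sub_ne_zero.2 fun e => h1 0 (hr e))
    | succ l ih =>
      have := h _ _ (h1 l)
      rw [← Equiv.Perm.mul_apply, ← Equiv.Perm.mul_apply, ← pow_succ', ← pow_succ'] at this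
      exact this.trans ih
  refine UV.os (s := Finset.range (orderOf π)) ⟨0, Finset.mem_range.2 (orderOf_pos π)⟩
    (fun l _ => h2 l) ?_
  rw [Finset.sum_range_sub (fun l => r ((π ^ l) i)), pow_orderOf_eq_one, pow_zero, sub_self]

theorem RIG0_near {K M : Type} [Field K] [Field M] [Algebra K M] (𝔉 : Fm K M) {v : UV M}
    {S : Finset M} (hS : S.Nonempty) {b : M} (h : 𝔉.In v S b) :
    ∃ e : M, (∀ β ∈ S, v e ≤ v (𝔉.y - β)) ∧ v (b - 𝔉.y) < v e := by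
  obtain ⟨β, hβ, h1⟩ := S.exists_min_image (fun β => v (𝔉.y - β)) hS
  exact ⟨𝔉.y - β, h1, h β hβ⟩

variable {K M : Type} [Field K] [Field M] [Algebra K M] [CharZero K] [CharZero M]
  [IsAlgClosed K] [IsAlgClosed M] {𝔉 : Fm K M} (D : 𝔉.SD) {τ : M ≃ₐ[K] M}

theorem sheet {v v' : UV M} (hτ : 𝔉.Car v v' τ) {b e e' : M} {t : 𝔉.Sp b} {t' : 𝔉.Sp (τ b)}
    (ht : t.Est v e) (ht' : t'.Est v' e') (he : ∀ β ∈ D.S, v e ≤ v (𝔉.y - β))
    (he' : ∀ β ∈ D.S, v' e' ≤ v' (𝔉.y - β)) (hb : v (b - 𝔉.y) < v e)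
    (hb' : v' (τ b - 𝔉.y) < v' e')
    (hψ : ∀ i j, i ≠ j → ∃ f ∈ 𝔉.F, v.E f (D.Gs i - D.Gs j) ∧ v'.E (τ f) (D.Gs i - D.Gs j)) :
    τ (t.sp 𝔉.G) = t'.sp 𝔉.G := by
  have hP : ∀ i j, (D.P.coeff i).coeff j ∈ 𝔉.F := fun i j => 𝔉.Kx_le_F (D.coeff_mem i j)
  have m : ∀ i, D.Gs i ∈ t.R := fun i => (ht.one (D.tm_G i v e he)).1
  have m' : ∀ i, D.Gs i ∈ t'.R := fun i => (ht'.one (D.tm_G i v' e' he')).1
  have l : ∀ i j, i ≠ j → v.E (t.sp (D.Gs i) - t.sp (D.Gs j)) (D.Gs i - D.Gs j) := fun i j hij => by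
    rw [← t.sub (m i) (m j)]
    exact ht.lead hb (sub_ne_zero.2 fun e => hij (D.inj e)) (D.tm_sub i j v e he)
  have l' : ∀ i j, i ≠ j → v'.E (t'.sp (D.Gs i) - t'.sp (D.Gs j)) (D.Gs i - D.Gs j) :=
    fun i j hij => by
      rw [← t'.sub (m' i) (m' j)]
      exact ht'.lead hb' (sub_ne_zero.2 fun e => hij (D.inj e)) (D.tm_sub i j v' e' he')
  have inj : Function.Injective fun i => t.sp (D.Gs i) := fun i j e => by
    by_contra hij
    exact (l i j hij).ne_zero (sub_eq_zero.2 e)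
  have inj' : Function.Injective fun i => t'.sp (D.Gs i) := fun i j e => by
    by_contra hij
    exact (l' i j hij).ne_zero (sub_eq_zero.2 e)
  have root : ∀ i, D.P.eval₂ (Polynomial.evalRingHom (τ b)) (τ (t.sp (D.Gs i))) = 0 := fun i => by
    have h1 := (t.eval hP (m i)).2
    rw [D.root i, t.spF 𝔉.F.zero_mem] at h1
    have h2 := RIG0_eval₂ (τ : M →+* M) (P := D.P)
      (fun i j => 𝔉.fix_Kx hτ.fix (D.coeff_mem i j)) b (t.sp (D.Gs i))
    rw [← h1, map_zero] at h2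
    exact h2.symm
  have root' : ∀ i, D.P.eval₂ (Polynomial.evalRingHom (τ b)) (t'.sp (D.Gs i)) = 0 := fun i => by
    have h1 := (t'.eval hP (m' i)).2
    rw [D.root i, t'.spF 𝔉.F.zero_mem] at h1
    exact h1.symm
  have hQ : D.P.map (Polynomial.evalRingHom (τ b)) ≠ 0 := by
    intro h0
    have h1 := congrArg (fun q => Polynomial.coeff q (D.n + 1)) h0
    simp only [Polynomial.coeff_map, Polynomial.coe_evalRingHom, Polynomial.coeff_zero] at h1
    have h2 := (ht'.lead hb' D.lead (D.tm_lead v' e' he')).ne_zero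
    rw [(t'.eval₁ (hP (D.n + 1))).2] at h2
    exact h2 h1
  have all : ∀ i, ∃ k, t'.sp (D.Gs k) = τ (t.sp (D.Gs i)) := fun i => by
    classical
    by_contra hne
    refine hQ (Polynomial.eq_zero_of_natDegree_lt_card_of_eval_eq_zero' _
      (insert (τ (t.sp (D.Gs i))) (Finset.univ.image fun k => t'.sp (D.Gs k))) ?_ ?_)
    · intro z hz
      rw [Polynomial.eval_map]
      rcases Finset.mem_insert.1 hz with rfl | hz
      · exact root i
      · obtain ⟨k, -, rfl⟩ := Finset.mem_image.1 hz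
        exact root' k
    · rw [Finset.card_insert_of_notMem, Finset.card_image_of_injective _ inj', Finset.card_univ,
        Fintype.card_fin]
      · exact Nat.lt_succ_of_le (Polynomial.natDegree_map_le.trans D.deg)
      · intro hz
        obtain ⟨k, -, hk⟩ := Finset.mem_image.1 hz
        exact hne ⟨k, hk⟩
  choose π hπ using all
  have πinj : Function.Injective π := fun i j e => inj (τ.injective (by
    change τ (t.sp (D.Gs i)) = τ (t.sp (D.Gs j))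
    rw [← hπ, ← hπ, e]))
  have key := RIG0_cycle v' inj' (Equiv.ofBijective π (Finite.injective_iff_bijective.1 πinj))
    (fun i j hij => by
      obtain ⟨f, hf, h1, h2⟩ := hψ i j hij
      have h3 := (hτ.E (𝔉.F.sub_mem (t.sp_mem (m i)) (t.sp_mem (m j))) hf).1
        ((l i j hij).trans h1.symm)
      rw [map_sub, ← hπ, ← hπ] at h3
      exact h3.trans (h2.trans (l' i j hij).symm)) 0
  have h0 := hπ 0
  rw [show π 0 = 0 from key, D.Gs_zero] at h0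
  exact h0.symm

theorem rig0 (p p' : NP 𝔉) (hx : p.x₀ = p'.x₀) (hτ : 𝔉.Car p.v p'.v τ) {b : M} (hb : b ∈ 𝔉.F)
    (h : 𝔉.In p.v D.S b) (h' : 𝔉.In p'.v D.S (τ b))
    (hψ : ∀ i j, i ≠ j → ∃ f ∈ 𝔉.F, p.v.E f (D.Gs i - D.Gs j) ∧ p'.v.E (τ f) (D.Gs i - D.Gs j))
    (hγ : ∃ γ ∈ 𝔉.F, p.v γ = p.v 𝔉.Δ ∧ p'.v (τ γ) = p'.v 𝔉.Δ) {f : M} (hf : f ∈ 𝔉.F)
    (hbf : p.v (b - 𝔉.y) ≤ p.v f) : p'.v (τ b - 𝔉.y) ≤ p'.v (τ f) ∨
      p'.v (p'.X * 𝔉.Δ - ((p'.sig (τ b - 𝔉.y) / p'.a : ℚ) : M)) < 1 := by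
  obtain ⟨e₀, he, hbe⟩ := RIG0_near 𝔉 D.ne h
  obtain ⟨e₀', he', hbe'⟩ := RIG0_near 𝔉 D.ne h'
  have hb' := 𝔉.map_F hτ.fix hb
  obtain ⟨t, ht⟩ := 𝔉.exists_sp hb p.v hbe
  obtain ⟨t', ht'⟩ := 𝔉.exists_sp hb' p'.v hbe'
  obtain ⟨γ, hγF, g1, g2⟩ := hγ
  have hX : p.X = p'.X := by rw [NP.X, NP.X, hx]
  have hXF : p.X ∈ 𝔉.F := 𝔉.Kx_le_F p.X_mem
  have hτX : τ p.X = p'.X := by rw [𝔉.fix_Kx hτ.fix p.X_mem, hX]
  obtain ⟨mG, e2⟩ := ht.two (ψ := 𝔉.G) (D.tm_Δ p.v e₀ he)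
  obtain ⟨-, e2'⟩ := ht'.two (ψ := 𝔉.G) (D.tm_Δ p'.v e₀' he')
  change p.v (t.sp 𝔉.G - 𝔉.G - 𝔉.Δ * (b - 𝔉.y)) * p.v e₀ ≤ _ at e2
  change p'.v (t'.sp 𝔉.G - 𝔉.G - 𝔉.Δ * (τ b - 𝔉.y)) * p'.v e₀' ≤ _ at e2'
  have hRF : p.X * 𝔉.pd b - p.X * t.sp 𝔉.G ∈ 𝔉.F :=
    𝔉.F.sub_mem (𝔉.F.mul_mem hXF (𝔉.pd_F hb)) (𝔉.F.mul_mem hXF (t.sp_mem mG))
  have hR : p.v (p.X * 𝔉.pd b - p.X * t.sp 𝔉.G) ≤ max (p.v f) (p.v (p.X * γ * f)) := by
    have e : p.X * 𝔉.pd b - p.X * t.sp 𝔉.G = p.X * 𝔉.pd (b - 𝔉.y) -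
        p.X * ((t.sp 𝔉.G - 𝔉.G - 𝔉.Δ * (b - 𝔉.y)) + 𝔉.Δ * (b - 𝔉.y)) := by
      rw [map_sub]
      unfold Fm.G
      ring
    rw [e]
    refine (p.v.sub_le _ _).trans (max_le_max ((p.ldX_le _).trans hbf) ?_)
    rw [p.v.mul, mul_assoc, p.v.mul, p.v.mul, g1]
    refine mul_le_mul_of_nonneg_left (le_trans (p.v.add_le ?_ (p.v.mul _ _).le)
      (mul_le_mul_of_nonneg_left hbf (p.v.nonneg _))) (p.v.nonneg _)
    refine le_of_mul_le_mul_right (e2.trans ?_) ((p.v.nonneg _).trans_lt hbe)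
    rw [sq, ← mul_assoc]
    exact mul_le_mul_of_nonneg_left hbe.le (mul_nonneg (p.v.nonneg _) (p.v.nonneg _))
  have hτR : τ (p.X * 𝔉.pd b - p.X * t.sp 𝔉.G) = p'.X * 𝔉.pd (τ b) - p'.X * t'.sp 𝔉.G := by
    rw [map_sub, map_mul, map_mul, hτX, 𝔉.map_pd hτ.fix hb,
      sheet D hτ ht ht' he he' hbe hbe' hψ]
  have k1 : (1 : ℝ) ≤ max 1 (p'.v (p'.X * 𝔉.Δ)) := le_max_left _ _
  have k2 : p'.v (p'.X * 𝔉.Δ) ≤ max 1 (p'.v (p'.X * 𝔉.Δ)) := le_max_right _ _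
  have hR' : p'.v (p'.X * 𝔉.pd (τ b) - p'.X * t'.sp 𝔉.G) ≤
      max 1 (p'.v (p'.X * 𝔉.Δ)) * p'.v (τ f) := by
    rw [← hτR]
    rcases le_max_iff.1 hR with h1 | h1
    · exact ((hτ.le hRF hf).1 h1).trans (le_mul_of_one_le_left (p'.v.nonneg _) k1)
    · refine ((hτ.le hRF (𝔉.F.mul_mem (𝔉.F.mul_mem hXF hγF) hf)).1 h1).trans ?_
      rw [map_mul τ, map_mul τ, hτX, p'.v.mul, p'.v.mul, g2, ← p'.v.mul]
      exact mul_le_mul_of_nonneg_right k2 (p'.v.nonneg _)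
  rcases le_or_gt (p'.v (τ b - 𝔉.y)) (p'.v (τ f)) with hle | hlt
  · exact Or.inl hle
  right
  have hpos : 0 < p'.v (τ b - 𝔉.y) := (p'.v.nonneg _).trans_lt hlt
  have k0 : (0 : ℝ) < max 1 (p'.v (p'.X * 𝔉.Δ)) := one_pos.trans_le k1
  have a1 := hR'.trans_lt (mul_lt_mul_of_pos_left hlt k0)
  have a2 : p'.v (p'.X * (t'.sp 𝔉.G - 𝔉.G - 𝔉.Δ * (τ b - 𝔉.y))) <
      max 1 (p'.v (p'.X * 𝔉.Δ)) * p'.v (τ b - 𝔉.y) := by
    refine lt_of_mul_lt_mul_right ?_ (p'.v.nonneg e₀')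
    calc p'.v (p'.X * (t'.sp 𝔉.G - 𝔉.G - 𝔉.Δ * (τ b - 𝔉.y))) * p'.v e₀'
        = p'.v p'.X * (p'.v (t'.sp 𝔉.G - 𝔉.G - 𝔉.Δ * (τ b - 𝔉.y)) * p'.v e₀') := by
          rw [p'.v.mul, mul_assoc]
      _ ≤ p'.v p'.X * (p'.v 𝔉.Δ * p'.v (τ b - 𝔉.y) ^ 2) :=
          mul_le_mul_of_nonneg_left e2' (p'.v.nonneg _)
      _ = p'.v (p'.X * 𝔉.Δ) * p'.v (τ b - 𝔉.y) * p'.v (τ b - 𝔉.y) := by
          rw [p'.v.mul]
          ring
      _ ≤ max 1 (p'.v (p'.X * 𝔉.Δ)) * p'.v (τ b - 𝔉.y) * p'.v (τ b - 𝔉.y) :=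
          mul_le_mul_of_nonneg_right (mul_le_mul_of_nonneg_right k2 hpos.le) hpos.le
      _ < _ := mul_lt_mul_of_pos_left hbe' (mul_pos k0 hpos)
  have a3 := (p'.ldX (p'.v.ne_zero_of_pos hpos)).trans_le (le_mul_of_one_le_left hpos.le k1)
  have a4 := p'.v.sub_lt a3 (p'.v.add_lt a1 a2)
  have e : p'.X * 𝔉.pd (τ b - 𝔉.y) - ((p'.sig (τ b - 𝔉.y) / p'.a : ℚ) : M) * (τ b - 𝔉.y) -
      (p'.X * 𝔉.pd (τ b) - p'.X * t'.sp 𝔉.G +
        p'.X * (t'.sp 𝔉.G - 𝔉.G - 𝔉.Δ * (τ b - 𝔉.y))) =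
      (p'.X * 𝔉.Δ - ((p'.sig (τ b - 𝔉.y) / p'.a : ℚ) : M)) * (τ b - 𝔉.y) := by
    rw [map_sub]
    unfold Fm.G
    ring
  rw [e, p'.v.mul] at a4
  have a5 := lt_of_mul_lt_mul_right a4 hpos.le
  rcases le_or_gt (p'.v (p'.X * 𝔉.Δ)) 1 with h1 | h1
  · rwa [max_eq_left h1] at a5
  · rw [max_eq_right h1.le, p'.v.sub_eq_left ((p'.v.rat_le _).trans_lt h1)] at a5
    exact absurd a5 (lt_irrefl _)

theorem rigA (p : NP 𝔉) {v' : UV M} (hτ : 𝔉.Car p.v v' τ) (S₀ : Finset M)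
    (hS : ∀ β ∈ S₀, β ∈ 𝔉.F) (h : ∀ b ∈ 𝔉.F, 𝔉.In p.v S₀ b → ∀ f ∈ 𝔉.F,
      p.v (b - 𝔉.y) ≤ p.v f → v' (τ b - 𝔉.y) ≤ v' (τ f)) {A : M}
    (hA : A ∈ Algebra.adjoin K {𝔉.x, 𝔉.y}) (h₀ : A ≠ 0) :
    ∃ f ∈ 𝔉.F, p.v.E f A ∧ v'.E (τ f) A := by
  classical
  obtain ⟨S₁, hne, hS₁, hT⟩ := 𝔉.exists_tm A
  have hfix : τ.symm 𝔉.x = 𝔉.x := by rw [AlgEquiv.symm_apply_eq, hτ.fix]
  obtain ⟨b, hb, hin⟩ := p.closer (S₀ ∪ S₁ ∪ S₁.image τ.symm) fun β hβ => by
    rcases Finset.mem_union.1 hβ with hβ | hβ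
    · rcases Finset.mem_union.1 hβ with hβ | hβ
      · exact hS β hβ
      · exact hS₁ β hβ
    · obtain ⟨β', hβ', rfl⟩ := Finset.mem_image.1 hβ
      exact 𝔉.map_F hfix (hS₁ β' hβ')
  have hby : b - 𝔉.y ≠ 0 := fun e => 𝔉.y_sub_ne hb (by rw [← neg_sub, e, neg_zero])
  obtain ⟨f₁, hf₁, l₁⟩ := p.lead hby
  have h1 := h b hb (fun β hβ => hin β (Finset.mem_union_left _ (Finset.mem_union_left _ hβ)))
    f₁ hf₁ l₁.eq.ge
  have hin₁ : 𝔉.In p.v S₁ b := fun β hβ =>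
    hin β (Finset.mem_union_left _ (Finset.mem_union_right _ hβ))
  have hin' : 𝔉.In v' S₁ (τ b) := fun β hβ => by
    have a1 := hin (τ.symm β) (Finset.mem_union_right _ (Finset.mem_image_of_mem _ hβ))
    have a2 := p.v.add_eq_right a1
    rw [sub_add_sub_cancel] at a2
    have a3 := (hτ.lt hf₁ (𝔉.F.sub_mem hb (𝔉.map_F hfix (hS₁ β hβ)))).1
      (by rw [a2, l₁.eq]; exact a1)
    rw [map_sub, AlgEquiv.apply_symm_apply] at a3
    have a4 := h1.trans_lt a3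
    have a5 := v'.sub_eq_left a4
    rw [sub_sub_sub_cancel_left] at a5
    rwa [a5]
  obtain ⟨e₀, he, hbe⟩ := RIG0_near 𝔉 hne hin₁
  obtain ⟨e₀', he', hbe'⟩ := RIG0_near 𝔉 hne hin'
  obtain ⟨t, ht⟩ := 𝔉.exists_sp hb p.v hbe
  obtain ⟨t', ht'⟩ := 𝔉.exists_sp (𝔉.map_F hτ.fix hb) v' hbe'
  have key : A ∈ t.R ∧ A ∈ t'.R ∧ τ (t.sp A) = t'.sp A := by
    clear h₀ hT
    induction hA using Algebra.adjoin_induction with
    | mem z hz =>
      rcases hz with rfl | rfl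
      · exact ⟨t.memF 𝔉.x_mem_F, t'.memF 𝔉.x_mem_F, by
          rw [t.spF 𝔉.x_mem_F, t'.spF 𝔉.x_mem_F, hτ.fix]⟩
      · exact ⟨t.mem_y, t'.mem_y, by rw [t.sp_y, t'.sp_y]⟩
    | algebraMap c =>
      exact ⟨t.memF (𝔉.alg_mem_F c), t'.memF (𝔉.alg_mem_F c), by
        rw [t.spF (𝔉.alg_mem_F c), t'.spF (𝔉.alg_mem_F c), AlgEquiv.commutes]⟩
    | add a c _ _ ha hc =>
      exact ⟨t.R.add_mem ha.1 hc.1, t'.R.add_mem ha.2.1 hc.2.1, by
        rw [t.add ha.1 hc.1, t'.add ha.2.1 hc.2.1, map_add, ha.2.2, hc.2.2]⟩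
    | mul a c _ _ ha hc =>
      exact ⟨t.R.mul_mem ha.1 hc.1, t'.R.mul_mem ha.2.1 hc.2.1, by
        rw [t.mul ha.1 hc.1, t'.mul ha.2.1 hc.2.1, map_mul, ha.2.2, hc.2.2]⟩
  refine ⟨t.sp A, t.sp_mem key.1, ht.lead hbe h₀ (hT p.v e₀ he), ?_⟩
  rw [key.2.2]
  exact ht'.lead hbe' h₀ (hT v' e₀' he')

end Pool.Agent.Work.MP_e120ef_ag.H.MQ
end

-- merged part: Pool.Agent.Work.MP_e120ef_ag.F.RIG1
section
/-!
# Rigidity at one point: bounded denominators; at two points: equal slopes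

Plans.  `car_eq`: `f ^ D / X ^ j` has slope zero, so the leading term `c ∈ K`; `Car.E` shows that `τ` of it has the same leading term; so `(v (τ f)) ^ D = (v f) ^ D`.
`pow_fix`: `ρ = τ f / f` has slope zero (`car_eq`), leading term `c ∈ K`, so `τ ^ l ρ` has leading term `c`; `τ ^ N f / f = ∏_{l < N} τ ^ l ρ` has leading term `c ^ N`; and `ρ ^ N = τ (f ^ N / X ^ z) / (f ^ N / X ^ z)` has leading term `1`.
`den_of_fix`: `q = sig f / a`, `D = q.den`, `t ^ D = X`, `ζ` a primitive `D`-th root of unity in `K`, `exists_tau`; `f` has leading term `c t ^ q.num`, so `ζ ^ (N q.num)` has leading term `1`, `UV.root_eq_one`, `D ∣ N q.num`.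
`rig1a`: `τ = τ₀ ^ N`.  `τ b` is in the disc: for `β` nearest, `b - β` has the leading term of `y - β`, `pow_fix` gives `v (τ b - b) = v (τ (b - β) - (b - β)) < v (y - β)`.  `hψ`, `hγ` from `lead`, `pow_fix`, `car_eq`.  Take `f` with the leading term of `b - y`; if `rig0` gives the second alternative and `v (b - y) < v (τ b - b)`, then `ε = τ b - b` has the leading term of `τ b - y`, `kap` and `pow_fix` give `E (τ ε) ε`, so all `τ ^ l ε` have the leading term of `ε` (`Car.E`), and they telescope to `0` over a period of `b` (`period`): against `UV.os`.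
`rig1`: `den_of_fix` for `f₀` with the leading term of `A`, `rigA` with `S₀ = D.S`.
`car_sig`: as `car_eq`.  `rig2`: `rigA` with `S₀ = {b₀}`: for `b` closer to `y` than `b₀`, `v (b - b₀) ≤ v f₀`, so `v' (τ b - b₀) ≤ v' f₀` and `v' (τ b - y) ≤ v' f₀`; both `b` and `τ b` are in the discs, `rig0` applies and `lev` excludes its second alternative.
-/

namespace Pool.Agent.Work.MP_e120ef_ag.H.MQ

variable {K M : Type} [Field K] [Field M] [Algebra K M] [CharZero K] [CharZero M]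
  [IsAlgClosed K] [IsAlgClosed M] {𝔉 : Fm K M} {D : 𝔉.SD} {τ : M ≃ₐ[K] M} (p : NP 𝔉) {N : ℕ} {f : M}

omit [CharZero K] [CharZero M] [IsAlgClosed K] [IsAlgClosed M] in
theorem RIG1_lead {v' : UV M} (hτ : 𝔉.Car p.v v' τ) (hf : f ∈ 𝔉.F) (h₀ : f ≠ 0)
    (h : p.sig f = 0) : ∃ c, p.v.E f (algebraMap K M c) ∧ v'.E (τ f) (algebraMap K M c) := by
  obtain ⟨c, hc⟩ := p.lt h₀ h
  have h1 := (hτ.E hf (𝔉.alg_mem_F c)).1 hc
  rw [AlgEquiv.commutes] at h1
  exact ⟨c, hc, h1⟩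

omit [CharZero K] [CharZero M] [IsAlgClosed K] [IsAlgClosed M] in
theorem RIG1_den (f : M) :
    ((p.sig f / p.a).den : ℚ) * p.sig f = ((p.sig f / p.a).num : ℤ) * p.a := by
  rw [← Rat.den_mul_eq_num, mul_assoc, div_mul_cancel₀ _ p.a_ne]

omit [CharZero K] [CharZero M] [IsAlgClosed K] [IsAlgClosed M] in
theorem RIG1_g {v' : UV M} (hτ : 𝔉.Car p.v v' τ) (hf : f ∈ 𝔉.F) (h₀ : f ≠ 0) {n : ℕ} {z : ℤ}
    (h : n * p.sig f = z * p.a) : ∃ c, p.v.E (f ^ n / p.X ^ z) (algebraMap K M c) ∧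
      v'.E (τ f ^ n / p.X ^ z) (algebraMap K M c) := by
  have h1 := RIG1_lead p hτ (f := f ^ n / p.X ^ z)
    (div_mem (pow_mem hf n) (zpow_mem (𝔉.Kx_le_F p.X_mem) z))
    (div_ne_zero (pow_ne_zero n h₀) (zpow_ne_zero z p.X_ne)) (by
      rw [p.sig_div (pow_ne_zero n h₀) (zpow_ne_zero z p.X_ne), p.sig_pow, p.sig_zpow, h]
      exact sub_self _)
  rwa [map_div₀, map_pow, map_zpow₀, 𝔉.fix_Kx hτ.fix p.X_mem] at h1

theorem NP.car_eq (hτ : 𝔉.Car p.v p.v τ) (hf : f ∈ 𝔉.F) : p.v (τ f) = p.v f := by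
  rcases eq_or_ne f 0 with rfl | h₀
  · rw [map_zero]
  obtain ⟨c, h1, h2⟩ := RIG1_g p hτ hf h₀ (RIG1_den p f)
  have h3 := h2.eq.trans h1.eq.symm
  rw [p.v.div, p.v.div, div_left_inj' (p.v.pos (zpow_ne_zero _ p.X_ne)).ne', p.v.pow,
    p.v.pow] at h3
  exact (pow_left_inj₀ (p.v.nonneg _) (p.v.nonneg _) (Rat.den_ne_zero _)).1 h3

theorem NP.pow_fix (hτ : 𝔉.Car p.v p.v τ) (hf : f ∈ 𝔉.F) (h₀ : f ≠ 0)
    (h : ∃ z : ℤ, N * p.sig f = z * p.a) : p.v.E ((τ ^ N) f) f := by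
  obtain ⟨z, hz⟩ := h
  have hτf : τ f ≠ 0 := (map_ne_zero τ).2 h₀
  have hρ : τ f / f ∈ 𝔉.F := div_mem (𝔉.map_F hτ.fix hf) hf
  obtain ⟨c, hc⟩ := p.lt (div_ne_zero hτf h₀) (by
    rw [p.sig_div hτf h₀, p.sig_congr (p.car_eq hτ hf), sub_self])
  have h1 : ∀ l : ℕ, p.v.E ((τ ^ l) f) (algebraMap K M c ^ l * f) := by
    intro l
    induction l with
    | zero => simpa using UV.E.refl h₀
    | succ l ih =>
      have h2 := ((hτ.pow l).E hρ (𝔉.alg_mem_F c)).1 hc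
      rw [AlgEquiv.commutes] at h2
      have h3 := h2.mul ih
      rwa [← map_mul, div_mul_cancel₀ _ h₀, ← mul_assoc, ← pow_succ', ← AlgEquiv.mul_apply,
        ← pow_succ] at h3
  obtain ⟨c', h2, h3⟩ := RIG1_g p hτ hf h₀ hz
  have h4 := h3.div h2
  rw [div_self h2.ne_zero', div_div_div_cancel_right₀ (zpow_ne_zero z p.X_ne), ← div_pow] at h4
  have h5 := ((hc.pow N).symm.trans h4).mul (UV.E.refl h₀)
  rw [one_mul] at h5
  exact (h1 N).trans h5

theorem NP.den_of_fix (hf : f ∈ 𝔉.F)  (h₀ : f ≠ 0)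
    (h : ∀ τ, 𝔉.Car p.v p.v τ → p.v.E ((τ ^ N) f) f) : ∃ z : ℤ, N * p.sig f = z * p.a := by
  have hq := RIG1_den p f
  have hD := (p.sig f / p.a).den_ne_zero
  generalize (p.sig f / p.a).den = D at hq hD
  generalize (p.sig f / p.a).num = j at hq
  obtain ⟨t, ht⟩ := IsAlgClosed.exists_pow_nat_eq p.X (Nat.pos_of_ne_zero hD)
  have : NeZero (D : K) := ⟨Nat.cast_ne_zero.2 hD⟩
  obtain ⟨ζ, hζ⟩ := HasEnoughRootsOfUnity.exists_primitiveRoot K D
  obtain ⟨τ, hτ, hτt⟩ := p.exists_tau hD ht hζ.pow_eq_one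
  have ht₀ : t ≠ 0 := by
    rintro rfl
    exact p.X_ne (by rw [← ht, zero_pow hD])
  have htF : t ∈ 𝔉.F := 𝔉.mem_F_of_pow hD (ht ▸ 𝔉.Kx_le_F p.X_mem)
  have hD' : (D : ℚ) ≠ 0 := Nat.cast_ne_zero.2 hD
  have hs : D * p.sig t = p.a := by rw [← p.sig_pow, ht, NP.a]
  obtain ⟨c, h1, h2⟩ := RIG1_lead p (hτ.pow N) (f := f / t ^ j) (div_mem hf (zpow_mem htF j))
    (div_ne_zero h₀ (zpow_ne_zero j ht₀)) (by
      rw [p.sig_div h₀ (zpow_ne_zero j ht₀), p.sig_zpow]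
      refine mul_left_cancel₀ hD' ?_
      rw [mul_sub, hq, ← hs]
      ring)
  have h3 : ∀ l : ℕ, (τ ^ l) t = algebraMap K M ζ ^ l * t := by
    intro l
    induction l with
    | zero => simp
    | succ l ih => rw [pow_succ', AlgEquiv.mul_apply, ih, map_mul, map_pow, AlgEquiv.commutes, hτt,
        pow_succ, mul_assoc]
  have hζ' : IsPrimitiveRoot (algebraMap K M ζ) D := hζ.map_of_injective (algebraMap K M).injective
  have hζ₀ := hζ'.ne_zero hD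
  have h4 := (((h τ hτ).div (UV.E.refl (zpow_ne_zero j ht₀))).trans h1).div h2
  have h5 : (τ ^ N) f ≠ 0 := (map_ne_zero _).2 h₀
  have h6 := zpow_ne_zero j ht₀
  have e : (τ ^ N) f / t ^ j / (τ ^ N) (f / t ^ j) = algebraMap K M ζ ^ ((N : ℤ) * j) := by
    rw [map_div₀, map_zpow₀, h3, mul_zpow, zpow_mul, zpow_natCast]
    field_simp
  rw [div_self h2.ne_zero', e] at h4
  have h7 := UV.root_eq_one hD (by
    rw [← zpow_natCast, ← zpow_mul, mul_comm, zpow_mul, zpow_natCast, hζ'.pow_eq_one,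
      one_zpow]) h4
  obtain ⟨z, hz⟩ := (hζ'.zpow_eq_one_iff_dvd _).1 h7
  refine ⟨z, mul_left_cancel₀ hD' ?_⟩
  have h8 : (N : ℚ) * j = D * z := by exact_mod_cast hz
  linear_combination N * hq + p.a * h8

theorem NP.rig1a (hD : p.Den D N) (hτ : 𝔉.Car p.v p.v τ) {b : M} (hb : b ∈ 𝔉.F)
    (h : 𝔉.In p.v D.S b) : p.v ((τ ^ N) b - b) ≤ p.v (b - 𝔉.y) := by
  have hτ' := hτ.pow N
  have hb' := 𝔉.map_F hτ'.fix hb
  have h' : 𝔉.In p.v D.S ((τ ^ N) b) := by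
    intro β hβ
    have h1 : p.v.E (b - β) (𝔉.y - β) := by
      rw [UV.E, sub_sub_sub_cancel_right]
      exact h β hβ
    have h2 := p.pow_fix hτ (sub_mem hb (D.memF β hβ)) h1.ne_zero
      (by rw [p.sig_E h1]; exact hD.dist β hβ)
    rw [map_sub, UV.E, hD.per β hβ τ hτ.fix, sub_sub_sub_cancel_right, h1.eq] at h2
    exact p.v.tri_lt b h2 (h β hβ)
  have hby : b - 𝔉.y ≠ 0 := fun h0 => 𝔉.y_sub_ne hb (by rw [← neg_sub, h0, neg_zero])
  obtain ⟨f, hf, hfe⟩ := p.lead hby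
  have key := rig0 D p p rfl hτ' hb h h' (fun i j hij => by
    obtain ⟨f, hf, hfe⟩ := p.lead (sub_ne_zero.2 (D.inj.ne hij))
    exact ⟨f, hf, hfe, (p.pow_fix hτ hf hfe.ne_zero
      (by rw [p.sig_E hfe]; exact hD.sub i j)).trans hfe⟩) (by
    rcases eq_or_ne 𝔉.Δ 0 with h0 | h0
    · exact ⟨0, zero_mem _, by rw [h0], by rw [map_zero, h0]⟩
    · obtain ⟨f, hf, hfe⟩ := p.lead h0
      exact ⟨f, hf, hfe.eq, (p.car_eq hτ' hf).trans hfe.eq⟩) hf hfe.eq.ge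
  rcases key with key | key
  · rw [p.car_eq hτ' hf, hfe.eq] at key
    exact p.v.tri_le 𝔉.y key (p.v.sub_comm _ _).le
  by_contra hlt
  have h1 : p.v.E ((τ ^ N) b - 𝔉.y) ((τ ^ N) b - b) := by
    rw [UV.E, sub_sub_sub_cancel_left]
    exact not_le.1 hlt
  obtain ⟨z, hz⟩ := hD.kap _ key
  have hε := sub_mem hb' hb
  have h2 := p.pow_fix hτ hε h1.ne_zero'
    ⟨z, by rw [← p.sig_E h1, ← hz, mul_assoc, div_mul_cancel₀ _ p.a_ne]⟩
  obtain ⟨n, hn, hper⟩ := 𝔉.period hb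
  have h3 : ∀ l : ℕ, p.v.E (((τ ^ N) ^ l) ((τ ^ N) b - b)) ((τ ^ N) b - b) := by
    intro l
    induction l with
    | zero => simpa using UV.E.refl h1.ne_zero'
    | succ l ih =>
      rw [pow_succ, AlgEquiv.mul_apply]
      exact (((hτ'.pow l).E (𝔉.map_F hτ'.fix hε) hε).1 h2).trans ih
  refine UV.os (s := Finset.range n) ⟨0, Finset.mem_range.2 (Nat.pos_of_ne_zero hn)⟩
    (fun l _ => h3 l) ?_
  have h4 := Finset.sum_range_sub (fun l => ((τ ^ N) ^ l) b) n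
  rw [hper _ hτ'.fix, pow_zero, AlgEquiv.one_apply, sub_self] at h4
  rw [← h4]
  exact Finset.sum_congr rfl fun l _ => by rw [map_sub, pow_succ, AlgEquiv.mul_apply]

theorem NP.rig1 (hD : p.Den D N) {A : M} (hA : A ∈ Algebra.adjoin K {𝔉.x, 𝔉.y}) :
    ∃ z : ℤ, N * p.sig A = z * p.a := by
  rcases eq_or_ne A 0 with rfl | h₀
  · exact ⟨0, by rw [p.sig_zero, mul_zero, Int.cast_zero, zero_mul]⟩
  obtain ⟨f₀, hf₀, he⟩ := p.lead h₀
  rw [← p.sig_E he]
  refine p.den_of_fix hf₀ he.ne_zero fun τ hτ => ?_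
  have hτ' := hτ.pow N
  obtain ⟨f, hf, h1, h2⟩ := rigA p hτ' D.S D.memF (fun b hb hin f hf hle => by
    rw [p.car_eq hτ' hf]
    exact p.v.tri_le b ((p.rig1a hD hτ hb hin).trans hle) hle) hA h₀
  exact (((hτ'.E hf₀ hf).1 (he.trans h1.symm)).trans h2).trans he.symm

theorem NP.car_sig (p' : NP 𝔉) (hx : p.x₀ = p'.x₀) (hτ : 𝔉.Car p.v p'.v τ) (hf : f ∈ 𝔉.F) :
    p'.sig (τ f) / p'.a = p.sig f / p.a := by
  rcases eq_or_ne f 0 with rfl | h₀
  · rw [map_zero, p.sig_zero, p'.sig_zero, zero_div, zero_div]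
  obtain ⟨c, -, h2⟩ := RIG1_g p hτ hf h₀ (RIG1_den p f)
  have hX : p.X = p'.X := by rw [NP.X, NP.X, hx]
  have h3 := p'.sig_E h2
  rw [p'.sig_alg, p'.sig_div (pow_ne_zero _ ((map_ne_zero τ).2 h₀)) (zpow_ne_zero _ p.X_ne),
    p'.sig_pow, p'.sig_zpow, hX, ← Rat.den_mul_eq_num, mul_assoc, ← mul_sub] at h3
  rw [div_eq_iff p'.a_ne]
  exact sub_eq_zero.1 ((mul_eq_zero.1 h3).resolve_left (Nat.cast_ne_zero.2 (Rat.den_ne_zero _)))

theorem NP.rig2 (D : 𝔉.SD) (p' : NP 𝔉) (hx : p.x₀ = p'.x₀) (hτ : 𝔉.Car p.v p'.v τ) {b₀ f₀ : M}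
    (hb : b₀ ∈ 𝔉.F) (hf : f₀ ∈ 𝔉.F) (hτb : τ b₀ = b₀) (hτf : τ f₀ = f₀)
    (h₁ : p.v.E f₀ (𝔉.y - b₀)) (h₁' : p'.v.E f₀ (𝔉.y - b₀)) (h₂ : 𝔉.In p.v D.S b₀)
    (h₂' : 𝔉.In p'.v D.S b₀)
    (hψ : ∀ i j, i ≠ j → ∃ f ∈ 𝔉.F, p.v.E f (D.Gs i - D.Gs j) ∧ p'.v.E (τ f) (D.Gs i - D.Gs j))
    (hγ : ∃ γ ∈ 𝔉.F, p.v γ = p.v 𝔉.Δ ∧ p'.v (τ γ) = p'.v 𝔉.Δ)
    (lev : ∀ e, e ≠ 0 → p'.v e ≤ p'.v f₀ →
      ¬ p'.v (p'.X * 𝔉.Δ - ((p'.sig e / p'.a : ℚ) : M)) < 1) {A : M}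
    (hA : A ∈ Algebra.adjoin K {𝔉.x, 𝔉.y}) : p'.sig A / p'.a = p.sig A / p.a := by
  rcases eq_or_ne A 0 with rfl | h₀
  · rw [p.sig_zero, p'.sig_zero, zero_div, zero_div]
  obtain ⟨f, hfF, h1, h2⟩ := rigA p hτ {b₀} (fun β hβ => Finset.mem_singleton.1 hβ ▸ hb)
    (fun b hbF hin f hfF hle => by
      have k1 := hin b₀ (Finset.mem_singleton_self _)
      have k2 : p.v (b - b₀) ≤ p.v f₀ := h₁.eq ▸ p.v.tri_le 𝔉.y k1.le le_rfl
      have k3 := (hτ.le (sub_mem hbF hb) hf).1 k2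
      rw [map_sub, hτb, hτf] at k3
      have k4 : p'.v (b₀ - 𝔉.y) = p'.v f₀ := by rw [h₁'.eq, p'.v.sub_comm]
      have k5 : p'.v (τ b - 𝔉.y) ≤ p'.v f₀ := p'.v.tri_le b₀ k3 k4.le
      refine (rig0 D p p' hx hτ hbF (fun β hβ => k1.trans ?_)
        (fun β hβ => (k5.trans k4.ge).trans_lt (h₂' β hβ)) hψ hγ hfF hle).resolve_right
        (lev _ (fun h0 => 𝔉.y_sub_ne (𝔉.map_F hτ.fix hbF) ?_) k5)
      · rw [p.v.sub_comm]
        exact h₂ β hβ
      · rw [← neg_sub, h0, neg_zero]) hA h₀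
  rw [← p.sig_E h1, ← p'.sig_E h2]
  exact p.car_sig p' hx hτ hfF

end Pool.Agent.Work.MP_e120ef_ag.H.MQ
end

-- merged part: Pool.Agent.Work.MP_e120ef_ag.F.UA
section
/-!
# Limits of normalised tame points

Plans.  `u_sig`: `sl` and `u_const`, or `q = 0`.  `u_mod`: if there is a best approximation, `ty1_res` with `c = q`.  Otherwise `γ` from `ty2_gam`.  When all `x₀ = 0`: `lead_u` for `x γ` (if `γ ≠ 0`), `x γ ≡ c E q`; a rational `r` with `v (X Δ - r) < 1` is `0` or has `v (x γ) = 1`, slope zero, `q = 0`, `w (c - r) < 1`.  When all slopes vanish, `X Δ` has slope `a ≠ 0` (or is zero), so it is not congruent to a nonzero rational: `c = 0`.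
`u_den`: `N` is a product of the numbers from `period`, of the denominators of the finitely many rationals from `u_sig`, and of the denominator of the only rational `r` with `w (r - c) < 1` (`UV.rat_eq`), if there is one.
`u_res`: type I: `ty1_res`, `res_mod`.  Type II: `Res Δ - Res γ` is small (`res_leX`), `res_u` or `res_zero`.
-/

open Filter

namespace Pool.Agent.Work.MP_e120ef_ag.H.MQ

theorem UA_dvd {N : ℕ} (hN : N ≠ 0) : ∀ᶠ k : ℕ in atTop, N ∣ k.factorial :=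
  (eventually_ge_atTop N).mono fun _ hk => Nat.dvd_factorial (Nat.pos_of_ne_zero hN) hk

theorem UA_den (q : ℚ) : ∀ᶠ k : ℕ in atTop, ∃ z : ℤ, (k.factorial : ℚ) * q = z := by
  refine (UA_dvd q.den_ne_zero).mono fun k hk => ?_
  obtain ⟨j, hj⟩ := hk
  refine ⟨j * q.num, ?_⟩
  rw [hj, Nat.cast_mul, mul_right_comm, Rat.den_mul_eq_num, Int.cast_mul, Int.cast_natCast,
    mul_comm]

theorem UA_rat {M : Type} [Field M] (v : UV M) {f : M} {r : ℚ} (hr : r ≠ 0)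
    (h : v (f - r) < 1) : v.E f r := by
  rwa [UV.E, v.rat hr]

theorem UA_X {K M : Type} [Field K] [Field M] [Algebra K M] {𝔉 : Fm K M} (p : NP 𝔉)
    (h : p.x₀ = 0) : p.X = 𝔉.x := by
  rw [NP.X, h, map_zero, sub_zero]

variable {K M ι : Type} [Field K] [Field M] [Algebra K M] [CharZero K] [CharZero M]
  [IsAlgClosed K] [IsAlgClosed M] {𝔉 : Fm K M} {U : Ultrafilter ι} {p : ι → NP 𝔉} {w : UV K}
  (hw : ∀ n c, (p n).v (algebraMap K M c) = w c) (hAB : AB U p)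
include hw hAB

theorem u_sig (f : M) : ∃ q : ℚ, ∀ᶠ n in (U : Filter ι), (p n).sig f = q * (p n).a := by
  rcases hAB with hx | hB
  · obtain ⟨Q, hQ⟩ := sl 𝔉 w 𝔉.x f
    obtain ⟨q, -, hq⟩ := u_const U Q.finite_toSet
      (r := fun n q => (p n).sig f = q * (p n).a) (Eventually.of_forall fun n => by
        have ha : (p n).a = (p n).sig 𝔉.x := by rw [NP.a, UA_X _ (hx n)]
        have h0 : (p n).sig 𝔉.x ≠ 0 := ha ▸ (p n).a_ne
        exact ⟨_, hQ (p n).toTP (hw n) h0, by rw [ha, div_mul_cancel₀ _ h0]⟩)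
    exact ⟨q, hq⟩
  · exact ⟨0, (hB f).mono fun n hn => by rw [hn, zero_mul]⟩

theorem u_mod : ∃ c : K, ∀ᶠ n in (U : Filter ι), ∀ r : ℚ,
    (p n).v ((p n).X * 𝔉.Δ - r) < 1 → r = 0 ∨ w (r - c) < 1 := by
  by_cases hb : ∃ b, Best U p b
  · obtain ⟨b, hb⟩ := hb
    obtain ⟨q, hq⟩ := u_sig hw hAB (𝔉.y - b)
    refine ⟨q, (ty1_res hAB hb hq).mono fun n hn r hr => Or.inr ?_⟩
    rw [(p n).v.sub_comm] at hr
    rw [(p n).v.rat_eq ((p n).v.tri_lt _ hr hn), sub_self, w.zero]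
    exact zero_lt_one
  rcases hAB with hx | hB
  · obtain ⟨γ, hγ, h1⟩ := ty2_gam (not_exists.1 hb)
    have h2 : ∀ᶠ n in (U : Filter ι), ∀ r : ℚ, r ≠ 0 → (p n).v ((p n).X * 𝔉.Δ - r) < 1 →
        (p n).v.E (𝔉.x * γ) r := h1.mono fun n hn r hr h3 => by
      refine UA_rat _ hr ?_
      rw [mul_sub, (p n).v.sub_comm] at hn
      rw [← UA_X _ (hx n)]
      exact (p n).v.tri_lt _ hn h3
    by_cases h0 : 𝔉.x * γ = 0
    · exact ⟨0, h2.mono fun n hn r h3 => Or.inl (by_contra fun hr => (hn r hr h3).ne_zero h0)⟩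
    obtain ⟨E, hE⟩ := exists_pw (left_ne_zero_of_mul h0)
    obtain ⟨c, q, hc⟩ := lead_u hw hx hE (𝔉.F.mul_mem 𝔉.x_mem_F hγ) h0
    refine ⟨c, (h2.and hc).mono fun n hn r h3 => or_iff_not_imp_left.2 fun hr => ?_⟩
    have h4 := (hn.1 r hr h3).symm.trans hn.2
    have h5 := (p n).sig_E h4
    rw [(p n).sig_rat, (p n).sig_mul (left_ne_zero_of_mul h4.ne_zero') (hE.ne_zero q),
      (p n).sig_alg, zero_add] at h5
    have h6 := congrArg (p n).sig (hE.pow_den q)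
    rw [(p n).sig_pow, (p n).sig_zpow, ← h5, mul_zero, ← UA_X _ (hx n)] at h6
    have h7 : q = 0 := Rat.num_eq_zero.1
      (Int.cast_eq_zero.1 ((mul_eq_zero.1 h6.symm).resolve_right (p n).a_ne))
    rw [h7, hE.zero, mul_one] at h4
    have h8 := h4.symm
    rw [UV.E, (p n).v.rat hr, (p n).v.sub_comm] at h8
    rwa [← hw n, map_sub, map_ratCast]
  · refine ⟨0, (hB 𝔉.Δ).mono fun n hn r h3 => Or.inl (by_contra fun hr => ?_)⟩
    have h4 := UA_rat _ hr h3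
    have h5 := (p n).sig_E h4
    rw [(p n).sig_rat, (p n).sig_mul (p n).X_ne (right_ne_zero_of_mul h4.ne_zero), hn,
      add_zero] at h5
    exact (p n).a_ne h5

theorem u_den (D : 𝔉.SD) : ∃ N, ∀ᶠ n in (U : Filter ι), (p n).Den D N := by
  have h1 : ∀ β ∈ D.S, ∀ᶠ k : ℕ in atTop, ∀ τ : M ≃ₐ[K] M, τ 𝔉.x = 𝔉.x →
      (τ ^ k.factorial) β = β := fun β hβ => by
    obtain ⟨N, hN, h⟩ := 𝔉.period (D.memF β hβ)
    refine (UA_dvd hN).mono fun k hk τ hτ => ?_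
    obtain ⟨j, hj⟩ := hk
    rw [hj, pow_mul]
    clear hj
    induction j with
    | zero => rfl
    | succ j ih => rw [pow_succ, AlgEquiv.mul_apply, h τ hτ, ih]
  have h2 : ∀ f : M, ∀ᶠ k : ℕ in atTop, ∀ᶠ n in (U : Filter ι),
      ∃ z : ℤ, (k.factorial : ℚ) * (p n).sig f = z * (p n).a := fun f => by
    obtain ⟨q, hq⟩ := u_sig hw hAB f
    refine (UA_den q).mono fun k hk => hq.mono fun n hn => ?_
    obtain ⟨z, hz⟩ := hk
    exact ⟨z, by rw [hn, ← mul_assoc, hz]⟩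
  have h3 : ∀ᶠ k : ℕ in atTop, ∀ᶠ n in (U : Filter ι), ∀ q : ℚ,
      (p n).v ((p n).X * 𝔉.Δ - q) < 1 → ∃ z : ℤ, (k.factorial : ℚ) * q = z := by
    obtain ⟨c, hc⟩ := u_mod hw hAB
    have h4 : ∃ r₀ : ℚ, ∀ r : ℚ, w (r - c) < 1 → r = r₀ := by
      by_cases h5 : ∃ r : ℚ, w (r - c) < 1
      · obtain ⟨r₀, h5⟩ := h5
        rw [w.sub_comm] at h5
        exact ⟨r₀, fun r hr => w.rat_eq (w.tri_lt _ hr h5)⟩
      · exact ⟨0, fun r hr => (h5 ⟨r, hr⟩).elim⟩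
    obtain ⟨r₀, h4⟩ := h4
    refine (UA_den r₀).mono fun k hk => hc.mono fun n hn q hq => ?_
    rcases hn q hq with h5 | h5
    · exact ⟨0, by rw [h5, mul_zero, Int.cast_zero]⟩
    · rwa [h4 q h5]
  obtain ⟨k, ⟨k1, k2⟩, k3, k4⟩ := ((((eventually_all_finset D.S).2 h1).and
    ((eventually_all_finset D.S).2 fun β _ => h2 (𝔉.y - β))).and
    ((eventually_all.2 fun i => eventually_all.2 fun j => h2 (D.Gs i - D.Gs j)).and h3)).exists
  refine ⟨k.factorial, ?_⟩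
  filter_upwards [(eventually_all_finset D.S).2 k2,
    eventually_all.2 fun i => eventually_all.2 fun j => k3 i j, k4] with n n2 n3 n4
  exact ⟨k.factorial_ne_zero, k1, n2, n3, n4⟩

theorem u_res : ∃ c : K, ∀ᶠ n in (U : Filter ι), w ((p n).Res 𝔉.Δ - (p n).a * c) < 1 := by
  by_cases hb : ∃ b, Best U p b
  · obtain ⟨b, hb⟩ := hb
    obtain ⟨q, hq⟩ := u_sig hw hAB (𝔉.y - b)
    refine ⟨q, (ty1_res hAB hb hq).mono fun n hn => ?_⟩
    rw [← hw n]
    exact (p n).res_mod (by rwa [map_ratCast])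
  obtain ⟨γ, hγ, h1⟩ := ty2_gam (not_exists.1 hb)
  have h2 : ∃ c : K, ∀ᶠ n in (U : Filter ι), (p n).Res γ = (p n).a * c := by
    rcases hAB with hx | hB
    · exact res_u hw hx hγ
    · obtain ⟨S, hS⟩ := res_zero hγ
      refine ⟨0, ((eventually_all_finset S).2 fun β _ => hB (𝔉.x - algebraMap K M β)).mono
        fun n hn => ?_⟩
      rw [hS (p n) hn, mul_zero]
  obtain ⟨c, hc⟩ := h2
  refine ⟨c, (h1.and hc).mono fun n hn => ?_⟩
  rw [← hn.2, ← map_sub, ← hw n]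
  exact ((p n).res_leX _).trans_lt hn.1

end Pool.Agent.Work.MP_e120ef_ag.H.MQ
end

-- merged part: Pool.Agent.Work.MP_e120ef_ag.F.U1
section
/-!
# The uniform bound at tame points

Plans.  `norm_seq`: if some `x'` has nonzero slope on a set `I ∈ U`, then `μ = pd x' ≠ 0` (`pd_ne`), take `𝔉'` from `chg`; for `n ∈ I` use `rescale` (transport along `𝔉'.pd = μ⁻¹ • pd`) with `x₀ = 0`, for `n ∉ I` repeat the point of a fixed `n₀ ∈ I`.  `Res Δ = sig W + Res' Δ'` by `res_log`.  Otherwise `𝔉' = 𝔉`, `W = 1`, `μ = 1`, `exists_np`.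
`rad_u`: `δ = |a| / (N * N₁!)` with `N` from `u_den` and `N₁` the dimension of `K⟮x', y'⟯⟮x, y⟯` over `K⟮x', y'⟯` (`alg_xy`, `IntermediateField.finiteDimensional_adjoin`): slopes on `K⟮x', y'⟯` are in `(a / N) ℤ` (`rig1`, quotients: `IntermediateField.mem_adjoin_iff_div` or `Algebra.adjoin` and `sig_div`), `alg_den` for the minimal polynomial (`minpoly.natDegree_le`).  The bounds: `u_sig` for `φ ∈ Φ`, `W`, `μ`; `sig g = a - sig μ`; `pr (Res Δ) = sig W + a * pr c`.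
`rad`: otherwise for each `n : ℕ` there is a point for which `C = n` fails; `rad_u` with `Filter.hyperfilter ℕ`; `Bnd` is monotone in `C`.
-/

open Filter

namespace Pool.Agent.Work.MP_e120ef_ag.H.MQ

variable {K M ι : Type} [Field K] [Field M] [Algebra K M] [CharZero K] [CharZero M]
  [IsAlgClosed K] [IsAlgClosed M] {𝔉 : Fm K M}

theorem norm_seq (U : Ultrafilter ι) (p : ι → TP 𝔉.pd) {w : UV K}
    (hw : ∀ n c, (p n).v (algebraMap K M c) = w c) :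
    ∃ (𝔉' : Fm K M) (p' : ι → NP 𝔉') (μ : M), μ ≠ 0 ∧ 𝔉'.dy 𝔉.y - 𝔉.G * 𝔉'.dy 𝔉.x ≠ 0 ∧
      AB U p' ∧ (∀ n c, (p' n).v (algebraMap K M c) = w c) ∧ ∀ᶠ n in (U : Filter ι),
        (p' n).v = (p n).v ∧ (p' n).sig = (p n).sig ∧ (p' n).g = (p n).g * μ ∧
        (p n).Res 𝔉.Δ = (p n).sig (𝔉'.dy 𝔉.y - 𝔉.G * 𝔉'.dy 𝔉.x) + (p' n).Res 𝔉'.Δ := by
  classical
  by_cases h : ∃ x', ∀ᶠ n in (U : Filter ι), (p n).sig x' ≠ 0
  · obtain ⟨x', hx⟩ := h
    obtain ⟨n₀, hn₀⟩ := hx.exists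
    have hμ := (p n₀).pd_ne hn₀
    obtain ⟨𝔉', e1, e2, e3, e4⟩ := 𝔉.chg hμ
    have key : ∀ q : TP 𝔉.pd, q.sig x' ≠ 0 → ∃ q' : NP 𝔉', q'.x₀ = 0 ∧ q'.v = q.v ∧ q'.sig = q.sig ∧
        q'.g = q.g * 𝔉.pd x' ∧ ∀ f, q'.Res f = q.Res (𝔉.pd x' * f) := fun q hq => by
      have h1 := q.rescale hμ
      rw [← e2] at h1
      obtain ⟨q', a1, a2, a3, a4⟩ := h1
      exact ⟨⟨q', 0, by rwa [map_zero, sub_zero, e1, a2]⟩, rfl, a1, a2, a3, a4⟩
    let k : ι → ι := fun n => if (p n).sig x' ≠ 0 then n else n₀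
    have hk : ∀ n, (p (k n)).sig x' ≠ 0 := fun n => by
      by_cases e : (p n).sig x' ≠ 0
      · rwa [show k n = n from if_pos e]
      · rwa [show k n = n₀ from if_neg e]
    choose p' a0 a1 a2 a3 a4 using fun n => key (p (k n)) (hk n)
    refine ⟨𝔉', p', _, hμ, e3, Or.inl a0, fun n c => by rw [a1, hw], hx.mono fun n hn => ?_⟩
    have e : k n = n := if_pos hn
    refine ⟨by rw [a1, e], by rw [a2, e], by rw [a3, e], ?_⟩
    rw [a4, e, e4, map_add, (p n).res_log e3]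
  · choose p' hp using fun n => (p n).exists_np
    have e : 𝔉.dy 𝔉.y - 𝔉.G * 𝔉.dy 𝔉.x = 1 := by rw [𝔉.dy_x, 𝔉.dy_y, mul_zero, sub_zero]
    refine ⟨𝔉, p', 1, one_ne_zero, e ▸ one_ne_zero, Or.inr fun f => ?_, fun n c => by rw [hp, hw],
      .of_forall fun n => ?_⟩
    · refine (Ultrafilter.eventually_not.2 fun k => h ⟨f, k⟩).mono fun n hn => ?_
      rw [hp]
      exact not_not.1 hn
    · rw [hp, e, (p n).sig_one, Rat.cast_zero, zero_add, mul_one]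
      exact ⟨rfl, rfl, rfl, rfl⟩

omit [CharZero K] [CharZero M] [IsAlgClosed K] [IsAlgClosed M] in
theorem U1_deg (𝔉 : Fm K M) (x y : M) : ∃ N : ℕ, ∀ A ∈ Algebra.adjoin K {x, y},
    ∃ P : Polynomial M, P ≠ 0 ∧ P.natDegree ≤ N ∧ P.eval A = 0 ∧
      ∀ i, P.coeff i ∈ IntermediateField.adjoin K {𝔉.x, 𝔉.y} := by
  set L := IntermediateField.adjoin K {𝔉.x, 𝔉.y}
  have : FiniteDimensional L (IntermediateField.adjoin L {x, y}) :=
    IntermediateField.finiteDimensional_adjoin fun z _ => (𝔉.alg_xy z).isIntegral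
  refine ⟨Module.finrank L (IntermediateField.adjoin L {x, y}), fun A hA => ?_⟩
  have h1 : A ∈ IntermediateField.adjoin L {x, y} :=
    Algebra.adjoin_le (S := ((IntermediateField.adjoin L {x, y}).restrictScalars K).toSubalgebra)
      (IntermediateField.subset_adjoin L {x, y}) hA
  have h2 := minpoly.natDegree_le (A := L) (⟨A, h1⟩ : IntermediateField.adjoin L {x, y})
  rw [IntermediateField.minpoly_eq] at h2
  refine ⟨(minpoly L A).map (algebraMap L M),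
    Polynomial.map_ne_zero (minpoly.ne_zero (𝔉.alg_xy A).isIntegral),
    by rwa [Polynomial.natDegree_map], by rw [Polynomial.eval_map_algebraMap, minpoly.aeval],
    fun i => ?_⟩
  rw [Polynomial.coeff_map]
  exact ((minpoly L A).coeff i).2

theorem U1_frac (p : NP 𝔉) {D : 𝔉.SD} {N : ℕ} (hD : p.Den D N) {f : M}
    (hf : f ∈ IntermediateField.adjoin K {𝔉.x, 𝔉.y}) : ∃ z : ℤ, p.sig f = z * (p.a / N) := by
  obtain ⟨r, hr, s, hs, rfl⟩ := IntermediateField.mem_adjoin_iff_div.1 hf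
  by_cases h : r / s = 0
  · exact ⟨0, by rw [h, p.sig_zero, Int.cast_zero, zero_mul]⟩
  obtain ⟨z, hz⟩ := p.rig1 hD hr
  obtain ⟨z', hz'⟩ := p.rig1 hD hs
  have n0 : (N : ℚ) ≠ 0 := Nat.cast_ne_zero.2 hD.ne
  rw [div_eq_zero_iff, not_or] at h
  refine ⟨z - z', ?_⟩
  rw [p.sig_div h.1 h.2]
  push_cast
  field_simp
  linear_combination hz - hz'

/-- the bound at one point -/
def Bnd (Φ : Finset M) (pr : K →ₗ[ℚ] ℚ) (C : ℚ) (p : TP 𝔉.pd) : Prop :=
  ∃ δ : ℚ, 0 < δ ∧ (∀ A ∈ Algebra.adjoin K {𝔉.x, 𝔉.y}, ∃ z : ℤ, p.sig A = z * δ) ∧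
    (∀ φ ∈ Φ, |p.sig φ| ≤ C * δ) ∧ |p.sig p.g| ≤ C * δ ∧ |pr (p.Res 𝔉.Δ)| ≤ C * δ

variable (Φ : Finset M) {w : UV K} {pr : K →ₗ[ℚ] ℚ} (h₁ : pr 1 = 1) (h₂ : ∀ c, w c < 1 → pr c = 0)
include h₁ h₂

theorem rad_u (U : Ultrafilter ι) (p : ι → TP 𝔉.pd)
    (hw : ∀ n c, (p n).v (algebraMap K M c) = w c) :
    ∃ C : ℚ, ∀ᶠ n in (U : Filter ι), Bnd Φ pr C (p n) := by
  obtain ⟨𝔉', p', μ, hμ, hW, hAB, hw', he⟩ := norm_seq U p hw
  obtain ⟨D⟩ := 𝔉'.exists_SD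
  obtain ⟨N, hN⟩ := u_den hw' hAB D
  obtain ⟨c, hc⟩ := u_res hw' hAB
  obtain ⟨N₁, hN₁⟩ := U1_deg 𝔉' 𝔉.x 𝔉.y
  choose q hq using u_sig hw' hAB
  set W := 𝔉'.dy 𝔉.y - 𝔉.G * 𝔉'.dy 𝔉.x
  set B : ℚ := ∑ φ ∈ Φ, |q φ| + (1 + |q μ|) + (|q W| + |pr c|) with hB
  refine ⟨B * (N * N₁.factorial), ?_⟩
  filter_upwards [he, hN, hc, (eventually_all_finset Φ).2 fun φ _ => hq φ, hq μ, hq W] with n e1 e2 e3
    e4 e5 e6
  obtain ⟨-, a2, a3, a4⟩ := e1
  have n0 : (0 : ℚ) < N := Nat.cast_pos.2 (Nat.pos_of_ne_zero e2.ne)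
  have n1 : (0 : ℚ) < N₁.factorial := Nat.cast_pos.2 N₁.factorial_pos
  have a0 := abs_pos.2 (p' n).a_ne
  have s0 : 0 ≤ ∑ φ ∈ Φ, |q φ| := Finset.sum_nonneg fun _ _ => abs_nonneg _
  have bd : ∀ r : ℚ, |r| ≤ B →
      |r * (p' n).a| ≤ B * (N * N₁.factorial) * (|(p' n).a| / (N * N₁.factorial)) := fun r hr => by
    rw [mul_assoc, mul_div_cancel₀ _ (mul_pos n0 n1).ne', abs_mul]
    exact mul_le_mul_of_nonneg_right hr a0.le
  refine ⟨|(p' n).a| / (N * N₁.factorial), by positivity, fun A hA => ?_, fun φ hφ => ?_, ?_, ?_⟩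
  · obtain ⟨P, b1, b2, b3, b4⟩ := hN₁ A hA
    obtain ⟨z, hz⟩ := (p' n).alg_den b1 b2 b3 (δ := (p' n).a / N) fun i => U1_frac (p' n) e2 (b4 i)
    rw [a2] at hz
    rcases abs_choice (p' n).a with e | e
    · refine ⟨z, ?_⟩
      rw [e]
      field_simp at hz ⊢
      linear_combination hz
    · refine ⟨-z, ?_⟩
      rw [e]
      push_cast
      field_simp at hz ⊢
      linear_combination hz
  · rw [← a2, e4 φ hφ]
    refine bd _ ((Finset.single_le_sum (f := fun φ => |q φ|) (fun _ _ => abs_nonneg _) hφ).trans ?_)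
    rw [hB, add_assoc]
    exact le_add_of_nonneg_right (by positivity)
  · have g1 := (p' n).sig_g
    have g0 : (p n).g ≠ 0 := left_ne_zero_of_mul (a3 ▸ (p' n).ne_of_sig (g1 ▸ (p' n).a_ne))
    rw [a3, (p' n).sig_mul g0 hμ, e5] at g1
    have g2 : (p n).sig (p n).g = (1 - q μ) * (p' n).a := by
      rw [← a2]
      linear_combination g1
    rw [g2]
    refine bd _ ((abs_sub _ _).trans ?_)
    rw [abs_one]
    linarith [abs_nonneg (q W), abs_nonneg (pr c)]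
  · have r1 : ∀ (r : ℚ) (y : K), pr (r * y) = r * pr y := fun r y => by
      rw [← smul_eq_mul r, ← map_smul, Rat.smul_def]
    have r2 := h₂ _ e3
    have r3 : pr ((p n).sig W) = (p n).sig W := by
      simpa [h₁] using r1 ((p n).sig W) 1
    rw [map_sub, r1, sub_eq_zero] at r2
    rw [a4, map_add, r2, r3, ← a2, e6, mul_comm (p' n).a, ← add_mul]
    refine bd _ ((abs_add_le _ _).trans ?_)
    linarith [abs_nonneg (q μ)]

theorem rad : ∃ C : ℚ, ∀ p : TP 𝔉.pd, (∀ c, p.v (algebraMap K M c) = w c) → Bnd Φ pr C p := by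
  by_contra h
  push Not at h
  choose p hp hb using fun n : ℕ => h n
  obtain ⟨C, hC⟩ := rad_u Φ h₁ h₂ (hyperfilter ℕ) p hp
  obtain ⟨m, hm⟩ := exists_nat_ge C
  obtain ⟨n, ⟨δ, d0, d1, d2, d3, d4⟩, k⟩ :=
    (hC.and (Nat.hyperfilter_le_atTop (eventually_ge_atTop m))).exists
  have e : C * δ ≤ n * δ := mul_le_mul_of_nonneg_right (hm.trans (Nat.cast_le.2 k)) d0.le
  exact hb n ⟨δ, d0, d1, fun φ hφ => (d2 φ hφ).trans e, d3.trans e, d4.trans e⟩

end Pool.Agent.Work.MP_e120ef_ag.H.MQ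
end

-- merged part: Pool.Agent.Work.MP_e120ef_ag.F.U2
section
/-!
# Limits of points with trivially valued constants

Plans.  `triv_le`: `q = sig f / a`, `f ^ q.den / X ^ q.num` has slope zero, so size one; `v X ≠ 1` by `sig_congr`.
`u_step`: for `τ` with `Car v v τ`, `(τ ^ N) (E q) = E q` when `N q ∈ ℤ` (`E q ^ N = x ^ z` is fixed, `τ (E q) / E q` is an `N`-th root of unity, in `K` since `K` is algebraically closed).  `ty2_lead` and `lead_u` for `y - b` give `c`, `q`; `b' = b + c E q` is closer.  At one point `n` of the good set, for every `τ`, `rig1a` for `b'` and `(τ ^ N) b = b` give `E ((τ ^ N) (E q)) (E q)`, so `N q ∈ ℤ` (`den_of_fix`, `sig (E q) = q a`).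
`u_level`: start with `b` from `ty2_close D.S`, enlarge `N` by the period of `b` (`Den` persists for multiples of `N`: prove `Den.mul`).  The sign of `v x - 1` is constant on a set of `U`; each step strictly increases (or decreases) the integer `N q` (`triv_le`), so after finitely many steps `v (y - b) < v (E r)`.
`pts_two`: all slopes cannot vanish here (then `0` would be a best approximation, all sizes being one), so all `x₀ = 0`.  `c` from `u_mod`; `r` the rational equal to `c` if any (`w` is trivial), `b₀` from `u_level` below the levels `r` and `0`; `f₀`, the leading terms `f i j` of `Gs i - Gs j` and `γ` of `Δ` (or `0`) from `ty2_lead`.  On the set where `v x < 1` (or `> 1`) the rings agree on `Kx` (`triv_le`; slopes of `x - β`; factor polynomials over `K`), so `car_of_agree` gives `τ n` with `Car (v n₀) (v n) (τ n)`; the images of the finitely many elements under `(τ n)⁻¹` are constant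 on a set of `U` (`orbit_finite`, `u_const`); `τ = τ m * (τ n)⁻¹` fixes them; `rig2`, `triv_le`.
`pts`: `norm_seq`; type I: `d₁ = (y' - b) • dy'`, `ty1_con`, `ty1_res`, `res_mod` and triviality of `w`; type II: `pts_two`, `fin_ext` with `L₀ = K⟮x', y'⟯`.
-/

set_option linter.unusedSectionVars false

open Filter

namespace Pool.Agent.Work.MP_e120ef_ag.H.MQ

variable {K M ι : Type} [Field K] [Field M] [Algebra K M] [CharZero K] [CharZero M]
  [IsAlgClosed K] [IsAlgClosed M] {𝔉 : Fm K M} {U : Ultrafilter ι} {w : UV K} (htr : ∀ c, c ≠ 0 → w c = 1)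
include htr

theorem U2_one (p : NP 𝔉) (hw : ∀ c, p.v (algebraMap K M c) = w c) {f : M} (hf : f ≠ 0)
    (h : p.sig f = 0) : p.v f = 1 := by
  obtain ⟨c, hc⟩ := p.lt hf h
  rw [hc.eq, hw, htr c fun h0 => hc.ne_zero' (by rw [h0, map_zero])]

theorem U2_log (p : NP 𝔉) (hw : ∀ c, p.v (algebraMap K M c) = w c) {f : M} (hf : f ≠ 0) :
    Real.log (p.v f) = ((p.sig f / p.a : ℚ) : ℝ) * Real.log (p.v p.X) := by
  obtain ⟨q, hq⟩ : ∃ q, q = p.sig f / p.a := ⟨_, rfl⟩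
  have h1 := pow_ne_zero q.den hf
  have h2 := zpow_ne_zero q.num p.X_ne
  have h3 := U2_one htr p hw (div_ne_zero h1 h2) (by
    rw [p.sig_div h1 h2, p.sig_pow, p.sig_zpow, ← Rat.den_mul_eq_num,
      show p.sig f = q * p.a by rw [hq, div_mul_cancel₀ _ p.a_ne], NP.a]
    ring)
  rw [p.v.div, div_eq_one_iff_eq (p.v.pos h2).ne', p.v.pow, p.v.zpow] at h3
  have h4 := congrArg Real.log h3
  rw [Real.log_pow, Real.log_zpow] at h4
  have h5 : (q.den : ℝ) ≠ 0 := Nat.cast_ne_zero.2 q.den_ne_zero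
  rw [← hq, Rat.cast_def, div_mul_eq_mul_div, ← h4, mul_div_cancel_left₀ _ h5]

omit htr in
theorem U2_ne (p : NP 𝔉) : p.v p.X ≠ 1 := fun h =>
  p.a_ne ((p.sig_congr (h.trans p.v.one.symm)).trans p.sig_one)

theorem U2_le (p : NP 𝔉) (hw : ∀ c, p.v (algebraMap K M c) = w c) {s : ℤ} (hs : s * s = 1)
    (hL : s * Real.log (p.v p.X) < 0) {e f : M} (he : e ≠ 0) (hf : f ≠ 0) :
    p.v e ≤ p.v f ↔ s * (p.sig f / p.a) ≤ s * (p.sig e / p.a) := by
  have h1 : (s : ℝ) * s = 1 := by exact_mod_cast hs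
  have h2 : ∀ q : ℚ, (q : ℝ) * Real.log (p.v p.X) =
      ((s * q : ℚ) : ℝ) * (s * Real.log (p.v p.X)) := fun q => by
    push_cast
    linear_combination (-(q : ℝ) * Real.log (p.v p.X)) * h1
  rw [← Real.log_le_log_iff (p.v.pos he) (p.v.pos hf), U2_log htr p hw he, U2_log htr p hw hf,
    h2, h2 (p.sig f / p.a), mul_le_mul_right_of_neg hL, Rat.cast_le]

theorem U2_le_one (p : NP 𝔉) (hw : ∀ c, p.v (algebraMap K M c) = w c) {s : ℤ} (hs : s * s = 1)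
    (hL : s * Real.log (p.v p.X) < 0) {f : M} (hf : f ≠ 0) :
    p.v f ≤ 1 ↔ 0 ≤ s * (p.sig f / p.a) := by
  rw [← p.v.one, U2_le htr p hw hs hL hf one_ne_zero, p.sig_one, zero_div, mul_zero]

omit htr in
theorem U2_sign (U : Ultrafilter ι) (p : ι → NP 𝔉) : ∃ s : ℤ, s * s = 1 ∧
    ∀ᶠ n in (U : Filter ι), s * Real.log ((p n).v (p n).X) < 0 := by
  rcases U.em fun n => (p n).v (p n).X < 1 with h | h
  · refine ⟨1, rfl, h.mono fun n hn => ?_⟩
    rw [Int.cast_one, one_mul]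
    exact Real.log_neg ((p n).v.pos (p n).X_ne) hn
  · refine ⟨-1, rfl, h.mono fun n hn => ?_⟩
    rw [Int.cast_neg, Int.cast_one, neg_one_mul, neg_lt_zero]
    exact Real.log_pos (lt_of_le_of_ne (not_lt.1 hn) (U2_ne (p n)).symm)

omit htr in
theorem U2_X {p : NP 𝔉} (h : p.x₀ = 0) : p.X = 𝔉.x := by
  rw [NP.X, h, map_zero, sub_zero]

omit htr in
theorem U2_den {p : NP 𝔉} {D : 𝔉.SD} {N P : ℕ} (h : p.Den D N) (hP : P ≠ 0) :
    p.Den D (N * P) := by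
  have k : ∀ {q a : ℚ}, (∃ z : ℤ, N * q = z * a) → ∃ z : ℤ, ((N * P : ℕ) : ℚ) * q = z * a :=
    fun ⟨z, hz⟩ => ⟨P * z, by push_cast; linear_combination (P : ℚ) * hz⟩
  refine ⟨mul_ne_zero h.ne hP, fun β hβ τ hτ => ?_, fun β hβ => k (h.dist β hβ),
    fun i j => k (h.sub i j), fun q hq => ?_⟩
  · rw [pow_mul']
    refine h.per β hβ _ ?_
    rw [AlgEquiv.coe_pow]
    exact Function.iterate_fixed hτ P
  · obtain ⟨z, hz⟩ := h.kap q hq
    exact ⟨P * z, by push_cast; linear_combination (P : ℚ) * hz⟩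

omit htr in
theorem U2_fix {τ : M ≃ₐ[K] M} {g : M} {N : ℕ} (hN : N ≠ 0) (hg : g ≠ 0)
    (h : τ (g ^ N) = g ^ N) : (τ ^ N) g = g := by
  have h1 : (τ g / g) ^ N = 1 := by rw [div_pow, ← map_pow, h, div_self (pow_ne_zero N hg)]
  have h2 : IsIntegral K (τ g / g) := IsIntegral.of_pow (Nat.pos_of_ne_zero hN) (by
    rw [h1]
    exact isIntegral_one)
  obtain ⟨ζ, hζ⟩ := minpoly.mem_range_of_degree_eq_one K _
    (IsAlgClosed.degree_eq_one_of_irreducible K (minpoly.irreducible h2))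
  have h3 : ∀ k : ℕ, (τ ^ k) g = algebraMap K M ζ ^ k * g := fun k => by
    induction k with
    | zero => simp
    | succ k ih =>
      rw [pow_succ', AlgEquiv.mul_apply, ih, map_mul, map_pow, τ.commutes, pow_succ, mul_assoc, hζ,
        div_mul_cancel₀ _ hg]
  rw [h3, hζ, h1, one_mul]

omit htr in
theorem U2_mul (p p' : NP 𝔉) (u u' : M) (h : p'.sig u / p'.a = p.sig u / p.a)
    (h' : p'.sig u' / p'.a = p.sig u' / p.a) :
    p'.sig (u * u') / p'.a = p.sig (u * u') / p.a := by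
  rcases eq_or_ne u 0 with rfl | h1
  · rw [zero_mul, h]
  rcases eq_or_ne u' 0 with rfl | h2
  · rw [mul_zero, h']
  rw [p.sig_mul h1 h2, p'.sig_mul h1 h2, add_div, add_div, h, h']

omit htr in
theorem U2_div (p p' : NP 𝔉) (u u' : M) (h : p'.sig u / p'.a = p.sig u / p.a)
    (h' : p'.sig u' / p'.a = p.sig u' / p.a) :
    p'.sig (u / u') / p'.a = p.sig (u / u') / p.a := by
  rw [div_eq_mul_inv u]
  exact U2_mul p p' _ _ h (by rw [p.sig_inv, p'.sig_inv, neg_div, neg_div, h'])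

open Classical in
theorem U2_lin (p : NP 𝔉) (hw : ∀ c, p.v (algebraMap K M c) = w c) (hx : p.x₀ = 0) {s : ℤ}
    (hs : s * s = 1) (hL : s * Real.log (p.v p.X) < 0) (β : K) :
    p.sig (𝔉.x - algebraMap K M β) / p.a = if β ≠ 0 ∧ s = 1 then 0 else 1 := by
  rw [← U2_X hx]
  rcases eq_or_ne β 0 with rfl | hβ
  · rw [map_zero, sub_zero, if_neg fun h => h.1 rfl]
    exact div_self p.a_ne
  have h1 : p.v (algebraMap K M β) = 1 := (hw β).trans (htr β hβ)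
  rcases Int.eq_one_or_neg_one_of_mul_eq_one hs with rfl | rfl
  · rw [Int.cast_one, one_mul, Real.log_neg_iff (p.v.pos p.X_ne), ← h1] at hL
    rw [if_pos ⟨hβ, rfl⟩, p.sig_congr (p.v.sub_eq_right hL), p.sig_alg, zero_div]
  · rw [Int.cast_neg, Int.cast_one, neg_one_mul, neg_lt_zero, Real.log_pos_iff (p.v.nonneg _),
      ← h1] at hL
    rw [if_neg fun h => absurd h.2 (by decide), p.sig_congr (p.v.sub_eq_left hL)]
    exact div_self p.a_ne

theorem U2_agree (p p' : NP 𝔉) (hw : ∀ c, p.v (algebraMap K M c) = w c)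
    (hw' : ∀ c, p'.v (algebraMap K M c) = w c) {s : ℤ} (hs : s * s = 1)
    (hL : s * Real.log (p.v p.X) < 0) (hL' : s * Real.log (p'.v p'.X) < 0) {f : M}
    (h : p'.sig f / p'.a = p.sig f / p.a) : p.v f ≤ 1 ↔ p'.v f ≤ 1 := by
  rcases eq_or_ne f 0 with rfl | hf
  · simp
  rw [U2_le_one htr p hw hs hL hf, U2_le_one htr p' hw' hs hL' hf, h]

theorem U2_Kx (p p' : NP 𝔉) (hw : ∀ c, p.v (algebraMap K M c) = w c)
    (hw' : ∀ c, p'.v (algebraMap K M c) = w c) (hx : p.x₀ = 0) (hx' : p'.x₀ = 0) {s : ℤ}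
    (hs : s * s = 1) (hL : s * Real.log (p.v p.X) < 0) (hL' : s * Real.log (p'.v p'.X) < 0)
    {f : M} (hf : f ∈ 𝔉.Kx) : p.v f ≤ 1 ↔ p'.v f ≤ 1 := by
  have k : ∀ r : Polynomial K, p'.sig (Polynomial.aeval 𝔉.x r) / p'.a =
      p.sig (Polynomial.aeval 𝔉.x r) / p.a := fun r =>
    T2_ind (Q := fun u => p'.sig u / p'.a = p.sig u / p.a)
      (fun c => by rw [p.sig_alg, p'.sig_alg, zero_div, zero_div]) (U2_mul p p') r fun β _ =>
        (U2_lin htr p' hw' hx' hs hL' β).trans (U2_lin htr p hw hx hs hL β).symm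
  obtain ⟨r, t, rfl⟩ := (IntermediateField.mem_adjoin_simple_iff K f).1 hf
  exact U2_agree htr p p' hw hw' hs hL hL' (U2_div p p' _ _ (k r) (k t))

theorem triv_le (p : NP 𝔉) (hw : ∀ c, p.v (algebraMap K M c) = w c) {f : M} (hf : f ≠ 0) :
    p.v p.X ≠ 1 ∧ (p.v p.X < 1 → (p.v f ≤ 1 ↔ 0 ≤ p.sig f / p.a)) ∧
      (1 < p.v p.X → (p.v f ≤ 1 ↔ p.sig f / p.a ≤ 0)) := by
  refine ⟨U2_ne p, fun h => ?_, fun h => ?_⟩
  · rw [U2_le_one htr p hw (s := 1) rfl (by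
      rw [Int.cast_one, one_mul]
      exact Real.log_neg (p.v.pos p.X_ne) h) hf, Int.cast_one, one_mul]
  · rw [U2_le_one htr p hw (s := -1) rfl (by
      rw [Int.cast_neg, Int.cast_one, neg_one_mul, neg_lt_zero]
      exact Real.log_pos h) hf, Int.cast_neg, Int.cast_one, neg_one_mul, neg_nonneg]

section

variable {p : ι → NP 𝔉} (hw : ∀ n c, (p n).v (algebraMap K M c) = w c) (hx : ∀ n, (p n).x₀ = 0)
  (h : ∀ b, ¬ Best U p b) (D : 𝔉.SD)
include hw hx h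

omit htr in
theorem u_step {N : ℕ} (hN : ∀ᶠ n in (U : Filter ι), (p n).Den D N) {b : M} (hb : b ∈ 𝔉.F)
    (h₁ : ∀ᶠ n in (U : Filter ι), 𝔉.In (p n).v D.S b)
    (h₂ : ∀ τ : M ≃ₐ[K] M, τ 𝔉.x = 𝔉.x → (τ ^ N) b = b) : ∃ b' ∈ 𝔉.F, ∃ z : ℤ,
      (∀ τ : M ≃ₐ[K] M, τ 𝔉.x = 𝔉.x → (τ ^ N) b' = b') ∧ ∀ᶠ n in (U : Filter ι),
        (p n).v (𝔉.y - b') < (p n).v (𝔉.y - b) ∧ N * (p n).sig (𝔉.y - b) = z * (p n).a := by
  have hx0 : 𝔉.x ≠ 0 := fun h0 => 𝔉.x_trans (h0 ▸ isAlgebraic_zero)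
  obtain ⟨E, hE⟩ := exists_pw hx0
  obtain ⟨f, hf, e1⟩ := ty2_lead h (𝔉.y_sub_ne hb)
  obtain ⟨c, q, e2⟩ := lead_u hw hx hE hf e1.exists.choose_spec.ne_zero
  have hg : algebraMap K M c * E q ∈ 𝔉.F := mul_mem (𝔉.alg_mem_F c)
    (𝔉.mem_F_of_pow q.den_ne_zero (by rw [hE.pow_den]; exact zpow_mem 𝔉.x_mem_F _))
  have e3 : ∀ᶠ n in (U : Filter ι), (p n).v.E (algebraMap K M c * E q) (𝔉.y - b) :=
    (e1.and e2).mono fun n hn => hn.2.symm.trans hn.1
  have e4 : ∀ n, (p n).v.E (algebraMap K M c * E q) (𝔉.y - b) →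
      (p n).v (𝔉.y - (b + algebraMap K M c * E q)) < (p n).v (𝔉.y - b) ∧
      (p n).sig (algebraMap K M c * E q) = q * (p n).a := fun n hn => by
    refine ⟨by rw [← sub_sub, (p n).v.sub_comm]; exact hn, ?_⟩
    have k := (p n).sig_pow (E q) q.den
    rw [hE.pow_den, (p n).sig_zpow, ← Rat.den_mul_eq_num, mul_assoc] at k
    rw [(p n).sig_mul (left_ne_zero_of_mul hn.ne_zero) (hE.ne_zero q), (p n).sig_alg, zero_add,
      NP.a, U2_X (hx n)]
    exact (mul_left_cancel₀ (Nat.cast_ne_zero.2 q.den_ne_zero) k).symm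
  obtain ⟨n₀, ⟨k1, k2⟩, k3⟩ := ((hN.and h₁).and e3).exists
  obtain ⟨z, hz⟩ := (p n₀).den_of_fix (N := N) hg k3.ne_zero fun τ hτ => by
    have k := (p n₀).rig1a k1 hτ (add_mem hb hg) fun β hβ =>
      ((p n₀).v.sub_comm _ _).trans_lt ((e4 n₀ k3).1.trans
        (((p n₀).v.sub_comm _ _).trans_lt (k2 β hβ)))
    rw [map_add, h₂ τ hτ.fix, add_sub_add_left_eq_sub] at k
    exact k.trans_lt (((p n₀).v.sub_comm _ _).trans_lt ((e4 n₀ k3).1.trans_eq k3.eq.symm))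
  rw [(e4 n₀ k3).2, ← mul_assoc] at hz
  have hq : (N : ℚ) * q = z := mul_right_cancel₀ (p n₀).a_ne hz
  refine ⟨_, add_mem hb hg, z, fun τ hτ => ?_, e3.mono fun n hn => ⟨(e4 n hn).1, ?_⟩⟩
  · rw [map_add, h₂ τ hτ, map_mul, AlgEquiv.commutes, U2_fix k1.ne (hE.ne_zero q)]
    rw [Apx_pw_pow hE, hq, hE.int, map_zpow₀, hτ]
  · rw [← (p n).sig_E hn, (e4 n hn).2, ← mul_assoc, hq]

theorem u_level (r : ℚ) : ∃ b ∈ 𝔉.F, ∀ᶠ n in (U : Filter ι), 𝔉.In (p n).v D.S b ∧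
    ∀ e, e ≠ 0 → (p n).v e ≤ (p n).v (𝔉.y - b) → (p n).sig e / (p n).a ≠ r ∧ (p n).sig e ≠ 0 := by
  obtain ⟨b₀, hb₀, e₀⟩ := ty2_close h D.S D.memF
  obtain ⟨N₀, hN₀⟩ := u_den hw (Or.inl hx) D
  obtain ⟨P, hP, per⟩ := 𝔉.period hb₀
  have hN : ∀ᶠ n in (U : Filter ι), (p n).Den D (N₀ * P) := hN₀.mono fun n hn => U2_den hn hP
  have hb₁ : ∀ τ : M ≃ₐ[K] M, τ 𝔉.x = 𝔉.x → (τ ^ (N₀ * P)) b₀ = b₀ := fun τ hτ => by
    rw [pow_mul]
    refine per _ ?_
    rw [AlgEquiv.coe_pow]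
    exact Function.iterate_fixed hτ N₀
  generalize N₀ * P = N at hN hb₁
  have hN0 : (0 : ℚ) < N := Nat.cast_pos.2 (Nat.pos_of_ne_zero hN.exists.choose_spec.ne)
  obtain ⟨s, hs, hL⟩ := U2_sign U p
  obtain ⟨b₁, -, z₀, -, e₁⟩ := u_step hw hx h D hN hb₀ e₀ hb₁
  have hq : ∀ n {f : M} {z : ℤ}, N * (p n).sig f = z * (p n).a →
      (p n).sig f / (p n).a = z / N := fun n f z hz => by
    rw [div_eq_div_iff (p n).a_ne hN0.ne', mul_comm, hz]
  have key : ∀ k : ℕ, ∃ b ∈ 𝔉.F, ∃ z : ℤ, s * z₀ + k ≤ s * z ∧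
      (∀ τ : M ≃ₐ[K] M, τ 𝔉.x = 𝔉.x → (τ ^ N) b = b) ∧ ∀ᶠ n in (U : Filter ι),
        𝔉.In (p n).v D.S b ∧ N * (p n).sig (𝔉.y - b) = z * (p n).a := fun k => by
    induction k with
    | zero => exact ⟨b₀, hb₀, z₀, by simp, hb₁, (e₀.and e₁).mono fun n hn => ⟨hn.1, hn.2.2⟩⟩
    | succ k ih =>
      obtain ⟨b, hb, z, hz, fx, ev⟩ := ih
      obtain ⟨b', hb', z₁, fx', ev'⟩ := u_step hw hx h D hN hb (ev.mono fun n hn => hn.1) fx
      have ei : ∀ᶠ n in (U : Filter ι), 𝔉.In (p n).v D.S b' := (ev.and ev').mono fun n hn β hβ =>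
        ((p n).v.sub_comm _ _).trans_lt (hn.2.1.trans
          (((p n).v.sub_comm _ _).trans_lt (hn.1.1 β hβ)))
      obtain ⟨b'', -, z', -, ev''⟩ := u_step hw hx h D hN hb' ei fx'
      refine ⟨b', hb', z', ?_, fx', (ei.and ev'').mono fun n hn => ⟨hn.1, hn.2.2⟩⟩
      obtain ⟨n, ⟨⟨k1, k2⟩, k3⟩, k4⟩ := (((ev.and ev').and ev'').and hL).exists
      have k5 := not_le.2 k2.1
      rw [U2_le htr (p n) (hw n) hs k4 (𝔉.y_sub_ne hb) (𝔉.y_sub_ne hb'), hq n k1.2, hq n k3.2,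
        not_le, ← mul_div_assoc, ← mul_div_assoc, div_lt_div_iff_of_pos_right hN0] at k5
      have k6 : s * z < s * z' := by exact_mod_cast k5
      push_cast
      omega
  obtain ⟨k, hk⟩ := exists_nat_gt (max (N * (s * r)) 0 - s * z₀ : ℚ)
  obtain ⟨b, hb, z, hz, -, ev⟩ := key k
  refine ⟨b, hb, (ev.and hL).mono fun n hn => ⟨hn.1.1, fun e he hle => ?_⟩⟩
  rw [U2_le htr (p n) (hw n) hs hn.2 he (𝔉.y_sub_ne hb), hq n hn.1.2, ← mul_div_assoc,
    div_le_iff₀ hN0] at hle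
  have k1 : (s * z₀ + k : ℚ) ≤ s * z := by exact_mod_cast hz
  have k2 := le_max_left (N * (s * r) : ℚ) 0
  have k3 := le_max_right (N * (s * r) : ℚ) 0
  refine ⟨fun h0 => ?_, fun h0 => ?_⟩
  · rw [h0] at hle
    linarith
  · rw [h0, zero_div, mul_zero, zero_mul] at hle
    linarith

end

theorem pts_two {p : ι → NP 𝔉} (hw : ∀ n c, (p n).v (algebraMap K M c) = w c) (hAB : AB U p)
    (h : ∀ b, ¬ Best U p b) : ∃ I ∈ U, ∀ n ∈ I, ∀ m ∈ I,
      ∀ f ∈ IntermediateField.adjoin K {𝔉.x, 𝔉.y}, (p n).v f ≤ 1 ↔ (p m).v f ≤ 1 := by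
  have hx : ∀ n, (p n).x₀ = 0 := hAB.resolve_right fun h0 => h 0 ⟨zero_mem _, fun β hβ =>
    ((h0 (𝔉.y - 0)).and (h0 (𝔉.y - β))).mono fun n hn => by
      rw [U2_one htr (p n) (hw n) (𝔉.y_sub_ne (zero_mem _)) hn.1,
        U2_one htr (p n) (hw n) (𝔉.y_sub_ne hβ) hn.2]⟩
  obtain ⟨D⟩ := 𝔉.exists_SD
  obtain ⟨c, ec⟩ := u_mod hw hAB
  obtain ⟨r₀, hr₀⟩ : ∃ r₀ : ℚ, ∀ r : ℚ, (r : K) = c → r = r₀ := by
    by_cases k : ∃ r : ℚ, (r : K) = c
    · obtain ⟨r₀, k⟩ := k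
      exact ⟨r₀, fun r hr => Rat.cast_injective (hr.trans k.symm)⟩
    · exact ⟨0, fun r hr => (k ⟨r, hr⟩).elim⟩
  obtain ⟨b₀, hb₀, eb⟩ := u_level htr hw hx h D r₀
  have ld : ∀ ψ : M, ∃ f ∈ 𝔉.F, ∀ᶠ n in (U : Filter ι),
      (p n).v f = (p n).v ψ ∧ (ψ ≠ 0 → (p n).v.E f ψ) := fun ψ => by
    rcases eq_or_ne ψ 0 with rfl | h0
    · exact ⟨0, zero_mem _, Eventually.of_forall fun n => ⟨rfl, fun k => (k rfl).elim⟩⟩
    · obtain ⟨f, hf, ev⟩ := ty2_lead h h0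
      exact ⟨f, hf, ev.mono fun n hn => ⟨hn.eq, fun _ => hn⟩⟩
  choose l hl el using ld
  obtain ⟨s, hs, hL⟩ := U2_sign U p
  obtain ⟨n₀, hn₀⟩ := hL.exists
  have ct : ∀ n, ∃ τ : M ≃ₐ[K] M, s * Real.log ((p n).v (p n).X) < 0 →
      𝔉.Car (p n₀).v (p n).v τ := fun n => by
    by_cases k : s * Real.log ((p n).v (p n).X) < 0
    · obtain ⟨τ, hτ, -⟩ := Fm.car_of_agree 𝔉.Kx le_rfl 𝔉.Kx_le_F fun f hf =>
        U2_Kx htr (p n₀) (p n) (hw n₀) (hw n) (hx n₀) (hx n) hs hn₀ k hf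
      exact ⟨τ, fun _ => hτ⟩
    · exact ⟨1, fun k' => (k k').elim⟩
  choose τ hτ using ct
  have cst : ∀ t, ∃ t', t ∈ 𝔉.F → ∀ᶠ n in (U : Filter ι), (τ n)⁻¹ t = t' := fun t => by
    by_cases ht : t ∈ 𝔉.F
    · obtain ⟨t', -, ev⟩ := u_const U (𝔉.orbit_finite ht) (r := fun n a => (τ n)⁻¹ t = a)
        (hL.mono fun n hn => ⟨_, ⟨_, (hτ n hn).inv.fix, rfl⟩, rfl⟩)
      exact ⟨t', fun _ => ev⟩
    · exact ⟨0, fun k => (ht k).elim⟩
  choose cv hcv using cst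
  have fx : ∀ {n m t}, (τ n)⁻¹ t = cv t → (τ m)⁻¹ t = cv t → (τ m * (τ n)⁻¹) t = t :=
    fun {n m t} hn hm => by
      rw [AlgEquiv.mul_apply, hn, ← hm, ← AlgEquiv.mul_apply, mul_inv_cancel, AlgEquiv.one_apply]
  have e1 : ∀ᶠ n in (U : Filter ι), ∀ ψ ∈ insert (𝔉.y - b₀) (insert 𝔉.Δ
      (Set.range fun q : Fin (D.n + 1) × Fin (D.n + 1) => D.Gs q.1 - D.Gs q.2)),
      ((p n).v (l ψ) = (p n).v ψ ∧ (ψ ≠ 0 → (p n).v.E (l ψ) ψ)) ∧ (τ n)⁻¹ (l ψ) = cv (l ψ) :=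
    (eventually_all_finite (((Set.finite_range _).insert _).insert _)).2 fun ψ _ =>
      (el ψ).and (hcv _ (hl ψ))
  refine ⟨_, (((e1.and (hcv _ hb₀)).and hL).and eb).and ec, ?_⟩
  rintro n ⟨⟨⟨⟨n1, n2⟩, n3⟩, n4⟩, -⟩ m ⟨⟨⟨⟨m1, m2⟩, m3⟩, m4⟩, m5⟩ f hf
  have a1 := n1 _ (Set.mem_insert _ _)
  have b1 := m1 _ (Set.mem_insert _ _)
  have a2 := n1 _ (Set.mem_insert_of_mem _ (Set.mem_insert _ _))
  have b2 := m1 _ (Set.mem_insert_of_mem _ (Set.mem_insert _ _))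
  have k : ∀ A ∈ Algebra.adjoin K {𝔉.x, 𝔉.y},
      (p m).sig A / (p m).a = (p n).sig A / (p n).a := fun A hA => by
    refine (p n).rig2 D (p m) ((hx n).trans (hx m).symm) ((hτ n n3).inv.mul (hτ m m3)) hb₀ (hl _)
      (fx n2 m2) (fx a1.2 b1.2) (a1.1.2 (𝔉.y_sub_ne hb₀)) (b1.1.2 (𝔉.y_sub_ne hb₀)) n4.1 m4.1
      (fun i j hij => ?_) ⟨_, hl _, a2.1.1, by rw [fx a2.2 b2.2, b2.1.1]⟩ (fun e he hle k => ?_) hA
    · have a3 := n1 _ (Set.mem_insert_of_mem _ (Set.mem_insert_of_mem _ ⟨(i, j), rfl⟩))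
      have b3 := m1 _ (Set.mem_insert_of_mem _ (Set.mem_insert_of_mem _ ⟨(i, j), rfl⟩))
      have h0 : D.Gs i - D.Gs j ≠ 0 := sub_ne_zero.2 (D.inj.ne hij)
      exact ⟨_, hl _, a3.1.2 h0, by rw [fx a3.2 b3.2]; exact b3.1.2 h0⟩
    · obtain ⟨k1, k2⟩ := m4.2 e he (hle.trans_eq b1.1.1)
      rcases m5 _ k with k3 | k3
      · exact k2 ((div_eq_zero_iff.1 k3).resolve_right (p m).a_ne)
      · refine k1 (hr₀ _ (sub_eq_zero.1 ?_))
        by_contra k4
        exact (htr _ k4).not_lt k3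
  obtain ⟨r, hr, t, ht, rfl⟩ := IntermediateField.mem_adjoin_iff_div.1 hf
  exact U2_agree htr (p n) (p m) (hw n) (hw m) hs n3 m3 (U2_div _ _ _ _ (k r hr) (k t ht))

theorem pts (U : Ultrafilter ι) (p : ι → TP 𝔉.pd) (hw : ∀ n c, (p n).v (algebraMap K M c) = w c)
    (Ψ : Finset M) :
    (∃ d : Derivation K M M, (∀ f, ∀ᶠ n in (U : Filter ι), (p n).v (d f) ≤ (p n).v f) ∧
      d 𝔉.y - 𝔉.G * d 𝔉.x ≠ 0 ∧
      ∀ᶠ n in (U : Filter ι), (p n).Res 𝔉.Δ = (p n).sig (d 𝔉.y - 𝔉.G * d 𝔉.x)) ∨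
    ∃ I ∈ U, ∀ n ∈ I, ∀ m ∈ I, ∀ f ∈ IntermediateField.adjoin K (Ψ : Set M),
      (p n).v f ≤ 1 ↔ (p m).v f ≤ 1 := by
  obtain ⟨𝔉', p', μ, -, hW, hAB, hw', ev⟩ := norm_seq U p hw
  by_cases h : ∃ b, Best U p' b
  · obtain ⟨b, hb⟩ := h
    have e : ((𝔉'.y - b) • 𝔉'.dy) 𝔉.y - 𝔉.G * ((𝔉'.y - b) • 𝔉'.dy) 𝔉.x =
        (𝔉'.y - b) * (𝔉'.dy 𝔉.y - 𝔉.G * 𝔉'.dy 𝔉.x) := by
      simp only [Derivation.smul_apply, smul_eq_mul]
      ring
    obtain ⟨q, hq⟩ := u_sig hw' hAB (𝔉'.y - b)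
    refine Or.inl ⟨(𝔉'.y - b) • 𝔉'.dy, fun f => ((ty1_con hb f).and ev).mono fun n hn => ?_,
      e ▸ mul_ne_zero (𝔉'.y_sub_ne hb.1) hW,
      ((hq.and (ty1_res hAB hb hq)).and ev).mono fun n hn => ?_⟩
    · rw [← hn.2.1]
      exact hn.1
    · have k := (p' n).res_mod (f := 𝔉'.Δ) (c := q) (by rw [map_ratCast]; exact hn.1.2)
      have k1 : (p' n).Res 𝔉'.Δ = (p' n).a * q := by
        refine sub_eq_zero.1 ?_
        by_contra k4
        exact ((hw' n _).trans (htr _ k4)).not_lt k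
      rw [e, (p n).sig_mul (𝔉'.y_sub_ne hb.1) hW, hn.2.2.2.2, k1, ← hn.2.2.1, hn.1.1]
      push_cast
      ring
  · obtain ⟨I, hI, k⟩ := pts_two htr hw' hAB (not_exists.1 h)
    obtain ⟨J, hJ, k'⟩ := fin_ext U (fun n => (p' n).v.ring)
      (IntermediateField.adjoin K {𝔉'.x, 𝔉'.y}).toSubfield 𝔉'.alg_xy hI k Ψ
    refine Or.inr ⟨_, inter_mem hJ ev, fun n hn m hm f hf => ?_⟩
    rw [← hn.2.1, ← hm.2.1]
    refine k' n hn.1 m hm.1 f ?_
    rw [← IntermediateField.mem_toSubfield, IntermediateField.adjoin_toSubfield] at hf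
    refine Subfield.closure_mono (Set.union_subset_union_left _ ?_) hf
    rintro _ ⟨c, rfl⟩
    exact IntermediateField.algebraMap_mem _ c

end Pool.Agent.Work.MP_e120ef_ag.H.MQ
end

-- merged part: Pool.Agent.Work.MP_e120ef_ag.F.Sy
section
/-!
# A leaf of an algebraic foliation inside a differential field

Plans.  `alg_iff`: `AlgebraicIndependent.option_iff`-type lemmas, or `MvPolynomial.finSuccEquiv` after reordering the variables.  `exists_P`: among the nonzero `P` with `P (x, y, G) = 0` take one of minimal `degreeOf 2`; `pderiv 2 P` has smaller degree (`MvPolynomial.degreeOf_pderiv`-type lemma, or coefficients) and is not zero, since otherwise (characteristic zero) `P` does not involve the last variable, against the independence of `x`, `y`.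
`exists_am`: `N = AlgebraicClosure 𝓜`, `ϑ` from `exists_der_ext` (no new variables), `M = algebraicClosure K⟮x, y⟯ N` viewed over `K`; `![x, y]` is a transcendence basis of `M`; `pd` from `exists_der_ext` with `F₀ = K`, values `1` and `G`; `exists_fm`.  `ϑ_j`: the additive map `f ↦ ϑ (j f) - λ j (pd f)` from `M` to `N` has the Leibniz rule over `j`, kills `K`, `x`, `y`, hence `K⟮x, y⟯` and, by differentiating the minimal polynomial, `M` (or extend `pd` to `N` by `exists_der_ext` and use `Lb.zero_of_alg`).  `jΔ`: apply `dy` to `P (x, y, G) = 0` (`MvPolynomial.aeval` chain rule, `Derivation` induction on `P`).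
-/

open MvPolynomial

namespace Pool.Agent.Work.MP_e120ef_ag.H.MQ

variable (K 𝓜 : Type) [Field K] [Field 𝓜] [Algebra K 𝓜]

/-- `θ y = G θ x` with `G` algebraic over `K(x, y)`, and `Δ = ∂G/∂y` -/
structure Sy where
  θ : Derivation K 𝓜 𝓜
  x : 𝓜
  y : 𝓜
  G : 𝓜
  Δ : 𝓜
  P : MvPolynomial (Fin 3) K
  ind : AlgebraicIndependent K ![x, y]
  hP : aeval ![x, y, G] P = 0
  hT : aeval ![x, y, G] (pderiv 2 P) ≠ 0
  hΔ : Δ * aeval ![x, y, G] (pderiv 2 P) = -aeval ![x, y, G] (pderiv 1 P)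
  hθ : θ y = G * θ x
  hx : θ x ≠ 0

variable {K 𝓜}

/-- the algebraic closures of `𝓜` and of `K(x, y)` -/
structure Am (S : Sy K 𝓜) (N M : Type) [Field N] [Algebra K N] [Algebra 𝓜 N] [Field M]
    [Algebra K M] where
  ϑ : Derivation K N N
  ϑ_alg : ∀ a, ϑ (algebraMap 𝓜 N a) = algebraMap 𝓜 N (S.θ a)
  j : M →ₐ[K] N
  𝔉 : Fm K M
  jx : j 𝔉.x = algebraMap 𝓜 N S.x
  jy : j 𝔉.y = algebraMap 𝓜 N S.y
  jG : j 𝔉.G = algebraMap 𝓜 N S.G
  jΔ : j 𝔉.Δ = algebraMap 𝓜 N S.Δ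
  ϑ_j : ∀ f, ϑ (j f) = algebraMap 𝓜 N (S.θ S.x) * j (𝔉.pd f)
  mem : ∀ a : 𝓜, IsAlgebraic (Algebra.adjoin K {S.x, S.y}) a → ∃ f, j f = algebraMap 𝓜 N a

theorem Sy_range {M : Type} (x y : M) : Set.range ![x, y] = {x, y} := by
  rw [Matrix.range_cons, Matrix.range_cons, Matrix.range_empty, Set.union_empty,
    Set.singleton_union]

theorem alg_iff {x y a : 𝓜} (h : AlgebraicIndependent K ![x, y]) :
    IsAlgebraic (Algebra.adjoin K {x, y}) a ↔
      ∃ Q : MvPolynomial (Fin 3) K, Q ≠ 0 ∧ aeval ![x, y, a] Q = 0 := by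
  have e : ![x, y, a] = (fun o : Option (Fin 2) => o.elim a ![x, y]) ∘ finSuccEquivLast :=
    funext fun i => by fin_cases i <;> rfl
  have h1 := h.option_iff_transcendental a
  rw [← algebraicIndependent_equiv finSuccEquivLast, ← e, Sy_range, algebraicIndependent_iff,
    Transcendental] at h1
  rw [← not_iff_not, ← h1]
  exact ⟨fun k ⟨Q, h2, h3⟩ => h2 (k Q h3), fun k Q h3 => by_contra fun h2 => k ⟨Q, h2, h3⟩⟩

theorem Sy_lift {x y G c : 𝓜} (hc : c ∈ Algebra.adjoin K {x, y}) :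
    ∃ Q : MvPolynomial (Fin 3) K, aeval ![x, y, G] Q = c ∧ pderiv 2 Q = 0 := by
  induction hc using Algebra.adjoin_induction with
  | mem z hz =>
    rcases hz with rfl | rfl
    · exact ⟨X 0, by simp, by simp⟩
    · exact ⟨X 1, by simp, by simp⟩
  | algebraMap c => exact ⟨C c, by simp, by simp⟩
  | add a b _ _ h1 h2 =>
    obtain ⟨P, rfl, h3⟩ := h1
    obtain ⟨Q, rfl, h4⟩ := h2
    exact ⟨P + Q, by simp, by simp [h3, h4]⟩
  | mul a b _ _ h1 h2 =>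
    obtain ⟨P, rfl, h3⟩ := h1
    obtain ⟨Q, rfl, h4⟩ := h2
    exact ⟨P * Q, by simp, by simp [h3, h4]⟩

theorem Sy_poly {x y G : 𝓜} (p : Polynomial (Algebra.adjoin K {x, y})) :
    ∃ P : MvPolynomial (Fin 3) K, aeval ![x, y, G] P = Polynomial.aeval G p ∧
      aeval ![x, y, G] (pderiv 2 P) = Polynomial.aeval G p.derivative := by
  induction p using Polynomial.induction_on' with
  | add p q h1 h2 =>
    obtain ⟨P, h1, h3⟩ := h1
    obtain ⟨Q, h2, h4⟩ := h2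
    exact ⟨P + Q, by simp [h1, h2], by simp [h3, h4]⟩
  | monomial n c =>
    obtain ⟨Q, h1, h2⟩ := Sy_lift (G := G) c.2
    refine ⟨Q * X 2 ^ n, by simp [h1], ?_⟩
    simp [h1, h2, Polynomial.derivative_monomial, mul_assoc]

theorem Sy_simple {R : Type} [CommRing R] [Algebra R 𝓜] [IsDomain R] [CharZero R]
    [FaithfulSMul R 𝓜] {G : 𝓜} (n : ℕ) : ∀ p : Polynomial R, p.natDegree < n → p ≠ 0 →
      Polynomial.aeval G p = 0 → ∃ q : Polynomial R, Polynomial.aeval G q = 0 ∧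
        Polynomial.aeval G q.derivative ≠ 0 := by
  induction n with
  | zero => exact fun p h => absurd h (Nat.not_lt_zero _)
  | succ n ih =>
    intro p h1 h2 h3
    by_cases h4 : Polynomial.aeval G p.derivative = 0
    · have h5 : p.natDegree ≠ 0 := fun k => by
        rw [Polynomial.eq_C_of_natDegree_eq_zero k] at h2 h3
        rw [Polynomial.aeval_C, FaithfulSMul.algebraMap_eq_zero_iff] at h3
        exact h2 (by rw [h3, map_zero])
      exact ih _ ((Polynomial.natDegree_derivative_lt h5).trans_le (Nat.le_of_lt_succ h1))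
        (Polynomial.derivative_ne_zero.2 h5) h4
    · exact ⟨p, h3, h4⟩

theorem exists_P [CharZero K] {x y G : 𝓜} (h : AlgebraicIndependent K ![x, y])
    (hG : IsAlgebraic (Algebra.adjoin K {x, y}) G) : ∃ P : MvPolynomial (Fin 3) K,
      aeval ![x, y, G] P = 0 ∧ aeval ![x, y, G] (pderiv 2 P) ≠ 0 := by
  have : CharZero (Algebra.adjoin K {x, y}) :=
    charZero_of_injective_algebraMap (algebraMap K _).injective
  obtain ⟨p, h1, h2⟩ := hG
  obtain ⟨q, h3, h4⟩ := Sy_simple _ p (Nat.lt_succ_self _) h1 h2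
  obtain ⟨P, h5, h6⟩ := Sy_poly (G := G) q
  exact ⟨P, h5.trans h3, h6 ▸ h4⟩

theorem Sy.alg_G (S : Sy K 𝓜) : IsAlgebraic (Algebra.adjoin K {S.x, S.y}) S.G := by
  exact (alg_iff S.ind).2 ⟨S.P, fun h => S.hT (by simp [h]), S.hP⟩

theorem Sy_alg_aeval {x y G : 𝓜} (h : IsAlgebraic (Algebra.adjoin K {x, y}) G)
    (Q : MvPolynomial (Fin 3) K) : IsAlgebraic (Algebra.adjoin K {x, y}) (aeval ![x, y, G] Q) := by
  have h0 : ∀ c (hc : c ∈ Algebra.adjoin K {x, y}), IsAlgebraic (Algebra.adjoin K {x, y}) c :=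
    fun c hc => isAlgebraic_algebraMap (⟨c, hc⟩ : Algebra.adjoin K {x, y})
  induction Q using MvPolynomial.induction_on with
  | C a => exact h0 _ (by simp)
  | add p q h1 h2 => exact map_add (aeval ![x, y, G]) p q ▸ h1.add h2
  | mul_X p i h1 =>
    rw [map_mul, aeval_X]
    refine h1.mul ?_
    fin_cases i
    · exact h0 x (Algebra.subset_adjoin (by simp))
    · exact h0 y (Algebra.subset_adjoin (by simp))
    · exact h

theorem Sy.alg_Δ (S : Sy K 𝓜) : IsAlgebraic (Algebra.adjoin K {S.x, S.y}) S.Δ := by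
  rw [eq_div_of_mul_eq S.hT S.hΔ, div_eq_mul_inv]
  exact (Sy_alg_aeval S.alg_G _).neg.mul (Sy_alg_aeval S.alg_G _).inv

/-- fields between `K(x, y, G)` and its algebraic closure are stable under `θ / θ x` -/
theorem Sy.stable [CharZero K] (S : Sy K 𝓜) {Ψ : Set 𝓜} (hx : S.x ∈ Ψ) (hy : S.y ∈ Ψ)
    (hG : S.G ∈ Ψ) (h : ∀ a ∈ Ψ, IsAlgebraic (Algebra.adjoin K {S.x, S.y}) a) {f : 𝓜}
    (hf : f ∈ IntermediateField.adjoin K Ψ) : S.θ f / S.θ S.x ∈ IntermediateField.adjoin K Ψ := by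
  have : CharZero 𝓜 := charZero_of_injective_algebraMap (algebraMap K 𝓜).injective
  have h1 : IntermediateField.adjoin K {S.x, S.y} ≤ IntermediateField.adjoin K Ψ :=
    IntermediateField.adjoin.mono _ _ _ (Set.pair_subset hx hy)
  have h2 : IntermediateField.adjoin K Ψ ≤
      (algebraicClosure (IntermediateField.adjoin K {S.x, S.y}) 𝓜).restrictScalars K :=
    IntermediateField.adjoin_le_iff.2 fun a ha =>
      mem_algebraicClosure_iff.2 (IntermediateField.isAlgebraic_adjoin_iff.2 (h a ha))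
  have e := IntermediateField.adjoin_toSubfield K ({S.x, S.y} : Set 𝓜)
  rw [div_eq_inv_mul]
  refine (lb_dA ((S.θ S.x)⁻¹ • S.θ)).mem_of_alg
    (N₀ := (IntermediateField.adjoin K {S.x, S.y}).toSubfield)
    (L := (IntermediateField.adjoin K Ψ).toSubfield) h1 (fun a ha => ?_) hf
    (mem_algebraicClosure_iff.1 (h2 hf))
  refine (lb_dA _).mem_closure (fun z hz => h1 ?_) ?_ (e ▸ ha)
  · exact e.ge (Subfield.subset_closure hz)
  · rintro a (⟨c, rfl⟩ | rfl | rfl) <;> rw [dA_apply, Derivation.smul_apply, smul_eq_mul]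
    · rw [Derivation.map_algebraMap, mul_zero]
      exact zero_mem _
    · rw [inv_mul_cancel₀ S.hx]
      exact one_mem _
    · rw [S.hθ, mul_comm S.G, inv_mul_cancel_left₀ S.hx]
      exact IntermediateField.subset_adjoin K Ψ hG

section Aux

variable {M N : Type} [Field M] [Field N] [Algebra K M] [Algebra K N]

theorem Sy_aeval (j : M →ₐ[K] N) (x y a : M) (Q : MvPolynomial (Fin 3) K) :
    j (aeval ![x, y, a] Q) = aeval ![j x, j y, j a] Q := by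
  rw [comp_aeval_apply]
  refine congrArg (fun v => aeval v Q) (funext fun i => ?_)
  fin_cases i <;> rfl

theorem Sy_ind (j : M →ₐ[K] N) {x y : M} :
    AlgebraicIndependent K ![j x, j y] ↔ AlgebraicIndependent K ![x, y] := by
  have e : ![j x, j y] = j ∘ ![x, y] := funext fun i => by fin_cases i <;> rfl
  rw [e]
  exact ⟨.of_comp j, fun h => h.map' j.injective⟩

theorem Sy_map (j : M →ₐ[K] N) {x y a : M} (h : AlgebraicIndependent K ![x, y]) :
    IsAlgebraic (Algebra.adjoin K {j x, j y}) (j a) ↔ IsAlgebraic (Algebra.adjoin K {x, y}) a := by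
  simp only [alg_iff h, alg_iff ((Sy_ind j).2 h), ← Sy_aeval, map_eq_zero]

theorem Sy_chain (D : Derivation K M M) (v : Fin 3 → M) (P : MvPolynomial (Fin 3) K) :
    D (aeval v P) = ∑ i, aeval v (pderiv i P) * D (v i) := by
  induction P using MvPolynomial.induction_on with
  | C a => simp
  | add p q h1 h2 => simp [h1, h2, add_mul, Finset.sum_add_distrib]
  | mul_X p i h1 =>
    simp [h1, add_mul, Finset.sum_add_distrib, Finset.mul_sum, pderiv_X, Pi.single_apply,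
      apply_ite, ite_mul, mul_assoc]

theorem Sy_closed [IsAlgClosed N] (s : Set N) : ∃ M : IntermediateField K N, IsAlgClosed M ∧
    ∀ z, z ∈ M ↔ IsAlgebraic (Algebra.adjoin K s) z :=
  ⟨(algebraicClosure (IntermediateField.adjoin K s) N).restrictScalars K,
    (algebraicClosure.isAlgClosure _ N).isAlgClosed,
    fun _ => mem_algebraicClosure_iff.trans IntermediateField.isAlgebraic_adjoin_iff⟩

variable [CharZero K]

theorem Sy_ext (π : M →ₐ[K] N) (δ : Derivation K M M) :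
    ∃ D : Derivation K N N, ∀ a, D (π a) = π (δ a) := by
  let := π.toRingHom.toAlgebra
  exact (exists_der_ext π δ (ι := Empty) Empty.elim
    (algebraicIndependent_iff.1 algebraicIndependent_empty_type) Empty.elim).imp fun _ h => h.1

theorem Sy_zero (D : Derivation K N N) {s : Set N} (h : ∀ a ∈ s, D a = 0) {f : N}
    (hf : IsAlgebraic (Algebra.adjoin K s) f) : D f = 0 := by
  have : CharZero N := charZero_of_injective_algebraMap (algebraMap K N).injective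
  refine (lb_dA D).zero_of_alg (N₀ := (IntermediateField.adjoin K s).toSubfield) (fun a ha => ?_)
    (IntermediateField.isAlgebraic_adjoin_iff.2 hf)
  rw [dA_apply]
  induction ha using IntermediateField.adjoin_induction with
  | mem z hz => exact h z hz
  | algebraMap c => exact D.map_algebraMap c
  | add a b _ _ h1 h2 => rw [map_add, h1, h2, add_zero]
  | inv a _ h1 => rw [Derivation.leibniz_inv, h1, smul_zero]
  | mul a b _ _ h1 h2 => rw [Derivation.leibniz, h1, h2, smul_zero, smul_zero, add_zero]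

end Aux

theorem exists_am [CharZero K] (S : Sy K 𝓜) : ∃ (N M : Type) (_ : Field N) (_ : Algebra K N)
    (_ : Algebra 𝓜 N) (_ : IsScalarTower K 𝓜 N) (_ : Algebra.IsAlgebraic 𝓜 N) (_ : IsAlgClosed N)
    (_ : Field M) (_ : Algebra K M) (_ : IsAlgClosed M), Nonempty (Am S N M) := by
  let N := AlgebraicClosure 𝓜
  let π := IsScalarTower.toAlgHom K 𝓜 N
  obtain ⟨ϑ, hϑ⟩ := Sy_ext π S.θ
  obtain ⟨M, hM, hm⟩ := Sy_closed (K := K) {π S.x, π S.y}
  have : CharZero M := charZero_of_injective_algebraMap (algebraMap K M).injective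
  have mem : ∀ a, IsAlgebraic (Algebra.adjoin K {S.x, S.y}) a → ∃ f, M.val f = π a :=
    fun a ha => ⟨⟨_, (hm _).2 ((Sy_map π S.ind).2 ha)⟩, rfl⟩
  obtain ⟨x, hx⟩ := mem S.x (isAlgebraic_algebraMap
    (⟨S.x, Algebra.subset_adjoin (by simp)⟩ : Algebra.adjoin K {S.x, S.y}))
  obtain ⟨y, hy⟩ := mem S.y (isAlgebraic_algebraMap
    (⟨S.y, Algebra.subset_adjoin (by simp)⟩ : Algebra.adjoin K {S.x, S.y}))
  obtain ⟨G, hG⟩ := mem S.G S.alg_G
  have hi : AlgebraicIndependent K ![x, y] :=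
    (Sy_ind M.val).1 (by rw [hx, hy]; exact (Sy_ind π).2 S.ind)
  have hb : IsTranscendenceBasis K ![x, y] := hi.isTranscendenceBasis_iff_isAlgebraic.2 (by
    rw [Sy_range]
    exact ⟨fun f => (Sy_map M.val hi).1 (by rw [hx, hy]; exact (hm _).1 f.2)⟩)
  obtain ⟨pd, -, hpd⟩ := exists_der_ext (Algebra.ofId K M) 0 ![x, y]
    (fun P hP => algebraicIndependent_iff.1 hi P hP) ![1, G]
  obtain ⟨𝔉, rfl, rfl, rfl⟩ := Fm.exists_fm hb pd (hpd 0)
  obtain rfl : 𝔉.G = G := hpd 1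
  have he : ∀ Q, M.val (aeval ![𝔉.x, 𝔉.y, 𝔉.G] Q) = π (aeval ![S.x, S.y, S.G] Q) := fun Q => by
    rw [Sy_aeval, Sy_aeval, hx, hy, hG]
  refine ⟨N, M, inferInstance, inferInstance, inferInstance, inferInstance, inferInstance,
    inferInstance, inferInstance, inferInstance, hM, ⟨ϑ, hϑ, M.val, 𝔉, hx, hy, hG, ?_, ?_, mem⟩⟩
  · have h1 := Sy_chain 𝔉.dy ![𝔉.x, 𝔉.y, 𝔉.G] S.P
    have h0 := he S.P
    rw [S.hP, map_zero, map_eq_zero] at h0
    rw [h0, map_zero, Fin.sum_univ_three] at h1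
    change 0 = _ * 𝔉.dy 𝔉.x + _ * 𝔉.dy 𝔉.y + _ * 𝔉.Δ at h1
    have h2 := congrArg M.val h1
    have h3 := congrArg π S.hΔ
    rw [𝔉.dy_x, 𝔉.dy_y, mul_zero, zero_add, mul_one, map_zero, map_add, map_mul, he, he] at h2
    rw [map_mul, map_neg] at h3
    refine mul_left_cancel₀ ((map_ne_zero π).2 S.hT) ?_
    change _ = _ * π S.Δ
    linear_combination -h2 - h3
  · intro f
    obtain ⟨D, hD⟩ := Sy_ext M.val 𝔉.pd
    have h1 := Sy_zero (ϑ - π (S.θ S.x) • D) (s := {π S.x, π S.y}) (by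
      rintro _ (rfl | rfl) <;> rw [Derivation.sub_apply, Derivation.smul_apply, smul_eq_mul, hϑ]
      · rw [← hx, hD, 𝔉.pd_x, map_one, mul_one, sub_self]
      · rw [← hy, hD, S.hθ, map_mul, ← hG, mul_comm]
        exact sub_self _) ((hm _).1 f.2)
    rw [Derivation.sub_apply, Derivation.smul_apply, smul_eq_mul, sub_eq_zero] at h1
    exact h1.trans (congrArg _ (hD f))

end Pool.Agent.Work.MP_e120ef_ag.H.MQ
end
end
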