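import Mathlib
import Pool.Agent.Work.MP_e120ef_ag.F.Sy
import Pool.Agent.Work.MP_e120ef_ag.F.CJ2

attribute [-instance] Subalgebra.normedCommRing Subalgebra.seminormedCommRing
  Subalgebra.seminormedRing Subalgebra.normedRing
  Localization.subalgebra.instIsFractionRingSubtypeMemSubalgebra
attribute [local instance 2000] RingHomClass.toAddMonoidHomClass AddMonoidHomClass.toAddHomClass
  RingHom.instRingHomClass AlgHomClass.toRingHomClass IsDomain.to_noZeroDivisors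
  IsDomain.toNontrivial NeZero.one RingHomClass.toMonoidHomClass MonoidHomClass.toMulHomClass
  RingHomClass.toMonoidWithZeroHomClass AddMonoidHomClass.toZeroHomClass MonoidHomClass.toOneHomClass
attribute [-instance] instCharZeroOfIsSemireal AlgHom.instContinuousLinearMapClassOfAlgHomClass
  RingHomClass.toLinearMapClassRat RingHomClass.toLinearMapClassNNRat NumberField.to_charZero

-- merged part: Pool.Agent.Work.MP_e120ef_ag.F.Glob
section
-- merged part: Pool.Agent.Work.MP_e120ef_ag.F.K0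
section
/-!
# Small closed algebraically closed subfields

Plans.  `exists_K0`: `K₁ = Subfield.closure (C ∪ {π})` with `1 < ‖π‖` is countable (`Subfield.cardinalMk_closure_le_max`-type lemmas), its algebraic closure `K₂` in `K` is countable (`Algebra.IsAlgebraic.cardinalMk_le_max`) and algebraically closed; `K₀ = K₂.topologicalClosure` is complete, nontrivially normed, and algebraically closed by `IsAlgClosed.of_denseRange`; each nonzero element has the norm of an element of `K₂`.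
`exists_radius`: the set of `r > 0` with `s * r ^ j = 1` for some `s ∈ Γ`, `j ≠ 0` is countable (at most one `r` for each `(s, j)`, `zpow_left_injOn₀`), an interval is not (`Set.Countable.dense_compl`).
`exists_pr`: the elements of norm `< 1` form a `ℚ`-subspace not containing `1` (`Submodule.exists_le_ker_of_notMem` or `exists_dual_map_eq_bot_of_notMem`, then rescale).
-/

namespace Pool.Agent.Work.MP_e120ef_ag.H.MQ

variable {K : Type} [NontriviallyNormedField K] [IsUltrametricDist K] [CharZero K]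

theorem exists_K0 [CompleteSpace K] [IsAlgClosed K] {C : Set K} (hC : C.Countable) :
    ∃ K₀ : Subfield K, IsClosed (K₀ : Set K) ∧ IsAlgClosed K₀ ∧ C ⊆ K₀ ∧
      ((fun c : K => ‖c‖) '' K₀).Countable := by
  obtain ⟨π, hπ⟩ := NormedField.exists_one_lt_norm K
  let K₁ := Subfield.closure (insert π C)
  have h1 : Cardinal.mk K₁ ≤ Cardinal.aleph0 := (Subfield.cardinalMk_closure_le_max _).trans
    (max_le (Cardinal.le_aleph0_iff_set_countable.2 (hC.insert π)) le_rfl)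
  let K₂ := (algebraicClosure K₁ K).toSubfield
  have h2 : (K₂ : Set K).Countable := Cardinal.le_aleph0_iff_set_countable.1
    ((Algebra.IsAlgebraic.cardinalMk_le_max K₁ (algebraicClosure K₁ K)).trans (max_le h1 le_rfl))
  have h3 : IsAlgClosed K₂ := IsAlgClosure.isAlgClosed K₁ (K := algebraicClosure K₁ K)
  have h4 : insert π C ⊆ K₂ := fun c hc =>
    (algebraicClosure K₁ K).algebraMap_mem ⟨c, Subfield.subset_closure hc⟩
  have h5 := K₂.le_topologicalClosure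
  refine ⟨K₂.topologicalClosure, K₂.isClosed_topologicalClosure, ?_,
    fun c hc => h5 (h4 (Or.inr hc)), ((h2.image norm).insert 0).mono ?_⟩
  · let _ : NontriviallyNormedField K₂.topologicalClosure :=
      { SubfieldClass.toNormedField _ with non_trivial := ⟨⟨π, h5 (h4 (Or.inl rfl))⟩, hπ⟩ }
    have : CompleteSpace K₂.topologicalClosure := K₂.isClosed_topologicalClosure.completeSpace_coe
    let _ := (Subfield.inclusion h5).toAlgebra
    exact IsAlgClosed.of_denseRange (K := K₂) ((denseRange_inclusion_iff h5).2 subset_rfl)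
  · rintro _ ⟨c, hc, rfl⟩
    rcases eq_or_ne c 0 with rfl | h0
    · exact Or.inl norm_zero
    · obtain ⟨d, hd, h⟩ := Metric.mem_closure_iff.1 hc ‖c‖ (norm_pos_iff.2 h0)
      rw [dist_eq_norm, sub_eq_add_neg] at h
      exact Or.inr ⟨d, hd, (norm_neg d).symm.trans
        (IsUltrametricDist.norm_eq_of_add_norm_lt_max (lt_max_of_lt_left h)).symm⟩

theorem exists_radius {Γ : Set ℝ} (hΓ : Γ.Countable) {a b : ℝ} (ha : 0 < a) (hab : a < b) :
    ∃ r, a < r ∧ r < b ∧ ∀ s ∈ Γ, ∀ j : ℤ, s * r ^ j = 1 → j = 0 := by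
  have h : (⋃ s ∈ Γ, ⋃ j : ℤ, {r : ℝ | 0 < r ∧ j ≠ 0 ∧ s * r ^ j = 1}).Countable :=
    hΓ.biUnion fun s _ => Set.countable_iUnion fun j => Set.Subsingleton.countable
      fun r hr r' hr' => zpow_left_injOn₀ hr.2.1 hr.1.le hr'.1.le (mul_left_cancel₀
        (left_ne_zero_of_mul_eq_one hr.2.2) (hr.2.2.trans hr'.2.2.symm))
  obtain ⟨r, hr, h1, h2⟩ := (h.dense_compl ℝ).exists_between hab
  exact ⟨r, h1, h2, fun s hs j hj => by_contra fun h0 =>
    hr (Set.mem_biUnion hs (Set.mem_iUnion.2 ⟨j, ha.trans h1, h0, hj⟩))⟩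

theorem exists_pr (hQ : ∀ n : ℕ, n ≠ 0 → ‖(n : K)‖ = 1) :
    ∃ pr : K →ₗ[ℚ] ℚ, pr 1 = 1 ∧ ∀ c, ‖c‖ < 1 → pr c = 0 := by
  let p : Submodule ℚ K :=
    { carrier := {c | ‖c‖ < 1}
      add_mem' := fun ha hb => (IsUltrametricDist.norm_add_le_max _ _).trans_lt (max_lt ha hb)
      zero_mem' := norm_zero.trans_lt one_pos
      smul_mem' := fun q c hc => by
        change ‖q • c‖ < 1
        rw [Rat.smul_def, norm_mul, Rat.cast_def, norm_div, hQ _ q.den_ne_zero, div_one]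
        exact (mul_le_of_le_one_left (norm_nonneg _)
          (IsUltrametricDist.norm_intCast_le_one K _)).trans_lt hc }
  obtain ⟨f, h1, h2⟩ := LinearMap.exists_extend_of_notMem (0 : p →ₗ[ℚ] ℚ) (v := 1)
    (fun h => (norm_one (α := K)).not_lt h) 1
  exact ⟨f, h2, fun c hc => LinearMap.congr_fun h1 ⟨c, hc⟩⟩

end Pool.Agent.Work.MP_e120ef_ag.H.MQ
end

-- merged part: Pool.Agent.Work.MP_e120ef_ag.F.Ds
section
/-!
# Descent to a small field of constants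

Plan.  Write each `φ ∈ Φ` as `im p / im q` (`im_rep`); let `K₀` from `exists_K0` contain `C` and all `coef p n`, `coef q n`.  `L₀ = {f | ∀ n, coef f n ∈ K₀}` is a subring (`coef_mul`: the `tsum` lies in the closed additive subgroup `K₀`, `IsClosed.mem_of_tendsto` or `tsum_mem`), stable under `D1` (`coef_D1`).  `𝓜₀ = {im p / im q | p q ∈ L₀}` is a subfield of `Mo K`, stable under `D` (`nev_D`, `Derivation.leibniz_div`), a `K₀`-algebra by `RingHom.codRestrict`; `θ` is the restriction (`Derivation.mk'`).  `good = {w | ∀ c ∈ K₀, ∀ j, ‖c‖ * ‖w‖ ^ j = 1 → j = 0}`, dense by `exists_radius` and `hsur`.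
`Ds_top`: for `0 ≠ f ∈ L₀` and good `w`, nonzero terms `‖coef f n * w ^ n‖` are distinct, so the top index `n` (`exists_isTop`) has all other terms strictly smaller, `gn w (f - c Z ^ n) < gn w f` (the supremum is attained: `exists_isTop` for the difference), and `f` does not vanish on the circle (`norm_le_gn` for the difference).  Monomials: `Zero_tr` in `H/Zero.lean`, and `im (Zero_tr a S) = ∑ a n • zf ^ n` (multiply by a power of `Zf` for negative exponents, or compare values).  Slopes: `jensen_top` for `p` and `q`, `nev_nr_div`, `nev_ord_div`, `finsum_sub_distrib`, `Jen_fin`.  `den`: truncations (`tendsto_coef`) for `L₀`, and `exists_apxRing`, `apx_inv'` for quotients, with the `UV` given by `N.av w` and `hQ`.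
-/

namespace Pool.Agent.Work.MP_e120ef_ag.H.MQ

variable {K : Type} [NontriviallyNormedField K] [IsUltrametricDist K] [IsAlgClosed K]
  [CompleteSpace K] [CharZero K]

/-- the Gauss norm as an ultrametric absolute value -/
noncomputable def uvN (hQ : ∀ n : ℕ, n ≠ 0 → ‖(n : K)‖ = 1) (w : Pt1 K Rad.out) : UV (Mo K) where
  v := (No K).av w
  na := (No K).nr_add w
  nat n hn := by
    change (No K).nr w n = 1
    rw [← map_natCast (algebraMap K (Mo K)), (No K).nr_alg, hQ n hn]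

theorem uvN_apply (hQ : ∀ n : ℕ, n ≠ 0 → ‖(n : K)‖ = 1) (w : Pt1 K Rad.out) (f : Mo K) :
    uvN hQ w f = (No K).nr w f := rfl

theorem Ds_sub {k M : Type} [Field k] [Field M] [Algebra k M] (D : Derivation k M M)
    (K₀ : Subfield k) (S : Subfield M) (h1 : ∀ c ∈ K₀, algebraMap k M c ∈ S)
    (h2 : ∀ u ∈ S, D u ∈ S) : ∃ (_ : Algebra K₀ S) (θ : Derivation K₀ S S),
      (∀ c, S.subtype (algebraMap K₀ S c) = algebraMap k M (K₀.subtype c)) ∧
        ∀ f, S.subtype (θ f) = D (S.subtype f) := by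
  letI : Algebra K₀ S :=
    (((algebraMap k M).comp K₀.subtype).codRestrict S fun c => h1 c c.2).toAlgebra
  refine ⟨inferInstance, Derivation.mk'
    { toFun := fun f => ⟨D f, h2 f f.2⟩
      map_add' := fun a b => Subtype.ext (map_add D a.1 b.1)
      map_smul' := fun c f => Subtype.ext ?_ } fun a b => Subtype.ext (D.leibniz a.1 b.1),
    fun _ => rfl, fun _ => rfl⟩
  change D (algebraMap k M c * f) = algebraMap k M c * D f
  rw [← Algebra.smul_def, ← Algebra.smul_def, Derivation.map_smul]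

theorem Ds_ring (k : Type) {M : Type} [Field k] [Field M] [Algebra k M] {z : M} (hz : z ≠ 0) :
    ∃ A : Subring M, ∀ f, f ∈ A ↔ f ∈ Submodule.span k (Set.range fun j : ℤ => z ^ j) := by
  refine ⟨((Submodule.span k (Set.range fun j : ℤ => z ^ j)).toSubalgebra
    (Submodule.subset_span ⟨0, zpow_zero z⟩) fun a b ha hb => ?_).toSubring, fun f => Iff.rfl⟩
  have h1 := Submodule.mul_mem_mul ha hb
  rw [Submodule.span_mul_span] at h1
  refine Submodule.span_mono ?_ h1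
  rintro _ ⟨_, ⟨q, rfl⟩, _, ⟨r, rfl⟩, rfl⟩
  exact ⟨q + r, zpow_add₀ hz q r⟩

omit [CharZero K] in
theorem Ds_coef_sub (f g : L1 K Rad.out) (n : ℤ) : coef (f - g) n = coef f n - coef g n := by
  rw [eq_sub_iff_add_eq, ← coef_add, sub_add_cancel]

omit [CharZero K] in
theorem Ds_L0 {K₀ : Subfield K} (h : IsClosed (K₀ : Set K)) :
    ∃ L : Subring (L1 K Rad.out), ∀ f, f ∈ L ↔ ∀ n, coef f n ∈ K₀ := by
  have h0 : ∀ c ∈ K₀, ∀ n, coef (algebraMap K (L1 K Rad.out) c) n ∈ K₀ := fun c hc n => by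
    rw [coef_algebraMap]
    split_ifs
    · exact hc
    · exact zero_mem _
  refine ⟨{ carrier := {f | ∀ n, coef f n ∈ K₀}
            mul_mem' := fun {a b} ha hb n => ?_
            one_mem' := fun n => map_one (algebraMap K (L1 K Rad.out)) ▸ h0 1 (one_mem _) n
            add_mem' := fun {a b} ha hb n => ?_
            zero_mem' := fun n => (coef_zero (K := K) (P := Rad.out) n).symm ▸ zero_mem _
            neg_mem' := fun {a} ha n => ?_ }, fun _ => Iff.rfl⟩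
  · rw [(coef_mul a b n).2]
    exact tsum_mem h fun m => mul_mem (ha m) (hb _)
  · rw [coef_add]
    exact add_mem (ha n) (hb n)
  · rw [← zero_sub, Ds_coef_sub, coef_zero, zero_sub]
    exact neg_mem (ha n)

theorem Ds_mono (n : ℤ) : im (Zero_tr (fun _ => (1 : K)) {n}) = zf K ^ n := by
  have h : ∀ n : ℤ, im (Zero_tr (fun _ => (1 : K)) {n + 1}) =
      im (Zero_tr (fun _ => (1 : K)) {n}) * zf K := fun n => by
    rw [zf, im, im, im, ← map_mul]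
    refine congrArg _ (Subtype.ext (funext fun t => ?_))
    change ∑ m ∈ {n + 1}, 1 * t.v ^ m = (∑ m ∈ {n}, 1 * t.v ^ m) * t.v
    rw [Finset.sum_singleton, Finset.sum_singleton, zpow_add_one₀ t.1.ne_zero, mul_assoc]
  induction n using Int.induction_on with
  | zero =>
    rw [zpow_zero, ← map_one (algebraMap (L1 K Rad.out) (Mo K))]
    refine congrArg _ (Subtype.ext (funext fun t => ?_))
    change ∑ m ∈ {(0 : ℤ)}, 1 * t.v ^ m = 1
    rw [Finset.sum_singleton, zpow_zero, mul_one]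
  | succ n ih => rw [h, ih, zpow_add_one₀ zf_ne]
  | pred n ih =>
    have := h (-n - 1)
    rw [sub_add_cancel, ih] at this
    rw [zpow_sub_one₀ zf_ne, this, mul_inv_cancel_right₀ zf_ne]

theorem Ds_tr (a : ℤ → K) (S : Finset ℤ) :
    im (Zero_tr a S) = ∑ n ∈ S, algebraMap K (Mo K) (a n) * zf K ^ n := by
  have h : (Zero_tr a S : L1 K Rad.out) =
      ∑ n ∈ S, algebraMap K _ (a n) * Zero_tr (fun _ => (1 : K)) {n} := by
    refine Subtype.ext (funext fun t => ?_)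
    rw [AddSubmonoidClass.coe_finset_sum, Finset.sum_apply]
    refine Finset.sum_congr rfl fun n _ => ?_
    change _ = a n * ∑ m ∈ {n}, 1 * t.v ^ m
    rw [Finset.sum_singleton, one_mul]
  rw [h, im, map_sum]
  refine Finset.sum_congr rfl fun n _ => ?_
  rw [map_mul, ← IsScalarTower.algebraMap_apply, ← Ds_mono]

theorem Ds_top (hQ : ∀ n : ℕ, n ≠ 0 → ‖(n : K)‖ = 1) {K₀ : Type} [Field K₀] {κ : K₀ →+* K}
    {w : Pt1 K Rad.out} (hw : ∀ (c : K₀) (j : ℤ), ‖κ c‖ * ‖w.v‖ ^ j = 1 → j = 0)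
    {f : L1 K Rad.out} (hf : f ≠ 0) (hc : ∀ n, coef f n ∈ Set.range κ) :
    ∃ (c : K₀) (n : ℤ), IsTop w f n ∧ (uvN hQ w).E (im f) (algebraMap K (Mo K) (κ c) * zf K ^ n) ∧
      ∀ u : Pt1 K Rad.out, ‖u.v‖ = ‖w.v‖ → ord₀ u f = 0 := by
  obtain ⟨n, hn⟩ := exists_isTop hf w
  obtain ⟨c, hc'⟩ := hc n
  have h0 := Zero_pos hf w
  have h1 : ∀ m, m ≠ n → ‖coef f m * w.v ^ m‖ < gn w f := fun m hm => by
    refine (le_gn f w m).lt_of_ne fun e => hm (sub_eq_zero.1 ?_)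
    obtain ⟨d, hd⟩ := hc m
    refine hw (d / c) _ ?_
    have e' := hn.1
    rw [map_div₀, hd, hc', ← norm_zpow, ← norm_mul, zpow_sub₀ w.1.ne_zero, div_mul_div_comm,
      norm_div, e, e', div_self h0.ne']
  have h2 : gn w (f - Zero_tr (coef f) {n}) < gn w f := by
    by_cases hg : f - Zero_tr (coef f) {n} = 0
    · rwa [hg, gn_zero]
    · obtain ⟨m, hm, -⟩ := exists_isTop hg w
      rw [← hm, Ds_coef_sub, Zero_coef]
      split_ifs with k
      · rwa [sub_self, zero_mul, norm_zero]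
      · rw [sub_zero]
        exact h1 m fun e => k (Finset.mem_singleton.2 e)
  refine ⟨c, n, hn, ?_, fun u hu => (ord₀_eq_zero hf u).2 fun e => ?_⟩
  · have h3 := Ds_tr (coef f) {n}
    rw [Finset.sum_singleton] at h3
    rw [UV.E, UV.mul, UV.zpow, hc', ← h3, im, im, ← map_sub, uvN_apply, uvN_apply, uvN_apply,
      nev_nr, nr_zf, (No K).nr_alg, ← norm_zpow, ← norm_mul, hn.1]
    exact h2
  · have h3 := (norm_le_gn _ hu).trans_lt h2
    change ‖f.1 u - ∑ m ∈ {n}, coef f m * u.v ^ m‖ < _ at h3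
    rw [e, zero_sub, norm_neg, Finset.sum_singleton, Ser_congr hu, hn.1] at h3
    exact lt_irrefl _ h3

theorem Ds_sl {w : Pt1 K Rad.out} {p q : L1 K Rad.out} (hp : p ≠ 0) (hq : q ≠ 0) {n n' : ℤ}
    (h : IsTop w p n) (h' : IsTop w q n') : Sl (No K) w (im p / im q) (n - n' : ℤ) := by
  intro w'
  simp only [nev_nr_div _ _ hq, nev_ord_div _ hp hq, Int.cast_sub, Int.cast_natCast, sub_mul]
  rw [finsum_sub_distrib (Jen_fin p w w') (Jen_fin q w w'),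
    Real.log_div (Jen_gn_ne hp _) (Jen_gn_ne hq _), Real.log_div (Jen_gn_ne hp _) (Jen_gn_ne hq _),
    jensen_top hp h w', jensen_top hq h' w']
  ring

theorem Ds_apx (hQ : ∀ n : ℕ, n ≠ 0 → ‖(n : K)‖ = 1) {K₀ M₀ : Type} [Field K₀] [Field M₀]
    [Algebra K₀ M₀] {κ : K₀ →+* K} {i : M₀ →+* Mo K}
    (i_alg : ∀ c, i (algebraMap K₀ M₀ c) = algebraMap K (Mo K) (κ c)) {z : M₀} (i_z : i z = zf K)
    (w : Pt1 K Rad.out) {A : Subring M₀}
    (hA : ∀ f, f ∈ A ↔ f ∈ Submodule.span K₀ (Set.range fun j : ℤ => z ^ j))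
    {p : L1 K Rad.out} (hc : ∀ n, coef p n ∈ Set.range κ) {P : M₀} (hP : i P = im p) :
    Apx {(uvN hQ w).comap i} A P := by
  intro ε hε
  choose c hc using hc
  have hS := Ser_finite (tendsto_coef p w) (half_pos hε)
  refine ⟨∑ n ∈ hS.toFinset, c n • z ^ n, (hA _).2 (Submodule.sum_mem _ fun n _ =>
    Submodule.smul_mem _ _ (Submodule.subset_span ⟨n, rfl⟩)), ?_⟩
  rintro _ rfl
  have h1 : i (∑ n ∈ hS.toFinset, c n • z ^ n) = im (Zero_tr (coef p) hS.toFinset) := by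
    rw [Ds_tr, map_sum]
    refine Finset.sum_congr rfl fun n _ => ?_
    rw [Algebra.smul_def, map_mul, map_zpow₀, i_alg, i_z, hc]
  rw [UV.comap_apply, map_sub, hP, h1, im, im, ← map_sub, uvN_apply, nev_nr]
  refine (gn_le _ w fun n => ?_).trans_lt (half_lt_self hε)
  rw [Ds_coef_sub, Zero_coef]
  split_ifs with k
  · rw [sub_self, zero_mul, norm_zero]
    exact (half_pos hε).le
  · rw [sub_zero]
    exact (not_le.1 fun e => k (hS.mem_toFinset.2 e)).le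

theorem Ds_mk (hQ : ∀ n : ℕ, n ≠ 0 → ‖(n : K)‖ = 1) (hsur : ∀ r : ℝ, 0 ≤ r → ∃ x : K, ‖x‖ = r)
    {K₀ M₀ : Type} [Field K₀] [Field M₀] [Algebra K₀ M₀] (κ : K₀ →+* K) (i : M₀ →+* Mo K)
    (i_alg : ∀ c, i (algebraMap K₀ M₀ c) = algebraMap K (Mo K) (κ c)) (θ : Derivation K₀ M₀ M₀)
    (i_θ : ∀ f, i (θ f) = (No K).D (i f)) (z : M₀) (i_z : i z = zf K)
    (cl : IsClosed (Set.range κ)) (cnt : ((fun c : K => ‖c‖) '' Set.range κ).Countable)
    (rep : ∀ f : M₀, ∃ (p q : L1 K Rad.out) (P Q : M₀), (∀ n, coef p n ∈ Set.range κ) ∧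
      (∀ n, coef q n ∈ Set.range κ) ∧ i P = im p ∧ i Q = im q ∧ f = P / Q) :
    ∃ d : Ds K K₀ M₀, d.i = i ∧ d.κ = κ := by
  have hz : z ≠ 0 := fun h => zf_ne (K := K) (by rw [← i_z, h, map_zero])
  have rep' : ∀ f : M₀, f ≠ 0 → ∃ (p q : L1 K Rad.out) (P Q : M₀), p ≠ 0 ∧ q ≠ 0 ∧
      (∀ n, coef p n ∈ Set.range κ) ∧ (∀ n, coef q n ∈ Set.range κ) ∧ i P = im p ∧ i Q = im q ∧
      f = P / Q := fun f hf => by
    obtain ⟨p, q, P, Q, h1, h2, h3, h4, rfl⟩ := rep f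
    obtain ⟨h5, h6⟩ := div_ne_zero_iff.1 hf
    refine ⟨p, q, P, Q, ?_, ?_, h1, h2, h3, h4, rfl⟩
    · rintro rfl
      exact h5 ((map_eq_zero i).1 (h3.trans (map_zero _)))
    · rintro rfl
      exact h6 ((map_eq_zero i).1 (h4.trans (map_zero _)))
  refine ⟨⟨κ, i, i_alg, θ, i_θ, z, i_z, cl,
    {w | ∀ (c : K₀) (j : ℤ), ‖κ c‖ * ‖w.v‖ ^ j = 1 → j = 0}, fun a b ha hab => ?_, fun _ h => h,
    fun w hw f hf => ?_, fun w hw f ε hε => ?_, fun w hw f u hu => ?_⟩, rfl, rfl⟩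
  · obtain ⟨r, h1, h2, h3⟩ := exists_radius cnt (one_pos.trans_le ha) hab
    have h4 := ha.trans_lt h1
    obtain ⟨x, rfl⟩ := hsur r (one_pos.trans h4).le
    exact ⟨⟨Units.mk0 x (norm_pos_iff.1 (one_pos.trans h4)), h4.le⟩,
      fun c => h3 _ ⟨_, ⟨c, rfl⟩, rfl⟩, h1, h2⟩
  · obtain ⟨p, q, P, Q, hp, hq, h1, h2, h3, h4, rfl⟩ := rep' f hf
    obtain ⟨c, n, t1, e1, -⟩ := Ds_top hQ hw hp h1
    obtain ⟨c', n', t2, e2, -⟩ := Ds_top hQ hw hq h2
    refine ⟨c / c', n - n', ?_, ?_⟩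
    · have := e1.div e2
      rw [← div_mul_div_comm, ← zpow_sub₀ zf_ne, ← map_div₀ (algebraMap K (Mo K)),
        ← map_div₀ κ] at this
      rw [map_sub, map_mul, map_zpow₀, i_alg, i_z, map_div₀ i, h3, h4]
      exact this
    · rw [map_div₀ i, h3, h4]
      exact Ds_sl hp hq t1 t2
  · by_cases hf : f = 0
    · refine ⟨0, ?_⟩
      rwa [hf, Finsupp.sum_zero_index, sub_self, map_zero, ((No K).nr_eq_zero _ _).2 rfl]
    obtain ⟨p, q, P, Q, -, hq, h1, h2, h3, h4, rfl⟩ := rep' f hf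
    obtain ⟨A, hA⟩ := Ds_ring K₀ hz
    obtain ⟨c, n, -, e, -⟩ := Ds_top hQ hw hq h2
    have h5 := apx_inv' (V := {(uvN hQ w).comap i}) (Set.finite_singleton _) A
      (Ds_apx hQ i_alg i_z w hA h2 h4) (r := algebraMap K₀ M₀ c * z ^ n) (Apx.of_mem (by
        rw [mul_inv, ← map_inv₀, ← zpow_neg, ← Algebra.smul_def]
        exact (hA _).2 (Submodule.smul_mem _ _ (Submodule.subset_span ⟨-n, rfl⟩)))) (by
        rintro _ rfl
        rw [UV.E, UV.comap_apply, UV.comap_apply, map_sub, map_mul, map_zpow₀, i_alg, i_z, h4]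
        exact e)
    obtain ⟨g, hg, h6⟩ := Apx_mul (Set.finite_singleton _) A (Ds_apx hQ i_alg i_z w hA h1 h3) h5 ε hε
    obtain ⟨a, rfl⟩ := Finsupp.mem_span_range_iff_exists_finsupp.1 ((hA g).1 hg)
    rw [div_eq_mul_inv]
    exact ⟨a, h6 _ rfl⟩
  · by_cases hf : f = 0
    · rw [hf, map_zero, (No K).ord_zero]
    obtain ⟨p, q, P, Q, hp, hq, h1, h2, h3, h4, rfl⟩ := rep' f hf
    obtain ⟨_, _, -, -, e1⟩ := Ds_top hQ hw hp h1
    obtain ⟨_, _, -, -, e2⟩ := Ds_top hQ hw hq h2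
    rw [map_div₀ i, h3, h4, nev_ord_div _ hp hq, e1 u hu, e2 u hu, sub_self]

theorem exists_ds (hQ : ∀ n : ℕ, n ≠ 0 → ‖(n : K)‖ = 1) (hsur : ∀ r : ℝ, 0 ≤ r → ∃ x : K, ‖x‖ = r)
    (Φ : Finset (Mo K)) (C : Finset K) : ∃ (K₀ 𝓜₀ : Type) (_ : Field K₀) (_ : Field 𝓜₀)
      (_ : Algebra K₀ 𝓜₀) (_ : IsAlgClosed K₀) (d : Ds K K₀ 𝓜₀),
      (∀ φ ∈ Φ, φ ∈ Set.range d.i) ∧ ∀ c ∈ C, c ∈ Set.range d.κ := by
  choose p q _ hpq using fun φ : Mo K => im_rep φ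
  obtain ⟨K₀, cl, ac, hC, cnt⟩ := exists_K0 (K := K)
    (C := C ∪ ⋃ φ ∈ (Φ : Set (Mo K)), (Set.range (coef (p φ)) ∪ Set.range (coef (q φ))))
    (C.countable_toSet.union (Φ.countable_toSet.biUnion fun φ _ =>
      (Set.countable_range _).union (Set.countable_range _)))
  obtain ⟨L, hL⟩ := Ds_L0 cl
  obtain ⟨S, hS⟩ : ∃ S : Subfield (Mo K), ∀ u, u ∈ S ↔ ∃ a ∈ L, ∃ b ∈ L, im a / im b = u := by
    refine ⟨Subfield.closure (L.map (algebraMap _ (Mo K))), fun u => ?_⟩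
    rw [Subfield.mem_closure_iff, Subring.closure_eq]
    constructor
    · rintro ⟨_, ⟨a, ha, rfl⟩, _, ⟨b, hb, rfl⟩, h⟩
      exact ⟨a, ha, b, hb, h⟩
    · rintro ⟨a, ha, b, hb, h⟩
      exact ⟨_, ⟨a, ha, rfl⟩, _, ⟨b, hb, rfl⟩, h⟩
  have h1 : ∀ a ∈ L, im a ∈ S := fun a ha =>
    (hS _).2 ⟨a, ha, 1, one_mem _, by rw [im, im, map_one, div_one]⟩
  have h2 : ∀ a ∈ L, (No K).D (im a) ∈ S := fun a ha => by
    rw [nev_D]
    refine h1 _ ((hL _).2 fun n => ?_)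
    rw [coef_D1]
    exact mul_mem (intCast_mem _ n) ((hL a).1 ha n)
  obtain ⟨_, θ, h3, h4⟩ := Ds_sub (No K).D K₀ S (fun c hc => by
      rw [IsScalarTower.algebraMap_apply K (L1 K Rad.out) (Mo K)]
      refine h1 _ ((hL _).2 fun n => ?_)
      rw [coef_algebraMap]
      split_ifs
      · exact hc
      · exact zero_mem _) fun u hu => by
    obtain ⟨a, ha, b, hb, rfl⟩ := (hS u).1 hu
    rw [Derivation.leibniz_div, smul_eq_mul, smul_eq_mul, smul_eq_mul]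
    exact mul_mem (pow_mem (inv_mem (h1 b hb)) 2)
      (sub_mem (mul_mem (h1 b hb) (h2 a ha)) (mul_mem (h1 a ha) (h2 b hb)))
  have hr : Set.range K₀.subtype = K₀ := Subtype.range_coe
  have hz : zf K ∈ S := h1 _ ((hL _).2 fun n => by
    rw [coef_Zf]
    split_ifs
    · exact one_mem _
    · exact zero_mem _)
  obtain ⟨d, hi, hκ⟩ := Ds_mk hQ hsur K₀.subtype S.subtype h3 θ h4 ⟨_, hz⟩ rfl (hr ▸ cl) (hr ▸ cnt)
    fun f => by
      obtain ⟨a, ha, b, hb, h⟩ := (hS f).1 f.2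
      rw [hr]
      exact ⟨a, b, ⟨_, h1 a ha⟩, ⟨_, h1 b hb⟩, (hL a).1 ha, (hL b).1 hb, rfl, rfl,
        Subtype.ext h.symm⟩
  refine ⟨K₀, S, inferInstance, inferInstance, _, ac, d, fun φ hφ => ?_, fun c hc => ?_⟩
  · rw [hi]
    refine ⟨⟨φ, (hS φ).2 ⟨p φ, (hL _).2 fun n => hC (Or.inr ?_), q φ,
      (hL _).2 fun n => hC (Or.inr ?_), (hpq φ).symm⟩⟩, rfl⟩
    · exact Set.mem_biUnion hφ (Or.inl ⟨n, rfl⟩)
    · exact Set.mem_biUnion hφ (Or.inr ⟨n, rfl⟩)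
  · rw [hκ, hr]
    exact hC (Or.inl hc)

end Pool.Agent.Work.MP_e120ef_ag.H.MQ
end

-- merged part: Pool.Agent.Work.MP_e120ef_ag.F.Tan
section
/-!
# Tangent lines of counting functions

Plans.  Everything rests on `Jen_log_lin` (in `H/Jen.lean`): with `L w z = log (max ‖w‖ ‖z‖)`, `wp w w' z = L w' z - L w z - [‖z‖ ≤ ‖w‖] log (‖w'‖ / ‖w‖)`.  All points of `Rad.out` have `1 ≤ ‖z‖` (`z.2`).  Finiteness of supports: `Nev.fin`, `Nev.wt_support`, `NevA_supp`, `NevT_fin`; turn the `∑ᶠ` into sums over one finset (`finsum_eq_sum_of_support_subset`).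
`NN_eq`: apply the identity to `(one, w')`, `(one, w)`, `(w, w')`.  `tan`: add `k` times `NN_eq` to `Sl`; the remaining terms are nonnegative (`wt_nonneg`).
`Sl.diff`: take `w''` of larger norm than `w'` (`NormedField.exists_lt_norm`), compare the three instances of `Sl`.
`TT_up`: `TT w = log⁺ |x| + log⁺ |y| + NN w`, and `log⁺ |x| + log⁺ |y| = log |A|` for one `A` among `1, x, y, x y`, while `log |A| ≤ log⁺ |x| + log⁺ |y|` at `w₀`; use `tan` with `k = 1`.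
`TT_mono`: the same with `N.jensen A _ one`: `wp one w z` is monotone in `‖w‖`.
-/

set_option linter.unusedSectionVars false

namespace Pool.Agent.Work.MP_e120ef_ag.H.MQ

variable {K M : Type} [NontriviallyNormedField K] [IsUltrametricDist K] [IsAlgClosed K]
  [CompleteSpace K] [Field M] [Algebra K M] {N : Nev K Rad.out M} {x y : M}
  {w w' : Pt1 K Rad.out}

/-- locally finite divisors -/
def Tan_LF (d : Pt1 K Rad.out → ℝ) : Prop :=
  ∀ w : Pt1 K Rad.out, {z : Pt1 K Rad.out | ‖z.v‖ ≤ ‖w.v‖ ∧ d z ≠ 0}.Finite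

open Classical in
/-- the degree of a divisor on an annulus -/
noncomputable def Tan_c (d : Pt1 K Rad.out → ℝ) (w w' : Pt1 K Rad.out) : ℝ :=
  ∑ᶠ z : Pt1 K Rad.out, if ‖w.v‖ < ‖z.v‖ ∧ ‖z.v‖ ≤ ‖w'.v‖ then d z else 0

theorem Tan_one : ‖(Pt1.one K Rad.out).v‖ = 1 := norm_one

theorem Tan_ge (w : Pt1 K Rad.out) : ‖(Pt1.one K Rad.out).v‖ ≤ ‖w.v‖ := Tan_one.trans_le w.2

theorem Tan_nn (w : Pt1 K Rad.out) :
    nn N x y w = Tan_c (fun z => (pl N x y z : ℝ)) (Pt1.one K _) w := by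
  rw [nn, Tan_c, Tan_one]

theorem Tan_log (a b c : Pt1 K Rad.out) :
    Real.log (‖c.v‖ / ‖a.v‖) = Real.log (‖b.v‖ / ‖a.v‖) + Real.log (‖c.v‖ / ‖b.v‖) := by
  have h : ∀ t : Pt1 K Rad.out, ‖t.v‖ ≠ 0 := fun t => norm_ne_zero_iff.2 t.1.ne_zero
  rw [Real.log_div (h _) (h _), Real.log_div (h _) (h _), Real.log_div (h _) (h _)]
  ring

theorem Tan_self (a : Pt1 K Rad.out) : Real.log (‖a.v‖ / ‖a.v‖) = 0 := by
  rw [div_self (norm_ne_zero_iff.2 a.1.ne_zero), Real.log_one]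

theorem Tan_pos (hw : ‖w.v‖ ≤ ‖w'.v‖) : 0 ≤ Real.log (‖w'.v‖ / ‖w.v‖) :=
  Real.log_nonneg ((one_le_div (norm_pos_iff.2 w.1.ne_zero)).2 hw)

theorem Tan_ord (φ : M) : Tan_LF fun z => (N.ord z φ : ℝ) := fun w =>
  (N.fin φ (Pt1.one K _) w).subset fun z hz => ⟨Tan_ge z, hz.1, fun h => hz.2 (by simp [h])⟩

theorem Tan_pl : Tan_LF fun z => (pl N x y z : ℝ) := fun w =>
  ((Tan_ord (N := N) x w).union (Tan_ord (N := N) y w)).subset fun z hz => by
    by_contra h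
    simp only [Set.mem_union, Set.mem_ofPred_eq, hz.1, true_and, not_or, not_not,
      Int.cast_eq_zero] at h
    exact hz.2 (by simp [pl, h.1, h.2])

theorem Tan_fin {d : Pt1 K Rad.out → ℝ} (hd : Tan_LF d) (w w' : Pt1 K Rad.out) :
    Function.HasFiniteSupport fun z => d z * wp w w' z :=
  ((hd w').union (hd w)).subset fun _ hz =>
    (Jen_wt_ne (right_ne_zero_of_mul hz)).imp (fun h => ⟨h.2, left_ne_zero_of_mul hz⟩)
      fun h => ⟨h.2, left_ne_zero_of_mul hz⟩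

open Classical in
theorem Tan_fin' {d : Pt1 K Rad.out → ℝ} (hd : Tan_LF d) (w w' : Pt1 K Rad.out) :
    Function.HasFiniteSupport fun z : Pt1 K Rad.out =>
      if ‖w.v‖ < ‖z.v‖ ∧ ‖z.v‖ ≤ ‖w'.v‖ then d z else 0 :=
  (hd w').subset fun _ hz => ⟨(ite_ne_right_iff.1 hz).1.2, (ite_ne_right_iff.1 hz).2⟩

theorem Tan_three {d : Pt1 K Rad.out → ℝ} (hd : Tan_LF d) (hw : ‖w.v‖ ≤ ‖w'.v‖)
    (u : Pt1 K Rad.out) : ∑ᶠ z, d z * wp w u z = ∑ᶠ z, d z * wp w w' z +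
      Tan_c d w w' * Real.log (‖u.v‖ / ‖w'.v‖) + ∑ᶠ z, d z * wp w' u z := by
  classical
  have f1 : Function.HasFiniteSupport fun z : Pt1 K Rad.out =>
      (if ‖w.v‖ < ‖z.v‖ ∧ ‖z.v‖ ≤ ‖w'.v‖ then d z else 0) * Real.log (‖u.v‖ / ‖w'.v‖) :=
    (Tan_fin' hd w w').subset fun _ hz => left_ne_zero_of_mul hz
  rw [Tan_c, finsum_mul' _ _ (Tan_fin' hd w w'), ← finsum_add_distrib (Tan_fin hd w w') f1]
  refine Eq.trans (finsum_congr fun z => ?_)
    (finsum_add_distrib ((Tan_fin hd w w').add f1) (Tan_fin hd w' u))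
  have h1 := Jen_log_lin z.1 w.1 u.1
  have h2 := Jen_log_lin z.1 w.1 w'.1
  have h3 := Jen_log_lin z.1 w'.1 u.1
  have h4 := Tan_log w w' u
  simp only [Pt1.v, wp] at hw h4 ⊢
  by_cases k1 : ‖(z.1 : K)‖ ≤ ‖(w.1 : K)‖
  · rw [if_pos k1] at h1 h2
    rw [if_pos (k1.trans hw)] at h3
    rw [if_neg fun h => h.1.not_ge k1]
    push_cast at h1 h2 h3
    linear_combination d z * (-h1 + h2 + h3 - h4)
  · rw [if_neg k1] at h1 h2
    by_cases k2 : ‖(z.1 : K)‖ ≤ ‖(w'.1 : K)‖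
    · rw [if_pos k2] at h3
      rw [if_pos ⟨not_le.1 k1, k2⟩]
      push_cast at h1 h2 h3
      linear_combination d z * (-h1 + h2 + h3)
    · rw [if_neg k2] at h3
      rw [if_neg fun h => k2 h.2]
      push_cast at h1 h2 h3
      linear_combination d z * (-h1 + h2 + h3)

theorem Tan_sum {d : Pt1 K Rad.out → ℝ} (Z : Finset (Pt1 K Rad.out))
    (hZ : ∀ z ∈ Z, ‖w.v‖ < ‖z.v‖ ∧ ‖z.v‖ ≤ ‖w'.v‖)
    (hZ' : ∀ z : Pt1 K Rad.out, ‖w.v‖ < ‖z.v‖ → ‖z.v‖ ≤ ‖w'.v‖ → d z ≠ 0 → z ∈ Z) :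
    Tan_c d w w' = ∑ z ∈ Z, d z := by
  classical
  rw [Tan_c, finsum_eq_sum_of_support_subset _ (s := Z) fun z hz => hZ' z
    (ite_ne_right_iff.1 hz).1.1 (ite_ne_right_iff.1 hz).1.2 (ite_ne_right_iff.1 hz).2]
  exact Finset.sum_congr rfl fun z hz => if_pos (hZ z hz)

theorem Tan_diff {φ : M} {n n' : ℝ} (h : Sl N w φ n) (h' : Sl N w' φ n') (hw : ‖w.v‖ ≤ ‖w'.v‖) :
    n' - n = Tan_c (fun z => (N.ord z φ : ℝ)) w w' := by
  obtain ⟨t, ht⟩ := NormedField.exists_lt_norm K ‖w'.v‖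
  have h1 : 1 ≤ ‖t‖ := le_trans w'.2 ht.le
  have h0 : t ≠ 0 := norm_pos_iff.1 (by linarith only [h1])
  obtain ⟨u, hu⟩ : ∃ u : Pt1 K Rad.out, ‖w'.v‖ < ‖u.v‖ := ⟨⟨Units.mk0 t h0, h1⟩, ht⟩
  refine mul_right_cancel₀
    (Real.log_pos ((one_lt_div (norm_pos_iff.2 w'.1.ne_zero)).2 hu)).ne' ?_
  linear_combination h u - h w' - h' u + Tan_three (Tan_ord (N := N) φ) hw u + n * Tan_log w w' u

theorem exists_sl {φ : M} (h : φ ≠ 0) (w : Pt1 K Rad.out) : ∃ n : ℤ, Sl N w φ n :=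
  N.jensen φ h w

theorem Sl.one : Sl N w 1 0 := by
  intro w'
  simp [NevA_nr_one, NevA_ord_one]

theorem Sl.mul {φ ψ : M} {n n' : ℝ} (h : Sl N w φ n) (h' : Sl N w ψ n') (hφ : φ ≠ 0)
    (hψ : ψ ≠ 0) : Sl N w (φ * ψ) (n + n') := by
  intro w'
  rw [N.nr_mul, N.nr_mul, Real.log_mul (NevA_nr_pos N _ hφ).ne' (NevA_nr_pos N _ hψ).ne',
    Real.log_mul (NevA_nr_pos N _ hφ).ne' (NevA_nr_pos N _ hψ).ne', h w', h' w',
    finsum_congr (f := fun z => (N.ord z (φ * ψ) : ℝ) * _)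
      fun z => by rw [N.ord_mul z φ ψ hφ hψ, Int.cast_add, add_mul],
    finsum_add_distrib (NevA_supp N φ w w') (NevA_supp N ψ w w')]
  ring

theorem Sl.diff {φ : M} {n n' : ℝ} (h : Sl N w φ n) (h' : Sl N w' φ n') (hw : ‖w.v‖ ≤ ‖w'.v‖)
    (Z : Finset (Pt1 K Rad.out)) (hZ : ∀ z ∈ Z, ‖w.v‖ < ‖z.v‖ ∧ ‖z.v‖ ≤ ‖w'.v‖)
    (hZ' : ∀ z : Pt1 K Rad.out, ‖w.v‖ < ‖z.v‖ → ‖z.v‖ ≤ ‖w'.v‖ → N.ord z φ ≠ 0 → z ∈ Z) :
    n' - n = ∑ z ∈ Z, (N.ord z φ : ℝ) := by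
  rw [Tan_diff h h' hw, Tan_sum Z hZ fun z k1 k2 k3 => hZ' z k1 k2 (Int.cast_ne_zero.1 k3)]

theorem pl_nonneg (z : Pt1 K Rad.out) : 0 ≤ pl N x y z :=
  add_nonneg (le_max_right _ _) (le_max_right _ _)

theorem nn_nonneg : 0 ≤ nn N x y w := by
  refine finsum_nonneg fun z => ?_
  split_ifs
  exacts [Int.cast_nonneg (pl_nonneg z), le_rfl]

theorem nn_diff (hw : ‖w.v‖ ≤ ‖w'.v‖) (Z : Finset (Pt1 K Rad.out))
    (hZ : ∀ z ∈ Z, ‖w.v‖ < ‖z.v‖ ∧ ‖z.v‖ ≤ ‖w'.v‖)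
    (hZ' : ∀ z : Pt1 K Rad.out, ‖w.v‖ < ‖z.v‖ → ‖z.v‖ ≤ ‖w'.v‖ → pl N x y z ≠ 0 → z ∈ Z) :
    nn N x y w' - nn N x y w = ∑ z ∈ Z, (pl N x y z : ℝ) := by
  classical
  rw [← Tan_sum Z hZ fun z k1 k2 k3 => hZ' z k1 k2 (Int.cast_ne_zero.1 k3), Tan_nn, Tan_nn,
    sub_eq_iff_eq_add', Tan_c, Tan_c, Tan_c,
    ← finsum_add_distrib (Tan_fin' Tan_pl _ _) (Tan_fin' Tan_pl _ _)]
  refine finsum_congr fun z => ?_
  by_cases k1 : ‖z.v‖ ≤ ‖w.v‖
  · simp [k1, k1.trans hw, k1.not_gt]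
  · simp [k1, not_le.1 k1, (Tan_ge w).trans_lt (not_le.1 k1), -Pt1.one_val]

theorem NN_eq (w w' : Pt1 K Rad.out) : NN N x y w' = NN N x y w +
    nn N x y w * Real.log (‖w'.v‖ / ‖w.v‖) + ∑ᶠ z, (pl N x y z : ℝ) * wp w w' z := by
  rw [Tan_nn]
  exact Tan_three Tan_pl (Tan_ge w) w'

theorem TT_eq (w : Pt1 K Rad.out) :
    TT N x y w = Real.posLog (N.nr w x) + Real.posLog (N.nr w y) + NN N x y w := by
  rw [TT, Nev.T, Nev.T, NN, finsum_congr (f := fun z => (pl N x y z : ℝ) * _)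
    fun z => by rw [pl, Int.cast_add, add_mul],
    finsum_add_distrib (NevT_fin' N x w) (NevT_fin' N y w)]
  ring

theorem TT_nonneg (w : Pt1 K Rad.out) : 0 ≤ TT N x y w := by
  exact add_nonneg (N.T_nonneg x w) (N.T_nonneg y w)

theorem tan {A : M} {n : ℝ} (h : Sl N w A n) {k : ℕ} (hk : ∀ z, 0 ≤ N.ord z A + k * pl N x y z)
    (w' : Pt1 K Rad.out) :
    Real.log (N.nr w A) + k * NN N x y w + (n + k * nn N x y w) * Real.log (‖w'.v‖ / ‖w.v‖) ≤
      Real.log (N.nr w' A) + k * NN N x y w' := by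
  have k1 : 0 ≤ ∑ᶠ z, (N.ord z A : ℝ) * wp w w' z + k * ∑ᶠ z, (pl N x y z : ℝ) * wp w w' z := by
    rw [mul_finsum' _ _ (Tan_fin Tan_pl w w'), ← finsum_add_distrib (NevA_supp N A w w')
      ((Tan_fin Tan_pl w w').subset fun _ hz => right_ne_zero_of_mul hz)]
    refine finsum_nonneg fun z => ?_
    rw [← mul_assoc, ← add_mul]
    exact mul_nonneg (by exact_mod_cast hk z) (wt_nonneg _ _ _)
  rw [h w', NN_eq w w']
  linarith only [k1]

theorem Tan_pick₁ (hx : x ≠ 0) (w : Pt1 K Rad.out) : ∃ A, A ≠ 0 ∧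
    Real.log (N.nr w A) = Real.posLog (N.nr w x) ∧
    (∀ u, Real.log (N.nr u A) ≤ Real.posLog (N.nr u x)) ∧
    (∀ z, 0 ≤ N.ord z A + max (-N.ord z x) 0) ∧
    ∀ u n, Sl N u x n → ∃ m, Sl N u A m ∧ |m| ≤ |n| := by
  rcases le_total (Real.log (N.nr w x)) 0 with h | h
  · refine ⟨1, one_ne_zero, ?_, fun u => ?_, fun z => ?_, fun u n _ => ⟨0, Sl.one, by simp⟩⟩
    · rw [NevA_nr_one, Real.log_one]
      exact (max_eq_left h).symm
    · rw [NevA_nr_one, Real.log_one]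
      exact Real.posLog_nonneg
    · rw [NevA_ord_one]
      omega
  · exact ⟨x, hx, (max_eq_right h).symm, fun u => le_max_right _ _, fun z => by omega,
      fun u n hn => ⟨n, hn, le_rfl⟩⟩

theorem Tan_pick (hx : x ≠ 0) (hy : y ≠ 0) (w : Pt1 K Rad.out) : ∃ A, A ≠ 0 ∧
    Real.log (N.nr w A) = Real.posLog (N.nr w x) + Real.posLog (N.nr w y) ∧
    (∀ u, Real.log (N.nr u A) ≤ Real.posLog (N.nr u x) + Real.posLog (N.nr u y)) ∧
    (∀ z, 0 ≤ N.ord z A + (1 : ℕ) * pl N x y z) ∧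
    ∀ u n n', Sl N u x n → Sl N u y n' → ∃ m, Sl N u A m ∧ |m| ≤ |n| + |n'| := by
  obtain ⟨A, a0, a1, a2, a3, a4⟩ := Tan_pick₁ (N := N) hx w
  obtain ⟨B, b0, b1, b2, b3, b4⟩ := Tan_pick₁ (N := N) hy w
  have e : ∀ u, Real.log (N.nr u (A * B)) = Real.log (N.nr u A) + Real.log (N.nr u B) := fun u => by
    rw [N.nr_mul, Real.log_mul (NevA_nr_pos N _ a0).ne' (NevA_nr_pos N _ b0).ne']
  refine ⟨A * B, mul_ne_zero a0 b0, by rw [e, a1, b1], fun u => e u ▸ add_le_add (a2 u) (b2 u),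
    fun z => ?_, fun u n n' h h' => ?_⟩
  · have := a3 z
    have := b3 z
    rw [N.ord_mul z A B a0 b0, pl, Nat.cast_one, one_mul]
    omega
  · obtain ⟨m, hm, k⟩ := a4 u n h
    obtain ⟨m', hm', k'⟩ := b4 u n' h'
    exact ⟨_, hm.mul hm' a0 b0, (abs_add_le _ _).trans (add_le_add k k')⟩

theorem TT_up (hx : x ≠ 0) (hy : y ≠ 0) {n₁ n₂ : ℝ} (h₁ : Sl N w x n₁) (h₂ : Sl N w y n₂)
    {w₀ : Pt1 K Rad.out} (hw : ‖w₀.v‖ ≤ ‖w.v‖) : TT N x y w - TT N x y w₀ ≤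
      (|n₁| + |n₂| + nn N x y w) * Real.log (‖w.v‖ / ‖w₀.v‖) := by
  obtain ⟨A, -, a1, a2, a3, a4⟩ := Tan_pick (N := N) hx hy w
  obtain ⟨n, hn, hn'⟩ := a4 w _ _ h₁ h₂
  have k1 := tan hn (k := 1) a3 w₀
  have k2 := Tan_log w w₀ w
  have k3 := mul_le_mul_of_nonneg_right ((le_abs_self n).trans hn') (Tan_pos hw)
  rw [Tan_self] at k2
  rw [show Real.log (‖w₀.v‖ / ‖w.v‖) = -Real.log (‖w.v‖ / ‖w₀.v‖) by linarith only [k2], a1,
    Nat.cast_one] at k1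
  rw [TT_eq, TT_eq]
  linarith only [k1, k3, a2, a2 w₀]

theorem TT_mono (hx : x ≠ 0) (hy : y ≠ 0) : ∃ C : ℝ, ∀ w w' : Pt1 K Rad.out, ‖w.v‖ ≤ ‖w'.v‖ →
    TT N x y w ≤ TT N x y w' + C * Real.log (‖w'.v‖ / ‖w.v‖) := by
  classical
  obtain ⟨n₁, h₁⟩ := exists_sl (N := N) hx (Pt1.one K _)
  obtain ⟨n₂, h₂⟩ := exists_sl (N := N) hy (Pt1.one K _)
  refine ⟨|(n₁ : ℝ)| + |(n₂ : ℝ)|, fun w w' hw => ?_⟩
  obtain ⟨A, a0, a1, a2, a3, a4⟩ := Tan_pick (N := N) hx hy w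
  obtain ⟨n, hn, hn'⟩ := a4 _ _ _ h₁ h₂
  obtain ⟨m, hm⟩ := exists_sl (N := N) a0 w
  have k1 := tan hm (k := 1) a3 w'
  have k2 : 0 ≤ m - n + nn N x y w := by
    rw [Tan_diff hn hm (Tan_ge w), Tan_nn, Tan_c, Tan_c,
      ← finsum_add_distrib (Tan_fin' (Tan_ord A) _ _) (Tan_fin' Tan_pl _ _)]
    refine finsum_nonneg fun z => ?_
    have := a3 z
    rw [Nat.cast_one, one_mul] at this
    split_ifs
    · exact_mod_cast this
    · exact (add_zero _).ge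
  have k3 := mul_le_mul_of_nonneg_right ((neg_le_abs n).trans hn') (Tan_pos hw)
  have k4 := mul_nonneg k2 (Tan_pos hw)
  rw [a1, Nat.cast_one] at k1
  rw [TT_eq, TT_eq]
  linarith only [k1, k3, k4, a2, a2 w']

/-- poles of a polynomial in `x` and `y` -/
theorem ord_poly {k : ℕ} {Q : MvPolynomial (Fin 2) K} (hQ : ∀ i, Q.degreeOf i ≤ k)
    (z : Pt1 K Rad.out) : 0 ≤ N.ord z (MvPolynomial.aeval ![x, y] Q) + k * pl N x y z := by
  have h := (NevT_av_abs N z).pl_poly ![x, y] Q hQ le_rfl fun m _ => by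
    rw [NevT_pl, N.ord_alg]
    simp
  simp only [NevT_pl, Fin.sum_univ_two, Matrix.cons_val_zero, Matrix.cons_val_one, zero_add] at h
  have h1 : max (-N.ord z (MvPolynomial.aeval ![x, y] Q)) 0 ≤ k * pl N x y z := by
    rw [pl]
    exact_mod_cast h
  have h2 := le_max_left (-N.ord z (MvPolynomial.aeval ![x, y] Q)) 0
  omega

end Pool.Agent.Work.MP_e120ef_ag.H.MQ
end

-- merged part: Pool.Agent.Work.MP_e120ef_ag.F.NE
section
/-!
# Polynomials of bounded degree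

Plans.  `ne_low`: the map `(Fin 2 → Fin (k + 1)) → K` to `M`, `c ↦ ∑ c m x ^ m₀ y ^ m₁`, is linear and injective.  Give `M` the norm `N.av w` (`WithAbs (N.av w)` is a normed field; build the `NormedSpace K` instance from `nr_mul`, `nr_alg`) and use `LinearMap.exists_antilipschitzWith` or `LinearMap.injective_iff_antilipschitz`.
`ne_up`: `NevT_Abs.pl_poly`-like estimate, or directly: each monomial has `nr ≤ μ * max 1 (nr x) ^ k * max 1 (nr y) ^ k`.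
`ne_slope`, with `Φ w = log (nr w A) + k NN w`, `μ` the largest norm of a coefficient: `|Φ one - log μ|` and `|Φ R - log μ|` are bounded by a constant (`ne_low`, `ne_up`).  `tan` at `R` (slope from `exists_sl`, `ord_poly`) towards `one` bounds the slope at `R` from below by `-C`, towards `w` gives `Φ w ≥ log μ - C - C log ‖w‖`; `tan` at `w` towards `one` bounds the slope at `w` from below (`log ‖w‖ ≥ log ‖R‖ > 0`), towards `w'` gives the second claim with `ne_up`.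
-/

namespace Pool.Agent.Work.MP_e120ef_ag.H.MQ

variable {K M : Type} [NontriviallyNormedField K] [IsUltrametricDist K] [IsAlgClosed K]
  [CompleteSpace K] [Field M] [Algebra K M] {N : Nev K Rad.out M} {x y : M}



theorem ne_low (h : AlgebraicIndependent K ![x, y]) (w : Pt1 K Rad.out) (k : ℕ) :
    ∃ c : ℝ, 0 < c ∧ ∀ Q : MvPolynomial (Fin 2) K, (∀ i, Q.degreeOf i ≤ k) → ∀ m,
      c * ‖Q.coeff m‖ ≤ N.nr w (MvPolynomial.aeval ![x, y] Q) := by
  classical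
  let _ : NormedField M := (N.av w).toNormedField
  have hn : ∀ u : M, ‖u‖ = N.nr w u := fun _ => rfl
  let _ : NormedSpace K M := ⟨fun c u => by rw [hn, hn, Algebra.smul_def, N.nr_mul, N.nr_alg]⟩
  let S : Finset (Fin 2 →₀ ℕ) := Finset.Iic (Finsupp.equivFunOnFinite.symm fun _ => k)
  let g : (S → K) →ₗ[K] MvPolynomial (Fin 2) K :=
    Fintype.linearCombination K fun m : S => MvPolynomial.basisMonomials (Fin 2) K m.1
  have hg : Function.Injective g :=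
    ((MvPolynomial.basisMonomials (Fin 2) K).linearIndependent.comp Subtype.val
      Subtype.val_injective).fintypeLinearCombination_injective
  let f : (S → K) →ₗ[K] M := (MvPolynomial.aeval ![x, y]).toLinearMap ∘ₗ g
  have hi : Function.Injective (MvPolynomial.aeval ![x, y] : MvPolynomial (Fin 2) K →ₐ[K] M) := h
  have hf0 : Function.Injective f := hi.comp hg
  obtain ⟨C, hC, hf⟩ := f.injective_iff_antilipschitz.1 hf0
  have hC' : (0 : ℝ) < C := hC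
  refine ⟨(C : ℝ)⁻¹, inv_pos.2 hC', fun Q hQ m => ?_⟩
  have hS : Q.support ⊆ S := fun m hm => Finset.mem_Iic.2 fun i =>
    (MvPolynomial.monomial_le_degreeOf i hm).trans (hQ i)
  have h1 : g (fun m => Q.coeff m.1) = Q := by
    simp only [g, Fintype.linearCombination_apply, MvPolynomial.coe_basisMonomials,
      MvPolynomial.smul_monomial, smul_eq_mul, mul_one]
    rw [Finset.sum_coe_sort S fun m => MvPolynomial.monomial m (Q.coeff m),
      ← Finset.sum_subset hS fun m _ hm => by rw [MvPolynomial.notMem_support_iff.1 hm, map_zero]]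
    exact Q.support_sum_monomial_coeff
  have h2 := hf.le_mul_norm (map_zero f) fun m => Q.coeff m.1
  have h3 : f (fun m => Q.coeff m.1) = MvPolynomial.aeval ![x, y] Q := by
    simp only [f, LinearMap.comp_apply, h1, AlgHom.toLinearMap_apply]
  rw [h3, hn] at h2
  rw [inv_mul_le_iff₀ hC']
  by_cases hm : m ∈ S
  · exact (norm_le_pi_norm (fun m : S => Q.coeff m.1) ⟨m, hm⟩).trans h2
  · rw [MvPolynomial.notMem_support_iff.1 fun h4 => hm (hS h4), norm_zero]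
    exact mul_nonneg hC'.le (N.nr_nonneg _ _)

theorem NE_max (a : ℝ) (ha : 0 ≤ a) : Real.log (max 1 a) = Real.posLog a :=
  (Real.posLog_eq_log_max_one ha).symm

theorem ne_up (w : Pt1 K Rad.out) {k : ℕ} {Q : MvPolynomial (Fin 2) K}
    (hQ : ∀ i, Q.degreeOf i ≤ k) {μ : ℝ} (hμ : 0 < μ) (h : ∀ m, ‖Q.coeff m‖ ≤ μ)
    (h₀ : MvPolynomial.aeval ![x, y] Q ≠ 0) :
    Real.log (N.nr w (MvPolynomial.aeval ![x, y] Q)) + k * NN N x y w ≤
      Real.log μ + k * TT N x y w := by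
  have hA := NevT_nr N w
  have h1 : N.nr w (MvPolynomial.aeval ![x, y] Q) ≤
      μ * (max 1 (N.nr w x) ^ k * max 1 (N.nr w y) ^ k) := by
    rw [MvPolynomial.aeval_def, MvPolynomial.eval₂_eq']
    refine Finset.sum_induction _
      (fun u => N.nr w u ≤ μ * (max 1 (N.nr w x) ^ k * max 1 (N.nr w y) ^ k))
      (fun u v hu hv => (hA.add u v).trans (max_le hu hv)) ?_ fun m hm => ?_
    · rw [hA.zero]
      positivity
    · rw [N.nr_mul, N.nr_alg, Fin.prod_univ_two, N.nr_mul, hA.pow, hA.pow]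
      have h2 : ∀ (a : ℝ) (i : Fin 2), 0 ≤ a → a ^ m i ≤ max 1 a ^ k := fun a i ha =>
        (pow_le_pow_left₀ ha (le_max_right 1 a) _).trans (pow_le_pow_right₀ (le_max_left 1 a)
          ((MvPolynomial.monomial_le_degreeOf i hm).trans (hQ i)))
      exact mul_le_mul (h m) (mul_le_mul (h2 _ 0 (N.nr_nonneg _ _)) (h2 _ 1 (N.nr_nonneg _ _))
        (pow_nonneg (N.nr_nonneg _ _) _) (by positivity))
        (mul_nonneg (pow_nonneg (N.nr_nonneg _ _) _) (pow_nonneg (N.nr_nonneg _ _) _)) hμ.le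
  have h3 := Real.log_le_log (NevA_nr_pos N w h₀) h1
  rw [Real.log_mul hμ.ne' (by positivity), Real.log_mul (by positivity) (by positivity),
    Real.log_pow, Real.log_pow, NE_max _ (N.nr_nonneg _ _), NE_max _ (N.nr_nonneg _ _)] at h3
  rw [TT_eq]
  linarith

theorem NE_ld (w w' : Pt1 K Rad.out) :
    Real.log (‖w'.v‖ / ‖w.v‖) = Real.log ‖w'.v‖ - Real.log ‖w.v‖ :=
  Real.log_div (norm_ne_zero_iff.2 w'.1.ne_zero) (norm_ne_zero_iff.2 w.1.ne_zero)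

theorem ne_slope (h : AlgebraicIndependent K ![x, y]) {R : Pt1 K Rad.out} (hR : 1 < ‖R.v‖)
    (k : ℕ) : ∃ C : ℝ, ∀ (Q : MvPolynomial (Fin 2) K) (w : Pt1 K Rad.out) (n : ℝ), Q ≠ 0 →
      (∀ i, Q.degreeOf i ≤ k) → ‖R.v‖ ≤ ‖w.v‖ → Sl N w (MvPolynomial.aeval ![x, y] Q) n →
      -C ≤ n + k * nn N x y w ∧ ∀ w' : Pt1 K Rad.out, ‖w.v‖ ≤ ‖w'.v‖ →
        (n + k * nn N x y w) * Real.log (‖w'.v‖ / ‖w.v‖) ≤
          k * TT N x y w' + C * (1 + Real.log ‖w'.v‖) := by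
  obtain ⟨c, hc, hlow⟩ := ne_low (N := N) h R k
  have hr : 0 < Real.log ‖R.v‖ := Real.log_pos hR
  have ht : 0 ≤ (k : ℝ) * TT N x y (Pt1.one K Rad.out) := mul_nonneg k.cast_nonneg (TT_nonneg _)
  obtain ⟨B, hB0, hB1⟩ : ∃ B : ℝ, 0 ≤ B ∧
      k * TT N x y (Pt1.one K Rad.out) - (Real.log c + k * NN N x y R) ≤ B :=
    ⟨_, abs_nonneg _, le_abs_self _⟩
  obtain ⟨D, hD0, hD⟩ : ∃ D : ℝ, 0 ≤ D ∧ D * Real.log ‖R.v‖ = B :=
    ⟨B / Real.log ‖R.v‖, by positivity, div_mul_cancel₀ _ hr.ne'⟩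
  refine ⟨B + 2 * D, fun Q w n hQ0 hQ hw hn => ?_⟩
  have hi : Function.Injective (MvPolynomial.aeval ![x, y] : MvPolynomial (Fin 2) K →ₐ[K] M) := h
  have hA : MvPolynomial.aeval ![x, y] Q ≠ 0 := fun h1 => hQ0 (hi (h1.trans (map_zero _).symm))
  obtain ⟨m₀, hm₀, hmax⟩ := Q.support.exists_max_image (fun m => ‖Q.coeff m‖)
    (MvPolynomial.support_nonempty.2 hQ0)
  have hμ : 0 < ‖Q.coeff m₀‖ := norm_pos_iff.2 (MvPolynomial.mem_support_iff.1 hm₀)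
  have hall : ∀ m, ‖Q.coeff m‖ ≤ ‖Q.coeff m₀‖ := fun m => by
    by_cases hm : m ∈ Q.support
    · exact hmax m hm
    · rw [MvPolynomial.notMem_support_iff.1 hm, norm_zero]
      exact hμ.le
  have hup := fun u => ne_up (N := N) u hQ hμ hall hA
  have h1 := Real.log_le_log (mul_pos hc hμ) (hlow Q hQ m₀)
  rw [Real.log_mul hc.ne' hμ.ne'] at h1
  have ho : Real.log ‖(Pt1.one K Rad.out).v‖ = 0 := by simp [Pt1.v]
  obtain ⟨n', hn'⟩ := exists_sl (N := N) hA R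
  have h2 := tan hn' (ord_poly hQ) (Pt1.one K Rad.out)
  have h3 := tan hn' (ord_poly hQ) w
  have h4 := tan hn (ord_poly hQ) (Pt1.one K Rad.out)
  have h5 := hup (Pt1.one K Rad.out)
  rw [NE_ld, ho] at h2 h4
  rw [NE_ld] at h3
  have hl : Real.log ‖R.v‖ ≤ Real.log ‖w.v‖ := Real.log_le_log (one_pos.trans hR) hw
  generalize (n' : ℝ) + k * nn N x y R = s' at h2 h3
  have h6 : -D ≤ s' := le_of_mul_le_mul_right (by linarith only [hB1, hD, h1, h5, h2]) hr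
  have h7 := mul_le_mul_of_nonneg_right h6 (sub_nonneg.2 hl)
  have h8 := mul_le_mul_of_nonneg_left hl hD0
  refine ⟨?_, fun w' hw' => ?_⟩
  · have h9 : -(2 * D) ≤ n + k * nn N x y w := le_of_mul_le_mul_right (by linarith only [hB0, hB1, hD, h1, h4, h5, h3, h7, h8]) (hr.trans_le hl)
    linarith only [hB0, h9]
  · have h9 := tan hn (ord_poly hQ) w'
    have h10 := hup w'
    have h11 : Real.log ‖w.v‖ ≤ Real.log ‖w'.v‖ :=
      Real.log_le_log (norm_pos_iff.2 w.1.ne_zero) hw'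
    have h12 := mul_le_mul_of_nonneg_left h11 hD0
    have h13 := mul_nonneg (add_nonneg hB0 hD0) ((hr.trans_le hl).trans_le h11).le
    linarith only [ht, hB0, hB1, hD0, hD, h1, h3, h7, h9, h10, h12, h13]

end Pool.Agent.Work.MP_e120ef_ag.H.MQ
end

-- merged part: Pool.Agent.Work.MP_e120ef_ag.F.EG
section
/-!
# A growth lemma

Plan.  Fix `ε = 1 / 100`-like small and its `C`.  Let `ρ₀ ≥ a + 1`, `Θ = sSup {T t * (ρ₀ - t) | t ∈ D, a ≤ t < ρ₀}` (bounded by `hb`).  Take `t` with `T t * h ≥ (9 / 10) Θ`, `h = ρ₀ - t`, and `ρ ∈ D` with `t + h / 3 < ρ < t + h / 2`, so `T ρ ≤ 2 Θ / h`.  If `a ≤ t - h` take `t₀ ∈ D` with `t - h < t₀ < t - h / 2`, so `T t₀ ≤ (2 / 3) Θ / h`; otherwise take `t₀ = a`.  In both cases `t - t₀ ≤ h`, and the main inequality gives `Θ ≤ C' h (1 + ρ₀)` with `C'` independent of `ρ₀`.  For `t₁ ∈ D`, `t₁ ≥ a`, use `ρ₀ = 2 t₁ + 1`.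
-/

namespace Pool.Agent.Work.MP_e120ef_ag.H.MQ

theorem EG_step {D : Set ℝ} {T : ℝ → ℝ} {a C r Θ : ℝ} (ha : a ∈ D) (ha₀ : 0 ≤ a)
    (dense : ∀ s t, a ≤ s → s < t → ∃ u ∈ D, s < u ∧ u < t) (h₀ : ∀ t ∈ D, 0 ≤ T t)
    (h : ∀ t₀ ∈ D, ∀ t ∈ D, ∀ ρ ∈ D, a ≤ t₀ → t₀ ≤ t → t ≤ ρ →
      (T t - T t₀) * (ρ - t) ≤ (t - t₀) * (1 / 36 * T ρ + C * (1 + ρ)))
    (hΘ : ∀ t ∈ D, a ≤ t → t < r → T t * (r - t) ≤ Θ) {t : ℝ} (ht : t ∈ D) (h1 : a ≤ t)
    (h2 : t < r) : T t * (r - t) ≤ 5 / 6 * Θ + (T a * r + 3 * (|C| * (1 + r) * r)) := by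
  have hΘ0 : 0 ≤ Θ := (mul_nonneg (h₀ t ht) (by linarith)).trans (hΘ t ht h1 h2)
  have hTa := h₀ a ha
  obtain ⟨ρ, hρ, r1, r2⟩ := dense (t + (r - t) / 3) (t + (r - t) / 2) (by linarith only [h1, h2]) (by linarith only [h2])
  have k1 : T ρ * (r - t) ≤ 2 * Θ := by
    nlinarith only [h2, hΘ, hρ, h1, r1, r2, hΘ0, hΘ ρ hρ (by linarith) (by linarith), h₀ ρ hρ]
  obtain ⟨u, hu, u1, u2, u3, u4⟩ : ∃ u ∈ D, a ≤ u ∧ u ≤ t ∧ t - u ≤ r - t ∧
      T u * (r - t) ≤ 2 / 3 * Θ + T a * r := by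
    rcases le_total a (t - (r - t)) with k | k
    · obtain ⟨u, hu, u1, u2⟩ := dense (t - (r - t)) (t - (r - t) / 2) k (by linarith only [r1, r2])
      exact ⟨u, hu, by linarith only [k, u1], by linarith only [r1, r2, u2], by linarith only [u1], by
        linarith only [hΘ, hu, k, u1, r1, r2, u2, hTa, ha₀, h₀, hΘ u hu (by linarith) (by linarith), h₀ u hu,
          mul_nonneg hTa (by linarith : 0 ≤ r), mul_nonneg_of_nonpos_of_nonpos (le_of_lt (Mathlib.Tactic.Linarith.sub_neg_of_lt u2)) (Mathlib.Tactic.Linarith.sub_nonpos_of_le (h₀ u hu))]⟩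
    · exact ⟨a, ha, le_rfl, h1, by linarith only [k], by linarith only [hΘ0, ha₀, hTa, h1, mul_nonneg_of_nonpos_of_nonpos (Mathlib.Tactic.Linarith.sub_nonpos_of_le ha₀) (Mathlib.Tactic.Linarith.sub_nonpos_of_le hTa), mul_nonneg_of_nonpos_of_nonpos (Mathlib.Tactic.Linarith.sub_nonpos_of_le h1) (Mathlib.Tactic.Linarith.sub_nonpos_of_le hTa)]⟩
  have k2 : C * (1 + ρ) ≤ |C| * (1 + r) :=
    mul_le_mul (le_abs_self C) (by linarith only [r1, r2]) (by linarith only [ha₀, h1, r1, r2]) (abs_nonneg C)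
  have k3 : 0 ≤ |C| * (1 + r) := mul_nonneg (abs_nonneg C) (by linarith only [ha₀, h1, r1, r2])
  have k4 : (T t - T u) * (ρ - t) ≤ (r - t) * (1 / 36 * T ρ + |C| * (1 + r)) :=
    ((h u hu t ht ρ hρ u1 u2 (by linarith only [r1, r2])).trans (mul_le_mul_of_nonneg_left (by linarith only [k2])
      (by linarith only [u2]))).trans (mul_le_mul_of_nonneg_right u3 (by linarith only [k3, h₀, hρ, h₀ ρ hρ]))
  have k5 : (r - t) * (|C| * (1 + r)) ≤ |C| * (1 + r) * r := by linarith only [ha₀, k3, h1, mul_nonneg_of_nonpos_of_nonpos (Mathlib.Tactic.Linarith.sub_nonpos_of_le ha₀) (Mathlib.Tactic.Linarith.sub_nonpos_of_le k3), mul_nonneg_of_nonpos_of_nonpos (Mathlib.Tactic.Linarith.sub_nonpos_of_le h1) (Mathlib.Tactic.Linarith.sub_nonpos_of_le k3)]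
  rcases le_total (T t) (T u) with k | k
  · linarith only [hΘ0, u4, k3, ha₀, h1, r1, r2, h2, k, mul_nonneg k3 (by linarith : 0 ≤ r), mul_nonneg_of_nonpos_of_nonpos (le_of_lt (Mathlib.Tactic.Linarith.sub_neg_of_lt h2)) (Mathlib.Tactic.Linarith.sub_nonpos_of_le k)]
  · linarith only [k1, u4, k4, k5, k, r1, mul_nonneg (sub_nonneg.2 k) (by linarith : 0 ≤ ρ - t - (r - t) / 3)]

theorem eg {D : Set ℝ} {T : ℝ → ℝ} {a : ℝ} (ha : a ∈ D) (ha₀ : 0 ≤ a)
    (dense : ∀ s t, a ≤ s → s < t → ∃ u ∈ D, s < u ∧ u < t) (h₀ : ∀ t ∈ D, 0 ≤ T t)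
    (hb : ∀ b, ∃ B, ∀ t ∈ D, t ≤ b → T t ≤ B)
    (h : ∀ ε : ℝ, 0 < ε → ∃ C : ℝ, ∀ t₀ ∈ D, ∀ t ∈ D, ∀ ρ ∈ D, a ≤ t₀ → t₀ ≤ t → t ≤ ρ →
      (T t - T t₀) * (ρ - t) ≤ (t - t₀) * (ε * T ρ + C * (1 + ρ))) :
    ∃ C : ℝ, ∀ t ∈ D, a ≤ t → T t ≤ C * (1 + t) := by
  obtain ⟨C, hC⟩ := h (1 / 36) (by norm_num)
  refine ⟨12 * T a + 72 * |C|, fun s hs h1 => ?_⟩
  obtain ⟨B, hB⟩ := hb (2 * s + 1)
  let S : Set ℝ := {y | ∃ t ∈ D, a ≤ t ∧ t < 2 * s + 1 ∧ y = T t * (2 * s + 1 - t)}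
  have hS : BddAbove S := ⟨B * (2 * s + 1), by
    rintro _ ⟨t, ht, t1, t2, rfl⟩
    exact mul_le_mul (hB t ht t2.le) (by linarith) (by linarith) ((h₀ t ht).trans (hB t ht t2.le))⟩
  have h2 : ∀ t ∈ D, a ≤ t → t < 2 * s + 1 → T t * (2 * s + 1 - t) ≤ sSup S := fun t ht t1 t2 =>
    le_csSup hS ⟨t, ht, t1, t2, rfl⟩
  have h3 := csSup_le (s := S) ⟨_, s, hs, h1, by linarith, rfl⟩ (by
    rintro _ ⟨t, ht, t1, t2, rfl⟩
    exact EG_step ha ha₀ dense h₀ hC h2 ht t1 t2)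
  have h4 := h2 s hs h1 (by linarith only [ha₀, h1])
  have h5 : 0 < 1 + s := by linarith only [ha₀, h1]
  have h6 := mul_nonneg (h₀ a ha) (by linarith only [ha₀, h1] : 0 ≤ s)
  refine le_of_mul_le_mul_right ?_ h5
  linarith only [h3, h4, h6, h5, ha₀, h1, h₀, ha, mul_nonneg (abs_nonneg C) h5.le, mul_nonneg h6 (by linarith : 0 ≤ s), h₀ a ha]

end Pool.Agent.Work.MP_e120ef_ag.H.MQ
end

-- merged part: Pool.Agent.Work.MP_e120ef_ag.F.Glob
section
/-!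
# The endgame

Plan.  `D = {log ‖w‖ | w ∈ good}`, `T t = TT (W t)` where `W t ∈ good` is a chosen point with `log ‖W t‖ = t`, `a = log ‖R‖`.  `hb` from `TT_mono` and density.  For `w ∈ good` beyond `R`, `Spr` with `B = C_k + k nn w` (`ne_slope`) gives `((k + 1) ^ 2 - 1) δ log (‖w'‖ / ‖w‖) ≤ k TT w' + 2 |C_k| (1 + log ‖w'‖)`; with `TT_up` and `k ≥ C / ε` this is the hypothesis of `eg`.  Then `TT_mono` and density extend the bound to all `w`, and `N.T x ≤ TT`, `N.T y ≤ TT` (`T` is nonnegative).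
-/

namespace Pool.Agent.Work.MP_e120ef_ag.H.MQ

variable {K M : Type} [NontriviallyNormedField K] [IsUltrametricDist K] [IsAlgClosed K]
  [CompleteSpace K] [Field M] [Algebra K M] {N : Nev K Rad.out M} {x y : M}

theorem Glob_real {C ε k δ h ρ T A S : ℝ} (hk : 1 ≤ k) (hC : |C| ≤ ε * k) (hδ : 0 ≤ δ)
    (hh : 0 ≤ h) (hρ : h ≤ ρ) (hT : 0 ≤ T) (hS : S ≤ C * (1 + δ))
    (h₁ : (-A + ((k + 1) ^ 2 - 1) * δ) * h ≤ k * T + A * (1 + ρ)) :
    S * h ≤ ε * T + (|C| + 2 * |A| * |C|) * (1 + ρ) := by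
  have c0 := abs_nonneg C
  have a0 := abs_nonneg A
  have a1 := le_abs_self A
  have d0 := mul_nonneg hδ hh
  have h2 : k * (k * (δ * h)) ≤ k * T + 2 * |A| * (1 + ρ) := by
    have e1 : A * h ≤ |A| * (1 + ρ) := mul_le_mul a1 (by linarith only [hρ]) hh a0
    have e2 : A * (1 + ρ) ≤ |A| * (1 + ρ) := mul_le_mul_of_nonneg_right a1 (by linarith)
    linarith only [h₁, d0, e1, e2, hk, mul_nonneg_of_nonpos_of_nonpos (Mathlib.Tactic.Linarith.sub_nonpos_of_le hk) (Mathlib.Tactic.Linarith.sub_nonpos_of_le d0)]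
  have h3 : k * (δ * h) ≤ T + 2 * |A| * (1 + ρ) := by
    have e : 0 ≤ 2 * |A| * (1 + ρ) := mul_nonneg (by linarith only [a0]) (by linarith only [hh, hρ])
    refine le_of_mul_le_mul_left (a := k) ?_ (by linarith only [hk])
    linarith only [h2, hk, e, mul_nonneg_of_nonpos_of_nonpos (Mathlib.Tactic.Linarith.sub_nonpos_of_le hk) (Mathlib.Tactic.Linarith.sub_nonpos_of_le e)]
  have h4 : |C| * (δ * h) ≤ ε * T + 2 * |A| * |C| * (1 + ρ) := by
    have e : 0 ≤ 2 * |A| * |C| * (1 + ρ) := mul_nonneg (by positivity) (by linarith)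
    refine le_of_mul_le_mul_left (a := k) ?_ (by linarith)
    have e1 := mul_le_mul_of_nonneg_left h3 c0
    have e2 := mul_le_mul_of_nonneg_right hC hT
    linarith only [e1, e2, hk, e, mul_nonneg_of_nonpos_of_nonpos (Mathlib.Tactic.Linarith.sub_nonpos_of_le hk) (Mathlib.Tactic.Linarith.sub_nonpos_of_le e)]
  have h5 : S * h ≤ |C| * (1 + δ) * h :=
    mul_le_mul_of_nonneg_right (hS.trans (mul_le_mul_of_nonneg_right (le_abs_self C)
      (by linarith))) hh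
  have h6 : |C| * h ≤ |C| * (1 + ρ) := mul_le_mul_of_nonneg_left (by linarith) c0
  linarith only [h4, h5, h6]

omit [IsUltrametricDist K] [IsAlgClosed K] [CompleteSpace K] in
theorem Glob_one_le (w : Pt1 K Rad.out) : 1 ≤ ‖w.v‖ := w.2

omit [IsUltrametricDist K] [IsAlgClosed K] [CompleteSpace K] in
theorem Glob_pos (w : Pt1 K Rad.out) : 0 < ‖w.v‖ := one_pos.trans_le (Glob_one_le w)

omit [IsUltrametricDist K] [IsAlgClosed K] [CompleteSpace K] in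
theorem Glob_log_div (w w' : Pt1 K Rad.out) :
    Real.log (‖w'.v‖ / ‖w.v‖) = Real.log ‖w'.v‖ - Real.log ‖w.v‖ :=
  Real.log_div (Glob_pos w').ne' (Glob_pos w).ne'

omit [IsUltrametricDist K] [IsAlgClosed K] [CompleteSpace K] in
theorem Glob_le {w w' : Pt1 K Rad.out} : Real.log ‖w.v‖ ≤ Real.log ‖w'.v‖ ↔ ‖w.v‖ ≤ ‖w'.v‖ :=
  Real.log_le_log_iff (Glob_pos w) (Glob_pos w')

theorem Glob_mono (hx : x ≠ 0) (hy : y ≠ 0) : ∃ C : ℝ, 0 ≤ C ∧ ∀ w w' : Pt1 K Rad.out,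
    ‖w.v‖ ≤ ‖w'.v‖ → TT N x y w ≤ TT N x y w' + C * Real.log ‖w'.v‖ := by
  obtain ⟨C, hC⟩ := TT_mono (N := N) hx hy
  refine ⟨|C|, abs_nonneg C, fun w w' hw => (hC w w' hw).trans (add_le_add le_rfl ?_)⟩
  rw [Glob_log_div]
  have h1 := Glob_le.2 hw
  have h2 := Real.log_nonneg (Glob_one_le w)
  exact mul_le_mul (le_abs_self C) (by linarith) (by linarith) (abs_nonneg C)

theorem glob (h : AlgebraicIndependent K ![x, y]) {good : Set (Pt1 K Rad.out)}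
    (dense : ∀ a b : ℝ, 1 ≤ a → a < b → ∃ w ∈ good, a < ‖w.v‖ ∧ ‖w.v‖ < b) {R : Pt1 K Rad.out}
    (hR : R ∈ good) (hR₁ : 1 < ‖R.v‖) {C : ℝ}
    (H : ∀ w ∈ good, ‖R.v‖ ≤ ‖w.v‖ → ∃ δ n₁ n₂ : ℝ, 0 ≤ δ ∧ Spr N x y w δ ∧ Sl N w x n₁ ∧
      Sl N w y n₂ ∧ |n₁| + |n₂| + nn N x y w ≤ C * (1 + δ)) : N.Sm x ∧ N.Sm y := by
  have hx : x ≠ 0 := fun h0 => h.transcendental 0 (by
    change IsAlgebraic K x
    rw [h0]
    exact isAlgebraic_zero)
  have hy : y ≠ 0 := fun h0 => h.transcendental 1 (by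
    change IsAlgebraic K y
    rw [h0]
    exact isAlgebraic_zero)
  obtain ⟨Cm, hCm0, hCm⟩ := Glob_mono (N := N) hx hy
  obtain ⟨W, hW⟩ : ∃ W : ℝ → Pt1 K Rad.out, ∀ t ∈ (fun w : Pt1 K Rad.out => Real.log ‖w.v‖) '' good,
      W t ∈ good ∧ Real.log ‖(W t).v‖ = t := by
    classical
    exact ⟨fun t => if ht : t ∈ (fun w : Pt1 K Rad.out => Real.log ‖w.v‖) '' good then ht.choose
      else R, fun t ht => by
        simp only [dif_pos ht]
        exact ht.choose_spec⟩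
  have ha : 0 < Real.log ‖R.v‖ := Real.log_pos hR₁
  obtain ⟨C₁, hC₁⟩ := eg (D := (fun w : Pt1 K Rad.out => Real.log ‖w.v‖) '' good)
    (T := fun t => TT N x y (W t)) (a := Real.log ‖R.v‖) ⟨R, hR, rfl⟩ ha.le
    (fun s t hs hst => by
      obtain ⟨w, hw, h1, h2⟩ := dense (Real.exp s) (Real.exp t) (Real.one_le_exp (by linarith))
        (Real.exp_lt_exp.2 hst)
      exact ⟨_, ⟨w, hw, rfl⟩, (Real.lt_log_iff_exp_lt (Glob_pos w)).2 h1,
        (Real.log_lt_iff_lt_exp (Glob_pos w)).2 h2⟩)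
    (fun t _ => TT_nonneg _)
    (fun b => by
      obtain ⟨w, -, h1, -⟩ := dense (Real.exp |b|) (Real.exp |b| + 1)
        (Real.one_le_exp (abs_nonneg b)) (lt_add_one _)
      refine ⟨TT N x y w + Cm * Real.log ‖w.v‖, fun t ht hb => hCm _ _ (Glob_le.1 ?_)⟩
      have := (Real.lt_log_iff_exp_lt (Glob_pos w)).2 h1
      rw [(hW t ht).2]
      linarith [le_abs_self b])
    (fun ε hε => by
      obtain ⟨k, hk⟩ := exists_nat_ge (|C| / ε + 1)
      have hk0 : 0 ≤ |C| / ε := by positivity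
      have hk1 : |C| ≤ ε * k := by
        rw [mul_comm, ← div_le_iff₀ hε]
        linarith only [hk]
      obtain ⟨A, hA⟩ := ne_slope (N := N) h hR₁ k
      refine ⟨|C| + 2 * |A| * |C|, fun t₀ h₀ t ht ρ hρ a0 a1 a2 => ?_⟩
      obtain ⟨-, e₀⟩ := hW t₀ h₀
      obtain ⟨g, e⟩ := hW t ht
      obtain ⟨-, e'⟩ := hW ρ hρ
      have b0 : ‖R.v‖ ≤ ‖(W t).v‖ := Glob_le.1 (by linarith only [a0, a1, e])
      have b1 : ‖(W t₀).v‖ ≤ ‖(W t).v‖ := Glob_le.1 (by linarith only [a1, e₀, e])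
      have b2 : ‖(W t).v‖ ≤ ‖(W ρ).v‖ := Glob_le.1 (by linarith only [a2, e, e'])
      obtain ⟨δ, n₁, n₂, hδ, hS, s1, s2, hb⟩ := H _ g b0
      obtain ⟨Q, n, q0, q1, q2, q3⟩ := hS k (A + k * nn N x y (W t)) fun Q n q0 q1 q2 => by
        linarith only [hA, q0, q1, b0, q2, (hA Q _ n q0 q1 b0 q2).1]
      have c1 := (hA Q _ n q0 q1 b0 q2).2 _ b2
      have c2 := TT_up hx hy s1 s2 b1
      rw [Glob_log_div, e', e] at c1
      rw [Glob_log_div, e₀, e] at c2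
      have c3 := Glob_real (A := A) (h := ρ - t) (ρ := ρ) (by linarith only [hk, hk0]) hk1 hδ (by linarith only [a2])
        (by linarith only [ha, a0, a1]) (TT_nonneg (N := N) (x := x) (y := y) (W ρ)) hb
        (le_trans (mul_le_mul_of_nonneg_right (by linarith only [q3]) (by linarith only [a2])) c1)
      refine (mul_le_mul_of_nonneg_right c2 (by linarith only [a2])).trans ?_
      rw [mul_right_comm, mul_comm]
      exact mul_le_mul_of_nonneg_left c3 (by linarith only [a1]))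
  have key : ∀ w : Pt1 K Rad.out, TT N x y w ≤
      (|C₁| + Cm) * (1 + 2 * Real.log ‖R.v‖) * (1 + Real.log ‖w.v‖) := fun w => by
    have w1 := Glob_one_le w
    have w0 := Glob_pos w
    have r0 := Glob_pos R
    obtain ⟨u, hu, h1, h2⟩ := dense (‖w.v‖ * ‖R.v‖) (‖w.v‖ * ‖R.v‖ * ‖R.v‖) (by linarith only [hR₁, w1, mul_nonneg_of_nonpos_of_nonpos (le_of_lt (Mathlib.Tactic.Linarith.sub_neg_of_lt hR₁)) (Mathlib.Tactic.Linarith.sub_nonpos_of_le w1)])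
      (lt_mul_of_one_lt_right (by positivity) hR₁)
    have l1 := Real.log_lt_log (by positivity) h1
    have l2 := Real.log_lt_log (Glob_pos u) h2
    rw [Real.log_mul w0.ne' r0.ne'] at l1
    rw [Real.log_mul (by positivity) r0.ne', Real.log_mul w0.ne' r0.ne'] at l2
    have l0 := Real.log_nonneg w1
    have m : Real.log ‖u.v‖ ∈ (fun w : Pt1 K Rad.out => Real.log ‖w.v‖) '' good := ⟨u, hu, rfl⟩
    have c1 := hC₁ _ m (by linarith)
    have c2 := hCm w (W (Real.log ‖u.v‖)) (Glob_le.1 (by rw [(hW _ m).2]; linarith))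
    rw [(hW _ m).2] at c2
    have c3 : C₁ * (1 + Real.log ‖u.v‖) ≤ |C₁| * (1 + Real.log ‖u.v‖) :=
      mul_le_mul_of_nonneg_right (le_abs_self _) (by linarith)
    have c4 : 1 + Real.log ‖u.v‖ ≤ (1 + 2 * Real.log ‖R.v‖) * (1 + Real.log ‖w.v‖) := by
      linarith only [l2, ha, l0, mul_nonneg_of_nonpos_of_nonpos (le_of_lt (Mathlib.Tactic.Linarith.sub_neg_of_lt ha)) (Mathlib.Tactic.Linarith.sub_nonpos_of_le l0)]
    have c5 := mul_le_mul_of_nonneg_left c4 (add_nonneg (abs_nonneg C₁) hCm0)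
    rw [mul_assoc]
    linarith only [hCm0, c1, c2, c3, c5]
  refine ⟨⟨_, fun w _ => le_trans ?_ ((key w).trans_eq (zero_add _).symm)⟩,
    ⟨_, fun w _ => le_trans ?_ ((key w).trans_eq (zero_add _).symm)⟩⟩
  · exact le_add_of_nonneg_right (N.T_nonneg y w)
  · exact le_add_of_nonneg_left (N.T_nonneg x w)

end Pool.Agent.Work.MP_e120ef_ag.H.MQ
end
end

-- merged part: Pool.Agent.Work.MP_e120ef_ag.F.PtR
section
-- merged part: Pool.Agent.Work.MP_e120ef_ag.F.PtR1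
section
/-!
# The tame point attached to a generic radius

Plans.  `Ds.aeval`: induction on `Q` (`MvPolynomial.induction_on`) or `MvPolynomial.map_aeval`.  `Ds.lift`: a polynomial with coefficients in the range of `κ` is `map κ Q₀` (`MvPolynomial.mem_range_map_iff_coeffs_subset` or an explicit sum of monomials).  `Ds.sy`: preimages, injectivity of `i`, `MvPolynomial.pderiv_map`; independence over `K₀` from `algebraicIndependent_iff` and `MvPolynomial.map_injective`.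
`Ds.tp`: `mk` with `v₀ = (uvN hQ w).comap d.i`, `ζ = d.z`.  `Cpl`: `κ (c n)` is a Cauchy sequence in `K`, its limit is in the closed range.  `ort` by `nr_zf`, `con` by `nr_D`.  The slope of `f` is the `j` of `d.lt` (`sig_E`, `sig_mul`, `sig_zpow`).  `RC`: for `p` from `d.den`, `Res` of the Laurent polynomial is `p 0` (`res_log` for `ζ` gives `Res 1 = 1`, `res_d` for `ζ ^ j`), `res_le`; use `p.mapRange κ`.
-/

open MvPolynomial

namespace Pool.Agent.Work.MP_e120ef_ag.H.MQ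

variable {K : Type} [NontriviallyNormedField K] [IsUltrametricDist K] [IsAlgClosed K]
  [CompleteSpace K] [CharZero K] {K₀ 𝓜₀ : Type} [Field K₀] [Field 𝓜₀] [Algebra K₀ 𝓜₀]
  (d : Ds K K₀ 𝓜₀)

theorem Ds.aeval {σ : Type} (a : σ → 𝓜₀) (Q : MvPolynomial σ K₀) :
    d.i (aeval a Q) = aeval (fun l => d.i (a l)) (map d.κ Q) := by
  induction Q using MvPolynomial.induction_on with
  | C c => rw [map_C, aeval_C, aeval_C, d.i_alg]
  | add p q hp hq => rw [map_add, map_add, map_add, map_add, hp, hq]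
  | mul_X p n hp => rw [map_mul, map_mul, map_mul, map_mul, hp, map_X, aeval_X, aeval_X]

theorem Ds.lift {σ : Type} {Q : MvPolynomial σ K} (h : ∀ m ∈ Q.support, Q.coeff m ∈ Set.range d.κ) :
    ∃ Q₀, map d.κ Q₀ = Q := by
  refine ⟨∑ m ∈ Q.support, monomial m (Function.invFun d.κ (Q.coeff m)), ?_⟩
  rw [map_sum]
  refine Eq.trans (Finset.sum_congr rfl fun m hm => ?_) Q.as_sum.symm
  rw [map_monomial, Function.invFun_eq (h m hm)]

theorem Ds.sy (S : Sy K (Mo K)) (hθ : S.θ = (No K).D) (hx : S.x ∈ Set.range d.i)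
    (hy : S.y ∈ Set.range d.i) (hG : S.G ∈ Set.range d.i) (hΔ : S.Δ ∈ Set.range d.i)
    (hP : ∀ m ∈ S.P.support, S.P.coeff m ∈ Set.range d.κ) : ∃ S₀ : Sy K₀ 𝓜₀, S₀.θ = d.θ ∧
      d.i S₀.x = S.x ∧ d.i S₀.y = S.y ∧ d.i S₀.Δ = S.Δ := by
  obtain ⟨x, hx⟩ := hx
  obtain ⟨y, hy⟩ := hy
  obtain ⟨G, hG⟩ := hG
  obtain ⟨Δ, hΔ⟩ := hΔ
  obtain ⟨P, hP⟩ := d.lift hP
  have h3 : ∀ Q : MvPolynomial (Fin 3) K₀, d.i (MvPolynomial.aeval ![x, y, G] Q) =
      MvPolynomial.aeval ![S.x, S.y, S.G] (map d.κ Q) := fun Q => by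
    have e : (fun l => d.i (![x, y, G] l)) = ![S.x, S.y, S.G] := by
      funext l
      fin_cases l
      · exact hx
      · exact hy
      · exact hG
    rw [d.aeval, e]
  have h2 : ∀ Q : MvPolynomial (Fin 2) K₀, d.i (MvPolynomial.aeval ![x, y] Q) =
      MvPolynomial.aeval ![S.x, S.y] (map d.κ Q) := fun Q => by
    have e : (fun l => d.i (![x, y] l)) = ![S.x, S.y] := by
      funext l
      fin_cases l
      · exact hx
      · exact hy
    rw [d.aeval, e]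
  refine ⟨⟨d.θ, x, y, G, Δ, P, algebraicIndependent_iff.2 fun Q hQ => ?_, d.i.injective ?_,
    fun h => S.hT ?_, d.i.injective ?_, d.i.injective ?_, fun h => S.hx ?_⟩, rfl, hx, hy, hΔ⟩
  · refine map_injective d.κ d.κ.injective ?_
    rw [map_zero]
    refine algebraicIndependent_iff.1 S.ind _ ?_
    rw [← h2, hQ, map_zero]
  · rw [h3, hP, S.hP, map_zero]
  · rw [← hP, pderiv_map, ← h3, h, map_zero]
  · rw [map_mul, map_neg, h3, h3, ← pderiv_map, ← pderiv_map, hP, hΔ, S.hΔ]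
  · rw [map_mul, d.i_θ, d.i_θ, hx, hy, hG, ← hθ, S.hθ]
  · rw [hθ, ← hx, ← d.i_θ, h, map_zero]

theorem Ds.tp (hQ : ∀ n : ℕ, n ≠ 0 → ‖(n : K)‖ = 1) [IsAlgClosed K₀] {N : Type} [Field N]
    [Algebra K₀ N] [Algebra 𝓜₀ N] [IsScalarTower K₀ 𝓜₀ N] [Algebra.IsAlgebraic 𝓜₀ N]
    [IsAlgClosed N] {ϑ : Derivation K₀ N N}
    (hϑ : ∀ a, ϑ (algebraMap 𝓜₀ N a) = algebraMap 𝓜₀ N (d.θ a)) {w : Pt1 K Rad.out}
    (hw : w ∈ d.good) : ∃ q : TP ϑ, q.g = 1 ∧ (∀ c, q.v (algebraMap K₀ N c) = ‖d.κ c‖) ∧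
      (∀ f, f ≠ 0 → Sl (No K) w (d.i f) (q.sig (algebraMap 𝓜₀ N f))) ∧
      ∀ f, RC w (d.i f) (d.κ (q.Res (algebraMap 𝓜₀ N f))) := by
  have : CharZero K₀ := d.κ.charZero
  let v₀ : UV 𝓜₀ := (uvN hQ w).comap d.i
  have hv : ∀ a, v₀ a = (No K).nr w (d.i a) := fun _ => rfl
  have halg : ∀ c, v₀ (algebraMap K₀ 𝓜₀ c) = ‖d.κ c‖ := fun c => by
    rw [hv, d.i_alg, (No K).nr_alg]
  have hz : v₀ d.z = ‖w.v‖ := by rw [hv, d.i_z, nr_zf]
  have hz0 : d.z ≠ 0 := fun h => zf_ne (K := K) (by rw [← d.i_z, h, map_zero])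
  have hθ : d.θ d.z = d.z := d.i.injective (by rw [d.i_θ, d.i_z, D_zf])
  have cpl : Cpl K₀ v₀ := fun c hc => by
    have h1 : CauchySeq fun n => d.κ (c n) := Metric.cauchySeq_iff.2 fun ε hε => by
      obtain ⟨n, hn⟩ := hc ε hε
      refine ⟨n, fun i hi j hj => ?_⟩
      rw [dist_eq_norm, ← map_sub, ← halg]
      exact hn i hi j hj
    obtain ⟨L, hL⟩ := cauchySeq_tendsto_of_complete h1
    obtain ⟨l, rfl⟩ := d.closed.mem_of_tendsto hL (Filter.Eventually.of_forall fun n => ⟨c n, rfl⟩)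
    refine ⟨l, fun ε hε => ?_⟩
    obtain ⟨n, hn⟩ := Metric.tendsto_atTop.1 hL ε hε
    refine ⟨n, fun i hi => ?_⟩
    rw [halg, map_sub, ← dist_eq_norm]
    exact hn i hi
  obtain ⟨q, hq, hg, hs⟩ := MQ.mk v₀ d.θ ϑ hϑ hz0 hθ cpl
    (fun c j h => d.ort w hw c j (by rwa [v₀.mul, v₀.zpow, halg, hz] at h))
    (fun f => by rw [hv, hv, d.i_θ]; exact (No K).nr_D w _)
    (fun f hf => by
      obtain ⟨c, j, h, -⟩ := d.lt w hw f hf
      exact ⟨c, j, h⟩)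
    (fun f ε hε => by
      obtain ⟨p, hp⟩ := d.den w hw f ε hε
      refine ⟨p.sum fun j a => a • d.z ^ j, Submodule.sum_mem _ fun j _ =>
        Submodule.smul_mem _ _ (Submodule.subset_span ⟨j, rfl⟩), fun v hv' => ?_⟩
      rw [Set.mem_singleton_iff.1 hv']
      exact hp)
  have hc : ∀ c, q.v (algebraMap K₀ N c) = ‖d.κ c‖ := fun c => by
    rw [IsScalarTower.algebraMap_apply K₀ 𝓜₀ N, hq, halg]
  have hζ : algebraMap 𝓜₀ N d.z ≠ 0 := (_root_.map_ne_zero _).2 hz0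
  have hr1 : q.Res 1 = 1 := by
    have h := q.res_log hζ
    rwa [hϑ, hθ, div_self hζ, hs, Rat.cast_one] at h
  have hr0 : ∀ j : ℤ, j ≠ 0 → q.Res (algebraMap 𝓜₀ N d.z ^ j) = 0 := fun j hj => by
    have h := q.res_d (algebraMap 𝓜₀ N d.z ^ j)
    rw [Derivation.leibniz_zpow, hϑ, hθ, smul_eq_mul, ← zpow_add_one₀ hζ, sub_add_cancel,
      map_zsmul, zsmul_eq_mul] at h
    exact (mul_eq_zero.1 h).resolve_left (Int.cast_ne_zero.2 hj)
  refine ⟨q, hg, hc, fun f hf => ?_, fun f ε hε => ?_⟩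
  · obtain ⟨c, j, h, hj⟩ := d.lt w hw f hf
    have h1 : q.v.E (algebraMap 𝓜₀ N f) (algebraMap 𝓜₀ N (algebraMap K₀ 𝓜₀ c * d.z ^ j)) := by
      rw [UV.E, ← map_sub, hq, hq]
      exact h
    have h2 := h1.ne_zero'
    have h3 := q.sig_E h1
    rw [map_mul, ← IsScalarTower.algebraMap_apply, map_zpow₀] at h2 h3
    rw [q.sig_mul (left_ne_zero_of_mul h2) (right_ne_zero_of_mul h2), q.sig_alg, q.sig_zpow, hs,
      zero_add, mul_one] at h3
    rw [h3, Rat.cast_intCast]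
    exact hj
  · obtain ⟨p, hp⟩ := d.den w hw f ε hε
    have e1 : ((p.mapRange d.κ (map_zero _)).sum fun j a => a • zf K ^ j) =
        d.i (p.sum fun j a => a • d.z ^ j) := by
      rw [Finsupp.sum_mapRange_index (h := fun j (a : K) => a • zf K ^ j) fun j => zero_smul _ _,
        Finsupp.sum, Finsupp.sum, map_sum]
      refine Finset.sum_congr rfl fun j _ => ?_
      rw [Algebra.smul_def, Algebra.smul_def, map_mul, d.i_alg, map_zpow₀, d.i_z]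
    have e2 : q.Res (algebraMap 𝓜₀ N (p.sum fun j a => a • d.z ^ j)) = p 0 := by
      rw [Finsupp.sum, map_sum, map_sum, Finset.sum_eq_single 0]
      · rw [zpow_zero, Algebra.smul_def, mul_one, ← IsScalarTower.algebraMap_apply,
          Algebra.algebraMap_eq_smul_one, map_smul, hr1, smul_eq_mul, mul_one]
      · intro j _ hj
        rw [Algebra.smul_def, map_mul, ← IsScalarTower.algebraMap_apply, ← Algebra.smul_def,
          map_smul, map_zpow₀, hr0 j hj, smul_zero]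
      · intro h
        rw [Finsupp.notMem_support_iff.1 h, zero_smul, map_zero, map_zero]
    refine ⟨p.mapRange d.κ (map_zero _), ?_, ?_⟩
    · rw [e1, ← map_sub]
      exact hp
    · rw [Finsupp.mapRange_apply, norm_sub_rev, ← map_sub, ← e2, ← map_sub, ← map_sub, ← hc]
      refine (q.res_le _).trans_lt ?_
      rw [hg, one_mul, hq]
      exact hp

end Pool.Agent.Work.MP_e120ef_ag.H.MQ
end

-- merged part: Pool.Agent.Work.MP_e120ef_ag.F.SLP
section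
/-!
# A space of dimension `n` has `n` slopes

Plan.  Take `p'` from `exists_np`.  Suppose all slopes are `< -B + ((k + 1) ^ 2 - 1) δ`.  They are of the form `z δ` with `z` in an interval `J` of at most `(k + 1) ^ 2 - 1` integers (`Finset.Ico ⌈-B / δ⌉ (⌈-B / δ⌉ + (k + 1) ^ 2 - 1)`).  For `z ∈ J` choose `A z ≠ 0` in `M` of slope `z δ` if there is one (else `1`), and `ℓ z f = Res (f / (A z * X))`.  If `f ≠ 0` has slope `z δ` then `f / A z` has a leading term `c ∈ K` (`lt`) and `v (ℓ z f - a c) < v c` (`res_leX`, `res_invX`), so `ℓ z f ≠ 0`.  The linear map from `(Fin 2 → Fin (k + 1)) → K` to `J → K` has a nonzero kernel element (`LinearMap.ker_ne_bot_of_finrank_lt`); the corresponding polynomial `Q ≠ 0` has `aeval Q ≠ 0` (`𝔉.basis.1`).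
-/

namespace Pool.Agent.Work.MP_e120ef_ag.H.MQ

theorem SLP_form {K M : Type} [Field K] [Field M] [Algebra K M] {𝔉 : Fm K M} (p : TP 𝔉.pd)
    (s : ℚ) : ∃ ℓ : M →ₗ[K] K, ∀ f : M, f ≠ 0 → p.sig f = s → ℓ f ≠ 0 := by
  obtain ⟨p', rfl⟩ := p.exists_np
  by_cases h : ∃ A : M, A ≠ 0 ∧ p'.sig A = s
  · obtain ⟨A, hA, hs⟩ := h
    refine ⟨p'.Res ∘ₗ LinearMap.mulRight K (A * p'.X)⁻¹, fun f hf hfs h0 => ?_⟩
    obtain ⟨c, hc⟩ := p'.lt (div_ne_zero hf hA) (by rw [p'.sig_div hf hA, hfs, hs, sub_self])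
    have hX := p'.X_ne
    have h1 := p'.res_leX (f * (A * p'.X)⁻¹ - c • p'.X⁻¹)
    have h2 : p'.Res (f * (A * p'.X)⁻¹) = 0 := h0
    have e : p'.X * (f * (A * p'.X)⁻¹ - c • p'.X⁻¹) = f / A - algebraMap K M c := by
      rw [Algebra.smul_def]
      field_simp
    rw [e, map_sub, h2, map_smul, p'.res_invX, zero_sub, map_neg, p'.v.neg, smul_eq_mul, map_mul,
      map_ratCast, p'.v.mul, p'.v.rat p'.a_ne, mul_one] at h1
    exact absurd hc (not_lt.2 h1)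
  · exact ⟨0, fun f hf hfs _ => h ⟨f, hf, hfs⟩⟩

theorem SLP_poly (K : Type) [Field K] (k : ℕ) :
    ∃ P : ((Fin 2 → Fin (k + 1)) → K) →ₗ[K] MvPolynomial (Fin 2) K,
      (∀ c, P c = 0 → c = 0) ∧ ∀ c i, (P c).degreeOf i ≤ k := by
  classical
  let e : (Fin 2 → Fin (k + 1)) → Fin 2 →₀ ℕ := fun m =>
    Finsupp.equivFunOnFinite.symm fun i => (m i : ℕ)
  have he : Function.Injective e := fun m m' h => funext fun i =>
    Fin.ext (congrArg (fun β : Fin 2 →₀ ℕ => β i) h)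
  let P : ((Fin 2 → Fin (k + 1)) → K) →ₗ[K] MvPolynomial (Fin 2) K :=
    ∑ m, MvPolynomial.monomial (e m) ∘ₗ LinearMap.proj m
  have hP : ∀ c, P c = ∑ m, MvPolynomial.monomial (e m) (c m) := fun c => by
    simp only [P, LinearMap.sum_apply, LinearMap.comp_apply, LinearMap.proj_apply]
  refine ⟨P, fun c hc => funext fun m => ?_, fun c i => ?_⟩
  · have h1 := congrArg (MvPolynomial.coeff (e m)) hc
    rw [hP, MvPolynomial.coeff_sum, Finset.sum_eq_single m (fun m' _ h => by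
      rw [MvPolynomial.coeff_monomial, if_neg fun h' => h (he h')]) (by simp),
      MvPolynomial.coeff_monomial, if_pos rfl] at h1
    exact h1
  · rw [MvPolynomial.degreeOf_le_iff]
    intro β hβ
    rw [hP] at hβ
    obtain ⟨m, -, hm⟩ := Finset.mem_biUnion.1 (MvPolynomial.support_sum hβ)
    obtain rfl := Finset.mem_singleton.1 (MvPolynomial.support_monomial_subset hm)
    exact Nat.lt_succ_iff.1 (m i).2

theorem slp {K M : Type} [Field K] [Field M] [Algebra K M] {𝔉 : Fm K M} (p : TP 𝔉.pd) {δ : ℚ}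
    (hδ : 0 < δ) (lat : ∀ A ∈ Algebra.adjoin K {𝔉.x, 𝔉.y}, ∃ z : ℤ, p.sig A = z * δ) (k : ℕ)
    (B : ℝ) (low : ∀ Q : MvPolynomial (Fin 2) K, Q ≠ 0 → (∀ i, Q.degreeOf i ≤ k) →
      -B ≤ p.sig (MvPolynomial.aeval ![𝔉.x, 𝔉.y] Q)) :
    ∃ Q : MvPolynomial (Fin 2) K, Q ≠ 0 ∧ (∀ i, Q.degreeOf i ≤ k) ∧
      -B + ((k + 1) ^ 2 - 1) * (δ : ℝ) ≤ p.sig (MvPolynomial.aeval ![𝔉.x, 𝔉.y] Q) := by
  by_contra hc
  push Not at hc
  choose ℓ hℓ using SLP_form p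
  obtain ⟨P, hP, hd⟩ := SLP_poly K k
  have hδ' : (0 : ℝ) < δ := Rat.cast_pos.2 hδ
  let J : Finset ℤ := Finset.Ico ⌈-B / δ⌉ (⌈-B / δ⌉ + (((k + 1) ^ 2 - 1 : ℕ) : ℤ))
  let L : ((Fin 2 → Fin (k + 1)) → K) →ₗ[K] J → K := LinearMap.pi fun z : J =>
    ℓ ((z : ℤ) * δ) ∘ₗ (MvPolynomial.aeval ![𝔉.x, 𝔉.y]).toLinearMap ∘ₗ P
  have h1 : 0 < (k + 1) ^ 2 := by positivity
  have hk : LinearMap.ker L ≠ ⊥ := LinearMap.ker_ne_bot_of_finrank_lt (by
    simp only [J, Module.finrank_fintype_fun_eq_card, Fintype.card_coe, Int.card_Ico,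
      add_sub_cancel_left, Int.toNat_natCast, Fintype.card_fun, Fintype.card_fin]
    omega)
  obtain ⟨c, hcL, hc0⟩ := Submodule.exists_mem_ne_zero_of_ne_bot hk
  have hQ : P c ≠ 0 := fun h => hc0 (hP c h)
  have hA : MvPolynomial.aeval ![𝔉.x, 𝔉.y] (P c) ≠ 0 := fun h =>
    hQ (algebraicIndependent_iff.1 𝔉.basis.1 _ h)
  obtain ⟨z, hz⟩ := lat (MvPolynomial.aeval ![𝔉.x, 𝔉.y] (P c)) (by
    rw [← Matrix.range_cons_cons_empty 𝔉.x 𝔉.y ![], Algebra.adjoin_range_eq_range_aeval]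
    exact ⟨P c, rfl⟩)
  have h2 := low _ hQ (hd c)
  have h3 := hc _ hQ (hd c)
  rw [hz] at h2 h3
  push_cast at h2 h3
  have hJ : z ∈ J := by
    refine Finset.mem_Ico.2 ⟨Int.ceil_le.2 ((div_le_iff₀ hδ').2 h2), ?_⟩
    have h4 : -B ≤ (⌈-B / δ⌉ : ℝ) * δ := (div_le_iff₀ hδ').1 (Int.le_ceil _)
    have h5 : (z : ℝ) < ⌈-B / δ⌉ + (((k : ℝ) + 1) ^ 2 - 1) :=
      lt_of_mul_lt_mul_right (by linarith only [h3, h4]) hδ'.le
    rw [Nat.cast_sub h1]
    exact_mod_cast h5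
  exact hℓ _ _ hA hz (congrFun (LinearMap.mem_ker.1 hcL) ⟨z, hJ⟩)

end Pool.Agent.Work.MP_e120ef_ag.H.MQ
end

-- merged part: Pool.Agent.Work.MP_e120ef_ag.F.PtR
section
/-!
# Uniform bounds at generic radii

Plan.  For `φ ∈ Φ` choose `Q φ ≠ 0` with `aeval ![x, y, φ] (Q φ) = 0` (`alg_iff`).  `exists_ds` for `Φ ∪ {x, y, G, Δ}` and the coefficients of `P` and of the `Q φ`; `Ds.sy`; the preimages `φ₀` are algebraic over `K₀[x₀, y₀]` (`Ds.lift`, `Ds.aeval`, `alg_iff`).  `CharZero K₀` by `RingHom.charZero d.κ`.  `exists_am S₀`, `Φ'` a finset of preimages in `M` (`mem`), `w₀ : UV K₀` the norm of `κ c` (`(uvN hQ w).comap` of `i ∘ algebraMap`, or directly), `pr₀ = pr ∘ κ` (`RingHom.toRatAlgHom`), and `C` from `rad`.  For good `w`: `Ds.tp`, `TP.restrict` with `Λ = algebraMap (θ₀ x₀)`, `Bnd`, `slp` (polynomials over `K₀` are mapped to `K`: `MvPolynomial.map_injective`, `degreeOf` through `MvPolynomial.degrees_map_of_injective`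 or `support_map_of_injective`).
-/

namespace Pool.Agent.Work.MP_e120ef_ag.H.MQ

variable {K : Type} [NontriviallyNormedField K] [IsUltrametricDist K] [IsAlgClosed K]
  [CompleteSpace K] [CharZero K]

/-- the data at a generic radius -/
def Gd (pr : K →ₗ[ℚ] ℚ) (x y ℓ : Mo K) (Φ : Set (Mo K)) (C : ℝ) (w : Pt1 K Rad.out) : Prop :=
  ∃ δ : ℝ, 0 ≤ δ ∧ Spr (No K) x y w δ ∧
    (∀ φ ∈ Φ, φ ≠ 0 → ∃ n : ℝ, Sl (No K) w φ n ∧ |n| ≤ C * δ) ∧
    (∀ φ ∈ insert ℓ Φ, ∀ u : Pt1 K Rad.out, ‖u.v‖ = ‖w.v‖ → (No K).ord u φ = 0) ∧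
    ∃ c, RC w ℓ c ∧ |(pr c : ℝ)| ≤ C * δ

theorem PtR_deg {R T : Type} [CommRing R] [CommRing T] (κ : R →+* T)
    (Q : MvPolynomial (Fin 2) R) (i : Fin 2) : (MvPolynomial.map κ Q).degreeOf i ≤ Q.degreeOf i :=
  MvPolynomial.degreeOf_le_iff.2 fun _ hm =>
    MvPolynomial.monomial_le_degreeOf i (MvPolynomial.support_map_subset κ Q hm)

theorem PtR_j {K₀ 𝓜₀ N M : Type} [Field K₀] [Field 𝓜₀] [Algebra K₀ 𝓜₀] [Field N] [Algebra K₀ N]
    [Algebra 𝓜₀ N] [IsScalarTower K₀ 𝓜₀ N] [Field M] [Algebra K₀ M] {S : Sy K₀ 𝓜₀} (A : Am S N M)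
    (Q : MvPolynomial (Fin 2) K₀) : A.j (MvPolynomial.aeval ![A.𝔉.x, A.𝔉.y] Q) =
      algebraMap 𝓜₀ N (MvPolynomial.aeval ![S.x, S.y] Q) := by
  refine (MvPolynomial.comp_aeval_apply _ A.j Q).trans (Eq.trans ?_
    (MvPolynomial.comp_aeval_apply _ (IsScalarTower.toAlgHom K₀ 𝓜₀ N) Q).symm)
  refine congrArg (fun v => MvPolynomial.aeval v Q) (funext fun i => ?_)
  fin_cases i
  exacts [A.jx, A.jy]

theorem radii (hQ : ∀ n : ℕ, n ≠ 0 → ‖(n : K)‖ = 1) (hsur : ∀ r : ℝ, 0 ≤ r → ∃ x : K, ‖x‖ = r)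
    (S : Sy K (Mo K)) (hθ : S.θ = (No K).D) {pr : K →ₗ[ℚ] ℚ} (h₁ : pr 1 = 1)
    (h₂ : ∀ c, ‖c‖ < 1 → pr c = 0) (Φ : Finset (Mo K))
    (hΦ : ∀ a ∈ Φ, IsAlgebraic (Algebra.adjoin K {S.x, S.y}) a) :
    ∃ good : Set (Pt1 K Rad.out),
      (∀ a b : ℝ, 1 ≤ a → a < b → ∃ w ∈ good, a < ‖w.v‖ ∧ ‖w.v‖ < b) ∧ ∃ C : ℝ, ∀ w ∈ good,
        Gd pr S.x S.y (S.θ S.x * S.Δ) (insert (S.θ S.x) Φ) C w := by
  classical
  choose! Q hQ0 hQ1 using fun a ha => (alg_iff S.ind).1 (hΦ a ha)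
  obtain ⟨K₀, 𝓜₀, _, _, _, _, d, h1, h2⟩ := exists_ds hQ hsur (Φ ∪ {S.x, S.y, S.G, S.Δ})
    (S.P.support.image S.P.coeff ∪ Φ.biUnion fun a => (Q a).support.image (Q a).coeff)
  obtain ⟨S₀, e0, ex, ey, eΔ⟩ := d.sy S hθ (h1 _ (by simp)) (h1 _ (by simp)) (h1 _ (by simp))
    (h1 _ (by simp)) fun m hm => h2 _ (Finset.mem_union_left _ (Finset.mem_image_of_mem _ hm))
  have : CharZero K₀ := RingHom.charZero d.κ
  obtain ⟨N, M, _, _, _, _, _, _, _, _, _, ⟨A⟩⟩ := exists_am S₀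
  have : CharZero M := charZero_of_injective_algebraMap (algebraMap K₀ M).injective
  have key : ∀ φ ∈ Φ, ∃ (a : 𝓜₀) (f : M), d.i a = φ ∧ A.j f = algebraMap 𝓜₀ N a := by
    intro φ hφ
    obtain ⟨a, rfl⟩ := h1 φ (Finset.mem_union_left _ hφ)
    obtain ⟨Q₀, e⟩ := d.lift (Q := Q (d.i a)) fun m hm => h2 _ (Finset.mem_union_right _
      (Finset.mem_biUnion.2 ⟨_, hφ, Finset.mem_image_of_mem _ hm⟩))
    have e1 : (fun l => d.i (![S₀.x, S₀.y, a] l)) = ![S.x, S.y, d.i a] := funext fun l => by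
      fin_cases l
      exacts [ex, ey, rfl]
    obtain ⟨f, hf⟩ := A.mem a ((alg_iff S₀.ind).2 ⟨Q₀,
      fun k => hQ0 _ hφ (by rw [← e, k, map_zero]),
      d.i.injective (by rw [d.aeval, e, e1, map_zero, hQ1 _ hφ])⟩)
    exact ⟨a, f, rfl, hf⟩
  choose! a f ha hf using key
  let w₀ : UV K₀ := (uvN hQ (Pt1.one K Rad.out)).comap ((algebraMap K (Mo K)).comp d.κ)
  have hw₀ : ∀ c, w₀ c = ‖d.κ c‖ := fun c => (No K).nr_alg _ _
  let pr₀ : K₀ →ₗ[ℚ] ℚ := pr.comp d.κ.toRatAlgHom.toLinearMap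
  have hp₀ : ∀ c, pr₀ c = pr (d.κ c) := fun c => rfl
  obtain ⟨C, hC⟩ := rad (𝔉 := A.𝔉) (Φ.image f) (w := w₀) (pr := pr₀)
    (by rw [hp₀, map_one, h₁]) fun c hc => by rw [hp₀, h₂ _ (hw₀ c ▸ hc)]
  refine ⟨d.good, d.dense, C, fun w hw => ?_⟩
  obtain ⟨q, q1, q2, q3, q4⟩ := d.tp hQ (ϑ := A.ϑ) (fun a => by rw [A.ϑ_alg, e0]) hw
  obtain ⟨p, p1, p2, p3, p4⟩ := q.restrict q1 A.𝔉 A.j A.ϑ_j
  obtain ⟨δ, d0, d1, d2, d3, d4⟩ := hC p fun c => by rw [p1, A.j.commutes, q2, hw₀]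
  have el : d.i (S₀.θ S₀.x) = S.θ S.x := by rw [e0, d.i_θ, ex, hθ]
  have sl : ∀ R : MvPolynomial (Fin 2) K₀, R ≠ 0 →
      Sl (No K) w (MvPolynomial.aeval ![S.x, S.y] (MvPolynomial.map d.κ R))
        (p.sig (MvPolynomial.aeval ![A.𝔉.x, A.𝔉.y] R)) := fun R hR => by
    have e1 : (fun l => d.i (![S₀.x, S₀.y] l)) = ![S.x, S.y] := funext fun l => by
      fin_cases l
      exacts [ex, ey]
    rw [p2, PtR_j, ← e1, ← d.aeval]
    exact q3 _ fun k => hR (algebraicIndependent_iff.1 S₀.ind R k)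
  have ne : ∀ R : MvPolynomial (Fin 2) K₀, R ≠ 0 → MvPolynomial.map d.κ R ≠ 0 := fun R hR =>
    (map_ne_zero_iff _ (MvPolynomial.map_injective _ d.κ.injective)).2 hR
  refine ⟨δ, by exact_mod_cast d0.le, fun k B low => ?_, fun φ hφ h0 => ?_, fun φ hφ => ?_,
    d.κ (q.Res (algebraMap 𝓜₀ N (S₀.θ S₀.x * S₀.Δ))), ?_, ?_⟩
  · obtain ⟨R, r0, r1, r2⟩ := slp p d0 d1 k B fun R r0 r1 =>
      low _ _ (ne R r0) (fun i => (PtR_deg _ R i).trans (r1 i)) (sl R r0)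
    exact ⟨_, _, ne R r0, fun i => (PtR_deg _ R i).trans (r1 i), sl R r0, r2⟩
  · rcases hφ with rfl | hφ
    · refine ⟨_, el ▸ q3 _ S₀.hx, ?_⟩
      rw [← p4]
      exact_mod_cast d3
    · refine ⟨_, ha φ hφ ▸ q3 (a φ) fun k => h0 (by rw [← ha φ hφ, k, map_zero]), ?_⟩
      rw [← hf φ hφ, ← p2]
      exact_mod_cast d2 _ (Finset.mem_image_of_mem f hφ)
  · rcases hφ with rfl | rfl | hφ
    · rw [← el, ← eΔ, ← map_mul]
      exact d.reg w hw _
    · rw [← el]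
      exact d.reg w hw _
    · rw [← ha φ hφ]
      exact d.reg w hw _
  · rw [← el, ← eΔ, ← map_mul]
    exact q4 _
  · rw [map_mul, ← A.jΔ, ← p3, ← hp₀]
    exact_mod_cast d4

end Pool.Agent.Work.MP_e120ef_ag.H.MQ
end
end
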