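import Pool.Agent.Work.MP_e120ef_ag.F.RT
import Pool.Agent.Work.MP_e120ef_ag.F.PtR
import Pool.Agent.Work.MP_e120ef_ag.F.Sy
import Pool.Agent.Work.MP_e120ef_ag.F.PtG

attribute [-instance] Subalgebra.normedCommRing Subalgebra.seminormedCommRing
  Subalgebra.seminormedRing Subalgebra.normedRing
  Localization.subalgebra.instIsFractionRingSubtypeMemSubalgebra
attribute [local instance 2000] RingHomClass.toAddMonoidHomClass AddMonoidHomClass.toAddHomClass
  RingHom.instRingHomClass AlgHomClass.toRingHomClass IsDomain.to_noZeroDivisors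
  IsDomain.toNontrivial NeZero.one RingHomClass.toMonoidHomClass MonoidHomClass.toMulHomClass
  RingHomClass.toMonoidWithZeroHomClass AddMonoidHomClass.toZeroHomClass MonoidHomClass.toOneHomClass
attribute [-instance] instCharZeroOfIsSemireal AlgHom.instContinuousLinearMapClassOfAlgHomClass
  RingHomClass.toLinearMapClassRat RingHomClass.toLinearMapClassNNRat NumberField.to_charZero

-- merged part: Pool.Agent.Work.MP_e120ef_ag.F.Bad
section
/-!
# Repeated passages through finitely many branches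

Plans.  `bad_cls`: some element of `L` has positive order at `z'` (`x⁻¹`, `x`, or `x - c` from `ord_val`); `π` has minimal positive order `e'`; `e'` divides every order (remainder), `vv f = ord z' f / e'`.  `f / π ^ vv f` and its inverse are regular at `z'`, hence at `z`.
`bad_res`: induction on `(-vv g).toNat`.  If `0 ≤ vv g` the function is regular (`regV_D`, `RS.reg`).  Otherwise `ord_val` at `z'` for `g * π ^ j`, `j = -vv g`, gives `c₀` with `g - c₀ • π⁻¹ ^ j` zero or of larger `vv`; `D π * π⁻¹ ^ j` is logarithmic (`RS.log`) for `j = 1` and exact (`RS.exa`) for `j ≥ 2`.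
`bad_pen`: `D π = θ x * g₁` with `g₁ ∈ L` (`Sy.stable`), `ord z (D π) = ord z π - 1` (`ord_D`), `θ x * Δ = D π * (Δ / g₁)`; every term is a multiple of `e = ord z π ≥ 1`, apart from `2 m ≤ 2 m e`.
`bad_aux`: for a finite dimensional subspace `V` whose nonzero elements have order at least `a` at `z'`, the elements that are zero or of order at least `a + 1` form a subspace of codimension at most one (`ord_val`).  Start from the span of the `(k + 1) ^ 2` monomials (independent), whose orders are at least `-k * pl z'` (`ord_poly`); the number of conditions is at most `card B * (C + P) * k < (k + 1) ^ 2` for `k = card B * (C + P) + 1`.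
`bad`: at a good point `pl ≤ 2 nu h`.  At a bad point related to `z'`, `pl - 2 nu ≤ C e` and `2 k C e ≤ ord z A` (take the constant `2 C * ord z' π` in `bad_aux`, with `C` a natural number bounding all classes).  In both cases `pl ≤ 2 nu + (ord z A + k pl) / (2 k)`.
-/

namespace Pool.Agent.Work.MP_e120ef_ag.H.MQ

section Aux

variable {K M : Type} [NontriviallyNormedField K] [Field M] [Algebra K M] (N : Nev K Rad.out M)

theorem Bad_pow (z : Pt1 K Rad.out) {u : M} (h : u ≠ 0) (n : ℕ) :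
    N.ord z (u ^ n) = n * N.ord z u := by
  induction n with
  | zero => simp [NevA_ord_one]
  | succ n ih =>
    rw [pow_succ, N.ord_mul z _ _ (pow_ne_zero n h) h, ih]
    push_cast
    ring

theorem Bad_zpow (z : Pt1 K Rad.out) {u : M} (h : u ≠ 0) (n : ℤ) :
    N.ord z (u ^ n) = n * N.ord z u := by
  obtain ⟨n, rfl | rfl⟩ := n.eq_nat_or_neg
  · rw [zpow_natCast, Bad_pow N z h]
  · rw [zpow_neg, zpow_natCast, NevA_ord_inv, Bad_pow N z h, neg_mul]

theorem Bad_div (z : Pt1 K Rad.out) {u v : M} (h : u ≠ 0) (h' : v ≠ 0) :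
    N.ord z (u / v) = N.ord z u - N.ord z v := by
  rw [div_eq_mul_inv, N.ord_mul z _ _ h (inv_ne_zero h'), NevA_ord_inv, sub_eq_add_neg]

theorem Bad_ne {z : Pt1 K Rad.out} {u : M} (h : 0 < N.ord z u) : u ≠ 0 := by
  rintro rfl
  rw [N.ord_zero] at h
  exact lt_irrefl _ h

/-- the functions of order at least `a` at `z` -/
def Bad_ge (z : Pt1 K Rad.out) (a : ℤ) : Submodule K M where
  carrier := {u | u = 0 ∨ a ≤ N.ord z u}
  zero_mem' := Or.inl rfl
  add_mem' := by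
    intro u v hu hv
    by_cases h1 : u = 0
    · rwa [h1, zero_add]
    by_cases h2 : v = 0
    · rwa [h2, add_zero]
    by_cases h3 : u + v = 0
    · exact Or.inl h3
    exact Or.inr ((le_min (hu.resolve_left h1) (hv.resolve_left h2)).trans
      (N.ord_add z u v h1 h2 h3))
  smul_mem' := by
    intro c u hu
    by_cases h1 : u = 0
    · exact Or.inl (by rw [h1, smul_zero])
    by_cases h2 : c = 0
    · exact Or.inl (by rw [h2, zero_smul])
    refine Or.inr ?_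
    rw [Algebra.smul_def, N.ord_mul z _ _ ((map_ne_zero _).2 h2) h1, N.ord_alg, zero_add]
    exact hu.resolve_left h1

theorem Bad_mem {z : Pt1 K Rad.out} {a : ℤ} {u : M} :
    u ∈ Bad_ge N z a ↔ u = 0 ∨ a ≤ N.ord z u := Iff.rfl

variable {W : Type} [AddCommGroup W] [Module K W] [FiniteDimensional K W] (φ : W →ₗ[K] M)

theorem Bad_step (z : Pt1 K Rad.out) (a : ℤ) (V : Submodule K W) (h : V ≤ (Bad_ge N z a).comap φ) :
    Module.finrank K V ≤ Module.finrank K ↥(V ⊓ (Bad_ge N z (a + 1)).comap φ) + 1 := by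
  by_cases hV : V ≤ (Bad_ge N z (a + 1)).comap φ
  · rw [inf_eq_left.2 hV]
    exact Nat.le_succ _
  obtain ⟨w₀, h0, h1⟩ := SetLike.not_le_iff_exists.1 hV
  rw [Submodule.mem_comap, Bad_mem, not_or] at h1
  have h2 : N.ord z (φ w₀) = a := by
    have := ((Bad_mem N).1 (h h0)).resolve_left h1.1
    omega
  have h3 : V ≤ (V ⊓ (Bad_ge N z (a + 1)).comap φ) ⊔ K ∙ w₀ := fun w hw => by
    obtain ⟨c, hc⟩ : ∃ c : K, φ w / φ w₀ - algebraMap K M c ∈ (N.regV z).nonunits := by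
      refine N.regV_val ?_
      rw [Nev.mem_regV]
      by_cases e : φ w = 0
      · rw [e, zero_div, N.ord_zero]
      · have := ((Bad_mem N).1 (h hw)).resolve_left e
        rw [Bad_div N z e h1.1]
        omega
    have e : φ (w - c • w₀) = (φ w / φ w₀ - algebraMap K M c) * φ w₀ := by
      rw [map_sub, map_smul, sub_mul, div_mul_cancel₀ _ h1.1, Algebra.smul_def]
    rw [← sub_add_cancel w (c • w₀)]
    refine Submodule.add_mem_sup ⟨sub_mem hw (V.smul_mem c h0), ?_⟩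
      (Submodule.smul_mem _ c (Submodule.mem_span_singleton_self w₀))
    change φ (w - c • w₀) ∈ Bad_ge N z (a + 1)
    rw [e, Bad_mem]
    rcases N.regV_nonunits.1 hc with hc | hc
    · exact Or.inl (by rw [hc, zero_mul])
    · refine Or.inr ?_
      rw [N.ord_mul z _ _ (Bad_ne N hc) h1.1]
      omega
  refine (Submodule.finrank_mono h3).trans ((Submodule.finrank_add_le_finrank_add_finrank _ _).trans
    (Nat.add_le_add_left ?_ _))
  exact (finrank_span_le_card _).trans (by simp)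

theorem Bad_steps (z : Pt1 K Rad.out) (a : ℤ) (V : Submodule K W)
    (h : V ≤ (Bad_ge N z a).comap φ) (n : ℕ) : ∃ V' ≤ V, V' ≤ (Bad_ge N z (a + n)).comap φ ∧
      Module.finrank K V ≤ Module.finrank K V' + n := by
  induction n with
  | zero => exact ⟨V, le_rfl, by simpa using h, le_rfl⟩
  | succ n ih =>
    obtain ⟨V', h1, h2, h3⟩ := ih
    have h4 := Bad_step N φ z _ V' h2
    refine ⟨V' ⊓ (Bad_ge N z (a + n + 1)).comap φ, inf_le_left.trans h1, ?_, by omega⟩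
    rw [Nat.cast_succ, ← add_assoc]
    exact inf_le_right

theorem Bad_all (a : Pt1 K Rad.out → ℤ) (h : ∀ z w, φ w ∈ Bad_ge N z (a z)) (n : ℕ)
    (B : Finset (Pt1 K Rad.out)) : ∃ V : Submodule K W,
      (∀ z ∈ B, V ≤ (Bad_ge N z (a z + n)).comap φ) ∧
      Module.finrank K W ≤ Module.finrank K V + B.card * n := by
  classical
  induction B using Finset.induction_on with
  | empty => exact ⟨⊤, by simp, by simp⟩
  | insert z B hz ih =>
    obtain ⟨V, h1, h2⟩ := ih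
    obtain ⟨V', h3, h4, h5⟩ := Bad_steps N φ z (a z) V (fun w _ => h z w) n
    refine ⟨V', fun u hu => ?_, ?_⟩
    · rcases Finset.mem_insert.1 hu with rfl | hu
      exacts [h4, h3.trans (h1 u hu)]
    · rw [Finset.card_insert_of_notMem hz, Nat.succ_mul]
      omega

/-- polynomials of bidegree at most `(k, k)` -/
theorem Bad_box (K : Type) [Field K] (k : ℕ) :
    ∃ Ψ : ((Fin 2 → Fin (k + 1)) → K) →ₗ[K] MvPolynomial (Fin 2) K, Function.Injective Ψ ∧
      ∀ c i, (Ψ c).degreeOf i ≤ k := by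
  let e : (Fin 2 → Fin (k + 1)) → (Fin 2 →₀ ℕ) := fun s =>
    Finsupp.equivFunOnFinite.symm fun i => (s i : ℕ)
  have he : Function.Injective e := fun s t h =>
    funext fun i => Fin.ext (congrFun (Finsupp.equivFunOnFinite.symm.injective h) i)
  refine ⟨Fintype.linearCombination K (MvPolynomial.basisMonomials (Fin 2) K ∘ e),
    linearIndependent_iff_injective_fintypeLinearCombination.1
      ((MvPolynomial.basisMonomials (Fin 2) K).linearIndependent.comp e he), fun c i => ?_⟩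
  have h1 : Fintype.linearCombination K (MvPolynomial.basisMonomials (Fin 2) K ∘ e) c ∈
      MvPolynomial.restrictDegree (Fin 2) K k := by
    rw [Fintype.linearCombination_apply]
    refine Submodule.sum_mem _ fun s _ => Submodule.smul_mem _ _ ?_
    rw [MvPolynomial.mem_restrictDegree]
    intro t ht j
    rw [Function.comp_apply, MvPolynomial.coe_basisMonomials] at ht
    rw [Finset.mem_singleton.1 (MvPolynomial.support_monomial_subset ht)]
    exact Nat.lt_succ_iff.1 (s j).2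
  exact MvPolynomial.degreeOf_le_iff.2 fun t ht =>
    (MvPolynomial.mem_restrictDegree _ _ _).1 h1 t ht i

end Aux

variable {K : Type} [NontriviallyNormedField K] [IsUltrametricDist K] [IsAlgClosed K]
  [CompleteSpace K] [CharZero K] {res : Pt1 K Rad.out → Mo K →ₗ[K] K}

/-- `z` and `z'` define the same valuation ring of `L` -/
def Rel (L : IntermediateField K (Mo K)) (z z' : Pt1 K Rad.out) : Prop :=
  ∀ f ∈ L, 0 ≤ (No K).ord z f ↔ 0 ≤ (No K).ord z' f

theorem bad_cls (L : IntermediateField K (Mo K)) {x : Mo K} (hx : x ∈ L)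
    (hx' : ∀ c, x ≠ algebraMap K _ c) (z' : Pt1 K Rad.out) : ∃ π ∈ L, ∃ vv : Mo K → ℤ,
      ∀ z, Rel L z z' → 0 < (No K).ord z π ∧
        ∀ f ∈ L, f ≠ 0 → (No K).ord z f = (No K).ord z π * vv f := by
  obtain ⟨f₀, hf₀, h₀⟩ : ∃ f ∈ L, 0 < (No K).ord z' f := by
    rcases lt_trichotomy ((No K).ord z' x) 0 with h | h | h
    · exact ⟨x⁻¹, L.inv_mem hx, by rw [NevA_ord_inv]; omega⟩
    · obtain ⟨c, hc | hc⟩ := (No K).ord_val z' x h
      · exact absurd hc (hx' c)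
      · exact ⟨_, L.sub_mem hx (L.algebraMap_mem c), hc⟩
    · exact ⟨x, hx, h⟩
  obtain ⟨_, ⟨π, hπ, hp, rfl⟩, hmin⟩ := Int.exists_least_of_bdd
    (P := fun e => ∃ f ∈ L, 0 < (No K).ord z' f ∧ (No K).ord z' f = e)
    ⟨0, fun e ⟨f, _, h1, h2⟩ => h2 ▸ h1.le⟩ ⟨_, f₀, hf₀, h₀, rfl⟩
  have hπ0 := Bad_ne _ hp
  refine ⟨π, hπ, fun f => (No K).ord z' f / (No K).ord z' π, fun z hz => ⟨?_, fun f hf hf0 => ?_⟩⟩
  · have := hz π⁻¹ (L.inv_mem hπ)
    rw [NevA_ord_inv, NevA_ord_inv] at this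
    omega
  · obtain ⟨n, hn⟩ : ∃ n, n = (No K).ord z' f / (No K).ord z' π := ⟨_, rfl⟩
    have hg : f / π ^ n ∈ L := L.div_mem hf (zpow_mem hπ n)
    have e : ∀ u, (No K).ord u (f / π ^ n) = (No K).ord u f - n * (No K).ord u π := fun u => by
      rw [Bad_div _ u hf0 (zpow_ne_zero n hπ0), Bad_zpow _ u hπ0]
    have h1 : (No K).ord z' (f / π ^ n) = (No K).ord z' f % (No K).ord z' π := by
      rw [e, Int.emod_def, hn, mul_comm]
    have h2 := Int.emod_nonneg ((No K).ord z' f) hp.ne'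
    have h3 := Int.emod_lt_of_pos ((No K).ord z' f) hp
    have h4 : (No K).ord z' (f / π ^ n) = 0 := by
      by_contra hne
      have := hmin _ ⟨_, hg, by omega, rfl⟩
      omega
    have h5 := (hz _ hg).2 h4.ge
    have h6 := hz _ (L.inv_mem hg)
    rw [NevA_ord_inv, NevA_ord_inv, h4] at h6
    have h7 := h6.2 (by simp)
    rw [e] at h5 h7
    change _ = _ * ((No K).ord z' f / (No K).ord z' π)
    rw [← hn, mul_comm]
    omega

theorem bad_res (hres : RS res) {L : IntermediateField K (Mo K)} {z' : Pt1 K Rad.out} {π : Mo K}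
    (hπ : π ∈ L) {vv : Mo K → ℤ} (h : ∀ z, Rel L z z' → 0 < (No K).ord z π ∧
      ∀ f ∈ L, f ≠ 0 → (No K).ord z f = (No K).ord z π * vv f) {g : Mo K} (hg : g ∈ L) :
    ∃ c : K, ∀ z, Rel L z z' → res z ((No K).D π * g) = (No K).ord z π * c := by
  obtain ⟨hp, hv⟩ := h z' fun _ _ => Iff.rfl
  have hπ0 := Bad_ne _ hp
  have key : ∀ n : ℕ, ∀ g ∈ L, (g = 0 ∨ -(n : ℤ) ≤ vv g) →
      ∃ c : K, ∀ z, Rel L z z' → res z ((No K).D π * g) = (No K).ord z π * c := by
    intro n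
    induction n with
    | zero =>
      intro g hg hn
      refine ⟨0, fun z hz => ?_⟩
      obtain ⟨h1, h2⟩ := h z hz
      rw [mul_zero]
      refine hres.reg z _ (((No K).regV z).mul_mem _ _ ((No K).regV_D h1.le) ?_)
      by_cases e : g = 0
      · rw [e]
        exact ((No K).regV z).zero_mem
      · rw [Nev.mem_regV, h2 g hg e]
        exact mul_nonneg h1.le (by simpa using hn.resolve_left e)
    | succ n ih =>
      intro g hg hn
      by_cases hn' : g = 0 ∨ -(n : ℤ) ≤ vv g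
      · exact ih g hg hn'
      rw [not_or] at hn'
      have h1 : vv g = -((n + 1 : ℕ) : ℤ) := by
        have := hn.resolve_left hn'.1
        omega
      have h2 : (No K).ord z' (g * π ^ (n + 1)) = 0 := by
        rw [(No K).ord_mul z' _ _ hn'.1 (pow_ne_zero _ hπ0), Bad_pow _ z' hπ0, hv g hg hn'.1, h1]
        ring
      obtain ⟨c₀, hc⟩ := (No K).ord_val z' _ h2
      have hg' : (g * π ^ (n + 1) - algebraMap K _ c₀) / π ^ (n + 1) ∈ L :=
        L.div_mem (L.sub_mem (L.mul_mem hg (pow_mem hπ _)) (L.algebraMap_mem c₀)) (pow_mem hπ _)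
      obtain ⟨c', hc'⟩ := ih _ hg' (by
        rcases hc with hc | hc
        · exact Or.inl (by rw [hc, sub_self, zero_div])
        · refine Or.inr ?_
          have h3 := hv _ hg' (div_ne_zero (Bad_ne _ hc) (pow_ne_zero _ hπ0))
          rw [Bad_div _ z' (Bad_ne _ hc) (pow_ne_zero _ hπ0), Bad_pow _ z' hπ0] at h3
          have h4 : (No K).ord z' π * -((n + 1 : ℕ) : ℤ) < (No K).ord z' π *
              vv ((g * π ^ (n + 1) - algebraMap K _ c₀) / π ^ (n + 1)) := by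
            rw [← h3]
            linarith
          have h5 := lt_of_mul_lt_mul_left h4 hp.le
          omega)
      have e : (No K).D π * g = (No K).D π * ((g * π ^ (n + 1) - algebraMap K _ c₀) / π ^ (n + 1)) +
          c₀ • ((No K).D π / π ^ (n + 1)) := by
        rw [Algebra.smul_def]
        field_simp
        ring
      cases n with
      | zero =>
        refine ⟨c' + c₀, fun z hz => ?_⟩
        rw [e, map_add, hc' z hz, map_smul, zero_add, pow_one, hres.log, smul_eq_mul]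
        ring
      | succ n =>
        refine ⟨c', fun z hz => ?_⟩
        have h3 := hres.exa z ((π ^ (n + 1))⁻¹)
        have h4 : (No K).D (π ^ (n + 1))⁻¹ =
            (-((n + 1 : ℕ) : K)) • ((No K).D π / π ^ (n + 1 + 1)) := by
          rw [Derivation.leibniz_inv, Derivation.leibniz_pow, Algebra.smul_def (-_ : K), map_neg,
            map_natCast]
          simp only [smul_eq_mul, nsmul_eq_mul, Nat.add_sub_cancel]
          field_simp
          ring
        rw [h4, map_smul, smul_eq_mul] at h3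
        rw [e, map_add, hc' z hz, map_smul,
          (mul_eq_zero.1 h3).resolve_left (neg_ne_zero.2 (Nat.cast_ne_zero.2 n.succ_ne_zero)),
          smul_zero, add_zero]
  exact key (-vv g).toNat g hg (Or.inr (by omega))

theorem bad_aux {x y : Mo K} (h : AlgebraicIndependent K ![x, y]) (B : Finset (Pt1 K Rad.out))
    (C : ℕ) : ∃ (k : ℕ) (Q : MvPolynomial (Fin 2) K), k ≠ 0 ∧ Q ≠ 0 ∧ (∀ i, Q.degreeOf i ≤ k) ∧
      ∀ z ∈ B, (C * k : ℤ) ≤ (No K).ord z (MvPolynomial.aeval ![x, y] Q) := by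
  obtain ⟨P, hP⟩ : ∃ P : ℕ, ∀ z ∈ B, pl (No K) x y z ≤ P :=
    ⟨B.sup fun z => (pl (No K) x y z).toNat, fun z hz =>
      Int.toNat_le.1 (Finset.le_sup (f := fun z => (pl (No K) x y z).toNat) hz)⟩
  obtain ⟨k, hk⟩ : ∃ k, k = B.card * (C + P) + 1 := ⟨_, rfl⟩
  obtain ⟨Ψ, h1, h2⟩ := Bad_box K k
  obtain ⟨V, h3, h4⟩ := Bad_all (No K) ((MvPolynomial.aeval ![x, y]).toLinearMap ∘ₗ Ψ)
    (fun z => -(k * pl (No K) x y z)) (fun z c => Or.inr (by
      have := ord_poly (N := No K) (x := x) (y := y) (h2 c) z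
      change _ ≤ (No K).ord z (MvPolynomial.aeval ![x, y] (Ψ c))
      omega)) ((C + P) * k) B
  rw [Module.finrank_fintype_fun_eq_card, Fintype.card_fun, Fintype.card_fin, Fintype.card_fin,
    ← mul_assoc] at h4
  have h5 : V ≠ ⊥ := by
    rintro rfl
    rw [finrank_bot] at h4
    nlinarith
  obtain ⟨c, hc, hc0⟩ := Submodule.exists_mem_ne_zero_of_ne_bot h5
  have hQ : Ψ c ≠ 0 := fun e => hc0 (h1 (e.trans (map_zero Ψ).symm))
  refine ⟨k, Ψ c, by omega, hQ, h2 c, fun z hz => ?_⟩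
  have h6 : MvPolynomial.aeval ![x, y] (Ψ c) = 0 ∨ -(k * pl (No K) x y z) + ((C + P) * k : ℕ) ≤
      (No K).ord z (MvPolynomial.aeval ![x, y] (Ψ c)) := h3 z hz hc
  have h7 := h6.resolve_left fun e => hQ (algebraicIndependent_iff.1 h _ e)
  have h8 := mul_le_mul_of_nonneg_left (hP z hz) (Int.natCast_nonneg k)
  push_cast at h7
  linarith

variable (hres : RS res) (S : Sy K (Mo K)) (hθ : S.θ = (No K).D) (pr : K →ₗ[ℚ] ℚ) (m : ℕ)
  {h : Mo K} (h₀ : h ≠ 0) (halg : IsAlgebraic (Algebra.adjoin K {S.x, S.y}) h)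
include hres hθ h₀ halg

theorem bad_pen (z' : Pt1 K Rad.out) :
    ∃ π ∈ IntermediateField.adjoin K {S.x, S.y, S.G, S.Δ, h}, ∃ (vv : Mo K → ℤ) (C : ℕ),
      ∀ z, Rel (IntermediateField.adjoin K {S.x, S.y, S.G, S.Δ, h}) z z' → 0 < (No K).ord z π ∧
        (∀ f ∈ IntermediateField.adjoin K {S.x, S.y, S.G, S.Δ, h}, f ≠ 0 →
          (No K).ord z f = (No K).ord z π * vv f) ∧
        (pl (No K) S.x S.y z : ℚ) - 2 * nu res pr (S.θ S.x) S.Δ m z h ≤ C * (No K).ord z π := by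
  obtain ⟨L, hL⟩ : ∃ L, L = IntermediateField.adjoin K {S.x, S.y, S.G, S.Δ, h} := ⟨_, rfl⟩
  have hm : ∀ a ∈ ({S.x, S.y, S.G, S.Δ, h} : Set (Mo K)), a ∈ L := fun a ha =>
    hL ▸ IntermediateField.subset_adjoin _ _ ha
  have hst : ∀ f ∈ L, S.θ f / S.θ S.x ∈ L := fun f hf => by
    rw [hL] at hf ⊢
    refine S.stable (by simp) (by simp) (by simp) ?_ hf
    rintro a (rfl | rfl | rfl | rfl | rfl)
    · exact isAlgebraic_algebraMap
        (⟨S.x, Algebra.subset_adjoin (by simp)⟩ : Algebra.adjoin K {S.x, S.y})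
    · exact isAlgebraic_algebraMap
        (⟨S.y, Algebra.subset_adjoin (by simp)⟩ : Algebra.adjoin K {S.x, S.y})
    exacts [S.alg_G, S.alg_Δ, halg]
  rw [← hL]
  obtain ⟨π, hπ, vv, hv⟩ := bad_cls L (hm S.x (by simp))
    (fun c e => S.hx (by rw [e, Derivation.map_algebraMap])) z'
  obtain ⟨g₁, hg₁⟩ : ∃ g₁, g₁ = S.θ π / S.θ S.x := ⟨_, rfl⟩
  have h1 : g₁ ∈ L := hg₁ ▸ hst π hπ
  have h2 : (No K).D π ≠ 0 := ((No K).ord_D z' π (hv z' fun _ _ => Iff.rfl).1.ne').1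
  have h3 : g₁ ≠ 0 := hg₁ ▸ div_ne_zero (hθ ▸ h2) S.hx
  have h4 : S.θ S.x = (No K).D π / g₁ := by
    rw [hg₁, ← hθ, div_div_cancel₀ (hθ ▸ h2)]
  obtain ⟨c, hc⟩ := bad_res hres hπ hv (L.div_mem (hm S.Δ (by simp)) h1)
  have hx0 : S.x ≠ 0 := S.ind.ne_zero 0
  have hy0 : S.y ≠ 0 := S.ind.ne_zero 1
  refine ⟨π, hπ, vv, ⌈((max (-vv S.x) 0 + max (-vv S.y) 0 : ℤ) : ℚ) - 2 * vv h + 2 * m * vv g₁ -
    2 * m * pr c⌉₊, fun z hz => ⟨(hv z hz).1, (hv z hz).2, ?_⟩⟩
  obtain ⟨he, hf⟩ := hv z hz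
  have e1 : pl (No K) S.x S.y z = (max (-vv S.x) 0 + max (-vv S.y) 0) * (No K).ord z π := by
    rw [pl, hf _ (hm S.x (by simp)) hx0, hf _ (hm S.y (by simp)) hy0, add_mul,
      max_mul_of_nonneg _ _ he.le, max_mul_of_nonneg _ _ he.le]
    simp only [zero_mul, neg_mul, mul_comm]
  have e2 : (No K).ord z (S.θ S.x) = (No K).ord z π - 1 - (No K).ord z π * vv g₁ := by
    rw [h4, Bad_div _ z h2 h3, ((No K).ord_D z π he.ne').2, hf _ h1 h3]
  have e3 : pr (res z (S.θ S.x * S.Δ)) = (No K).ord z π * pr c := by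
    have : S.θ S.x * S.Δ = (No K).D π * (S.Δ / g₁) := by
      rw [h4]
      ring
    rw [this, hc z hz, ← zsmul_eq_mul, map_zsmul, zsmul_eq_mul]
  have e4 : (1 : ℚ) ≤ (No K).ord z π := by exact_mod_cast he
  have e5 := mul_le_mul_of_nonneg_right (Nat.le_ceil
    (((max (-vv S.x) 0 + max (-vv S.y) 0 : ℤ) : ℚ) - 2 * vv h + 2 * m * vv g₁ - 2 * m * pr c))
    (zero_le_one.trans e4)
  have e6 := mul_le_mul_of_nonneg_left e4 (Nat.cast_nonneg m : (0 : ℚ) ≤ m)
  rw [nu, e1, e2, e3, hf _ (hm h (by simp)) h₀]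
  refine le_trans ?_ e5
  generalize max (-vv S.x) 0 + max (-vv S.y) 0 = a
  push_cast
  linarith

theorem bad (B : Finset (Pt1 K Rad.out))
    (hB : ∀ z, (0 ≤ nu res pr (S.θ S.x) S.Δ m z h ∧ 0 ≤ nu res pr (S.θ S.x) S.Δ m z (S.x * h) ∧
      0 ≤ nu res pr (S.θ S.x) S.Δ m z (S.y * h)) ∨
      ∃ z' ∈ B, Rel (IntermediateField.adjoin K {S.x, S.y, S.G, S.Δ, h}) z z') :
    ∃ A ∈ Algebra.adjoin K {S.x, S.y}, A ≠ 0 ∧ ∃ c : ℚ, ∀ z, (pl (No K) S.x S.y z : ℚ) ≤
      4 * nu res pr (S.θ S.x) S.Δ m z h + c * (No K).ord z A := by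
  choose π hπ vv C hC using bad_pen hres S hθ pr m h₀ halg
  obtain ⟨C₁, hC₁⟩ : ∃ C₁ : ℕ, ∀ z' ∈ B, 2 * C z' * (No K).ord z' (π z') ≤ C₁ :=
    ⟨B.sup fun z' => (2 * C z' * (No K).ord z' (π z')).toNat, fun z' hz =>
      Int.toNat_le.1 (Finset.le_sup (f := fun z' => (2 * C z' * (No K).ord z' (π z')).toNat) hz)⟩
  obtain ⟨k, Q, hk, hQ, hd, hA⟩ := bad_aux S.ind B C₁
  have hA0 : MvPolynomial.aeval ![S.x, S.y] Q ≠ 0 := fun e =>
    hQ (algebraicIndependent_iff.1 S.ind _ e)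
  have hAm : MvPolynomial.aeval ![S.x, S.y] Q ∈ Algebra.adjoin K {S.x, S.y} := by
    rw [← Sy_range, Algebra.adjoin_range_eq_range_aeval]
    exact ⟨Q, rfl⟩
  have hAL : MvPolynomial.aeval ![S.x, S.y] Q ∈
      IntermediateField.adjoin K {S.x, S.y, S.G, S.Δ, h} :=
    IntermediateField.algebra_adjoin_le_adjoin K _
      (Algebra.adjoin_mono (Set.pair_subset (by simp) (by simp)) hAm)
  have hpoly := fun z => ord_poly (N := No K) (x := S.x) (y := S.y) hd z
  generalize MvPolynomial.aeval ![S.x, S.y] Q = A at hA hA0 hAm hAL hpoly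
  have hk' : (0 : ℚ) < k := Nat.cast_pos.2 (Nat.pos_of_ne_zero hk)
  refine ⟨A, hAm, hA0, (k : ℚ)⁻¹, fun z => ?_⟩
  rw [← sub_le_iff_le_add', le_inv_mul_iff₀ hk']
  rcases hB z with ⟨h1, h2, h3⟩ | ⟨z', hz', hr⟩
  · have hx0 : S.x ≠ 0 := S.ind.ne_zero 0
    have hy0 : S.y ≠ 0 := S.ind.ne_zero 1
    have e1 : ((max (-(No K).ord z S.x) 0 : ℤ) : ℚ) ≤ nu res pr (S.θ S.x) S.Δ m z h := by
      rw [Int.cast_max, Int.cast_zero, Int.cast_neg]
      refine max_le ?_ h1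
      rw [nu, (No K).ord_mul z _ _ hx0 h₀, Int.cast_add] at h2
      rw [nu]
      linarith
    have e2 : ((max (-(No K).ord z S.y) 0 : ℤ) : ℚ) ≤ nu res pr (S.θ S.x) S.Δ m z h := by
      rw [Int.cast_max, Int.cast_zero, Int.cast_neg]
      refine max_le ?_ h1
      rw [nu, (No K).ord_mul z _ _ hy0 h₀, Int.cast_add] at h3
      rw [nu]
      linarith
    have e3 : (pl (No K) S.x S.y z : ℚ) ≤ 2 * nu res pr (S.θ S.x) S.Δ m z h := by
      rw [pl, Int.cast_add]
      linarith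
    have e4 : (0 : ℚ) ≤ (No K).ord z A + k * pl (No K) S.x S.y z := by exact_mod_cast hpoly z
    have e5 := mul_le_mul_of_nonneg_left e3 hk'.le
    linarith
  · obtain ⟨a1, a2, a3⟩ := hC z' z hr
    obtain ⟨b1, b2, -⟩ := hC z' z' fun _ _ => Iff.rfl
    have e1 : 2 * C z' * k ≤ vv z' A := by
      refine le_of_mul_le_mul_left ?_ b1
      rw [← b2 A hAL hA0]
      have := mul_le_mul_of_nonneg_right (hC₁ z' hz') (Int.natCast_nonneg k)
      have := hA z' hz'
      linarith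
    have e2 : 2 * C z' * k * (No K).ord z (π z') ≤ (No K).ord z A := by
      rw [a2 A hAL hA0, mul_comm]
      exact mul_le_mul_of_nonneg_left e1 a1.le
    have e3 : (2 * C z' * k * (No K).ord z (π z') : ℚ) ≤ (No K).ord z A := by exact_mod_cast e2
    have e4 : (0 : ℚ) ≤ pl (No K) S.x S.y z := Int.cast_nonneg (pl_nonneg z)
    have e5 := mul_le_mul_of_nonneg_left a3 hk'.le
    have e6 := mul_nonneg hk'.le e4
    linarith

end Pool.Agent.Work.MP_e120ef_ag.H.MQ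
end

-- merged part: Pool.Agent.Work.MP_e120ef_ag.F.MI
section
/-!
# The main inequality

Plan.  Fix the data at `R` (slopes `r φ`, constant term `c₁`).  For good `w` beyond `R` let `Z` be the finite set of `z` with `‖R‖ < ‖z‖ < ‖w‖` where one of `x, y, lam, h, A, lam * Δ` has nonzero order (`Nev.fin`); none of them has a zero or pole on the two circles.  Sum `ptw` over `Z`: `nn_diff`, `Sl.diff` for `h`, `lam`, `A`, and `rt` with `RC.unique` and linearity of `pr` for the residues.  So `nn w ≤ nn R + C₁ + C₂ δ`.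
-/

namespace Pool.Agent.Work.MP_e120ef_ag.H.MQ

theorem MI_real {N N₀ n₁ n₂ a a₀ b b₀ d d₀ e e₀ m c C δ : ℝ} (hm : 0 ≤ m) (hδ : 0 ≤ δ)
    (hN : 0 ≤ N₀) (h₁ : |n₁| ≤ C * δ) (h₂ : |n₂| ≤ C * δ) (ha : |a| ≤ C * δ) (hb : |b| ≤ C * δ)
    (hd : |d| ≤ C * δ) (he : |e| ≤ C * δ)
    (h : N - N₀ ≤ 4 * ((a - a₀) + m * ((b - b₀) + (d - d₀))) + c * (e - e₀)) :
    |n₁| + |n₂| + N ≤ (N₀ + 4 * |a₀| + 4 * m * (|b₀| + |d₀|) + |c| * |e₀| +
      (6 + 8 * m + |c|) * |C|) * (1 + δ) := by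
  have k0 : C * δ ≤ |C| * (1 + δ) :=
    (mul_le_mul_of_nonneg_right (le_abs_self C) hδ).trans
      (mul_le_mul_of_nonneg_left (by linarith) (abs_nonneg C))
  have k1 : a - a₀ ≤ C * δ + |a₀| := by linarith [le_abs_self a, neg_le_abs a₀]
  have k2 : m * ((b - b₀) + (d - d₀)) ≤ m * (2 * (C * δ) + (|b₀| + |d₀|)) :=
    mul_le_mul_of_nonneg_left
      (by linarith [le_abs_self b, neg_le_abs b₀, le_abs_self d, neg_le_abs d₀]) hm
  have k3 : c * (e - e₀) ≤ |c| * (C * δ + |e₀|) := by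
    refine (le_abs_self _).trans ?_
    rw [abs_mul]
    exact mul_le_mul_of_nonneg_left ((abs_sub _ _).trans (by linarith)) (abs_nonneg c)
  have k4 := mul_le_mul_of_nonneg_left k0 (by positivity : 0 ≤ 6 + 8 * m + |c|)
  have k5 := mul_nonneg
    (by positivity : 0 ≤ N₀ + 4 * |a₀| + 4 * m * (|b₀| + |d₀|) + |c| * |e₀|) hδ
  linarith

variable {K : Type} [NontriviallyNormedField K] [IsUltrametricDist K] [IsAlgClosed K]
  [CompleteSpace K] [CharZero K]

theorem mi (hQ : ∀ n : ℕ, n ≠ 0 → ‖(n : K)‖ = 1) {res : Pt1 K Rad.out → Mo K →ₗ[K] K}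
    (hres : RS res) {pr : K →ₗ[ℚ] ℚ} {x y lam Δ h A : Mo K} (hx : x ≠ 0) (hy : y ≠ 0)
    (hl : lam ≠ 0) (hh : h ≠ 0) (hA : A ≠ 0) {m : ℕ} {c : ℚ}
    (ptw : ∀ z, (pl (No K) x y z : ℚ) ≤ 4 * nu res pr lam Δ m z h + c * (No K).ord z A)
    {good : Set (Pt1 K Rad.out)} {C : ℝ}
    (hg : ∀ w ∈ good, Gd pr x y (lam * Δ) {lam, x, y, h, A} C w) {R : Pt1 K Rad.out}
    (hR : R ∈ good) : ∃ C' : ℝ, ∀ w ∈ good, ‖R.v‖ ≤ ‖w.v‖ → ∃ δ n₁ n₂ : ℝ, 0 ≤ δ ∧
      Spr (No K) x y w δ ∧ Sl (No K) w x n₁ ∧ Sl (No K) w y n₂ ∧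
      |n₁| + |n₂| + nn (No K) x y w ≤ C' * (1 + δ) := by
  obtain ⟨δ₀, -, -, -, g0, c₀, hc₀, -⟩ := hg R hR
  obtain ⟨a₀, ha₀⟩ := exists_sl (N := No K) hh R
  obtain ⟨b₀, hb₀⟩ := exists_sl (N := No K) hl R
  obtain ⟨e₀, he₀⟩ := exists_sl (N := No K) hA R
  refine ⟨nn (No K) x y R + 4 * |(a₀ : ℝ)| + 4 * m * (|(b₀ : ℝ)| + |(pr c₀ : ℝ)|) +
    |(c : ℝ)| * |(e₀ : ℝ)| + (6 + 8 * m + |(c : ℝ)|) * |C|, fun w hw hRw => ?_⟩
  obtain ⟨δ, hδ, hS, g1, g2, c₂, hc₂, hc₂'⟩ := hg w hw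
  obtain ⟨n₁, s₁, t₁⟩ := g1 x (by simp) hx
  obtain ⟨n₂, s₂, t₂⟩ := g1 y (by simp) hy
  obtain ⟨a, sa, ta⟩ := g1 h (by simp) hh
  obtain ⟨b, sb, tb⟩ := g1 lam (by simp) hl
  obtain ⟨e, se, te⟩ := g1 A (by simp) hA
  have hL : (insert (lam * Δ) {lam, x, y, h, A} : Set (Mo K)).Finite := Set.toFinite _
  have hfin : {z : Pt1 K Rad.out | (‖R.v‖ < ‖z.v‖ ∧ ‖z.v‖ < ‖w.v‖) ∧
      ∃ φ ∈ (insert (lam * Δ) {lam, x, y, h, A} : Set (Mo K)), (No K).ord z φ ≠ 0}.Finite :=
    (hL.biUnion fun φ _ => (No K).fin φ R w).subset fun z hz => by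
      obtain ⟨h1, φ, h2, h3⟩ := hz
      exact Set.mem_biUnion h2 ⟨h1.1.le, h1.2.le, h3⟩
  have z1 : ∀ z ∈ hfin.toFinset, ‖R.v‖ < ‖z.v‖ ∧ ‖z.v‖ < ‖w.v‖ := fun z hz =>
    (hfin.mem_toFinset.1 hz).1
  have z2 : ∀ z ∈ hfin.toFinset, ‖R.v‖ < ‖z.v‖ ∧ ‖z.v‖ ≤ ‖w.v‖ := fun z hz =>
    ⟨(z1 z hz).1, (z1 z hz).2.le⟩
  have z3 : ∀ φ ∈ (insert (lam * Δ) {lam, x, y, h, A} : Set (Mo K)), ∀ z : Pt1 K Rad.out,
      ‖R.v‖ ≤ ‖z.v‖ → ‖z.v‖ ≤ ‖w.v‖ → (No K).ord z φ ≠ 0 → z ∈ hfin.toFinset :=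
    fun φ hφ z h1 h2 h3 => hfin.mem_toFinset.2
      ⟨⟨lt_of_le_of_ne h1 fun h4 => h3 (g0 φ hφ z h4.symm),
        lt_of_le_of_ne h2 fun h4 => h3 (g2 φ hφ z h4)⟩, φ, hφ, h3⟩
  generalize hfin.toFinset = Z at z1 z2 z3
  have d1 := ha₀.diff sa hRw Z z2 fun z h1 => z3 h (by simp) z h1.le
  have d2 := hb₀.diff sb hRw Z z2 fun z h1 => z3 lam (by simp) z h1.le
  have d3 := he₀.diff se hRw Z z2 fun z h1 => z3 A (by simp) z h1.le
  have d4 := nn_diff (N := No K) (x := x) (y := y) hRw Z z2 fun z h1 h2 h3 => by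
    by_contra h4
    have h5 : (No K).ord z x = 0 := by_contra fun h5 => h4 (z3 x (by simp) z h1.le h2 h5)
    have h6 : (No K).ord z y = 0 := by_contra fun h6 => h4 (z3 y (by simp) z h1.le h2 h6)
    exact h3 (by simp [pl, h5, h6])
  obtain ⟨c₃, c₄, r1, r2, r3⟩ := rt (φ := lam * Δ) hQ hres hRw Z z1 fun z h1 h2 h3 =>
    z3 _ (by simp) z h1 h2 h3.ne
  rw [r1.unique hc₀, r2.unique hc₂] at r3
  have d5 : (pr c₂ : ℝ) - pr c₀ = ∑ z ∈ Z, (pr (res z (lam * Δ)) : ℝ) := by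
    rw [← Rat.cast_sub, ← map_sub, r3, map_sum, Rat.cast_sum]
  refine ⟨δ, n₁, n₂, hδ, hS, s₁, s₂, MI_real (Nat.cast_nonneg m) hδ nn_nonneg t₁ t₂ ta tb hc₂' te ?_⟩
  rw [d1, d2, d3, d4, d5, ← Finset.sum_add_distrib, Finset.mul_sum, ← Finset.sum_add_distrib,
    Finset.mul_sum, Finset.mul_sum, ← Finset.sum_add_distrib]
  refine Finset.sum_le_sum fun z _ => ?_
  have := ptw z
  rw [nu] at this
  exact_mod_cast this

end Pool.Agent.Work.MP_e120ef_ag.H.MQ
end

-- merged part: Pool.Agent.Work.MP_e120ef_ag.F.Core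
section
/-! # The core theorem -/

namespace Pool.Agent.Work.MP_e120ef_ag.H.MQ

variable {K' : Type} [NontriviallyNormedField K'] [IsUltrametricDist K'] [CompleteSpace K']
  [IsAlgClosed K'] [CharZero K']

theorem Core_ne {K M : Type} [Field K] [Field M] [Algebra K M] {x y : M}
    (h : AlgebraicIndependent K ![x, y]) :
    (∀ c, x ≠ algebraMap K M c) ∧ ∀ c, y ≠ algebraMap K M c :=
  ⟨fun c hc => h.transcendental 0 (by
      change IsAlgebraic K x
      rw [hc]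
      exact isAlgebraic_algebraMap c),
    fun c hc => h.transcendental 1 (by
      change IsAlgebraic K y
      rw [hc]
      exact isAlgebraic_algebraMap c)⟩

theorem Core_sy {x y G : Mo K'} (h : AlgebraicIndependent K' ![x, y])
    (hG : IsAlgebraic (Algebra.adjoin K' {x, y}) G) (hD : (No K').D y = G * (No K').D x) :
    ∃ S : Sy K' (Mo K'), S.θ = (No K').D ∧ S.x = x ∧ S.y = y := by
  obtain ⟨P, h1, h2⟩ := exists_P h hG
  refine ⟨⟨(No K').D, x, y, G, -MvPolynomial.aeval ![x, y, G] (MvPolynomial.pderiv 1 P) /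
    MvPolynomial.aeval ![x, y, G] (MvPolynomial.pderiv 2 P), P, h, h1, h2,
    div_mul_cancel₀ _ h2, hD, fun h0 => ?_⟩, rfl, rfl, rfl⟩
  obtain ⟨c, hc⟩ := Nev.D_const _ h0
  exact (Core_ne h).1 c hc

theorem core (hQ : ∀ n : ℕ, n ≠ 0 → ‖(n : K')‖ = 1) (hsur : ∀ r : ℝ, 0 ≤ r → ∃ x : K', ‖x‖ = r)
    {k Y : Type} [Field k] [Field Y] [Algebra k Y] (χ : Y →+* MM K' Rad.out)
    (hχ : ∀ c : k, ∃ c' : K', χ (algebraMap k Y c) = algebraMap K' _ c') {s : Fin 2 → Y}
    (hs : AlgebraicIndependent K' fun i => χ (s i))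
    (halg : ∀ a, IsAlgebraic (Algebra.adjoin K' (Set.range fun i => χ (s i))) (χ a))
    {G : MM K' Rad.out} (hG : IsAlgebraic (Algebra.adjoin K' (Set.range fun i => χ (s i))) G)
    (hD : (nev K' Rad.out).D (χ (s 1)) = G * (nev K' Rad.out).D (χ (s 0))) {m : ℕ} {h : Y}
    (h0 : h ≠ 0) (t₀ : TVq k s m h) (t₁ : TVq k s m (s 0 * h)) (t₂ : TVq k s m (s 1 * h)) :
    (nev K' Rad.out).Sm (χ (s 0)) ∧ (nev K' Rad.out).Sm (χ (s 1)) := by
  classical
  have e : (fun i => χ (s i)) = ![χ (s 0), χ (s 1)] := funext fun i => by fin_cases i <;> rfl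
  rw [e] at hs hG halg
  rw [Sy_range] at hG halg
  obtain ⟨S, hθ, hx, hy⟩ := Core_sy hs hG hD
  rw [← hx, ← hy] at halg hs ⊢
  have hx0 : S.x ≠ 0 := fun h => (Core_ne hs).1 0 (by rw [h, map_zero])
  have hy0 : S.y ≠ 0 := fun h => (Core_ne hs).2 0 (by rw [h, map_zero])
  have hs0 : s 0 ≠ 0 := fun h => hx0 (by rw [hx, h, map_zero])
  have hs1 : s 1 ≠ 0 := fun h => hy0 (by rw [hy, h, map_zero])
  have hh0 : χ h ≠ 0 := (map_ne_zero χ).2 h0
  have ax : IsAlgebraic (Algebra.adjoin K' {S.x, S.y}) S.x := by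
    have := halg (s 0)
    rwa [← hx] at this
  have ay : IsAlgebraic (Algebra.adjoin K' {S.x, S.y}) S.y := by
    have := halg (s 1)
    rwa [← hy] at this
  obtain ⟨pr, p1, p2⟩ := exists_pr hQ
  obtain ⟨res, hres, B, hB⟩ := ptg S hθ χ hχ hx.symm hy.symm halg (m := m)
    {h, s 0 * h, s 1 * h} (by
      intro a ha
      simp only [Finset.mem_insert, Finset.mem_singleton] at ha
      rcases ha with rfl | rfl | rfl
      · exact ⟨h0, t₀⟩
      · exact ⟨mul_ne_zero hs0 h0, t₁⟩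
      · exact ⟨mul_ne_zero hs1 h0, t₂⟩) p1 {S.x, S.y, S.G, S.Δ, χ h} (by
      intro a ha
      simp only [Finset.mem_insert, Finset.mem_singleton] at ha
      rcases ha with rfl | rfl | rfl | rfl | rfl
      exacts [ax, ay, S.alg_G, S.alg_Δ, halg h])
  obtain ⟨A, hA, hA0, c, hc⟩ := bad hres S hθ pr m hh0 (halg h) B (fun z => by
    rcases hB z with h1 | ⟨z', h1, h2⟩
    · refine Or.inl ⟨h1 h (by simp), ?_, ?_⟩
      · have := h1 (s 0 * h) (by simp)
        rwa [map_mul, ← hx] at this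
      · have := h1 (s 1 * h) (by simp)
        rwa [map_mul, ← hy] at this
    · refine Or.inr ⟨z', h1, fun f hf => h2 f ?_⟩
      simpa only [Finset.coe_insert, Finset.coe_singleton] using hf)
  obtain ⟨good, dense, C, hg⟩ := radii hQ hsur S hθ p1 p2 {S.x, S.y, χ h, A} (by
    intro a ha
    simp only [Finset.mem_insert, Finset.mem_singleton] at ha
    rcases ha with rfl | rfl | rfl | rfl
    exacts [ax, ay, halg h, isAlgebraic_algebraMap (⟨_, hA⟩ : Algebra.adjoin K' {S.x, S.y})])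
  simp only [Finset.coe_insert, Finset.coe_singleton] at hg
  obtain ⟨R, hR, hR1, -⟩ := dense 1 2 le_rfl one_lt_two
  obtain ⟨C', hC'⟩ := mi hQ hres hx0 hy0 S.hx hh0 hA0 hc hg hR
  exact glob hs dense hR hR1 hC'

end Pool.Agent.Work.MP_e120ef_ag.H.MQ
end
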