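import Mathlib

/-! Definition used in the statement: regular symmetric differentials. -/

namespace Pool.Agent.Work.MP_e120ef_ag

/-- The `a` such that the symmetric differential `∑ i, a i * ds₀ ^ i * ds₁ ^ (d - i)` is regular:
its value on every vector field regular at `x` is regular at `x`. -/
def SymD {k F ι : Type} [Field k] [Field F] [Algebra k F] (𝒪 : ι → Subalgebra k F) (s : Fin 2 → F)
    (d : ℕ) : Set (Fin (d + 1) → F) :=
  {a | ∀ (x : ι) (D : Derivation k F F), (∀ b ∈ 𝒪 x, D b ∈ 𝒪 x) →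
    ∑ i, a i * D (s 0) ^ (i : ℕ) * D (s 1) ^ (d - i) ∈ 𝒪 x}

end Pool.Agent.Work.MP_e120ef_ag
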