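import Pool.Agent.Work.MP_e120ef_ag.F.TVs
import Pool.Agent.Work.MP_e120ef_ag.F.Core
import Pool.Agent.Work.MP_e120ef_ag.Br.Fin2

attribute [-instance] Subalgebra.normedCommRing Subalgebra.seminormedCommRing
  Subalgebra.seminormedRing Subalgebra.normedRing
  Localization.subalgebra.instIsFractionRingSubtypeMemSubalgebra
attribute [local instance 2000] RingHomClass.toAddMonoidHomClass AddMonoidHomClass.toAddHomClass
  RingHom.instRingHomClass AlgHomClass.toRingHomClass IsDomain.to_noZeroDivisors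
  IsDomain.toNontrivial NeZero.one RingHomClass.toMonoidHomClass MonoidHomClass.toMulHomClass
  RingHomClass.toMonoidWithZeroHomClass AddMonoidHomClass.toZeroHomClass MonoidHomClass.toOneHomClass
attribute [-instance] instCharZeroOfIsSemireal AlgHom.instContinuousLinearMapClassOfAlgHomClass
  RingHomClass.toLinearMapClassRat RingHomClass.toLinearMapClassNNRat NumberField.to_charZero

-- merged part: Pool.Agent.Work.MP_e120ef_ag.F.Glue
section
/-! # From the group to the arcs -/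

open CategoryTheory AlgebraicGeometry

namespace Pool.Agent.Work.MP_e120ef_ag.H.MQ

open CS

theorem Glue_alg {R A N : Type} [CommRing R] [IsDomain R] [CommRing A] [Field N] [Algebra R N]
    (ψ : A →+* N) (hψ : Function.Injective ψ) (h : ∀ a, IsAlgebraic R (ψ a)) {p : Polynomial A}
    (hp : p ≠ 0) {z : N} (hz : p.eval₂ ψ z = 0) : IsAlgebraic R z := by
  let ψ' : A →+* Subalgebra.algebraicClosure R N := ψ.codRestrict _ h
  have h1 : IsAlgebraic (Subalgebra.algebraicClosure R N) z := by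
    refine ⟨p.map ψ', (Polynomial.map_ne_zero_iff fun a b e => hψ (congrArg Subtype.val e)).2 hp, ?_⟩
    rw [Polynomial.aeval_def, Polynomial.eval₂_map]
    exact hz
  exact h1.restrictScalars R

theorem Glue_root {Y M : Type} [Field Y] [Field M] [Algebra Y M] {e : ℕ} {b : Fin (e + 1) → Y}
    (hb : b ≠ 0) {v₀ v₁ : M} (h : ∑ i, algebraMap Y M (b i) * v₀ ^ (i : ℕ) * v₁ ^ (e - i) = 0) :
    ∃ w α₀ α₁ : M, IsAlgebraic Y α₀ ∧ IsAlgebraic Y α₁ ∧ v₀ = α₀ * w ∧ v₁ = α₁ * w := by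
  by_cases h1 : v₁ = 0
  · exact ⟨v₀, 1, 0, isAlgebraic_one, isAlgebraic_zero, (one_mul _).symm, by rw [h1, zero_mul]⟩
  refine ⟨v₁, v₀ / v₁, 1, ⟨∑ i : Fin (e + 1), Polynomial.monomial (i : ℕ) (b i),
    fun h0 => hb (funext fun j => ?_), ?_⟩, isAlgebraic_one, (div_mul_cancel₀ _ h1).symm,
    (one_mul _).symm⟩
  · have h2 := congrArg (Polynomial.coeff · (j : ℕ)) h0
    simpa [Polynomial.finsetSum_coeff, Polynomial.coeff_monomial, Fin.val_inj] using h2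
  · refine mul_right_cancel₀ (pow_ne_zero e h1) ?_
    rw [zero_mul, ← h, map_sum, Finset.sum_mul]
    refine Finset.sum_congr rfl fun i _ => ?_
    rw [Polynomial.aeval_monomial, div_pow, mul_assoc, mul_assoc, pow_sub₀ _ h1 (Nat.le_of_lt_succ i.2)]
    ring

theorem Glue_comb {K Y M : Type} [Field K] [Field Y] [Algebra K Y] [Field M] [Algebra K M]
    (φ : Y →ₐ[K] M) {e : ℕ} {a a' : Fin (e + 1) → Y} (hi : LinearIndependent K ![a, a'])
    {t : Fin (e + 1) → M} {c c' : K} (h : ∑ i, φ (a i) * t i = algebraMap K M c)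
    (h' : ∑ i, φ (a' i) * t i = algebraMap K M c') :
    ∃ b : Fin (e + 1) → Y, b ≠ 0 ∧ ∑ i, φ (b i) * t i = 0 := by
  rw [LinearIndependent.pair_iff] at hi
  by_cases hc : c = 0
  · refine ⟨a, fun h0 => one_ne_zero (hi 1 0 (by rw [h0, smul_zero, zero_smul, add_zero])).1, ?_⟩
    rw [h, hc, map_zero]
  · refine ⟨c' • a + (-c) • a', fun h0 => hc (neg_eq_zero.1 (hi _ _ h0).2), ?_⟩
    simp only [Pi.add_apply, Pi.smul_apply, map_add, map_smul, add_mul, smul_mul_assoc,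
      Finset.sum_add_distrib, ← Finset.smul_sum, h, h']
    rw [Algebra.smul_def, Algebra.smul_def, map_neg]
    ring

theorem Glue_der {K Y N : Type} [Field K] [Field Y] [Algebra K Y] [Field N] [Algebra K N]
    {s : Fin 2 → Y} {e : ℕ} {a : Fin (e + 1) → Y} (H : TVs K s e a) (χ : Y →ₐ[K] N) (𝒪 : ValuationSubring N)
    (d : Derivation K N N) (h1 : ∀ c, algebraMap K N c ∈ 𝒪) (h2 : ∀ x, x ∈ 𝒪 → d x ∈ 𝒪) :
    ∑ i, χ (a i) * d (χ (s 0)) ^ (i : ℕ) * d (χ (s 1)) ^ (e - i) ∈ 𝒪 :=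
  H N χ.toRingHom 𝒪 (d.toLinearMap.toAddMonoidHom.comp χ.toRingHom.toAddMonoidHom)
    (fun a b => by
      change d (χ (a * b)) = χ a * d (χ b) + χ b * d (χ a)
      rw [map_mul, Derivation.leibniz, smul_eq_mul, smul_eq_mul])
    (fun c => (χ.commutes c).symm ▸ h1 c) (fun c => by
      change d (χ _) = 0
      rw [χ.commutes, Derivation.map_algebraMap]) fun _ hy => h2 _ hy

variable {K : Type} [NontriviallyNormedField K] [IsUltrametricDist K] [CompleteSpace K]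
  [IsAlgClosed K] [CharZero K] {n g : ℕ} {K₁ : Type} [NontriviallyNormedField K₁]
  [IsUltrametricDist K₁] [CompleteSpace K₁] [NormedAlgebra K K₁] (Γ : GD K n K₁)

section

variable {G X : Sch K}
  [GrpObj G] [IsIntegral G.left] [LocallyOfFiniteType G.hom] [IsIntegral X.left]
  {U : G.left.Opens} {𝒩 : ND (B G U) n} {M : Type} [Field M] [Algebra K M] {𝓜 : MI 𝒩 M}
  {φ : Fn X →ₐ[K] M} {ξ : Fin g → Dr G} {N : Fin g → Fin n → T K n}
  {Y : Type} [Field Y] [Algebra K Y] (π : Y →ₐ[K] Fn X)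

theorem fullS (hξ : IsGFrame ξ)
    (hq : ∀ q, IsClosed ({q} : Set G.left) → Nonempty (Chart Γ 𝓜 φ ξ N q)) (κ : Fin g)
    {s : Fin 2 → Y} {e : ℕ} {a : Fin (e + 1) → Y} (hh : TVs K s e a) :
    ∃ c : K, ∑ i, φ (π (a i)) * 𝓜.hat (ξ κ) (φ (π (s 0))) ^ (i : ℕ) *
      𝓜.hat (ξ κ) (φ (π (s 1))) ^ (e - i) = algebraMap K M c := by
  obtain ⟨K', _, _, _, _, _, _, _, _⟩ := exists_Kp K K₁
  obtain ⟨t, γ, hγ⟩ := exists_arcs 𝓜 K' Γ
  have h1 : ∀ 𝒪, PreV K (fun k x => 𝓜.hat (ξ k) x) 𝒪 →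
      ∑ i, φ (π (a i)) * 𝓜.hat (ξ κ) (φ (π (s 0))) ^ (i : ℕ) *
        𝓜.hat (ξ κ) (φ (π (s 1))) ^ (e - i) ∈ 𝒪 := fun 𝒪 H =>
    Glue_der hh (φ.comp π) 𝒪 (𝓜.hat (ξ κ)) H.alg (H.mem κ)
  obtain ⟨r, hr⟩ := hγ _ fun j => (γ j).sm_of_preV ξ (hξ.memB U) h1
  obtain ⟨c, hc⟩ := hc_const hq (r := r) (fun 𝒪 H => hr ▸ h1 𝒪 H.toPreV) fun q u 𝒪 H => by
    have h2 : u.j r = ∑ i, u.χ (π (a i)) * tl N κ (u.χ (π (s 0))) ^ (i : ℕ) *
        tl N κ (u.χ (π (s 1))) ^ (e - i) := by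
      refine Γ.τ.toRingHom.injective ?_
      change Γ.τ _ = Γ.τ _
      rw [← u.κ_J, ← hr]
      simp only [map_sum, map_mul, map_pow, τ_tl, u.κ_hat, u.κ_φ]
    rw [h2]
    exact Glue_der hh (u.χ.comp π) 𝒪 (tl N κ) H.alg (H.mem κ)
  exact ⟨c, hr.trans (by rw [hc, AlgHom.commutes])⟩

end

include Γ in
theorem rank1 (hQ : ∀ n : ℕ, n ≠ 0 → ‖(n : K)‖ = 1) {F : Type} [Field F] [Algebra K F]
    {B : Subalgebra K F} {𝒩 : ND B n} {M : Type} [Field M] [Algebra K M] (𝓜 : MI 𝒩 M)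
    {ξ : Fin g → Derivation K F F}
    (span : ∀ D : Derivation K F F, ∃ c : Fin g → F, ∀ a, D a = ∑ i, c i * ξ i a)
    {Y : Type} [Field Y] [Algebra K Y] (Φ : Y →ₐ[K] M) {u : Fin 2 → Y}
    (hu : IsTranscendenceBasis K u) {μ : M} {p : Polynomial Y} (hp : p ≠ 0)
    (hμ : p.eval₂ Φ.toRingHom μ = 0)
    (hmin : ∀ κ, 𝓜.hat (ξ κ) (Φ (u 1)) = μ * 𝓜.hat (ξ κ) (Φ (u 0))) {m : ℕ} {h : Y} (h0 : h ≠ 0)
    (t₀ : TVq K u m h) (t₁ : TVq K u m (u 0 * h)) (t₂ : TVq K u m (u 1 * h)) : False := by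
  obtain ⟨K₂, _, _, _, _, _, _, _, _⟩ := exists_Kp K K₁
  obtain ⟨K', _, _, _, _, _, hO⟩ := Br.C0_ult K₂
  let _ : NormedAlgebra K₁ K' :=
    { ((algebraMap K₂ K').comp (algebraMap K₁ K₂)).toAlgebra with
      norm_smul_le := fun r x => by
        change ‖algebraMap K₂ K' (algebraMap K₁ K₂ r) * x‖ ≤ _
        rw [norm_mul, norm_algebraMap', norm_algebraMap'] }
  let _ : NormedAlgebra K K' :=
    { ((algebraMap K₁ K').comp (algebraMap K K₁)).toAlgebra with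
      norm_smul_le := fun r x => by
        change ‖algebraMap K₁ K' (algebraMap K K₁ r) * x‖ ≤ _
        rw [norm_mul, norm_algebraMap', norm_algebraMap'] }
  have : IsScalarTower K K₁ K' := .of_algebraMap_eq fun _ => rfl
  have : CharZero K' := charZero_of_injective_algebraMap (algebraMap K K').injective
  obtain ⟨t, γ, hγ⟩ := exists_arcs 𝓜 K' Γ
  obtain ⟨C, -, hC⟩ := 𝓜.pd_hat ξ span
  have hs : AlgebraicIndependent K fun i => Φ (u i) := hu.1.map' Φ.toRingHom.injective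
  have h1 : ∀ l, 𝓜.pd l (Φ (u 1)) = μ * 𝓜.pd l (Φ (u 0)) := fun l => by
    rw [hC, hC, Finset.mul_sum]
    exact Finset.sum_congr rfl fun κ _ => by rw [hmin, mul_left_comm]
  have h2 : ∀ j i, (nev K' Rad.out).Sm ((γ j).ι (Φ (u i))) := by
    intro j
    have h3 : (nev K' Rad.out).D ((γ j).ι (Φ (u 1))) =
        (γ j).ι μ * (nev K' Rad.out).D ((γ j).ι (Φ (u 0))) := by
      rw [(γ j).D_ι, (γ j).D_ι, ← map_mul, Finset.mul_sum]
      exact congrArg _ (Finset.sum_congr rfl fun l _ => by rw [h1, mul_left_comm])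
    rw [Fin.forall_fin_two]
    by_cases h4 : (nev K' Rad.out).D ((γ j).ι (Φ (u 0))) = 0
    · rw [h4, mul_zero] at h3
      obtain ⟨b, hb⟩ := Nev.D_const _ h4
      obtain ⟨b', hb'⟩ := Nev.D_const _ h3
      exact ⟨hb ▸ Nev.sm_alg b, hb' ▸ Nev.sm_alg b'⟩
    have h5 := indep_ext (γ j).ι 𝓜.pd (pd_comm 𝓜) (fun x => 𝓜.pd_const) (fun l => 𝓜.J ((γ j).μ l))
      (nev K' Rad.out).D (γ j).D_ι hs 0 h4 fun i l l' => by
        fin_cases i
        · rfl
        · change 𝓜.pd l (Φ (u 1)) * _ = _ * 𝓜.pd l' (Φ (u 1))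
          rw [h1, h1]
          ring
    let χ := ((γ j).ι.comp Φ).toRingHom
    have h6 : ∀ c : K, ∃ c' : K', χ (algebraMap K Y c) = algebraMap K' _ c' := fun c =>
      ⟨algebraMap K K' c, (((γ j).ι.comp Φ).commutes c).trans
        (IsScalarTower.algebraMap_apply K K' _ c)⟩
    have h7 : ∀ a, IsAlgebraic (Algebra.adjoin K' (Set.range fun i => χ (u i))) (χ a) := by
      intro a
      obtain ⟨q, k1, k2⟩ := hu.isAlgebraic.isAlgebraic a
      refine Glue_alg (χ.comp (algebraMap (Algebra.adjoin K (Set.range u)) Y))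
        (χ.injective.comp Subtype.val_injective) (fun b => ?_) k1 (by
          rw [← Polynomial.hom_eval₂, ← Polynomial.aeval_def, k2, map_zero])
      have k3 : χ b ∈ Algebra.adjoin K' (Set.range fun i => χ (u i)) := by
        obtain ⟨b, hb⟩ := b
        induction hb using Algebra.adjoin_induction with
        | mem x hx =>
          obtain ⟨i, rfl⟩ := hx
          exact Algebra.subset_adjoin ⟨i, rfl⟩
        | algebraMap c =>
          obtain ⟨c', hc⟩ := h6 c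
          exact hc ▸ algebraMap_mem _ c'
        | add x y _ _ hx hy => exact map_add χ x y ▸ add_mem hx hy
        | mul x y _ _ hx hy => exact map_mul χ x y ▸ mul_mem hx hy
      exact isAlgebraic_algebraMap (⟨_, k3⟩ : Algebra.adjoin K' (Set.range fun i => χ (u i)))
    exact core (fun n hn => by rw [← map_natCast (algebraMap K K'), norm_algebraMap', hQ n hn])
      hO.sur χ h6 h5 h7 (Glue_alg χ χ.injective h7 hp (by
        have k1 := Polynomial.hom_eval₂ p Φ.toRingHom (γ j).ι.toRingHom μ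
        rw [hμ, map_zero] at k1
        exact k1.symm)) h3 h0 t₀ t₁ t₂
  choose a k3 using fun i => hγ _ fun j => h2 j i
  have k4 : AlgebraicIndependent K a :=
    AlgebraicIndependent.of_comp 𝓜.J (by rw [Function.comp_def, ← funext k3]; exact hs)
  obtain ⟨κ, κ', k5⟩ := jac ξ span k4
  refine k5 (𝓜.J.toRingHom.injective ?_)
  change 𝓜.J _ = 𝓜.J _
  simp only [map_mul, ← MI.hat_J, ← k3, hmin]
  ring

end Pool.Agent.Work.MP_e120ef_ag.H.MQ
end

-- merged part: Pool.Agent.Work.MP_e120ef_ag.F.Main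
section
/-! # The theorem -/

open CategoryTheory AlgebraicGeometry

namespace Pool.Agent.Work.MP_e120ef_ag.H.MQ

open CS

theorem Main_ratio {K Y M : Type} [Field K] [CharZero K] [Field Y] [Algebra K Y] [Field M]
    [Algebra K M] (Φ : Y →ₐ[K] M) (δ : Derivation K M M) {s u : Fin 2 → Y}
    (hs : IsTranscendenceBasis K s) {e : ℕ} {b : Fin (e + 1) → Y} (hb : b ≠ 0)
    (h : ∑ i, Φ (b i) * (δ (Φ (s 0)) ^ (i : ℕ) * δ (Φ (s 1)) ^ (e - i)) = 0) :
    ∃ p : Polynomial Y, p ≠ 0 ∧ p.eval₂ Φ.toRingHom (δ (Φ (u 1)) / δ (Φ (u 0))) = 0 := by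
  let _ := Φ.toRingHom.toAlgebra
  obtain ⟨w, α₀, α₁, h0, h1, e0, e1⟩ := Glue_root (M := M) hb (v₀ := δ (Φ (s 0)))
    (v₁ := δ (Φ (s 1))) (by
      simp only [mul_assoc]
      exact h)
  obtain ⟨E, -, hE⟩ := TVs_dual hs
  have h2 : ∀ a, ∃ β, IsAlgebraic Y β ∧ δ (Φ a) = β * w := fun a => by
    refine ⟨algebraMap Y M (E 0 a) * α₀ + algebraMap Y M (E 1 a) * α₁,
      ((isAlgebraic_algebraMap _).mul h0).add ((isAlgebraic_algebraMap _).mul h1), ?_⟩
    have h3 : δ (Φ a) = Φ (E 0 a) * δ (Φ (s 0)) + Φ (E 1 a) * δ (Φ (s 1)) :=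
      hE M Φ.toRingHom (δ.toLinearMap.toAddMonoidHom.comp Φ.toRingHom.toAddMonoidHom)
        (fun a b => by
          change δ (Φ (a * b)) = Φ a * δ (Φ b) + Φ b * δ (Φ a)
          rw [map_mul, Derivation.leibniz, smul_eq_mul, smul_eq_mul]) (fun c => by
          change δ (Φ _) = 0
          rw [Φ.commutes, Derivation.map_algebraMap]) a
    rw [h3, e0, e1, add_mul, mul_assoc, mul_assoc]
    rfl
  obtain ⟨β₀, k0, f0⟩ := h2 (u 0)
  obtain ⟨β₁, k1, f1⟩ := h2 (u 1)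
  have h4 : IsAlgebraic Y (δ (Φ (u 1)) / δ (Φ (u 0))) := by
    by_cases hw : w = 0
    · rw [f1, hw, mul_zero, zero_div]
      exact isAlgebraic_zero
    · rw [f0, f1, mul_div_mul_right _ _ hw, div_eq_mul_inv]
      exact k1.mul k0.inv
  exact h4

theorem final {K : Type} [NontriviallyNormedField K] [IsUltrametricDist K] [CompleteSpace K]
    [IsAlgClosed K] [CharZero K] (hQ : ∀ n : ℕ, n ≠ 0 → ‖(n : K)‖ = 1) {Y X G : Sch K}
    [IsIntegral Y.left] [IsProper Y.hom] [Smooth Y.hom] [IsIntegral X.left] [GrpObj G]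
    [IsIntegral G.left] [LocallyOfFiniteType G.hom] (π : Fn Y →ₐ[K] Fn X) {s : Fin 2 → Fn Y}
    (hs : IsTranscendenceBasis K s) {m : ℕ} (hκ : ∀ u, AlgQ K (Pluri (O Y) s m) u) {e : ℕ}
    {a a' : Fin (e + 1) → Fn Y} (ha : a ∈ SymD (O Y) s e) (ha' : a' ∈ SymD (O Y) s e)
    (hi : LinearIndependent K ![a, a']) {f : G.left → X.left} (hf : Mero f) : False := by
  obtain ⟨g, ξ, hξ⟩ := exists_gframe G
  obtain ⟨U, hU, hg, -⟩ := exists_aff (W := ⊤) (x := gp G) trivial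
  have := lft_finiteType hU hg
  obtain ⟨n, ⟨𝒩⟩⟩ := exists_ND (B G U) (aff_frac_field hU hg)
  obtain ⟨K₁, _, _, _, _, ⟨Γ⟩⟩ := exists_GD K n
  obtain ⟨M, _, _, ⟨𝓜⟩⟩ := exists_MI' 𝒩
  obtain ⟨φ, hφ⟩ := exists_phiG 𝓜 hf hU hg
  obtain ⟨N, hq, -⟩ := exists_charts Γ 𝓜 hf hU hg hφ hξ ∅
  obtain ⟨u, m', h, hu, h0, t₀, t₁, t₂⟩ := TVq.gen (m := m) hs (fun _ hh => tvq hh) hκ
  have hu' : AlgebraicIndependent K fun i => φ (π (u i)) :=
    (hu.1.map' π.toRingHom.injective).map' φ.toRingHom.injective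
  by_cases h1 : ∃ κ : Fin 2 → Fin g,
      (Matrix.of fun i l => 𝓜.hat (ξ (κ l)) (φ (π (u i)))).det ≠ 0
  · obtain ⟨κ, h1⟩ := h1
    obtain ⟨c, hc⟩ := full (k := K) π.toRingHom (fun c => π.commutes c) hξ hq κ t₀.tvp
    obtain ⟨c', hc'⟩ := full (k := K) π.toRingHom (fun c => π.commutes c) hξ hq κ t₁.tvp
    have h3 : φ (π h) * (Matrix.of fun i l => 𝓜.hat (ξ (κ l)) (φ (π (u i)))).det ^ m' =
      algebraMap K M c := hc
    have h4 : φ (π (u 0 * h)) * (Matrix.of fun i l => 𝓜.hat (ξ (κ l)) (φ (π (u i)))).det ^ m' =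
      algebraMap K M c' := hc'
    have h2 : φ (π (u 0)) = algebraMap K M (c' / c) := by
      rw [map_div₀, ← h3, ← h4, map_mul, map_mul, mul_assoc, mul_div_cancel_right₀ _
        (mul_ne_zero ((map_ne_zero φ).2 ((map_ne_zero π).2 h0)) (pow_ne_zero _ h1))]
    exact hu'.transcendental 0 (h2 ▸ isAlgebraic_algebraMap _)
  push Not at h1
  obtain ⟨κ, hκ0⟩ : ∃ κ, 𝓜.hat (ξ κ) (φ (π (u 0))) ≠ 0 := by
    by_contra h2
    push Not at h2
    obtain ⟨C, -, hC⟩ := 𝓜.pd_hat ξ hξ.span'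
    obtain ⟨c, hc⟩ := 𝓜.pd_const (x := φ (π (u 0))) fun l => by
      rw [hC]
      exact Finset.sum_eq_zero fun κ _ => by rw [h2, mul_zero]
    exact hu'.transcendental 0 (hc ▸ isAlgebraic_algebraMap c)
  obtain ⟨c, hc⟩ := fullS Γ π hξ hq κ (tvs ha)
  obtain ⟨c', hc'⟩ := fullS Γ π hξ hq κ (tvs ha')
  simp only [mul_assoc] at hc hc'
  obtain ⟨b, hb, h2⟩ := Glue_comb (φ.comp π) hi hc hc'
  obtain ⟨p, hp, h3⟩ := Main_ratio (u := u) (φ.comp π) (𝓜.hat (ξ κ)) hs hb h2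
  refine rank1 Γ hQ 𝓜 hξ.span' (φ.comp π) hu hp h3 (fun κ' => ?_) h0 t₀ t₁ t₂
  have h4 := h1 ![κ, κ']
  rw [Matrix.det_fin_two, sub_eq_zero] at h4
  rw [div_mul_eq_mul_div]
  exact eq_div_of_mul_eq hκ0 (((mul_comm _ _).trans h4).trans (mul_comm _ _))

theorem not_special {K : Type} [NontriviallyNormedField K] [IsUltrametricDist K] [CompleteSpace K]
    [IsAlgClosed K] (hQ : ∀ n : ℕ, n ≠ 0 → ‖(n : K)‖ = 1) {Y X : Sch K}
    [IsIntegral Y.left] [IsProper Y.hom] [Smooth Y.hom] [IsIntegral X.left]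
    [LocallyOfFiniteType X.hom] (π : Fn Y →ₐ[K] Fn X) {s : Fin 2 → Fn Y}
    (hs : IsTranscendenceBasis K s) {m : ℕ} (hκ : ∀ u, AlgQ K (Pluri (O Y) s m) u) {e : ℕ}
    {a a' : Fin (e + 1) → Fn Y} (ha : a ∈ SymD (O Y) s e) (ha' : a' ∈ SymD (O Y) s e)
    (hi : LinearIndependent K ![a, a']) : ¬ Br.Special X := by
  intro hX
  have : CharZero K := charZero_of_inj_zero fun n hn => by_contra fun h => by
    have := hQ n h
    rw [hn, norm_zero] at this
    exact zero_ne_one this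
  obtain ⟨G, _, _, _, f, hf⟩ := Br.mero_of_special (Br.hasCore K) hX
  exact final hQ π hs hκ ha ha' hi hf

end Pool.Agent.Work.MP_e120ef_ag.H.MQ
end
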