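import Pool.Agent.Work.MP_e120ef_ag.F.PtR

attribute [-instance] Subalgebra.normedCommRing Subalgebra.seminormedCommRing
  Subalgebra.seminormedRing Subalgebra.normedRing
  Localization.subalgebra.instIsFractionRingSubtypeMemSubalgebra
attribute [local instance 2000] RingHomClass.toAddMonoidHomClass AddMonoidHomClass.toAddHomClass
  RingHom.instRingHomClass AlgHomClass.toRingHomClass IsDomain.to_noZeroDivisors
  IsDomain.toNontrivial NeZero.one RingHomClass.toMonoidHomClass MonoidHomClass.toMulHomClass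
  RingHomClass.toMonoidWithZeroHomClass AddMonoidHomClass.toZeroHomClass MonoidHomClass.toOneHomClass
attribute [-instance] instCharZeroOfIsSemireal AlgHom.instContinuousLinearMapClassOfAlgHomClass
  RingHomClass.toLinearMapClassRat RingHomClass.toLinearMapClassNNRat NumberField.to_charZero

/-!
# The residue theorem on an annulus

Plans.  `RT_orth`: `‖p 0‖ ≤ nr w (p.sum ..)`: the sum is `im` of a Laurent polynomial (`Zero_tr`), `nev_nr`, `le_gn`.  `RC.unique`, `RC.add`, `RC.smul` follow.  `RC.of_apx`: the constant terms of approximations for both radii at once form a Cauchy sequence.  `RC.exa`: `nr_D`, and `D` of a Laurent polynomial has no constant term.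
`RS.log`: `ψ = zl z ^ n * u` with `ord u = 0`, `D u / u` is regular (`regV_D`).
`rt_reg`: `φ = im p / im q`; by `factor` for `p` and `q` and comparing orders, one may take `q` without zeros in the closed annulus (induction on the number of zeros of `q`: a zero of `q` is a zero of `p` since `0 ≤ ord`; cancel with `exists_div`).  `no_zero` gives one top index `n` at all radii of the annulus; it is also the bottom index at `w₁` and `w₂` (`exists_zero`, `bot_le_top`), so `im q` has the leading term `c zf ^ n` for both norms; `apx_inv'` with `V = {uvN w₁, uvN w₂}`, `A` the Laurent polynomials (`Pw` is not needed: use `Algebra.adjoin K {zf, zf⁻¹}` or the span of the powers), truncation of Laurent series at both radii.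
`rt`: induction on `∑ z ∈ Z, (-ord z φ).toNat`.  If `φ` has a pole of order `j ≥ 1` at `u ∈ Z`, `ord_val` gives `c` such that `φ - c • (zf / zl u ^ j)` has a smaller pole at `u` and no new poles.  For `j ≥ 2`, `zf / zl u ^ j = D ψ` with `ψ` a multiple of `(zl u)⁻¹ ^ (j - 1)`, approximable at each radius (`apx_inv'`, leading term `zf` or `-u`).  For `j = 1`: at `w₂`, `zf / zl u = ∑ (u / zf) ^ i` has constant term `1`; at `w₁` it is `-∑_{i ≥ 1} (zf / u) ^ i`, constant term `0`.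
-/

namespace Pool.Agent.Work.MP_e120ef_ag.H.MQ

variable {K : Type} [NontriviallyNormedField K] [IsUltrametricDist K] [IsAlgClosed K]
  [CompleteSpace K] [CharZero K] {w w₁ w₂ : Pt1 K Rad.out} {φ ψ : Mo K} {c c' : K}
  {res : Pt1 K Rad.out → Mo K →ₗ[K] K}

variable (K) in
/-- Laurent polynomials -/
noncomputable def RT_L : (ℤ →₀ K) →ₗ[K] Mo K := Finsupp.linearCombination K fun j : ℤ => zf K ^ j

theorem RT_L_apply (p : ℤ →₀ K) : (p.sum fun j a => a • zf K ^ j) = RT_L K p := rfl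

theorem RT_L_single (j : ℤ) (a : K) : RT_L K (Finsupp.single j a) = a • zf K ^ j :=
  Finsupp.linearCombination_single _ _ _

theorem RT_mono (j : ℤ) : im (Zero_tr (fun _ => (1 : K)) {j} : L1 K Rad.out) = zf K ^ j := by
  have h : ∀ j : ℤ, im (Zero_tr (fun _ => (1 : K)) {j + 1} : L1 K Rad.out) =
      im (Zero_tr (fun _ => (1 : K)) {j}) * zf K := fun j => by
    rw [zf, ← map_mul]
    congr 1
    refine Subtype.ext (funext fun t => ?_)
    change ∑ n ∈ {j + 1}, 1 * t.v ^ n = (∑ n ∈ {j}, 1 * t.v ^ n) * t.v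
    rw [Finset.sum_singleton, Finset.sum_singleton, zpow_add_one₀ t.1.ne_zero, mul_assoc]
  induction j using Int.induction_on with
  | zero =>
    rw [zpow_zero, ← map_one (algebraMap (L1 K Rad.out) (Mo K))]
    congr 1
    refine Subtype.ext (funext fun t => ?_)
    change ∑ n ∈ {(0 : ℤ)}, 1 * t.v ^ n = 1
    simp
  | succ i ih => rw [h, ih, zpow_add_one₀ zf_ne]
  | pred i ih =>
    have := h (-i - 1)
    rw [sub_add_cancel, ih] at this
    rw [zpow_sub_one₀ zf_ne, this, mul_inv_cancel_right₀ zf_ne]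

theorem RT_tr (a : ℤ → K) (S : Finset ℤ) :
    im (Zero_tr a S : L1 K Rad.out) = ∑ n ∈ S, a n • zf K ^ n := by
  have h : (Zero_tr a S : L1 K Rad.out) =
      ∑ n ∈ S, algebraMap K _ (a n) * Zero_tr (fun _ => (1 : K)) {n} := by
    refine Subtype.ext (funext fun t => ?_)
    rw [AddSubmonoidClass.coe_finsetSum, Finset.sum_apply]
    refine Finset.sum_congr rfl fun n _ => ?_
    change a n * t.v ^ n = a n * ∑ m ∈ {n}, 1 * t.v ^ m
    rw [Finset.sum_singleton, one_mul]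
  rw [h, im, map_sum]
  refine Finset.sum_congr rfl fun n _ => ?_
  rw [map_mul, ← IsScalarTower.algebraMap_apply, Algebra.smul_def, ← RT_mono]

theorem RT_orth (w : Pt1 K Rad.out) (p : ℤ →₀ K) :
    ‖p 0‖ ≤ (No K).nr w (p.sum fun j a => a • zf K ^ j) := by
  rw [Finsupp.sum, ← RT_tr, nev_nr]
  refine le_trans (le_of_eq ?_) (le_gn _ w 0)
  rw [Zero_coef, zpow_zero, mul_one]
  split_ifs with h
  · rfl
  · rw [Finsupp.notMem_support_iff.1 h]

theorem RT_sub (w : Pt1 K Rad.out) (φ : Mo K) (p q : ℤ →₀ K) :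
    ‖p 0 - q 0‖ ≤ max ((No K).nr w (φ - RT_L K q)) ((No K).nr w (φ - RT_L K p)) := by
  have := RT_orth w (p - q)
  rw [RT_L_apply, map_sub, ← sub_sub_sub_cancel_left _ _ φ] at this
  exact this.trans (NevA_nr_sub _ _ _ _)

theorem RT_nr_smul (w : Pt1 K Rad.out) (a : K) (φ : Mo K) :
    (No K).nr w (a • φ) = ‖a‖ * (No K).nr w φ := by
  rw [Algebra.smul_def, Nev.nr_mul, Nev.nr_alg]

theorem RT_nr_zpow (w : Pt1 K Rad.out) (n : ℤ) : (No K).nr w (zf K ^ n) = ‖w.v‖ ^ n := by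
  rw [← nr_zf]
  exact map_zpow₀ ((No K).av w) _ _

theorem RC.unique (h : RC w φ c) (h' : RC w φ c') : c = c' := by
  refine eq_of_forall_dist_le fun ε hε => ?_
  obtain ⟨p, h1, h2⟩ := h (ε / 3) (by positivity)
  obtain ⟨q, h3, h4⟩ := h' (ε / 3) (by positivity)
  have h5 := (RT_sub w φ p q).trans_lt (max_lt h3 h1)
  rw [← dist_eq_norm] at h2 h4 h5
  linarith [dist_triangle4 c (p 0) (q 0) c', dist_comm c (p 0)]

theorem RC.add (h : RC w φ c) (h' : RC w ψ c') : RC w (φ + ψ) (c + c') := by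
  intro ε hε
  obtain ⟨p, h1, h2⟩ := h ε hε
  obtain ⟨q, h3, h4⟩ := h' ε hε
  refine ⟨p + q, ?_, ?_⟩
  · rw [RT_L_apply, map_add, add_sub_add_comm]
    exact ((No K).nr_add _ _ _).trans_lt (max_lt h1 h3)
  · rw [Finsupp.add_apply, add_sub_add_comm]
    exact (IsUltrametricDist.norm_add_le_max _ _).trans_lt (max_lt h2 h4)

theorem RC.smul (a : K) (h : RC w φ c) : RC w (a • φ) (a * c) := by
  intro ε hε
  have h0 : 0 < ‖a‖ + 1 := by positivity
  obtain ⟨p, h1, h2⟩ := h (ε / (‖a‖ + 1)) (by positivity)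
  have k : ∀ x : ℝ, 0 ≤ x → x < ε / (‖a‖ + 1) → ‖a‖ * x < ε := fun x hx h => by
    rw [lt_div_iff₀ h0] at h
    linarith
  refine ⟨a • p, ?_, ?_⟩
  · rw [RT_L_apply, map_smul, ← smul_sub, RT_nr_smul]
    exact k _ ((No K).nr_nonneg _ _) h1
  · rw [Finsupp.smul_apply, smul_eq_mul, ← mul_sub, norm_mul]
    exact k _ (norm_nonneg _) h2

theorem RT_poly (w : Pt1 K Rad.out) (p : ℤ →₀ K) : RC w (RT_L K p) (p 0) := fun ε hε =>
  ⟨p, by rwa [RT_L_apply, sub_self, ((No K).nr_eq_zero _ _).2 rfl], by rwa [sub_self, norm_zero]⟩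

theorem RT_of_apx (h : ∀ ε : ℝ, 0 < ε → ∃ p : ℤ →₀ K, (No K).nr w₁ (φ - RT_L K p) < ε ∧
    (No K).nr w₂ (φ - RT_L K p) < ε) : ∃ c, RC w₁ φ c ∧ RC w₂ φ c := by
  choose p h1 h2 using fun n : ℕ => h (1 / ((n : ℝ) + 1)) Nat.one_div_pos_of_nat
  have t := tendsto_one_div_add_atTop_nhds_zero_nat (𝕜 := ℝ)
  obtain ⟨c, hc⟩ := cauchySeq_tendsto_of_complete (u := fun n => p n 0)
    (cauchySeq_of_le_tendsto_0 _ (fun n m N hn hm => by
      rw [dist_eq_norm]
      exact (RT_sub w₁ φ _ _).trans (max_le ((h1 m).le.trans (Nat.one_div_le_one_div hm))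
        ((h1 n).le.trans (Nat.one_div_le_one_div hn)))) t)
  have k : ∀ ε : ℝ, 0 < ε → ∃ n : ℕ, 1 / ((n : ℝ) + 1) < ε ∧ ‖p n 0 - c‖ < ε := fun ε hε =>
    ((t.eventually (gt_mem_nhds hε)).and
      ((tendsto_iff_norm_sub_tendsto_zero.1 hc).eventually (gt_mem_nhds hε))).exists
  refine ⟨c, fun ε hε => ?_, fun ε hε => ?_⟩ <;> obtain ⟨n, a, b⟩ := k ε hε
  · exact ⟨p n, (h1 n).trans a, b⟩
  · exact ⟨p n, (h2 n).trans a, b⟩

theorem RT_D (p : ℤ →₀ K) : ∃ q : ℤ →₀ K, (No K).D (RT_L K p) = RT_L K q ∧ q 0 = 0 := by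
  induction p using Finsupp.induction_linear with
  | zero => exact ⟨0, by rw [map_zero, map_zero], rfl⟩
  | add p q hp hq =>
    obtain ⟨p', a, b⟩ := hp
    obtain ⟨q', a', b'⟩ := hq
    exact ⟨p' + q', by rw [map_add, map_add, map_add, a, a'], by
      rw [Finsupp.add_apply, b, b', add_zero]⟩
  | single j a =>
    refine ⟨Finsupp.single j (a * j), ?_, ?_⟩
    · rw [RT_L_single, RT_L_single, Derivation.map_smul, Derivation.leibniz_zpow, D_zf, smul_eq_mul,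
        ← zpow_add_one₀ zf_ne, sub_add_cancel, mul_smul, Int.cast_smul_eq_zsmul]
    · rcases eq_or_ne j 0 with rfl | h
      · simp
      · exact Finsupp.single_eq_of_ne h.symm

theorem RT_exa (h : ∀ ε : ℝ, 0 < ε → ∃ p : ℤ →₀ K, (No K).nr w (ψ - RT_L K p) < ε) :
    RC w ((No K).D ψ) 0 := fun ε hε => by
  obtain ⟨p, hp⟩ := h ε hε
  obtain ⟨q, a, b⟩ := RT_D p
  refine ⟨q, ?_, by rwa [b, sub_zero, norm_zero]⟩
  rw [RT_L_apply, ← a, ← map_sub]
  exact ((No K).nr_D _ _).trans_lt hp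

theorem RT_geo {k : ℤ} (hk : k ≠ 0) {a : K} (h : (No K).nr w (a • zf K ^ k) < 1) :
    RC w (1 - a • zf K ^ k)⁻¹ 1 := fun ε hε => by
  obtain ⟨t, ht⟩ : ∃ t, t = a • zf K ^ k := ⟨_, rfl⟩
  rw [← ht] at h ⊢
  have h1 : 1 - t ≠ 0 := fun e => by
    rw [← sub_eq_zero.1 e, NevA_nr_one] at h
    exact lt_irrefl _ h
  have h2 := NevA_nr_pos (No K) w (inv_ne_zero h1)
  obtain ⟨n, hn⟩ := exists_pow_lt_of_lt_one (div_pos hε h2) h
  refine ⟨∑ i ∈ Finset.range (n + 1), Finsupp.single (k * i) (a ^ i), ?_, ?_⟩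
  · have e : RT_L K (∑ i ∈ Finset.range (n + 1), Finsupp.single (k * i) (a ^ i)) =
        ∑ i ∈ Finset.range (n + 1), t ^ i := by
      rw [map_sum]
      refine Finset.sum_congr rfl fun i _ => ?_
      rw [RT_L_single, ht, smul_pow, zpow_mul, zpow_natCast]
    have e2 : (1 - t)⁻¹ - ∑ i ∈ Finset.range (n + 1), t ^ i = t ^ (n + 1) * (1 - t)⁻¹ := by
      have := mul_neg_geom_sum t (n + 1)
      field_simp
      linear_combination -this
    have e3 : (No K).nr w (t ^ (n + 1)) = (No K).nr w t ^ (n + 1) := map_pow ((No K).av w) _ _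
    rw [RT_L_apply, e, e2, Nev.nr_mul, e3, ← lt_div_iff₀ h2]
    exact (pow_le_pow_of_le_one ((No K).nr_nonneg _ _) h.le n.le_succ).trans_lt hn
  · rw [Finsupp.finsetSum_apply, Finset.sum_eq_single 0 (fun i _ hi =>
      Finsupp.single_eq_of_ne (mul_ne_zero hk (Int.natCast_ne_zero.2 hi)).symm) (by simp)]
    simpa using hε

theorem RT_out {u : Pt1 K Rad.out} (h : ‖u.v‖ < ‖w.v‖) : RC w (zf K / zl u) 1 := by
  have e : zf K / zl u = (1 - u.v • zf K ^ (-1 : ℤ))⁻¹ := by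
    have := zf_ne (K := K)
    rw [zl_eq, Algebra.smul_def, zpow_neg_one, ← inv_div]
    congr 1
    field_simp
  rw [e]
  refine RT_geo (by norm_num) ?_
  rw [RT_nr_smul, RT_nr_zpow, zpow_neg_one, ← div_eq_mul_inv]
  exact (div_lt_one (Zero_vpos w)).2 h

theorem RT_in {u : Pt1 K Rad.out} (h : ‖w.v‖ < ‖u.v‖) : RC w (zf K / zl u) 0 := by
  have e : zf K / zl u =
      RT_L K (Finsupp.single 0 1) + (-1 : K) • (1 - u.v⁻¹ • zf K ^ (1 : ℤ))⁻¹ := by
    have h1 := zl_ne u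
    have h2 : algebraMap K (Mo K) u.v ≠ 0 := (map_ne_zero _).2 u.1.ne_zero
    have h3 : 1 - u.v⁻¹ • zf K ^ (1 : ℤ) = -(zl u / algebraMap K (Mo K) u.v) := by
      rw [zl_eq, Algebra.smul_def, zpow_one, map_inv₀]
      field_simp
      ring
    rw [RT_L_single, zpow_zero, one_smul, neg_one_smul, h3, inv_neg, neg_neg, inv_div]
    field_simp
    rw [zl_eq, sub_add_cancel]
  have h4 : (No K).nr w (u.v⁻¹ • zf K ^ (1 : ℤ)) < 1 := by
    rw [RT_nr_smul, RT_nr_zpow, zpow_one, norm_inv, ← div_eq_inv_mul]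
    exact (div_lt_one (Zero_vpos u)).2 h
  have := (RT_poly w (Finsupp.single 0 1)).add ((RT_geo one_ne_zero h4).smul (-1))
  rw [Finsupp.single_eq_same, mul_one, add_neg_cancel] at this
  rwa [e]

theorem RT_ord_zpow (z : Pt1 K Rad.out) {f : Mo K} (hf : f ≠ 0) (n : ℤ) :
    (No K).ord z (f ^ n) = n * (No K).ord z f := by
  have h : ∀ n : ℕ, (No K).ord z (f ^ n) = n * (No K).ord z f := fun n => by
    induction n with
    | zero => rw [pow_zero, NevA_ord_one, Nat.cast_zero, zero_mul]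
    | succ n ih =>
      rw [pow_succ, (No K).ord_mul _ _ _ (pow_ne_zero _ hf) hf, ih]
      push_cast
      ring
  obtain ⟨m, rfl | rfl⟩ := n.eq_nat_or_neg
  · rw [zpow_natCast, h]
  · rw [zpow_neg, zpow_natCast, NevA_ord_inv, h, neg_mul]

theorem RT_ord_add (z : Pt1 K Rad.out) (f : Mo K) {g : Mo K} (hg : 0 ≤ (No K).ord z g) :
    min ((No K).ord z f) 0 ≤ (No K).ord z (f + g) := by
  by_cases h1 : f = 0
  · rw [h1, zero_add]
    omega
  by_cases h2 : g = 0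
  · rw [h2, add_zero]
    omega
  by_cases h3 : f + g = 0
  · rw [h3, Nev.ord_zero]
    omega
  have := (No K).ord_add z f g h1 h2 h3
  omega

theorem RT_ord_b (z u : Pt1 K Rad.out) (n : ℤ) :
    (No K).ord z (zf K * zl u ^ n) = n * (No K).ord z (zl u) := by
  rw [(No K).ord_mul _ _ _ zf_ne (zpow_ne_zero _ (zl_ne u)), ord_zf, zero_add,
    RT_ord_zpow z (zl_ne u)]

theorem RT_ring : ∃ A : Subring (Mo K), ∀ f, f ∈ A ↔ ∃ p, RT_L K p = f := by
  have e : LinearMap.range (RT_L K) = Submodule.span K (Set.range fun j : ℤ => zf K ^ j) :=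
    Finsupp.range_linearCombination _
  refine ⟨((LinearMap.range (RT_L K)).toSubalgebra ⟨Finsupp.single 0 1, by simp [RT_L_single]⟩
    fun a b ha hb => ?_).toSubring, fun f => Iff.rfl⟩
  have h1 := Submodule.mul_mem_mul ha hb
  rw [e, Submodule.span_mul_span] at h1
  rw [e]
  refine Submodule.span_mono ?_ h1
  rintro _ ⟨_, ⟨q, rfl⟩, _, ⟨r, rfl⟩, rfl⟩
  exact ⟨q + r, zpow_add₀ zf_ne q r⟩

omit [CharZero K] in
theorem RT_coef (f : L1 K Rad.out) (S : Finset ℤ) (n : ℤ) :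
    coef (f - Zero_tr (coef f) S) n = if n ∈ S then 0 else coef f n := by
  rw [sub_eq_add_neg, ← neg_one_smul K, coef_add, coef_smul, Zero_coef]
  split_ifs <;> ring

theorem RT_trunc (f : L1 K Rad.out) (w₁ w₂ : Pt1 K Rad.out) {ε : ℝ} (hε : 0 < ε) :
    ∃ p : ℤ →₀ K, (No K).nr w₁ (im f - RT_L K p) < ε ∧ (No K).nr w₂ (im f - RT_L K p) < ε := by
  have h1 := Ser_finite (tendsto_coef f w₁) (half_pos hε)
  have h2 := Ser_finite (tendsto_coef f w₂) (half_pos hε)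
  have e : RT_L K (∑ n ∈ (h1.union h2).toFinset, Finsupp.single n (coef f n)) =
      im (Zero_tr (coef f) (h1.union h2).toFinset) := by
    rw [map_sum, RT_tr]
    exact Finset.sum_congr rfl fun n _ => RT_L_single _ _
  refine ⟨∑ n ∈ (h1.union h2).toFinset, Finsupp.single n (coef f n), ?_, ?_⟩ <;>
    rw [e, ← map_sub, nev_nr] <;> refine (gn_le _ _ fun n => ?_).trans_lt (half_lt_self hε) <;>
    rw [RT_coef] <;> split_ifs with h
  · simpa using (half_pos hε).le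
  · exact (not_le.1 fun h' => h ((Set.Finite.mem_toFinset _).2 (Or.inl h'))).le
  · simpa using (half_pos hε).le
  · exact (not_le.1 fun h' => h ((Set.Finite.mem_toFinset _).2 (Or.inr h'))).le

theorem RT_lead {g : L1 K Rad.out} (hg : g ≠ 0) {n : ℤ} (h : IsTop w g n)
    (h0 : ∀ z : Pt1 K Rad.out, ‖z.v‖ = ‖w.v‖ → g.1 z ≠ 0) :
    (No K).nr w (im g - coef g n • zf K ^ n) < (No K).nr w (coef g n • zf K ^ n) := by
  obtain ⟨m, hm⟩ := exists_isBot hg w
  obtain rfl : m = n := (bot_le_top le_rfl hg hm h).eq_or_lt.resolve_right fun hlt => by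
    obtain ⟨z, a, b⟩ := exists_zero hg hm h hlt
    exact h0 z a b
  have e : coef g m • zf K ^ m = im (Zero_tr (coef g) {m}) := by rw [RT_tr, Finset.sum_singleton]
  rw [RT_nr_smul, RT_nr_zpow, ← norm_zpow, ← norm_mul, h.1, e, ← map_sub, nev_nr]
  by_cases hd : g - Zero_tr (coef g) {m} = 0
  · rw [hd, gn_zero]
    exact Zero_pos hg w
  obtain ⟨k, hk, -⟩ := exists_isTop hd w
  rw [← hk, RT_coef]
  split_ifs with h1
  · rw [zero_mul, norm_zero]
    exact Zero_pos hg w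
  · exact (lt_or_gt_of_ne (Finset.notMem_singleton.1 h1)).elim (hm.2 k) (h.2 k)

theorem RS.log (h : RS res) (z : Pt1 K Rad.out) (ψ : Mo K) :
    res z ((No K).D ψ / ψ) = (No K).ord z ψ := by
  by_cases h0 : ψ = 0
  · rw [h0, div_zero, map_zero, Nev.ord_zero, Int.cast_zero]
  obtain ⟨n, hn⟩ : ∃ n, n = (No K).ord z ψ := ⟨_, rfl⟩
  have h1 := zl_ne z
  have h2 : zl z ^ n ≠ 0 := zpow_ne_zero _ h1
  obtain ⟨u, rfl⟩ : ∃ u, ψ = zl z ^ n * u := ⟨ψ / zl z ^ n, by field_simp⟩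
  have h3 : u ≠ 0 := right_ne_zero_of_mul h0
  have h4 : (No K).ord z u = 0 := by
    rw [(No K).ord_mul _ _ _ h2 h3, RT_ord_zpow z h1, ord_zl_self] at hn
    omega
  have e : (No K).D (zl z ^ n * u) / (zl z ^ n * u) =
      (n : K) • (zf K / zl z) + (No K).D u * u⁻¹ := by
    rw [Derivation.leibniz, Derivation.leibniz_zpow, D_zl, Int.cast_smul_eq_zsmul,
      zpow_sub_one₀ h1]
    simp only [smul_eq_mul, zsmul_eq_mul]
    field_simp
    ring
  rw [← hn, e, map_add, map_smul, h.one, smul_eq_mul, mul_one, h.reg, add_zero]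
  exact ((No K).regV z).mul_mem _ _ ((No K).regV_D h4.ge)
    (show 0 ≤ (No K).ord z u⁻¹ by rw [NevA_ord_inv, h4, neg_zero])

variable (hQ : ∀ n : ℕ, n ≠ 0 → ‖(n : K)‖ = 1)
include hQ

theorem rt_reg (hw : ‖w₁.v‖ ≤ ‖w₂.v‖)
    (h : ∀ z : Pt1 K Rad.out, ‖w₁.v‖ ≤ ‖z.v‖ → ‖z.v‖ ≤ ‖w₂.v‖ → 0 ≤ (No K).ord z φ) :
    ∃ c, RC w₁ φ c ∧ RC w₂ φ c := by
  obtain ⟨p, q, hq, e⟩ := im_rep φ
  obtain ⟨s, g, hs, hg, rfl⟩ := factor hq w₁ w₂
  have hg0 : g ≠ 0 := right_ne_zero_of_mul hq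
  obtain ⟨p, rfl⟩ : ∃ p, φ = im p / im g := by
    induction s using Multiset.induction_on generalizing p with
    | empty => exact ⟨p, by simpa using e⟩
    | cons z s ih =>
      by_cases hp : p = 0
      · exact ⟨0, by rw [e, hp, im, map_zero, zero_div, zero_div]⟩
      have hz := hs z (Multiset.mem_cons_self _ _)
      have h1 := h z hz.1 hz.2
      rw [Multiset.map_cons, Multiset.prod_cons, mul_assoc] at e hq
      rw [e, nev_ord_div z hp hq, ord₀_mul (lin_ne_zero _) (right_ne_zero_of_mul hq),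
        ord₀_eq (f := lin z.v) (g := 1) (n := 1) one_ne_zero (by simp)] at h1
      obtain ⟨p, rfl⟩ := exists_div (f := p) (c := z)
        (not_not.1 fun h2 => by have := (ord₀_eq_zero hp z).2 h2; omega)
      refine ih p (fun y hy => hs y (Multiset.mem_cons_of_mem hy)) (right_ne_zero_of_mul hq) ?_
      rw [e, im, im, map_mul, map_mul _ (lin z.v), mul_div_mul_left _ _ (im_ne (lin_ne_zero _))]
  obtain ⟨n, hn⟩ := no_zero hg
  obtain ⟨A, hA⟩ := RT_ring (K := K)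
  have hV : ({uvN hQ w₁, uvN hQ w₂} : Set (UV (Mo K))).Finite := Set.toFinite _
  have k : ∀ f : L1 K Rad.out, Apx {uvN hQ w₁, uvN hQ w₂} A (im f) := fun f ε hε => by
    obtain ⟨p, a, b⟩ := RT_trunc f w₁ w₂ hε
    refine ⟨_, (hA _).2 ⟨p, rfl⟩, ?_⟩
    rintro _ (rfl | rfl)
    exacts [a, b]
  have k2 := Apx_mul hV A (k p) (apx_inv' hV A (r := coef g n • zf K ^ n) (k g)
    (Apx.of_mem ((hA _).2 ⟨Finsupp.single (-n) (coef g n)⁻¹, by
      rw [RT_L_single, smul_inv₀, zpow_neg]⟩)) (by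
      rintro _ (rfl | rfl)
      · exact RT_lead hg0 (hn _ le_rfl hw) fun z hz => hg z hz.ge (hz.le.trans hw)
      · exact RT_lead hg0 (hn _ hw le_rfl) fun z hz => hg z (hw.trans hz.ge) hz.le))
  refine RT_of_apx fun ε hε => ?_
  obtain ⟨_, a, b⟩ := k2 ε hε
  obtain ⟨p, rfl⟩ := (hA _).1 a
  rw [div_eq_mul_inv]
  exact ⟨p, b _ (Or.inl rfl), b _ (Or.inr rfl)⟩

theorem RT_pole {u : Pt1 K Rad.out} (h : RC w (zf K / zl u) c) (j : ℕ) (a : K) :
    RC w ((No K).D (a • (zl u)⁻¹ ^ j)) 0 := by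
  obtain ⟨A, hA⟩ := RT_ring (K := K)
  obtain ⟨R, hR⟩ := exists_apxRing (Set.finite_singleton (uvN hQ w)) A
  have k : ∀ (j : ℤ) (a : K), a • zf K ^ j ∈ R := fun j a =>
    (hR _).2 (Apx.of_mem ((hA _).2 ⟨_, RT_L_single j a⟩))
  have k1 : zf K / zl u ∈ R := (hR _).2 fun ε hε => by
    obtain ⟨p, a, -⟩ := h ε hε
    exact ⟨_, (hA _).2 ⟨p, rfl⟩, fun v hv => by rw [hv]; exact a⟩
  have k2 := R.mul_mem (k 0 a) (R.pow_mem (R.mul_mem (k (-1) 1) k1) j)
  rw [one_smul, zpow_neg_one, div_eq_mul_inv, inv_mul_cancel_left₀ zf_ne, zpow_zero, smul_mul_assoc,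
    one_mul] at k2
  refine RT_exa fun ε hε => ?_
  obtain ⟨_, a, b⟩ := (hR _).1 k2 ε hε
  obtain ⟨p, rfl⟩ := (hA _).1 a
  exact ⟨p, b _ rfl⟩

theorem RT_basic (hres : RS res) (Z : Finset (Pt1 K Rad.out)) {u : Pt1 K Rad.out} (hu : u ∈ Z)
    (h₁ : ‖w₁.v‖ < ‖u.v‖) (h₂ : ‖u.v‖ < ‖w₂.v‖) {n : ℤ} (hn : n < 0) :
    ∃ c₁ c₂, RC w₁ (zf K * zl u ^ n) c₁ ∧ RC w₂ (zf K * zl u ^ n) c₂ ∧
      c₂ - c₁ = ∑ z ∈ Z, res z (zf K * zl u ^ n) := by
  obtain ⟨j, rfl⟩ : ∃ j : ℕ, n = -(j + 1) := ⟨(-n - 1).toNat, by omega⟩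
  rcases Nat.eq_zero_or_pos j with rfl | hj
  · refine ⟨0, 1, ?_⟩
    rw [Finset.sum_eq_single u (fun z _ hz => hres.reg _ _ (by rw [RT_ord_b, ord_zl_ne hz, mul_zero]))
      fun h => (h hu).elim, Nat.cast_zero, zero_add, zpow_neg_one, ← div_eq_mul_inv, hres.one]
    exact ⟨RT_in h₁, RT_out h₂, sub_zero _⟩
  · have e : zf K * zl u ^ (-(j + 1) : ℤ) = (No K).D ((-(j : K))⁻¹ • (zl u)⁻¹ ^ j) := by
      have h0 : (-(j : K)) ≠ 0 := neg_ne_zero.2 (Nat.cast_ne_zero.2 hj.ne')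
      rw [Derivation.map_smul, inv_pow, ← zpow_natCast, ← zpow_neg, Derivation.leibniz_zpow, D_zl,
        ← Int.cast_smul_eq_zsmul K, Int.cast_neg, Int.cast_natCast, inv_smul_smul₀ h0, smul_eq_mul,
        mul_comm, neg_add']
    rw [e]
    exact ⟨0, 0, RT_pole hQ (RT_in h₁) _ _, RT_pole hQ (RT_out h₂) _ _, by
      rw [Finset.sum_eq_zero fun z _ => hres.exa _ _, sub_zero]⟩

theorem rt (hres : RS res) (hw : ‖w₁.v‖ ≤ ‖w₂.v‖) (Z : Finset (Pt1 K Rad.out))
    (hZ : ∀ z ∈ Z, ‖w₁.v‖ < ‖z.v‖ ∧ ‖z.v‖ < ‖w₂.v‖)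
    (h : ∀ z : Pt1 K Rad.out, ‖w₁.v‖ ≤ ‖z.v‖ → ‖z.v‖ ≤ ‖w₂.v‖ → (No K).ord z φ < 0 → z ∈ Z) :
    ∃ c₁ c₂, RC w₁ φ c₁ ∧ RC w₂ φ c₂ ∧ c₂ - c₁ = ∑ z ∈ Z, res z φ := by
  induction hm : ∑ z ∈ Z, (-(No K).ord z φ).toNat using Nat.strong_induction_on generalizing φ with
  | _ m ih =>
  by_cases h0 : ∀ u ∈ Z, 0 ≤ (No K).ord u φ
  · obtain ⟨c, a, b⟩ := rt_reg hQ hw (φ := φ) fun z a b => not_lt.1 fun hz =>
      (h0 z (h z a b hz)).not_gt hz
    exact ⟨c, c, a, b, by rw [Finset.sum_eq_zero fun z hz => hres.reg _ _ (h0 z hz), sub_self]⟩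
  push Not at h0
  obtain ⟨u, hu, hn⟩ := h0
  obtain ⟨d₁, d₂, a₁, a₂, a₃⟩ := RT_basic hQ hres Z hu (hZ u hu).1 (hZ u hu).2 hn
  have b1 : ∀ z, (No K).ord z (zf K * zl u ^ (No K).ord u φ) = _ := fun z => RT_ord_b z u _
  have b0 : zf K * zl u ^ (No K).ord u φ ≠ 0 := mul_ne_zero zf_ne (zpow_ne_zero _ (zl_ne u))
  generalize zf K * zl u ^ (No K).ord u φ = b at a₁ a₂ a₃ b1 b0
  have hφ : φ ≠ 0 := fun e => by
    rw [e, Nev.ord_zero] at hn
    exact lt_irrefl _ hn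
  have b2 := b1 u
  rw [ord_zl_self, mul_one] at b2
  obtain ⟨c, hc⟩ := (No K).ord_val u (φ * b⁻¹) (by
    rw [(No K).ord_mul _ _ _ hφ (inv_ne_zero b0), NevA_ord_inv, b2, add_neg_cancel])
  have e : φ + (-c) • b = (φ * b⁻¹ - algebraMap K (Mo K) c) * b := by
    rw [sub_mul, inv_mul_cancel_right₀ b0, neg_smul, Algebra.smul_def, sub_eq_add_neg]
  have k1 : (No K).ord u φ < (No K).ord u (φ + (-c) • b) := by
    rw [e]
    by_cases h1 : φ * b⁻¹ - algebraMap K (Mo K) c = 0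
    · rwa [h1, zero_mul, Nev.ord_zero]
    · have := hc.resolve_left fun h2 => h1 (sub_eq_zero.2 h2)
      rw [(No K).ord_mul _ _ _ h1 b0, b2]
      omega
  have k2 : ∀ z, min ((No K).ord z φ) 0 ≤ (No K).ord z (φ + (-c) • b) := fun z => by
    rcases eq_or_ne z u with rfl | hz
    · omega
    · refine RT_ord_add z φ ?_
      rw [Algebra.smul_def]
      exact ((No K).regV z).mul_mem _ _ ((No K).regV_alg z _)
        (show 0 ≤ (No K).ord z b by rw [b1, ord_zl_ne hz, mul_zero])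
  obtain ⟨c₁, c₂, e₁, e₂, e₃⟩ := ih _ (hm ▸ Finset.sum_lt_sum
    (fun z _ => by have := k2 z; omega) ⟨u, hu, by omega⟩) (φ := φ + (-c) • b)
    (fun z a b hz => h z a b (by have := k2 z; omega)) rfl
  have e' : φ = φ + (-c) • b + c • b := by rw [neg_smul, neg_add_cancel_right]
  rw [e']
  refine ⟨_, _, e₁.add (a₁.smul c), e₂.add (a₂.smul c), ?_⟩
  rw [Finset.sum_congr rfl fun z _ => (map_add (res z) _ _).trans
    (congrArg _ (map_smul (res z) c b)), Finset.sum_add_distrib, ← Finset.smul_sum, ← e₃, ← a₃,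
    smul_eq_mul]
  ring

end Pool.Agent.Work.MP_e120ef_ag.H.MQ
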