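import Pool.Agent.Work.MP_e120ef_ag.F.Defs
import Pool.Agent.Work.MP_e120ef_ag.F.TVd
import Pool.Agent.Work.MP_e120ef_ag.H.Den
import Pool.Agent.Work.MP_e120ef_ag.H.Val

attribute [-instance] Subalgebra.normedCommRing Subalgebra.seminormedCommRing
  Subalgebra.seminormedRing Subalgebra.normedRing
  Localization.subalgebra.instIsFractionRingSubtypeMemSubalgebra
attribute [local instance 2000] RingHomClass.toAddMonoidHomClass AddMonoidHomClass.toAddHomClass
  RingHom.instRingHomClass AlgHomClass.toRingHomClass IsDomain.to_noZeroDivisors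
  IsDomain.toNontrivial NeZero.one RingHomClass.toMonoidHomClass MonoidHomClass.toMulHomClass
  RingHomClass.toMonoidWithZeroHomClass AddMonoidHomClass.toZeroHomClass MonoidHomClass.toOneHomClass
attribute [-instance] instCharZeroOfIsSemireal AlgHom.instContinuousLinearMapClassOfAlgHomClass
  RingHomClass.toLinearMapClassRat RingHomClass.toLinearMapClassNNRat NumberField.to_charZero

/-! # Pluricanonical forms and symmetric differentials in a valuation ring -/

open CategoryTheory AlgebraicGeometry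

namespace Pool.Agent.Work.MP_e120ef_ag.H.MQ

open CS

variable {k : Type} [Field k]

section

variable {Y N : Type} [Field Y] [Field N] [Algebra k Y]

variable (k) in
/-- the symmetric differential is integral for every valuation ring -/
def TVs (s : Fin 2 → Y) (e : ℕ) (a : Fin (e + 1) → Y) : Prop :=
  ∀ (N : Type) [Field N] (χ : Y →+* N) (𝒪 : ValuationSubring N) (d : Y →+ N),
    (∀ a b, d (a * b) = χ a * d b + χ b * d a) →
    (∀ c, χ (algebraMap k Y c) ∈ 𝒪) → (∀ c, d (algebraMap k Y c) = 0) →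
    (∀ a, χ a ∈ 𝒪 → d a ∈ 𝒪) →
    ∑ i, χ (a i) * d (s 0) ^ (i : ℕ) * d (s 1) ^ (e - i) ∈ 𝒪

theorem TVs_div (χ : Y →+* N) (d : Y →+ N) (hd : ∀ a b, d (a * b) = χ a * d b + χ b * d a) {r : ℕ}
    (D : Fin r → Derivation k Y Y) (w : Fin r → N) {v q : Y} (h0 : v ≠ 0)
    (hu : d (v * q) = ∑ i, χ (D i (v * q)) * w i) (hv : d v = ∑ i, χ (D i v) * w i) :
    d q = ∑ i, χ (D i q) * w i := by
  refine mul_left_cancel₀ ((map_ne_zero χ).2 h0) ?_
  rw [hd, hv, ← eq_sub_iff_add_eq] at hu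
  rw [hu, Finset.mul_sum, Finset.mul_sum, ← Finset.sum_sub_distrib]
  refine Finset.sum_congr rfl fun i _ => ?_
  simp only [Derivation.leibniz, smul_eq_mul, map_add, map_mul]
  ring

theorem TVs_coeff [Infinite k] {σ : Type} (V : Submodule k Y) (Q : MvPolynomial σ Y)
    (h : ∀ t : σ → k, MvPolynomial.eval (fun i => algebraMap k Y (t i)) Q ∈ V) (m : σ →₀ ℕ) :
    Q.coeff m ∈ V := by
  classical
  by_contra hm
  obtain ⟨ℓ, h1, h2⟩ := Submodule.exists_le_ker_of_notMem hm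
  have h3 : (∑ m' ∈ Q.support, MvPolynomial.monomial m' (ℓ (Q.coeff m'))) = 0 := by
    refine MvPolynomial.funext fun t => ?_
    have h4 : ℓ _ = 0 := h2 (h t)
    rw [MvPolynomial.eval_eq, map_sum] at h4
    rw [map_zero, map_sum, ← h4]
    refine Finset.sum_congr rfl fun m' _ => ?_
    simp only [← map_pow, ← map_prod]
    rw [MvPolynomial.eval_monomial, mul_comm (Q.coeff m'), ← Algebra.smul_def, map_smul,
      smul_eq_mul, mul_comm]
    rfl
  have h5 := congrArg (MvPolynomial.coeff m) h3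
  rw [MvPolynomial.coeff_sum] at h5
  simp only [MvPolynomial.coeff_monomial, Finset.sum_ite_eq', MvPolynomial.coeff_zero] at h5
  split_ifs at h5 with h6
  · exact h1 h5
  · rw [MvPolynomial.notMem_support_iff.1 h6] at h1
    exact h1 (map_zero ℓ)

theorem TVq.tvp {s : Fin 2 → Y} {m : ℕ} {h : Y} (H : TVq k s m h) : TVp k s m h := by
  intro N _ _ χ 𝒪 d hχ hK hd
  have h1 := H N χ 𝒪 (fun l => (d l).toLinearMap.toAddMonoidHom.comp χ.toAddMonoidHom)
    (fun l a b => by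
      change d l (χ (a * b)) = χ a * d l (χ b) + χ b * d l (χ a)
      rw [map_mul, Derivation.leibniz, smul_eq_mul, smul_eq_mul])
    (fun c => hχ c ▸ hK c) (fun l c => by
      change d l (χ _) = 0
      rw [hχ, Derivation.map_algebraMap]) hd
  rw [Matrix.det_fin_two, mul_comm (Matrix.of _ 0 1)]
  exact h1

theorem TVq.mul {s : Fin 2 → Y} {m m' : ℕ} {h h' : Y} (H : TVq k s m h) (H' : TVq k s m' h') :
    TVq k s (m + m') (h * h') := by
  intro N _ χ 𝒪 d h1 h2 h3 h4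
  rw [map_mul, pow_add, mul_mul_mul_comm]
  exact mul_mem (H N χ 𝒪 d h1 h2 h3 h4) (H' N χ 𝒪 d h1 h2 h3 h4)

theorem TVs_dual [CharZero k] {u : Fin 2 → Y} (hu : IsTranscendenceBasis k u) :
    ∃ E : Fin 2 → Derivation k Y Y, (∀ l i, E l (u i) = if i = l then 1 else 0) ∧
      ∀ (N : Type) [Field N] (χ : Y →+* N) (d : Y →+ N),
      (∀ a b, d (a * b) = χ a * d b + χ b * d a) → (∀ c, d (algebraMap k Y c) = 0) →
      ∀ a, d a = χ (E 0 a) * d (u 0) + χ (E 1 a) * d (u 1) := by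
  choose E _ hE using fun j : Fin 2 => exists_der_ext (Algebra.ofId k Y) 0 u
    hu.1.eq_zero_of_aeval_eq_zero (Pi.single j 1)
  refine ⟨E, fun l i => by rw [hE, Pi.single_apply], fun N _ χ d h1 h2 a => ?_⟩
  let _ : Algebra k N := (χ.comp (algebraMap k Y)).toAlgebra
  refine sub_eq_zero.1 (der_along hu (R := N) { χ with commutes' := fun _ => rfl }
    { toFun := fun a => d a - (χ (E 0 a) * d (u 0) + χ (E 1 a) * d (u 1))
      map_add' := fun a b => by
        simp only [map_add]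
        ring
      map_smul' := fun c a => by
        have e : ∀ x : N, c • x = χ (algebraMap k Y c) * x := fun _ => rfl
        rw [Derivation.map_smul, Derivation.map_smul, RingHom.id_apply, e]
        simp only [Algebra.smul_def, map_mul, h1, h2]
        ring } (fun a b => ?_) (fun i => ?_) a)
  · change d (a * b) - (χ (E 0 (a * b)) * _ + χ (E 1 (a * b)) * _) =
      χ a * (d b - (χ (E 0 b) * _ + χ (E 1 b) * _)) + χ b * (d a - (χ (E 0 a) * _ + χ (E 1 a) * _))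
    simp only [h1, Derivation.leibniz, smul_eq_mul, map_add, map_mul]
    ring
  · change d (u i) - (χ (E 0 (u i)) * _ + χ (E 1 (u i)) * _) = 0
    fin_cases i <;> simp [hE]

theorem TVq.chg [CharZero k] {s u : Fin 2 → Y} (hs : IsTranscendenceBasis k s)
    (hu : IsTranscendenceBasis k u) :
    ∃ J : Y, J ≠ 0 ∧ ∀ m h, TVq k s m h → TVq k u m (h * J ^ m) := by
  obtain ⟨E, -, hE⟩ := TVs_dual hu
  obtain ⟨E', h1, -⟩ := TVs_dual hs
  have key : ∀ (N : Type) [Field N] (χ : Y →+* N) (d : Fin 2 → Y →+ N),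
      (∀ l a b, d l (a * b) = χ a * d l b + χ b * d l a) → (∀ l c, d l (algebraMap k Y c) = 0) →
      d 0 (s 0) * d 1 (s 1) - d 0 (s 1) * d 1 (s 0) =
        χ (E 0 (s 0) * E 1 (s 1) - E 1 (s 0) * E 0 (s 1)) *
          (d 0 (u 0) * d 1 (u 1) - d 0 (u 1) * d 1 (u 0)) := by
    intro N _ χ d h2 h3
    rw [hE N χ _ (h2 0) (h3 0) (s 0), hE N χ _ (h2 0) (h3 0) (s 1), hE N χ _ (h2 1) (h3 1) (s 0),
      hE N χ _ (h2 1) (h3 1) (s 1), map_sub, map_mul, map_mul]
    ring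
  refine ⟨E 0 (s 0) * E 1 (s 1) - E 1 (s 0) * E 0 (s 1), fun h0 => ?_,
    fun m h H N _ χ 𝒪 d h2 h3 h4 h5 => ?_⟩
  swap
  · rw [map_mul, map_pow, mul_assoc, ← mul_pow, ← key N χ d h2 h4]
    exact H N χ 𝒪 d h2 h3 h4 h5
  · have h2 := key Y (RingHom.id Y) (fun l => (E' l).toLinearMap.toAddMonoidHom)
      (fun l a b => (E' l).leibniz a b) fun l c => (E' l).map_algebraMap c
    rw [h0, map_zero, zero_mul] at h2
    have h3 : E' 0 (s 0) * E' 1 (s 1) - E' 0 (s 1) * E' 1 (s 0) = 0 := h2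
    simp [h1] at h3

theorem TVs_tb {P : Set Y} {s : Fin 2 → Y} (hs : IsTranscendenceBasis k s)
    (h : ∀ a, AlgQ k P a) : ∃ u : Fin 2 → Y, IsTranscendenceBasis k u ∧
      ∀ i, ∃ a ∈ P, ∃ b ∈ P, b ≠ 0 ∧ u i * b = a := by
  have : Algebra.IsAlgebraic (Algebra.adjoin k {u | ∃ h ∈ P, ∃ h' ∈ P, u = h / h'}) Y := ⟨h⟩
  obtain ⟨t, h1, h2⟩ := exists_isTranscendenceBasis_subset (R := k)
    {u | ∃ h ∈ P, ∃ h' ∈ P, u = h / h'}
  obtain ⟨e⟩ := Cardinal.eq.1 (hs.cardinalMk_eq h2)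
  refine ⟨_, h2.comp_equiv e, fun i => ?_⟩
  obtain ⟨a, ha, b, hb, h3⟩ := h1 (e i).2
  have h4 : b ≠ 0 := fun h0 => h2.1.transcendental (e i) (by
    rw [h3, h0, div_zero]
    exact isAlgebraic_zero)
  exact ⟨a, ha, b, hb, h4, (congrArg (· * b) h3).trans (div_mul_cancel₀ a h4)⟩

theorem TVq.gen [CharZero k] {P : Set Y} {s : Fin 2 → Y} (hs : IsTranscendenceBasis k s) {m : ℕ}
    (hP : ∀ h ∈ P, TVq k s m h) (h : ∀ a, AlgQ k P a) : ∃ (u : Fin 2 → Y) (m' : ℕ) (h : Y),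
      IsTranscendenceBasis k u ∧ h ≠ 0 ∧ TVq k u m' h ∧ TVq k u m' (u 0 * h) ∧
        TVq k u m' (u 1 * h) := by
  obtain ⟨u, hu, h1⟩ := TVs_tb hs h
  obtain ⟨a, ha, b, hb, b0, e⟩ := h1 0
  obtain ⟨a', ha', b', hb', b0', e'⟩ := h1 1
  obtain ⟨J, J0, hJ⟩ := TVq.chg hs hu
  refine ⟨u, m + m, b * b' * J ^ (m + m), hu, mul_ne_zero (mul_ne_zero b0 b0') (pow_ne_zero _ J0),
    hJ _ _ ((hP b hb).mul (hP b' hb')), ?_, ?_⟩
  · rw [← mul_assoc, ← mul_assoc, e]
    exact hJ _ _ ((hP a ha).mul (hP b' hb'))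
  · rw [← mul_assoc, mul_left_comm, e']
    exact hJ _ _ ((hP b hb).mul (hP a' ha'))

end

variable {Y : Sch k} [IsIntegral Y.left] [IsProper Y.hom] [Smooth Y.hom]

theorem TVs_exp {N : Type} [Field N] (χ : Fn Y →+* N) (𝒪 : ValuationSubring N)
    (hK : ∀ c, χ (algebraMap k (Fn Y) c) ∈ 𝒪) : ∃ (c : Y.left) (r : ℕ) (D : Fin r → Dr Y)
      (b : Fin r → Fn Y), (∀ a ∈ O Y c, χ a ∈ 𝒪) ∧ (∀ i, RegAt (D i) c) ∧ (∀ i, b i ∈ O Y c) ∧
      ∀ d : Fn Y →+ N, (∀ a b, d (a * b) = χ a * d b + χ b * d a) →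
        (∀ c, d (algebraMap k (Fn Y) c) = 0) → ∀ a, d a = ∑ i, χ (D i a) * d (b i) := by
  let _ : Algebra k N := (χ.comp (algebraMap k (Fn Y))).toAlgebra
  let χ' : Fn Y →ₐ[k] N := { χ with commutes' := fun _ => rfl }
  obtain ⟨c, hc⟩ := exists_cf χ' 𝒪 hK
  obtain ⟨r, D, hD, b, h1⟩ := dual_basis c
  refine ⟨c, r, D, fun i => b i, hc.mem, hD, fun i => (b i).2, fun d h2 h3 a => ?_⟩
  have h4 : ∀ a : O Y c, d a = ∑ i, χ (D i a) * d (b i) := fun a =>
    h1 N (χ'.comp (O Y c).val)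
      { toFun := fun a => d a
        map_add' := fun a b => d.map_add a b
        map_smul' := fun t a => by
          change d (t • (a : Fn Y)) = χ (algebraMap k (Fn Y) t) * d a
          rw [Algebra.smul_def, h2, h3, mul_zero, add_zero] } (fun u v => h2 u v) a
  obtain ⟨u, v, hv, rfl⟩ := IsFractionRing.div_surjective (A := O Y c) a
  have h0 : algebraMap (O Y c) (Fn Y) v ≠ 0 :=
    IsFractionRing.to_map_ne_zero_of_mem_nonZeroDivisors hv
  refine TVs_div χ d h2 D _ h0 ?_ (h4 v)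
  rw [mul_div_cancel₀ _ h0]
  exact h4 u

theorem tvq {s : Fin 2 → Fn Y} {m : ℕ} {h : Fn Y} (hh : h ∈ Pluri (O Y) s m) : TVq k s m h := by
  intro N _ χ 𝒪 d h1 h2 h3 h4
  obtain ⟨c, r, D, b, hm, hD, hb, h5⟩ := TVs_exp χ 𝒪 h2
  have h6 : (Matrix.of fun i l => d l (s i)).det = ∑ f : Fin 2 → Fin r,
      (∏ l, d l (b (f l))) * χ (Matrix.of fun i l => D (f l) (s i)).det := by
    have e : (Matrix.of fun i l => d l (s i)) =
        Matrix.of fun i l => ∑ j, χ (D j (s i)) * d l (b j) := by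
      ext i l
      exact h5 (d l) (h1 l) (h3 l) (s i)
    rw [e, TV_cb (fun i j => χ (D j (s i))) fun j l => d l (b j)]
    refine Finset.sum_congr rfl fun f _ => ?_
    rw [RingHom.map_det]
    rfl
  rw [Matrix.det_fin_two, mul_comm (Matrix.of _ 0 1)] at h6
  have h7 : d 0 (s 0) * d 1 (s 1) - d 0 (s 1) * d 1 (s 0) = _ := h6
  rw [h7]
  refine TV_det 𝒪 (fun f => prod_mem fun l _ => h4 l _ (hm _ (hb (f l)))) (fun f => ?_) fun _ => ?_
  · rw [← map_pow, ← map_mul]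
    exact hm _ (hh c (fun l => D (f l)) fun l => hD (f l))
  · have h8 := hm _ (hh c (fun _ => 0) fun _ _ _ => zero_mem _)
    have e : (Matrix.of fun (i : Fin 2) (_ : Fin 2) => (0 : Derivation k (Fn Y) (Fn Y)) (s i)) =
        0 := by
      ext i l
      rfl
    rwa [e, Matrix.det_zero, map_mul, map_pow, map_zero] at h8

open MvPolynomial in
theorem tvs [Infinite k] {s : Fin 2 → Fn Y} {e : ℕ} {a : Fin (e + 1) → Fn Y}
    (ha : a ∈ SymD (O Y) s e) : TVs k s e a := by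
  intro N _ χ 𝒪 d h1 h2 h3 h4
  obtain ⟨c, r, D, b, hm, hD, hb, h5⟩ := TVs_exp χ 𝒪 h2
  have h6 := TVs_coeff (O Y c).toSubmodule (∑ i, C (a i) * (∑ j, C (D j (s 0)) * X j) ^ (i : ℕ) *
    (∑ j, C (D j (s 1)) * X j) ^ (e - i) : MvPolynomial (Fin r) (Fn Y)) fun t => by
      have h7 : ∀ x, (∑ j, t j • D j) x = ∑ j, D j x * algebraMap k (Fn Y) (t j) := fun x => by
        have := congrFun (map_sum (Derivation.coeFnAddMonoidHom (R := k) (A := Fn Y) (M := Fn Y))
          (fun j => t j • D j) Finset.univ) x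
        rw [Finset.sum_apply] at this
        exact this.trans (Finset.sum_congr rfl fun j _ =>
          (Algebra.smul_def (t j) (D j x)).trans (mul_comm _ _))
      have h8 := ha c (∑ j, t j • D j) fun x hx => by
        rw [h7]
        exact sum_mem fun j _ => mul_mem (hD j x hx) (algebraMap_mem _ _)
      simp only [h7] at h8
      simp only [map_sum, map_mul, map_pow, eval_C, eval_X]
      exact h8
  have h7 : ∀ Q : MvPolynomial (Fin r) (Fn Y), (∀ m, Q.coeff m ∈ (O Y c).toSubmodule) →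
      eval₂Hom χ (fun j => d (b j)) Q ∈ 𝒪 := fun Q hQ => by
    rw [coe_eval₂Hom, eval₂_eq]
    exact sum_mem fun m _ => mul_mem (hm _ (hQ m)) (prod_mem fun j _ =>
      pow_mem (h4 _ (hm _ (hb j))) _)
  have h8 := h7 _ h6
  simp only [map_sum, map_mul, map_pow, eval₂Hom_C, eval₂Hom_X'] at h8
  rwa [← h5 d h1 h3, ← h5 d h1 h3] at h8

end Pool.Agent.Work.MP_e120ef_ag.H.MQ
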